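import Pool.Agent.Lib.MP_dd4ef3_lc.BE.Defs

set_option autoImplicit false

open Finset Classical

noncomputable section

namespace Pool.Agent.BE

lemma alg_z2 (x : ZMod 2) : x = 0 ∨ x = 1 := by revert x; decide

lemma alg_par_add (g g' : Gp) : par (g + g') = par g + par g' := by
  simp only [par, Prod.fst_add, Prod.snd_add, Int.cast_add]; ring

lemma alg_par_list {A0 : Set Gp} (hparA : ∀ a ∈ A0, par a = 0) (ls : List Gp)
    (h : ∀ a ∈ ls, a ∈ A0) : par ls.sum = 0 := by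
  induction ls with
  | nil => simp [par]
  | cons a t ih =>
    rw [List.sum_cons, alg_par_add, hparA a (h a (by simp)), ih (fun b hb => h b (by simp [hb]))]
    simp

lemma alg_even {g : Gp} (h : par g = 0) (h2 : g.2 = 0) : Even g.1 := by
  unfold par at h
  rw [h2] at h
  simp only [Prod.fst_zero, Prod.snd_zero, add_zero] at h
  exact (ZMod.intCast_eq_zero_iff_even).1 h

lemma alg_step_refl (g : Gp) : Step g g := ⟨.X, .X, rfl⟩

lemma alg_step_add {g g' : Gp} (h : Step g g') (r : Gp) : Step (g + r) (g' + r) := by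
  obtain ⟨K, K', e⟩ := h
  exact ⟨K, K', by rw [add_right_comm, e, add_right_comm]⟩

lemma alg_bsg_sum {V : Type} (sg : Bool) (Z : Finset V) (f : V → Gp) :
    ∑ z ∈ Z, bsg sg (f z) = bsg sg (∑ z ∈ Z, f z) := by
  cases sg <;> simp [bsg, Prod.fst_sum]

lemma alg_two {A0 : Set Gp} (hparA : ∀ a ∈ A0, par a = 0) {sg : Bool} (h : UU sg A0) :
    ∃ ls : List Gp, ls.length ≤ 2 ∧ (∀ a ∈ ls, a ∈ A0) ∧ ls.sum.2 = 0 ∧ bsg sg ls.sum = 2 := by
  obtain ⟨⟨b, x, y⟩, ha, h | ⟨h, h'⟩⟩ := h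
  · refine ⟨[(b, x, y), (b, x, y)], by simp, by simpa using ha, ?_, ?_⟩
    · rcases alg_z2 x with rfl | rfl <;> rcases alg_z2 y with rfl | rfl <;> simp <;> decide
    · cases sg <;> simp [bsg] at h ⊢ <;> omega
  · have hp := hparA _ ha
    have hb : (b : ZMod 2) = 0 := by
      rw [ZMod.intCast_eq_zero_iff_even]
      cases sg <;> simp [bsg] at h
      · exact ⟨-1, by omega⟩
      · exact ⟨1, by omega⟩
    simp only [par, hb, zero_add] at hp
    by_cases h0 : ((x, y) : ZMod 2 × ZMod 2) = 0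
    · exact ⟨[(b, x, y)], by simp, by simpa using ha, by simpa using h0, by simpa using h⟩
    · have ht : tcls ∈ A0 := h'.resolve_left h0
      refine ⟨[(b, x, y), tcls], by simp, by simp [ha, ht], ?_, ?_⟩
      · revert hp h0
        rcases alg_z2 x with rfl | rfl <;> rcases alg_z2 y with rfl | rfl <;> simp [tcls] <;> decide
      · cases sg <;> simpa [bsg, tcls] using h

lemma alg_rep {A0 : Set Gp} (ls : List Gp) (h : ∀ a ∈ ls, a ∈ A0) (m : ℕ) :
    ∃ l' : List Gp, l'.length = m * ls.length ∧ (∀ a ∈ l', a ∈ A0) ∧ l'.sum = m • ls.sum := by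
  induction m with
  | zero => exact ⟨[], by simp, by simp, by simp⟩
  | succ m ih =>
    obtain ⟨l', h1, h2, h3⟩ := ih
    refine ⟨l' ++ ls, by simp [h1, add_mul], ?_, by rw [List.sum_append, h3, succ_nsmul]⟩
    intro a ha
    rcases List.mem_append.1 ha with ha | ha
    · exact h2 a ha
    · exact h a ha

section
variable {V : Type} [DecidableEq V] {Z : Finset V}

lemma alg_upd (f : V → Gp) {a : V} (ha : a ∈ Z) (g : Gp) :
    ∑ z ∈ Z, Function.update f a g z + f a = ∑ z ∈ Z, f z + g := by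
  have h1 := Finset.sum_update_of_mem ha f g
  have h2 := Finset.sum_update_of_mem ha f (f a)
  rw [Function.update_eq_self] at h2
  rw [h1, h2]; abel

lemma alg_sel_upd {O : V → Gp → Prop} {f : V → Gp} {a : V} {g : Gp}
    (hf : ∀ z ∈ Z, z ≠ a → O z (f z)) (hg : O a g) : ∀ z ∈ Z, O z (Function.update f a g z) := by
  intro z hz
  by_cases e : z = a
  · subst e; simpa using hg
  · rw [Function.update_of_ne e]; exact hf z hz e

lemma alg_ivt (O' : V → Gp → Prop) (val : Gp → ℤ) (fp fm : V → Gp)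
    (hp : ∀ z ∈ Z, O' z (fp z)) (hm : ∀ z ∈ Z, O' z (fm z))
    (hc : ∀ z ∈ Z, ∃ g0, O' z g0 ∧ Step (fp z) g0 ∧ Step g0 (fm z))
    (hev : ∀ f : V → Gp, (∀ z ∈ Z, O' z (f z)) → Even (val (∑ z ∈ Z, f z)))
    (hst : ∀ r r', Step r r' → val r - 2 ≤ val r')
    (h0 : 0 ≤ val (∑ z ∈ Z, fp z)) (h1 : val (∑ z ∈ Z, fm z) ≤ 0) :
    ∃ f : V → Gp, (∀ z ∈ Z, O' z (f z)) ∧ val (∑ z ∈ Z, f z) = 0 := by
  by_contra hne
  push Not at hne
  have up : ∀ (f : V → Gp) (a : V) (g : Gp), (∀ z ∈ Z, O' z (f z)) → a ∈ Z → O' a g →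
      Step (f a) g → 0 < val (∑ z ∈ Z, f z) → 0 < val (∑ z ∈ Z, Function.update f a g z) := by
    intro f a g hf ha hg hs hpos
    have hsel := alg_sel_upd (fun z hz _ => hf z hz) hg
    have h2 := hne _ hsel
    obtain ⟨k, hk⟩ := hev f hf
    have h3 : Step (∑ z ∈ Z, f z) (∑ z ∈ Z, Function.update f a g z) := by
      have e1 := Finset.sum_update_of_mem ha f g
      have e2 := Finset.sum_update_of_mem ha f (f a)
      rw [Function.update_eq_self] at e2
      rw [e1, e2]; exact alg_step_add hs _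
    have := hst _ _ h3
    omega
  have key : ∀ T : Finset V, T ⊆ Z →
      0 < val (∑ z ∈ Z, (if z ∈ T then fm z else fp z)) := by
    intro T
    induction T using Finset.induction_on with
    | empty =>
      intro _
      have := hne fp hp
      simp only [notMem_empty, if_false]; omega
    | insert a T ha ih =>
      intro hT
      have haZ : a ∈ Z := hT (mem_insert_self _ _)
      have h2 := ih ((subset_insert _ _).trans hT)
      obtain ⟨g0, hg0, s1, s2⟩ := hc a haZ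
      have hsel : ∀ z ∈ Z, O' z (if z ∈ T then fm z else fp z) := by
        intro z hz; split_ifs
        · exact hm z hz
        · exact hp z hz
      have h3 := up _ a g0 hsel haZ hg0 (by simpa [ha] using s1) h2
      have h4 := up _ a (fm a) (alg_sel_upd (fun z hz _ => hsel z hz) hg0) haZ (hm a haZ)
        (by simpa using s2) h3
      rw [Function.update_idem] at h4
      have e : (fun z => if z ∈ insert a T then fm z else fp z) =
          Function.update (fun z => if z ∈ T then fm z else fp z) a (fm a) := by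
        funext z
        by_cases e : z = a
        · subst e; simp
        · rw [Function.update_of_ne e]; simp [e]
      have e' : ∑ z ∈ Z, (if z ∈ insert a T then fm z else fp z) =
          ∑ z ∈ Z, Function.update (fun z => if z ∈ T then fm z else fp z) a (fm a) z := by
        rw [← e]
      rw [e']; exact h4
  have h5 := key Z Subset.rfl
  have h6 : ∑ z ∈ Z, (if z ∈ Z then fm z else fp z) = ∑ z ∈ Z, fm z :=
    sum_congr rfl (fun z hz => if_pos hz)
  rw [h6] at h5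
  omega

/-- result of a toggle mode: fix `Q` at a loss of at most `c` -/
def ModeA (Z : Finset V) (O O2 : V → Gp → Prop) (sm : Bool) (Q : ZMod 2 × ZMod 2 → Prop) (c : ℤ) :
    Prop :=
  ∀ (sg : Bool) (f : V → Gp), (∀ z ∈ Z, O2 z (f z)) → ∃ f'' : V → Gp, (∀ z ∈ Z, O z (f'' z)) ∧
    Q (∑ z ∈ Z, f'' z).2 ∧ (sm = false → bsg sg (∑ z ∈ Z, f z) - c ≤ bsg sg (∑ z ∈ Z, f'' z))

/-- result of a toggle mode: exact balance -/
def ModeB (Z : Finset V) (O O2 : V → Gp → Prop) (Q : ZMod 2 × ZMod 2 → Prop) : Prop :=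
  (∀ f : V → Gp, (∀ z ∈ Z, O z (f z)) → Q (∑ z ∈ Z, f z).2 → Even (∑ z ∈ Z, f z).1) →
  (∀ sg, ∃ f : V → Gp, (∀ z ∈ Z, O2 z (f z)) ∧ 1 ≤ bsg sg (∑ z ∈ Z, f z)) →
  ∃ f : V → Gp, (∀ z ∈ Z, O z (f z)) ∧ Q (∑ z ∈ Z, f z).2 ∧ (∑ z ∈ Z, f z).1 = 0

lemma alg_modeB {O O2 : V → Gp → Prop} {Q : ZMod 2 × ZMod 2 → Prop}
    (hchain : ∀ z g g', O2 z g → O2 z g' → ∃ g0, O z g0 ∧ Step g g0 ∧ Step g0 g')
    (O' : V → Gp → Prop) (corr : Gp → Gp) (tv : V → Prop)
    (hO' : ∀ z g, ¬ tv z → O z g → O' z g)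
    (htv : ∀ z g g', tv z → O' z g → O' z g' → Step g g')
    (hreal : ∀ f' : V → Gp, (∀ z ∈ Z, O' z (f' z)) → ∃ f : V → Gp, (∀ z ∈ Z, O z (f z)) ∧
      ∑ z ∈ Z, f z = ∑ z ∈ Z, f' z + corr (∑ z ∈ Z, f' z))
    (hQ : ∀ r, Q (r + corr r).2)
    (hst : ∀ r r', Step r r' → (r + corr r).1 - 2 ≤ (r' + corr r').1)
    (hlift : ∀ (sg : Bool) (f : V → Gp), (∀ z ∈ Z, O2 z (f z)) → ∃ f' : V → Gp,
      (∀ z ∈ Z, O' z (f' z)) ∧ (∀ z, ¬ tv z → f' z = f z) ∧ ∃ f'' : V → Gp,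
        (∀ z ∈ Z, O z (f'' z)) ∧ Q (∑ z ∈ Z, f'' z).2 ∧
        bsg sg (∑ z ∈ Z, f z) - 2 ≤ bsg sg (∑ z ∈ Z, f'' z) ∧
        bsg sg (∑ z ∈ Z, f'' z) ≤ bsg sg (∑ z ∈ Z, f' z + corr (∑ z ∈ Z, f' z)) + 2) :
    ModeB Z O O2 Q := by
  intro hev hex
  obtain ⟨fp, hp, hp'⟩ := hex true
  obtain ⟨fm, hm, hm'⟩ := hex false
  obtain ⟨gp, a1, a2, gp', a3, a4, a5, a6⟩ := hlift true fp hp
  obtain ⟨gm, b1, b2, gm', b3, b4, b5, b6⟩ := hlift false fm hm
  by_cases c1 : (∑ z ∈ Z, gp' z).1 = 0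
  · exact ⟨gp', a3, a4, c1⟩
  by_cases c2 : (∑ z ∈ Z, gm' z).1 = 0
  · exact ⟨gm', b3, b4, c2⟩
  obtain ⟨k1, hk1⟩ := hev gp' a3 a4
  obtain ⟨k2, hk2⟩ := hev gm' b3 b4
  simp only [bsg, if_true, Bool.false_eq_true, if_false] at hp' hm' a5 a6 b5 b6
  obtain ⟨f', h1, h2⟩ := alg_ivt O' (fun r => (r + corr r).1) gp gm a1 b1
    (fun z hz => by
      by_cases ht : tv z
      · exact ⟨gm z, b1 z hz, htv z _ _ ht (a1 z hz) (b1 z hz), alg_step_refl _⟩
      · obtain ⟨g0, e1, e2, e3⟩ := hchain z _ _ (hp z hz) (hm z hz)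
        exact ⟨g0, hO' z g0 ht e1, by rw [a2 z ht]; exact e2, by rw [b2 z ht]; exact e3⟩)
    (fun f' hf' => by
      obtain ⟨f, e1, e2⟩ := hreal f' hf'
      have := hev f e1 (by rw [e2]; exact hQ _)
      rwa [e2] at this)
    hst (by omega) (by omega)
  obtain ⟨f, e1, e2⟩ := hreal f' h1
  exact ⟨f, e1, by rw [e2]; exact hQ _, by rw [e2]; exact h2⟩

lemma alg_lv (sg : Bool) (K : Node) : -1 ≤ bsg sg (cls K) ∧ bsg sg (cls K) ≤ 1 := by
  cases sg <;> cases K <;> simp [bsg, cls]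

omit [DecidableEq V] in
lemma alg_mode0A {O O2 : V → Gp → Prop} (hO : ∀ z g, O2 z g → O z g) (sm : Bool) :
    ModeA Z O O2 sm (fun _ => True) 0 :=
  fun _ f hf => ⟨f, fun z hz => hO _ _ (hf z hz), trivial, fun _ => by simp⟩

lemma alg_mode0B {O O2 : V → Gp → Prop} (hO : ∀ z g, O2 z g → O z g)
    (hchain : ∀ z g g', O2 z g → O2 z g' → ∃ g0, O z g0 ∧ Step g g0 ∧ Step g0 g') :
    ModeB Z O O2 (fun _ => True) := by
  refine alg_modeB hchain O (fun _ => 0) (fun _ => False) (fun _ _ _ h => h)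
    (fun _ _ _ h => h.elim) (fun f' hf' => ⟨f', hf', by simp⟩) (fun _ => trivial) ?_
    (fun sg f hf => ⟨f, fun z hz => hO _ _ (hf z hz), fun _ _ => rfl, f,
      fun z hz => hO _ _ (hf z hz), trivial, by simp, by simp⟩)
  rintro r r' ⟨K, K', e⟩
  have h1 := congrArg Prod.fst e
  have h2 := alg_lv true K
  have h3 := alg_lv true K'
  simp only [bsg, if_true, Prod.fst_add, add_zero] at h1 h2 h3 ⊢
  omega

/-- the parity functional of a single toggle -/
def algLam (i u : Bool) (p : ZMod 2 × ZMod 2) : ZMod 2 :=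
  if u then p.1 + p.2 else if i then p.2 else p.1

lemma algLam_add (i u : Bool) (p q : ZMod 2 × ZMod 2) :
    algLam i u (p + q) = algLam i u p + algLam i u q := by
  cases i <;> cases u <;> simp [algLam] <;> ring

lemma algLam_Z (i u : Bool) : algLam i u (cls (Zof i)).2 = 1 := by
  cases i <;> cases u <;> simp [algLam, cls, Zof]

lemma algLam_L (sm i u : Bool) : algLam i u (cls (Lof sm i)).2 = 0 := by
  cases sm <;> cases i <;> cases u <;> simp [algLam, cls, Lof, mir]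

lemma algLam_one {i u : Bool} {K : Node} (h : algLam i u (cls K).2 = 1) : (cls K).1 = 0 := by
  cases K <;> cases i <;> cases u <;> simp [algLam, cls] at h ⊢

lemma alg_Z1 (i : Bool) : (cls (Zof i)).1 = 0 := by cases i <;> simp [cls, Zof]

lemma alg_bsg_add (sg : Bool) (g g' : Gp) : bsg sg (g + g') = bsg sg g + bsg sg g' := by
  cases sg <;> simp [bsg] <;> ring

lemma alg_bsg_zero {sg : Bool} {g : Gp} (h : g.1 = 0) : bsg sg g = 0 := by
  cases sg <;> simp [bsg, h]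

lemma alg_mode1A {O O2 : V → Gp → Prop} (hO : ∀ z g, O2 z g → O z g) (sm i u : Bool) {w : V}
    (hw : w ∈ Z) (h : One sm i O O2 w) : ModeA Z O O2 sm (fun p => algLam i u p = 0) 1 := by
  intro sg f hf
  rcases alg_z2 (algLam i u (∑ z ∈ Z, f z).2) with h0 | h0
  · exact ⟨f, fun z hz => hO _ _ (hf z hz), h0, fun _ => by simp⟩
  obtain ⟨K1, K2, e, hL, hZ⟩ := h _ (hf w hw)
  have key : ∀ A : Node, ∑ z ∈ Z, Function.update f w (cls A + cls K2) z + cls K1 =
      ∑ z ∈ Z, f z + cls A := by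
    intro A
    have := alg_upd f hw (cls A + cls K2)
    rw [e, ← add_assoc, ← add_assoc] at this
    exact add_right_cancel this
  rcases alg_z2 (algLam i u (cls K1).2) with h1 | h1
  · refine ⟨_, alg_sel_upd (fun z hz _ => hO _ _ (hf z hz)) hZ, ?_, fun _ => ?_⟩
    · have := congrArg (fun g : Gp => algLam i u g.2) (key (Zof i))
      simp only [Prod.snd_add, algLam_add, h0, h1, algLam_Z, add_zero] at this
      exact this.trans (by decide)
    · have := congrArg (bsg sg) (key (Zof i))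
      rw [alg_bsg_add, alg_bsg_add, alg_bsg_zero (alg_Z1 i)] at this
      have := alg_lv sg K1
      omega
  · refine ⟨_, alg_sel_upd (fun z hz _ => hO _ _ (hf z hz)) hL, ?_, fun _ => ?_⟩
    · have := congrArg (fun g : Gp => algLam i u g.2) (key (Lof sm i))
      simp only [Prod.snd_add, algLam_add, h0, h1, algLam_L, add_zero] at this
      exact add_eq_right.1 this
    · have := congrArg (bsg sg) (key (Lof sm i))
      rw [alg_bsg_add, alg_bsg_add, alg_bsg_zero (algLam_one h1)] at this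
      have := alg_lv sg (Lof sm i)
      omega

lemma alg_mode1B {O O2 : V → Gp → Prop} (hO : ∀ z g, O2 z g → O z g)
    (hchain : ∀ z g g', O2 z g → O2 z g' → ∃ g0, O z g0 ∧ Step g g0 ∧ Step g0 g')
    (sm i u : Bool) {w : V} (hw : w ∈ Z) (h : One sm i O O2 w) :
    ModeB Z O O2 (fun p => algLam i u p = 0) := by
  set corr : Gp → Gp := fun r => if algLam i u r.2 = 1 then cls (Zof i) else cls (Lof sm i)
    with hcorr
  set O' : V → Gp → Prop := fun z g => if z = w then ∃ K, g = cls K ∧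
    O w (cls (Lof sm i) + cls K) ∧ O w (cls (Zof i) + cls K) else O z g with hO'
  have hreal : ∀ f' : V → Gp, (∀ z ∈ Z, O' z (f' z)) → ∃ f : V → Gp, (∀ z ∈ Z, O z (f z)) ∧
      ∑ z ∈ Z, f z = ∑ z ∈ Z, f' z + corr (∑ z ∈ Z, f' z) := by
    intro f' hf'
    have h1 := hf' w hw
    simp only [hO', if_true] at h1
    obtain ⟨K, e, hL, hZ⟩ := h1
    refine ⟨Function.update f' w (corr (∑ z ∈ Z, f' z) + cls K), alg_sel_upd (fun z hz hne => ?_) ?_,
      ?_⟩
    · have := hf' z hz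
      simpa only [hO', if_neg hne] using this
    · simp only [hcorr]; split_ifs
      · exact hZ
      · exact hL
    · have := alg_upd f' hw (corr (∑ z ∈ Z, f' z) + cls K)
      rw [e, ← add_assoc] at this
      exact add_right_cancel this
  have hQ : ∀ r : Gp, algLam i u (r + corr r).2 = 0 := by
    intro r
    simp only [hcorr, Prod.snd_add, algLam_add]
    split_ifs with h1
    · rw [h1, algLam_Z]; decide
    · rw [algLam_L, (alg_z2 _).resolve_right h1]; simp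
  have hcb : ∀ (sg : Bool) (r : Gp), -1 ≤ bsg sg (corr r) ∧ bsg sg (corr r) ≤ 1 := by
    intro sg r
    simp only [hcorr]; split_ifs <;> exact alg_lv _ _
  refine alg_modeB hchain O' corr (fun z => z = w) (fun z g hz hg => by simpa [hO', hz] using hg)
    ?_ hreal hQ ?_ ?_
  · rintro z g g' rfl h1 h2
    simp only [hO', if_true] at h1 h2
    obtain ⟨K, rfl, _⟩ := h1
    obtain ⟨K', rfl, _⟩ := h2
    exact ⟨K, K', add_comm _ _⟩
  · rintro r r' ⟨K, K', e⟩
    have e1 := congrArg Prod.fst e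
    have e2 := congrArg (fun g : Gp => algLam i u g.2) e
    simp only [Prod.snd_add, algLam_add, Prod.fst_add] at e1 e2 ⊢
    have b1 := alg_lv true K
    have b2 := alg_lv true K'
    have b3 := alg_lv true (Lof sm i)
    have b4 := alg_Z1 i
    simp only [bsg, if_true] at b1 b2 b3
    simp only [hcorr]
    rcases alg_z2 (algLam i u (cls K).2) with k1 | k1 <;>
      rcases alg_z2 (algLam i u (cls K').2) with k2 | k2
    · rw [k1, k2, add_zero, add_zero] at e2; rw [e2]; omega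
    · have := algLam_one k2; split_ifs <;> omega
    · have := algLam_one k1; split_ifs <;> omega
    · rw [k1, k2, add_left_inj] at e2; rw [e2]; omega
  · intro sg f hf
    obtain ⟨K1, K2, e, hL, hZ⟩ := h _ (hf w hw)
    have hsel : ∀ z ∈ Z, O' z (Function.update f w (cls K2) z) :=
      alg_sel_upd (fun z hz hne => by simpa only [hO', if_neg hne] using hO _ _ (hf z hz))
        (by simp only [hO', if_true]; exact ⟨K2, rfl, hL, hZ⟩)
    obtain ⟨f'', e1, e2⟩ := hreal _ hsel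
    refine ⟨_, hsel, fun z hz => Function.update_of_ne hz _ _, f'', e1, by rw [e2]; exact hQ _, ?_,
      by rw [e2]; omega⟩
    have h1 := alg_upd f hw (cls K2)
    have h2 := congrArg (bsg sg) h1
    rw [e, alg_bsg_add, alg_bsg_add, alg_bsg_add] at h2
    rw [e2, alg_bsg_add]
    have h3 := alg_lv sg K1
    have h4 := hcb sg (∑ z ∈ Z, Function.update f w (cls K2) z)
    omega

/-- the pure rule for two toggles -/
def algCorr (sm : Bool) (r : Gp) : Gp :=
  cls (if r.2.1 = 1 then .Z1 else Lof sm false) + cls (if r.2.2 = 1 then .Z2 else Lof sm true)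

lemma algCorr_Q (sm : Bool) (r : Gp) : (r + algCorr sm r).2 = 0 := by
  obtain ⟨b, x, y⟩ := r
  rcases alg_z2 x with rfl | rfl <;> rcases alg_z2 y with rfl | rfl <;> cases sm <;>
    simp [algCorr, cls, Lof, mir] <;> decide

lemma algCorr_step (r r' : Gp) (h : Step r r') :
    (r + algCorr false r).1 - 2 ≤ (r' + algCorr false r').1 := by
  obtain ⟨K, K', e⟩ := h
  obtain ⟨b, x, y⟩ := r
  obtain ⟨b', x', y'⟩ := r'
  have h01 : (0 : ZMod 2) ≠ 1 := by decide
  have h11 : (1 : ZMod 2) + 1 = 0 := by decide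
  rcases alg_z2 x with rfl | rfl <;> rcases alg_z2 y with rfl | rfl <;>
    rcases alg_z2 x' with rfl | rfl <;> rcases alg_z2 y' with rfl | rfl <;>
    cases K <;> cases K' <;>
    simp [algCorr, cls, Lof, mir, h01, h11, h01.symm] at e ⊢ <;> omega

lemma alg_modeAB {O O2 : V → Gp → Prop} {sm : Bool}
    (hchain : ∀ z g g', O2 z g → O2 z g' → ∃ g0, O z g0 ∧ Step g g0 ∧ Step g0 g')
    (O' : V → Gp → Prop) (tv : V → Prop)
    (hO' : ∀ z g, ¬ tv z → O z g → O' z g)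
    (htv : ∀ z g g', tv z → O' z g → O' z g' → Step g g')
    (hreal : ∀ f' : V → Gp, (∀ z ∈ Z, O' z (f' z)) → ∃ f : V → Gp, (∀ z ∈ Z, O z (f z)) ∧
      ∑ z ∈ Z, f z = ∑ z ∈ Z, f' z + algCorr sm (∑ z ∈ Z, f' z))
    (hlift : ∀ (sg : Bool) (f : V → Gp), (∀ z ∈ Z, O2 z (f z)) → ∃ f' : V → Gp,
      (∀ z ∈ Z, O' z (f' z)) ∧ (∀ z, ¬ tv z → f' z = f z) ∧ ∃ f'' : V → Gp,
        (∀ z ∈ Z, O z (f'' z)) ∧ (∑ z ∈ Z, f'' z).2 = 0 ∧ (sm = false →
        bsg sg (∑ z ∈ Z, f z) - 2 ≤ bsg sg (∑ z ∈ Z, f'' z) ∧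
        bsg sg (∑ z ∈ Z, f'' z) ≤ bsg sg (∑ z ∈ Z, f' z + algCorr sm (∑ z ∈ Z, f' z)) + 2)) :
    ModeA Z O O2 sm (fun p => p = 0) 2 ∧ (sm = false → ModeB Z O O2 (fun p => p = 0)) := by
  refine ⟨fun sg f hf => ?_, fun hsm => ?_⟩
  · obtain ⟨_, _, _, f'', h1, h2, h3⟩ := hlift sg f hf
    exact ⟨f'', h1, h2, fun h => (h3 h).1⟩
  · subst hsm
    refine alg_modeB hchain O' (algCorr false) tv hO' htv hreal (algCorr_Q false) algCorr_step
      (fun sg f hf => ?_)
    obtain ⟨f', a1, a2, f'', h1, h2, h3⟩ := hlift sg f hf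
    exact ⟨f', a1, a2, f'', h1, h2, (h3 rfl).1, (h3 rfl).2⟩

lemma alg_slot {O : Gp → Prop} (sm i sg : Bool) (x : ZMod 2) {K1 K2 : Node}
    (h0 : O (cls K1 + cls K2)) (hL : O (cls (Lof sm i) + cls K2))
    (hZ : O (cls (Zof i) + cls K2)) :
    ∃ A : Node, O (cls A + cls K2) ∧
      (cls A).2 = (cls (if x = 1 then Zof i else Lof sm i)).2 ∧
      bsg sg (cls K1) - 1 ≤ bsg sg (cls A) ∧
      bsg sg (cls A) ≤ bsg sg (cls (if x = 1 then Zof i else Lof sm i)) + 1 -
        bsg sg (cls (Lof sm i)) := by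
  have b1 := alg_lv sg K1
  have b2 := alg_lv sg (Lof sm i)
  have b3 : bsg sg (cls (Zof i)) = 0 := alg_bsg_zero (alg_Z1 i)
  split_ifs with hx
  · exact ⟨_, hZ, rfl, by omega, by omega⟩
  · by_cases hk : bsg sg (cls K1) = 1
    · refine ⟨K1, h0, ?_, by omega, by omega⟩
      revert hk
      cases sm <;> cases i <;> cases sg <;> cases K1 <;> simp [bsg, cls, Lof, mir]
    · exact ⟨_, hL, rfl, by omega, by omega⟩

lemma alg_mode2a {O O2 : V → Gp → Prop} (hO : ∀ z g, O2 z g → O z g)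
    (hchain : ∀ z g g', O2 z g → O2 z g' → ∃ g0, O z g0 ∧ Step g g0 ∧ Step g0 g')
    (sm : Bool) {w1 w2 : V} (hw1 : w1 ∈ Z) (hw2 : w2 ∈ Z) (hne : w1 ≠ w2)
    (h1 : One sm false O O2 w1) (h2 : One sm true O O2 w2) :
    ModeA Z O O2 sm (fun p => p = 0) 2 ∧ (sm = false → ModeB Z O O2 (fun p => p = 0)) := by
  set O' : V → Gp → Prop := fun z g =>
    if z = w1 then ∃ K, g = cls K ∧ O w1 (cls (Lof sm false) + cls K) ∧ O w1 (cls .Z1 + cls K)
    else if z = w2 then ∃ K, g = cls K ∧ O w2 (cls (Lof sm true) + cls K) ∧ O w2 (cls .Z2 + cls K)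
    else O z g with hO'
  have build : ∀ (f' : V → Gp) (A B : Gp), (∀ z ∈ Z, z ≠ w1 → z ≠ w2 → O z (f' z)) →
      O w1 (A + f' w1) → O w2 (B + f' w2) → ∃ f : V → Gp, (∀ z ∈ Z, O z (f z)) ∧
      ∑ z ∈ Z, f z = ∑ z ∈ Z, f' z + (A + B) := by
    intro f' A B a1 a2 a3
    refine ⟨fun z => f' z + ((if z = w1 then A else 0) + (if z = w2 then B else 0)),
      fun z hz => ?_, ?_⟩
    · by_cases e1 : z = w1
      · subst e1; simpa [hne, add_comm] using a2
      by_cases e2 : z = w2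
      · subst e2; simpa [e1, add_comm] using a3
      · simpa [e1, e2] using a1 z hz e1 e2
    · simp [sum_add_distrib, hw1, hw2]
  have oth : ∀ f' : V → Gp, (∀ z ∈ Z, O' z (f' z)) → ∀ z ∈ Z, z ≠ w1 → z ≠ w2 → O z (f' z) := by
    intro f' hf' z hz e1 e2
    simpa only [hO', if_neg e1, if_neg e2] using hf' z hz
  refine alg_modeAB hchain O' (fun z => z = w1 ∨ z = w2) (fun z g hz hg => ?_) ?_ ?_ ?_
  · push Not at hz
    simpa only [hO', if_neg hz.1, if_neg hz.2] using hg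
  · rintro z g g' (rfl | rfl) a1 a2
    · simp only [hO', if_true] at a1 a2
      obtain ⟨K, rfl, _⟩ := a1
      obtain ⟨K', rfl, _⟩ := a2
      exact ⟨K, K', add_comm _ _⟩
    · simp only [hO', if_true, if_neg hne.symm] at a1 a2
      obtain ⟨K, rfl, _⟩ := a1
      obtain ⟨K', rfl, _⟩ := a2
      exact ⟨K, K', add_comm _ _⟩
  · intro f' hf'
    have a1 := hf' w1 hw1
    have a2 := hf' w2 hw2
    simp only [hO', if_true, if_neg hne.symm] at a1 a2
    obtain ⟨K, e, a1, a1'⟩ := a1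
    obtain ⟨K', e', a2, a2'⟩ := a2
    refine build f' _ _ (oth f' hf') ?_ ?_
    · rw [e]; split_ifs <;> assumption
    · rw [e']; split_ifs <;> assumption
  · intro sg f hf
    obtain ⟨K1, K2, e1, hL1, hZ1⟩ := h1 _ (hf w1 hw1)
    obtain ⟨K3, K4, e2, hL2, hZ2⟩ := h2 _ (hf w2 hw2)
    set f' : V → Gp := fun z => if z = w1 then cls K2 else if z = w2 then cls K4 else f z with hf'
    have v1 : f' w1 = cls K2 := by simp [hf']
    have v2 : f' w2 = cls K4 := by simp [hf', hne.symm]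
    have hsel : ∀ z ∈ Z, O' z (f' z) := by
      intro z hz
      by_cases c1 : z = w1
      · subst c1; simp only [hO', if_true]; exact ⟨K2, v1, hL1, hZ1⟩
      by_cases c2 : z = w2
      · subst c2; simp only [hO', if_true, if_neg c1]; exact ⟨K4, v2, hL2, hZ2⟩
      · simp only [hO', hf', if_neg c1, if_neg c2]; exact hO _ _ (hf z hz)
    have hs : ∑ z ∈ Z, f z = ∑ z ∈ Z, f' z + (cls K1 + cls K3) := by
      have : ∀ z ∈ Z, f z =
          f' z + ((if z = w1 then cls K1 else 0) + (if z = w2 then cls K3 else 0)) := by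
        intro z _
        by_cases c1 : z = w1
        · subst c1; simp [v1, e1, hne, add_comm]
        by_cases c2 : z = w2
        · subst c2; simp [v2, e2, c1, add_comm]
        · simp [hf', c1, c2]
      rw [sum_congr rfl this]
      simp [sum_add_distrib, hw1, hw2]
    obtain ⟨A, a1, a2, a3, a4⟩ := alg_slot (O := O w1) sm false sg (∑ z ∈ Z, f' z).2.1
      (e1 ▸ hO _ _ (hf w1 hw1)) hL1 hZ1
    obtain ⟨B, b1, b2, b3, b4⟩ := alg_slot (O := O w2) sm true sg (∑ z ∈ Z, f' z).2.2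
      (e2 ▸ hO _ _ (hf w2 hw2)) hL2 hZ2
    obtain ⟨f'', c1, c2⟩ := build f' (cls A) (cls B) (oth f' hsel) (by rwa [v1]) (by rwa [v2])
    refine ⟨f', hsel, fun z hz => ?_, f'', c1, ?_, fun hsm => ?_⟩
    · push Not at hz
      simp [hf', hz.1, hz.2]
    · rw [c2, ← algCorr_Q sm (∑ z ∈ Z, f' z)]
      simp only [Prod.snd_add, a2, b2, algCorr]
      rfl
    · subst hsm
      have d : bsg sg (cls (Lof false false)) + bsg sg (cls (Lof false true)) = 0 := by
        cases sg <;> simp [bsg, cls, Lof, mir]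
      rw [c2, hs]
      simp only [algCorr, alg_bsg_add]
      simp only [Zof, if_true, Bool.false_eq_true, if_false] at a4 b4
      omega

lemma alg_mode2b {O O2 : V → Gp → Prop} (hO : ∀ z g, O2 z g → O z g)
    (hchain : ∀ z g g', O2 z g → O2 z g' → ∃ g0, O z g0 ∧ Step g g0 ∧ Step g0 g')
    (sm : Bool) {w : V} (hw : w ∈ Z)
    (h1 : One sm false O O2 w) (h2 : One sm true O O2 w)
    (h3 : ∀ A B : Node, (A = Lof sm false ∨ A = .Z1) → (B = Lof sm true ∨ B = .Z2) →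
      O w (cls A + cls B)) :
    ModeA Z O O2 sm (fun p => p = 0) 2 ∧ (sm = false → ModeB Z O O2 (fun p => p = 0)) := by
  set O' : V → Gp → Prop := fun z g => if z = w then g = 0 else O z g with hO'
  have build : ∀ (f' : V → Gp) (A : Gp), (∀ z ∈ Z, O' z (f' z)) →
      O w A → ∃ f : V → Gp, (∀ z ∈ Z, O z (f z)) ∧ ∑ z ∈ Z, f z = ∑ z ∈ Z, f' z + A := by
    intro f' A a1 a2
    have a3 : f' w = 0 := by simpa only [hO', if_true] using a1 w hw
    refine ⟨Function.update f' w A, alg_sel_upd (fun z hz hne => ?_) a2, ?_⟩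
    · simpa only [hO', if_neg hne] using a1 z hz
    · have := alg_upd f' hw A
      rwa [a3, add_zero] at this
  have pure : ∀ r, O w (algCorr sm r) := by
    intro r
    refine h3 _ _ ?_ ?_ <;> split_ifs <;> simp
  refine alg_modeAB hchain O' (fun z => z = w) (fun z g hz hg => ?_) ?_
    (fun f' hf' => build f' _ hf' (pure _)) ?_
  · simpa only [hO', if_neg hz] using hg
  · rintro z g g' rfl a1 a2
    simp only [hO', if_true] at a1 a2
    rw [a1, a2]; exact alg_step_refl _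
  · intro sg f hf
    have hsel : ∀ z ∈ Z, O' z (Function.update f w 0 z) :=
      alg_sel_upd (fun z hz hne => by simpa only [hO', if_neg hne] using hO _ _ (hf z hz))
        (by simp only [hO', if_true])
    have hs := alg_upd f hw 0
    rw [add_zero] at hs
    set r := ∑ z ∈ Z, Function.update f w 0 z with hr
    refine ⟨_, hsel, fun z hz => Function.update_of_ne hz _ _, ?_⟩
    by_cases c : sm = false ∧ bsg sg (algCorr sm r) < bsg sg (f w) - 2
    · obtain ⟨rfl, c⟩ := c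
      obtain ⟨K1, K2, e, -, hZ⟩ : ∃ K1 K2 : Node, f w = cls K1 + cls K2 ∧
          O w (cls (Lof false (!sg)) + cls K2) ∧ O w (cls (Zof (!sg)) + cls K2) := by
        cases sg
        · exact h2 _ (hf w hw)
        · exact h1 _ (hf w hw)
      obtain ⟨f'', c1, c2⟩ := build _ _ hsel hZ
      have key : (cls (Zof (!sg)) + cls K2).2 = (algCorr false r).2 ∧
          bsg sg (f w) - 2 ≤ bsg sg (cls (Zof (!sg)) + cls K2) ∧
          bsg sg (cls (Zof (!sg)) + cls K2) ≤ bsg sg (algCorr false r) + 2 := by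
        rw [e] at c ⊢
        revert c
        unfold algCorr
        split_ifs <;> cases sg <;> cases K1 <;> cases K2 <;> simp [bsg, cls, Lof, Zof, mir]
      refine ⟨f'', c1, ?_, fun _ => ?_⟩
      · rw [c2, ← hr, Prod.snd_add, key.1, ← Prod.snd_add]; exact algCorr_Q _ _
      · rw [c2, ← hr, ← hs]
        simp only [alg_bsg_add] at key ⊢
        omega
    · obtain ⟨f'', c1, c2⟩ := build _ _ hsel (pure r)
      refine ⟨f'', c1, by rw [c2]; exact algCorr_Q _ _, fun hsm => ?_⟩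
      have c' : ¬ bsg sg (algCorr sm r) < bsg sg (f w) - 2 := fun h => c ⟨hsm, h⟩
      rw [c2, ← hr, ← hs]
      simp only [alg_bsg_add]
      omega


lemma alg_vfix {A0 : Set Gp} {sm i : Bool} {N : Prop} (hP : N ∨ VV sm i A0) (x : ZMod 2)
    (hx : N → x = 0) : ∃ l : List Gp, l.length ≤ 4 ∧ (∀ a ∈ l, a ∈ A0) ∧
      l.sum.2 = (if i then (0, x) else (x, 0)) ∧ (sm = false → -1 ≤ l.sum.1 ∧ l.sum.1 ≤ 1 ∧
        (¬ UU true A0 → ¬ UU false A0 → l.sum.1 = 0)) := by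
  rcases alg_z2 x with rfl | rfl
  · exact ⟨[], by simp, by simp, by cases i <;> rfl, by simp⟩
  · rcases hP with h | ⟨l, h1, h2, h3, h4⟩
    · exact absurd (hx h) (by decide)
    · refine ⟨l, h1, h2, by rw [h3]; cases i <;> rfl, fun hsm => ?_⟩
      rcases h4 with h4 | ⟨h4, a, ha, h5⟩
      · simp [hsm] at h4
      refine ⟨by omega, by omega, fun u1 u2 => ?_⟩
      rcases h4 with h4 | h4
      · exact absurd ⟨a, ha, Or.inl (by simp [bsg]; omega)⟩ u1
      · exact absurd ⟨a, ha, Or.inl (by simp [bsg]; omega)⟩ u2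

omit [DecidableEq V] in
lemma alg_assemble {O O2 : V → Gp → Prop} {A0 : Set Gp} {sm : Bool}
    (hex : ∀ z ∈ Z, ∃ g, O2 z g)
    (hbd : ∀ z g, O z g → -2 ≤ g.1 ∧ g.1 ≤ 2)
    (hpar : ∀ g : V → Gp, (∀ z ∈ Z, O z (g z)) → par (∑ z ∈ Z, g z) = 0)
    (hparA : ∀ a ∈ A0, par a = 0)
    (hU : sm = false → ∀ sg, UU sg A0 ∨
      ∃ g : V → Gp, (∀ z ∈ Z, O2 z (g z)) ∧ 1 ≤ ∑ z ∈ Z, bsg sg (g z))
    (Q : ZMod 2 × ZMod 2 → Prop) (c : ℤ) (hc : 0 ≤ c)
    (hA : ModeA Z O O2 sm Q c) (hB : sm = false → ModeB Z O O2 Q)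
    (post : ∀ f : V → Gp, (∀ z ∈ Z, O z (f z)) → Q (∑ z ∈ Z, f z).2 → ∃ l : List Gp,
      l.length ≤ 8 ∧ (∀ a ∈ l, a ∈ A0) ∧ (∑ z ∈ Z, f z + l.sum).2 = 0 ∧
      (sm = false → c - 2 ≤ l.sum.1 ∧ l.sum.1 ≤ 2 - c ∧
        (¬ UU true A0 → ¬ UU false A0 → l.sum.1 = 0))) :
    ∃ (g : V → Gp) (ls : List Gp), (∀ z ∈ Z, O z (g z)) ∧ (∀ a ∈ ls, a ∈ A0) ∧
      ls.length ≤ 2 * Z.card + 12 ∧ Balanced sm (∑ z ∈ Z, g z + ls.sum) := by
  have hf0 : ∃ f0 : V → Gp, ∀ z ∈ Z, O2 z (f0 z) := by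
    refine ⟨fun z => if h : z ∈ Z then (hex z h).choose else 0, fun z hz => ?_⟩
    simp only [dif_pos hz]; exact (hex z hz).choose_spec
  obtain ⟨f0, hf0⟩ := hf0
  have ev : ∀ (f : V → Gp) (l : List Gp), (∀ z ∈ Z, O z (f z)) → (∀ a ∈ l, a ∈ A0) →
      (∑ z ∈ Z, f z + l.sum).2 = 0 → Even (∑ z ∈ Z, f z + l.sum).1 := fun f l a1 a2 a3 =>
    alg_even (by rw [alg_par_add, hpar f a1, alg_par_list hparA l a2, add_zero]) a3
  cases sm with
  | true =>
    obtain ⟨f, a1, a2, -⟩ := hA true f0 hf0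
    obtain ⟨l, b1, b2, b3, -⟩ := post f a1 a2
    exact ⟨f, l, a1, b2, by omega, b3, Or.inl rfl⟩
  | false =>
  have fin : ∀ sg, UU (!sg) A0 → ∀ (f : V → Gp) (l : List Gp), (∀ z ∈ Z, O z (f z)) →
      l.length ≤ 8 → (∀ a ∈ l, a ∈ A0) → (∑ z ∈ Z, f z + l.sum).2 = 0 →
      -2 ≤ l.sum.1 → l.sum.1 ≤ 2 → -1 ≤ bsg sg (∑ z ∈ Z, f z + l.sum) →
      ∃ (g : V → Gp) (ls : List Gp), (∀ z ∈ Z, O z (g z)) ∧ (∀ a ∈ ls, a ∈ A0) ∧
        ls.length ≤ 2 * Z.card + 12 ∧ Balanced false (∑ z ∈ Z, g z + ls.sum) := by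
    intro sg hu f l a1 a2 a3 a4 a5 a6 a7
    obtain ⟨k, hk⟩ := ev f l a1 a3 a4
    obtain ⟨l2, b1, b2, b3, b4⟩ := alg_two hparA hu
    have s1 : (∑ z ∈ Z, f z).1 ≤ 2 * Z.card := by
      rw [Prod.fst_sum]
      have := Finset.sum_le_card_nsmul Z (fun z => (f z).1) 2 (fun z hz => (hbd z _ (a1 z hz)).2)
      rw [nsmul_eq_mul] at this; omega
    have s2 : -(2 * Z.card : ℤ) ≤ (∑ z ∈ Z, f z).1 := by
      rw [Prod.fst_sum]
      have := Finset.card_nsmul_le_sum Z (fun z => (f z).1) (-2)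
        (fun z hz => (hbd z _ (a1 z hz)).1)
      rw [nsmul_eq_mul] at this; omega
    obtain ⟨m, hm⟩ : ∃ m : ℕ, bsg sg (∑ z ∈ Z, f z + l.sum) = 2 * m := by
      refine ⟨(bsg sg (∑ z ∈ Z, f z + l.sum) / 2).toNat, ?_⟩
      cases sg <;> simp only [bsg, if_true, Bool.false_eq_true, if_false] at a7 ⊢ <;> omega
    have hm2 : m ≤ Z.card + 1 := by
      cases sg <;> simp only [bsg, if_true, Bool.false_eq_true, if_false, Prod.fst_add] at hm <;>
        omega
    obtain ⟨l3, c1, c2, c3⟩ := alg_rep l2 b2 m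
    refine ⟨f, l ++ l3, a1, fun a ha => (List.mem_append.1 ha).elim (a3 a) (c2 a), ?_, ?_,
      Or.inr ?_⟩
    · have := Nat.mul_le_mul_left m b1
      rw [List.length_append, c1]; omega
    · rw [List.sum_append, ← add_assoc, Prod.snd_add, a4, c3, Prod.smul_snd, b3]; simp
    · rw [List.sum_append, ← add_assoc, Prod.fst_add, c3, Prod.smul_fst, nsmul_eq_mul]
      cases sg
      · simp only [bsg, if_true, Bool.false_eq_true, if_false, Bool.not_false] at hm b4
        rw [b4]; omega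
      · simp only [bsg, if_true, Bool.false_eq_true, if_false, Bool.not_true] at hm b4
        have : l2.sum.1 = -2 := by omega
        rw [this]; omega
  have one : ∀ sg, ¬ UU sg A0 → UU (!sg) A0 →
      ∃ (g : V → Gp) (ls : List Gp), (∀ z ∈ Z, O z (g z)) ∧ (∀ a ∈ ls, a ∈ A0) ∧
        ls.length ≤ 2 * Z.card + 12 ∧ Balanced false (∑ z ∈ Z, g z + ls.sum) := by
    intro sg u1 u2
    obtain ⟨g, g1, g2⟩ := (hU rfl sg).resolve_left u1
    rw [alg_bsg_sum] at g2
    obtain ⟨f, a1, a2, a3⟩ := hA sg g g1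
    obtain ⟨l, b1, b2, b3, b4⟩ := post f a1 a2
    have a4 := a3 rfl
    obtain ⟨b5, b6, -⟩ := b4 rfl
    refine fin sg u2 f l a1 b1 b2 b3 (by omega) (by omega) ?_
    rw [alg_bsg_add]
    have : c - 2 ≤ bsg sg l.sum := by
      cases sg <;> simp only [bsg, if_true, Bool.false_eq_true, if_false] <;> omega
    omega
  by_cases u1 : UU true A0 <;> by_cases u2 : UU false A0
  · obtain ⟨f, a1, a2, -⟩ := hA true f0 hf0
    obtain ⟨l, b1, b2, b3, b4⟩ := post f a1 a2
    obtain ⟨b5, b6, -⟩ := b4 rfl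
    by_cases h0 : 0 ≤ (∑ z ∈ Z, f z + l.sum).1
    · exact fin true u2 f l a1 b1 b2 b3 (by omega) (by omega)
        (by simp only [bsg, if_true]; omega)
    · exact fin false u1 f l a1 b1 b2 b3 (by omega) (by omega)
        (by simp only [bsg, Bool.false_eq_true, if_false]; omega)
  · exact one false u2 u1
  · exact one true u1 u2
  · obtain ⟨f, a1, a2, a3⟩ := hB rfl (fun f a1 a2 => by
      obtain ⟨l, b1, b2, b3, b4⟩ := post f a1 a2
      have := ev f l a1 b2 b3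
      rwa [Prod.fst_add, (b4 rfl).2.2 u1 u2, add_zero] at this) (fun sg => by
      obtain ⟨g, g1, g2⟩ := (hU rfl sg).resolve_left (by cases sg <;> assumption)
      exact ⟨g, g1, by rwa [alg_bsg_sum] at g2⟩)
    obtain ⟨l, b1, b2, b3, b4⟩ := post f a1 a2
    exact ⟨f, l, a1, b2, by omega, b3,
      Or.inr (by rw [Prod.fst_add, a3, (b4 rfl).2.2 u1 u2, add_zero])⟩

end

theorem alg {V : Type} [DecidableEq V] (Z : Finset V) (O O2 : V → Gp → Prop) (A0 : Set Gp)
    (sm : Bool) (N : Bool → Prop)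
    (hO : ∀ z g, O2 z g → O z g)
    (hex : ∀ z ∈ Z, ∃ g, O2 z g)
    (hchain : ∀ z g g', O2 z g → O2 z g' → ∃ g0, O z g0 ∧ Step g g0 ∧ Step g0 g')
    (hbd : ∀ z g, O z g → -2 ≤ g.1 ∧ g.1 ≤ 2)
    (hpar : ∀ g : V → Gp, (∀ z ∈ Z, O z (g z)) → par (∑ z ∈ Z, g z) = 0)
    (hparA : ∀ a ∈ A0, par a = 0)
    (hN : ∀ i, N i → ∀ z g, O z g → piOf i g = 0)
    (hU : sm = false → ∀ sg, UU sg A0 ∨
      ∃ g : V → Gp, (∀ z ∈ Z, O2 z (g z)) ∧ 1 ≤ ∑ z ∈ Z, bsg sg (g z))
    (h1 : ∀ i, N i ∨ VV sm i A0 ∨ ∃ w ∈ Z, One sm i O O2 w)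
    (h2 : N false ∨ N true ∨ VV sm false A0 ∨ VV sm true A0 ∨ tcls ∈ A0 ∨ Two sm O O2 Z) :
    ∃ (g : V → Gp) (ls : List Gp), (∀ z ∈ Z, O z (g z)) ∧ (∀ a ∈ ls, a ∈ A0) ∧
      ls.length ≤ 2 * Z.card + 12 ∧ Balanced sm (∑ z ∈ Z, g z + ls.sum) := by
  have n1 : ∀ f : V → Gp, (∀ z ∈ Z, O z (f z)) → N false → (∑ z ∈ Z, f z).2.1 = 0 := by
    intro f hf h
    rw [Prod.snd_sum, Prod.fst_sum]
    exact sum_eq_zero (fun z hz => hN false h z _ (hf z hz))
  have n2 : ∀ f : V → Gp, (∀ z ∈ Z, O z (f z)) → N true → (∑ z ∈ Z, f z).2.2 = 0 := by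
    intro f hf h
    rw [Prod.snd_sum, Prod.snd_sum]
    exact sum_eq_zero (fun z hz => hN true h z _ (hf z hz))
  have z2 : ∀ x : ZMod 2, x + x = 0 := by decide
  have R : ∀ i, ¬ (N i ∨ VV sm i A0) → ∃ w ∈ Z, One sm i O O2 w := fun i h =>
    (or_assoc.2 (h1 i)).resolve_left h
  by_cases p1 : N false ∨ VV sm false A0 <;> by_cases p2 : N true ∨ VV sm true A0
  · refine alg_assemble hex hbd hpar hparA hU _ 0 le_rfl (alg_mode0A hO sm)
      (fun _ => alg_mode0B hO hchain) (fun f hf _ => ?_)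
    obtain ⟨l1, a1, a2, a3, a4⟩ := alg_vfix p1 _ (n1 f hf)
    obtain ⟨l2, b1, b2, b3, b4⟩ := alg_vfix p2 _ (n2 f hf)
    refine ⟨l1 ++ l2, by rw [List.length_append]; omega,
      fun a ha => (List.mem_append.1 ha).elim (a2 a) (b2 a), ?_, fun hsm => ?_⟩
    · rw [List.sum_append, Prod.snd_add, Prod.snd_add, a3, b3]
      ext <;> simp [z2]
    · obtain ⟨a5, a6, a7⟩ := a4 hsm
      obtain ⟨b5, b6, b7⟩ := b4 hsm
      rw [List.sum_append, Prod.fst_add]
      exact ⟨by omega, by omega, fun u1 u2 => by rw [a7 u1 u2, b7 u1 u2]; rfl⟩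
  · obtain ⟨w, hw, h⟩ := R true p2
    refine alg_assemble hex hbd hpar hparA hU _ 1 (by norm_num) (alg_mode1A hO sm true false hw h)
      (fun _ => alg_mode1B hO hchain sm true false hw h) (fun f hf hq => ?_)
    obtain ⟨l1, a1, a2, a3, a4⟩ := alg_vfix p1 _ (n1 f hf)
    refine ⟨l1, by omega, a2, ?_, fun hsm => ?_⟩
    · have hq' : (∑ z ∈ Z, f z).2.2 = 0 := by simpa [algLam] using hq
      rw [Prod.snd_add, a3]
      ext <;> simp [z2, hq']
    · obtain ⟨a5, a6, a7⟩ := a4 hsm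
      exact ⟨by omega, by omega, a7⟩
  · obtain ⟨w, hw, h⟩ := R false p1
    refine alg_assemble hex hbd hpar hparA hU _ 1 (by norm_num) (alg_mode1A hO sm false false hw h)
      (fun _ => alg_mode1B hO hchain sm false false hw h) (fun f hf hq => ?_)
    obtain ⟨l1, a1, a2, a3, a4⟩ := alg_vfix p2 _ (n2 f hf)
    refine ⟨l1, by omega, a2, ?_, fun hsm => ?_⟩
    · have hq' : (∑ z ∈ Z, f z).2.1 = 0 := by simpa [algLam] using hq
      rw [Prod.snd_add, a3]
      ext <;> simp [z2, hq']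
    · obtain ⟨a5, a6, a7⟩ := a4 hsm
      exact ⟨by omega, by omega, a7⟩
  · have h3 : tcls ∈ A0 ∨ Two sm O O2 Z := by tauto
    have post2 : ∀ f : V → Gp, (∀ z ∈ Z, O z (f z)) → (∑ z ∈ Z, f z).2 = 0 → ∃ l : List Gp,
        l.length ≤ 8 ∧ (∀ a ∈ l, a ∈ A0) ∧ (∑ z ∈ Z, f z + l.sum).2 = 0 ∧
        (sm = false → (2 : ℤ) - 2 ≤ l.sum.1 ∧ l.sum.1 ≤ 2 - 2 ∧
          (¬ UU true A0 → ¬ UU false A0 → l.sum.1 = 0)) :=
      fun f _ hq => ⟨[], by simp, by simp, by simpa using hq, by simp⟩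
    rcases h3 with ht | ⟨w1, hw1, w2, hw2, hne, a1, a2⟩ | ⟨w, hw, a1, a2, a3⟩
    · obtain ⟨w, hw, h⟩ := R false p1
      refine alg_assemble hex hbd hpar hparA hU _ 1 (by norm_num) (alg_mode1A hO sm false true hw h)
        (fun _ => alg_mode1B hO hchain sm false true hw h) (fun f hf hq => ?_)
      have hq' : (∑ z ∈ Z, f z).2.1 + (∑ z ∈ Z, f z).2.2 = 0 := by simpa [algLam] using hq
      generalize ∑ z ∈ Z, f z = r at hq' ⊢
      obtain ⟨b, x, y⟩ := r
      rcases alg_z2 x with rfl | rfl <;> rcases alg_z2 y with rfl | rfl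
      · exact ⟨[], by simp, by simp, by simp, by simp⟩
      · exact absurd hq' (by simp)
      · exact absurd hq' (by simp)
      · exact ⟨[tcls], by simp, by simpa using ht, by simp [tcls, z2], by simp [tcls]⟩
    · obtain ⟨m1, m2⟩ := alg_mode2a hO hchain sm hw1 hw2 hne a1 a2
      exact alg_assemble hex hbd hpar hparA hU _ 2 (by norm_num) m1 m2 post2
    · obtain ⟨m1, m2⟩ := alg_mode2b hO hchain sm hw a1 a2 a3
      exact alg_assemble hex hbd hpar hparA hU _ 2 (by norm_num) m1 m2 post2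

end Pool.Agent.BE
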