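import Pool.Agent.Lib.MP_dd4ef3_lc.BE.S1a

set_option autoImplicit false

open Finset Classical Filter

noncomputable section

namespace Pool.Agent.BE

variable {I : ℕ → Inst}

/-- case B: every closed set is almost `μ`-invariant -/
def SelfMir (I : ℕ → Inst) : Prop := ∀ A : SSet I, Closed I A → ¬ BigX I A

/-- the class `j` of a partition -/
def cl {r : ℕ} (κ : ∀ i, Stub (Fin (I i).n) → Fin r) (j : Fin r) : SSet I :=
  fun i => univ.filter (fun s => κ i s = j)

/-- partition into atoms -/
structure Atoms (I : ℕ → Inst) (r : ℕ) (κ : ∀ i, Stub (Fin (I i).n) → Fin r) : Prop where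
  closed : ∀ j, Closed I (cl κ j)
  big : ∀ j, ¬ Null I (fun i => (cl κ j i).card)
  atom : ∀ A : SSet I, Closed I A → ∀ j,
    Null I (fun i => (cl κ j i ∩ A i).card) ∨ Null I (fun i => (cl κ j i \ A i).card)

private lemma Ba_card_swap {V C : Type} [Fintype V] [DecidableEq V] {G : Ctx V C} (F : PF G)
    (A : Finset (Stub V)) :
    (univ.filter (fun s => s ∉ A ∧ F.mu s ∈ A)).card ≤
      (univ.filter (fun s => s ∈ A ∧ F.mu s ∉ A)).card := by
  refine card_le_card_of_injOn F.mu ?_ ?_
  · intro s hs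
    simp only [coe_filter, mem_univ, true_and, Set.mem_ofPred_eq] at hs ⊢
    exact ⟨hs.2, by simpa using hs.1⟩
  · intro s _ t _ h
    exact F.mu_inj h

private lemma Ba_cross_le {V C : Type} [Fintype V] [DecidableEq V] {G : Ctx V C} (F : PF G)
    (A : Finset (Stub V)) :
    (univ.filter (fun p : Stub V × Stub V => p.1 ∈ A ∧ p.2 ∉ A ∧ F.adj p.1 p.2)).card ≤
      F.leak A + 2 * ((univ.filter (fun s => s ∉ A ∧ F.mu s ∈ A)).card * Fintype.card V) := by
  have h1 : (univ.filter (fun p : Stub V × Stub V => p.1 ∈ A ∧ p.2 ∉ A ∧ F.adj p.1 p.2)) ⊆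
      (univ.filter (fun p : Stub V × Stub V => p.1 ∈ A ∧ F.adj p.1 p.2 ∧ F.mu p.2 ∉ A)) ∪
        (univ : Finset (Stub V)) ×ˢ (univ.filter (fun s => s ∉ A ∧ F.mu s ∈ A)) := by
    intro p hp
    simp only [mem_filter, mem_univ, true_and, mem_union, mem_product] at hp ⊢
    by_cases h : F.mu p.2 ∈ A
    · exact Or.inr ⟨hp.2.1, h⟩
    · exact Or.inl ⟨hp.1, hp.2.2, h⟩
  have h2 := (card_le_card h1).trans (card_union_le _ _)
  rw [card_product, card_univ, card_stub] at h2
  unfold PF.leak
  refine h2.trans (le_of_eq ?_)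
  ring

private lemma Ba_half {V C : Type} [Fintype V] [DecidableEq V] {G : Ctx V C} (F : PF G)
    (A : Finset (Stub V)) (s : Stub V) :
    Fintype.card V ≤ 2 * ((A.filter (fun t => F.adj s t)).image Prod.fst).card +
      2 * (univ.filter (fun t => t ∉ A ∧ F.adj s t)).card := by
  have hd := deg_opt G s.1 (F.kept s)
  have h1 : (univ : Finset V) ⊆ ({s.1} ∪
      univ.filter (fun w => w ≠ s.1 ∧ some (G.c s.1 w) = F.kept s)) ∪
      ((A.filter (fun t => F.adj s t)).image Prod.fst ∪
        (univ.filter (fun t => t ∉ A ∧ F.adj s t)).image Prod.fst) := by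
    intro w _
    by_cases hw : w = s.1
    · exact mem_union_left _ (mem_union_left _ (mem_singleton.2 hw))
    by_cases hc : some (G.c s.1 w) = F.kept s
    · exact mem_union_left _ (mem_union_right _ (mem_filter.2 ⟨mem_univ _, hw, hc⟩))
    obtain ⟨b, hb⟩ := F.exists_avail w (G.c w s.1)
    have ha : F.adj s (w, b) := ⟨fun e => hw e.symm, hc, hb⟩
    refine mem_union_right _ ?_
    by_cases hA : (w, b) ∈ A
    · exact mem_union_left _ (mem_image.2 ⟨(w, b), mem_filter.2 ⟨hA, ha⟩, rfl⟩)
    · exact mem_union_right _ (mem_image.2 ⟨(w, b), mem_filter.2 ⟨mem_univ _, hA, ha⟩, rfl⟩)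
  have h2 := (card_le_card h1).trans (card_union_le _ _)
  have h3 := card_union_le ({s.1} : Finset V)
    (univ.filter (fun w => w ≠ s.1 ∧ some (G.c s.1 w) = F.kept s))
  have h4 := card_union_le ((A.filter (fun t => F.adj s t)).image Prod.fst)
    ((univ.filter (fun t => t ∉ A ∧ F.adj s t)).image Prod.fst)
  have h5 : ((univ.filter (fun t => t ∉ A ∧ F.adj s t)).image Prod.fst).card ≤
      (univ.filter (fun t => t ∉ A ∧ F.adj s t)).card := card_image_le
  rw [card_univ] at h2
  rw [card_singleton] at h3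
  omega

private lemma Ba_sum_le {V C : Type} [Fintype V] [DecidableEq V] {G : Ctx V C} (F : PF G)
    (A : Finset (Stub V)) :
    ∑ s : Stub V, (univ.filter (fun t => s ∈ A ∧ t ∉ A ∧ F.adj s t)).card ≤
      (univ.filter (fun p : Stub V × Stub V => p.1 ∈ A ∧ p.2 ∉ A ∧ F.adj p.1 p.2)).card := by
  rw [card_eq_sum_card_fiberwise (f := Prod.fst) (t := univ) (fun _ _ => mem_univ _)]
  refine sum_le_sum (fun s _ => ?_)
  refine card_le_card_of_injOn (fun t => (s, t)) ?_ ?_
  · intro t ht
    simp only [coe_filter, mem_univ, true_and, Set.mem_ofPred_eq, mem_filter] at ht ⊢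
    exact ⟨ht, trivial⟩
  · intro t _ t' _ h
    exact (Prod.mk.inj h).2

theorem b_mu (hB : SelfMir I) {A : SSet I} (hA : Closed I A) :
    Null I (fun i => (univ.filter (fun s => s ∈ A i ∧ (I i).F.mu s ∉ A i)).card) ∧
    Null I (fun i => (univ.filter (fun s => s ∉ A i ∧ (I i).F.mu s ∈ A i)).card) := by
  have h0 : Null I (fun i => (univ.filter (fun s => (I i).F.phi (A i) s = 1)).card) :=
    not_not.1 (hB A hA)
  have h1 : Null I (fun i => (univ.filter (fun s => s ∈ A i ∧ (I i).F.mu s ∉ A i)).card) := by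
    refine h0.mono (Eventually.of_forall (fun i => card_le_card (fun s hs => ?_)))
    exact mem_filter.2 ⟨mem_univ _, ((I i).F.phi_eq_one (A i) s).2 (mem_filter.1 hs).2⟩
  refine ⟨h1, h1.mono (Eventually.of_forall (fun i => ?_))⟩
  convert Ba_card_swap (I i).F (A i)
theorem b_compl (hB : SelfMir I) {A : SSet I} (hA : Closed I A) : Closed I (fun i => (A i)ᶜ) := by
  obtain ⟨h1, h2⟩ := b_mu hB hA
  refine hA.compl_mu.congr (h1.mono (Eventually.of_forall (fun i => card_le_card (fun s hs => ?_))))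
    (h2.mono (Eventually.of_forall (fun i => card_le_card (fun s hs => ?_))))
  · simp only [Finset.mem_sdiff, mem_filter, mem_univ, true_and, Finset.mem_compl, not_not] at hs ⊢
    exact ⟨hs.2, hs.1⟩
  · simp only [Finset.mem_sdiff, mem_filter, mem_univ, true_and, Finset.mem_compl, not_not] at hs ⊢
    exact hs
theorem b_cross (hB : SelfMir I) {A : SSet I} (hA : Closed I A) :
    Null2 I (fun i => (univ.filter (fun p : Stub (Fin (I i).n) × Stub (Fin (I i).n) =>
      p.1 ∈ A i ∧ p.2 ∉ A i ∧ (I i).F.adj p.1 p.2)).card) := by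
  obtain ⟨-, h2⟩ := b_mu hB hA
  refine (Null2.add hA (h2.mul_n.const_mul 2)).mono (Eventually.of_forall (fun i => ?_))
  have := Ba_cross_le (I i).F (A i)
  rw [Fintype.card_fin] at this
  convert this
theorem b_deg (hI : Grow I) (hB : SelfMir I) {A : SSet I} (hA : Closed I A) :
    ∃ g : ℕ → ℕ, Null I g ∧ Null I (fun i => (univ.filter (fun s => s ∈ A i ∧
      2 * (((A i).filter (fun t => (I i).F.adj s t)).image Prod.fst).card + g i < (I i).n)).card) := by
  obtain ⟨g, hg, hb⟩ := markov hI (α := fun i => Stub (Fin (I i).n))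
    (fun i s => (univ.filter (fun t => s ∈ A i ∧ t ∉ A i ∧ (I i).F.adj s t)).card)
    ((b_cross hB hA).mono (Eventually.of_forall (fun i => by
      convert Ba_sum_le (I i).F (A i))))
  refine ⟨fun i => 2 * g i, hg.const_mul 2,
    hb.mono (Eventually.of_forall (fun i => card_le_card (fun s hs => ?_)))⟩
  obtain ⟨-, hsA, hlt⟩ := mem_filter.1 hs
  refine mem_filter.2 ⟨mem_univ _, ?_⟩
  have h1 : (I i).n ≤ 2 * (((A i).filter (fun t => (I i).F.adj s t)).image Prod.fst).card +
      2 * (univ.filter (fun t => t ∉ A i ∧ (I i).F.adj s t)).card := by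
    have := Ba_half (I i).F (A i) s
    rw [Fintype.card_fin] at this
    convert this
  have h2 : (univ.filter (fun t => t ∉ A i ∧ (I i).F.adj s t)).card ≤
      (univ.filter (fun t => s ∈ A i ∧ t ∉ A i ∧ (I i).F.adj s t)).card :=
    card_le_card (fun t ht => mem_filter.2 ⟨mem_univ _, hsA, (mem_filter.1 ht).2⟩)
  beta_reduce at hlt ⊢
  omega
/-- a non-null closed set touches half of the vertices -/
theorem b_touch (hI : Grow I) (hB : SelfMir I) {A : SSet I} (hA : Closed I A)
    (hn : ¬ Null I (fun i => (A i).card)) :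
    ∃ g : ℕ → ℕ, Null I g ∧ ∀ᶠ i in UF, (I i).n ≤ 2 * ((A i).image Prod.fst).card + g i := by
  obtain ⟨g, hg, hb⟩ := b_deg hI hB hA
  refine ⟨g, hg, ?_⟩
  obtain ⟨k, -, hk⟩ := (not_null_iff hI).1 hn
  filter_upwards [hk, (null_iff hI).1 hb (2 * k), ev_ge hI 1] with i h1 h2 h3
  by_contra hc
  have h4 : (A i).card ≤ (univ.filter (fun s => s ∈ A i ∧
      2 * (((A i).filter (fun t => (I i).F.adj s t)).image Prod.fst).card + g i < (I i).n)).card := by
    refine card_le_card (fun s hs => mem_filter.2 ⟨mem_univ _, hs, ?_⟩)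
    have : (((A i).filter (fun t => (I i).F.adj s t)).image Prod.fst).card ≤
        ((A i).image Prod.fst).card := card_le_card (image_subset_image (filter_subset _ _))
    omega
  have h5 := Nat.mul_le_mul_left k h4
  rw [mul_assoc] at h2
  omega

end Pool.Agent.BE
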