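import Pool.Agent.Lib.MP_dd4ef3_lc.BE.Ba

set_option autoImplicit false

open Finset Classical Filter

noncomputable section

namespace Pool.Agent.BE

variable {I : ℕ → Inst}

/-- partitions into closed non-null classes -/
private def Ba2Good (I : ℕ → Inst) (r : ℕ) : Prop :=
  ∃ κ : ∀ i, Stub (Fin (I i).n) → Fin r,
    (∀ j, Closed I (cl κ j)) ∧ ∀ j, ¬ Null I (fun i => (cl κ j i).card)

private lemma Ba2_one (hI : Grow I) : Ba2Good I 1 := by
  have hcl : ∀ j : Fin 1, cl (I := I) (fun _ _ => (0 : Fin 1)) j = fun _ => univ := by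
    intro j
    funext i
    ext s
    simp [cl, Subsingleton.elim (0 : Fin 1) j]
  refine ⟨fun _ _ => 0, fun j => ?_, fun j => ?_⟩
  · rw [hcl]; exact closed_univ
  · rw [hcl]
    intro h
    apply not_null_n hI
    refine h.mono (Eventually.of_forall fun i => ?_)
    rw [card_univ, card_stub, Fintype.card_fin]
    omega

private lemma Ba2_sum {r : ℕ} (κ : ∀ i, Stub (Fin (I i).n) → Fin r) (i : ℕ) :
    ∑ j, (cl κ j i).card = 2 * (I i).n := by
  have h := card_eq_sum_card_fiberwise (s := (univ : Finset (Stub (Fin (I i).n))))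
    (t := (univ : Finset (Fin r))) (f := κ i) (fun _ _ => mem_coe.2 (mem_univ _))
  rw [card_univ, card_stub, Fintype.card_fin] at h
  rw [h]
  refine sum_congr rfl fun j _ => ?_
  unfold cl
  congr

private lemma Ba2_le (hI : Grow I) (hB : SelfMir I) {r : ℕ} (h : Ba2Good I r) : r ≤ 4 := by
  obtain ⟨κ, hc, hn⟩ := h
  by_contra hr
  have hr5 : 5 ≤ r := by omega
  choose g hg hg' using fun j => b_touch hI hB (hc j) (hn j)
  apply not_null_n hI
  refine (null_sum univ g (fun j _ => hg j)).mono ?_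
  have hall : ∀ᶠ i in UF, ∀ j, (I i).n ≤ 2 * ((cl κ j i).image Prod.fst).card + g j i :=
    eventually_all.2 hg'
  filter_upwards [hall] with i hi
  have h1 : ∑ _j : Fin r, (I i).n ≤ ∑ j, (2 * (cl κ j i).card + g j i) := by
    refine sum_le_sum fun j _ => ?_
    have h2 := hi j
    have h3 : ((cl κ j i).image Prod.fst).card ≤ (cl κ j i).card := card_image_le
    omega
  rw [sum_add_distrib, ← mul_sum, Ba2_sum, sum_const, card_univ, Fintype.card_fin,
    smul_eq_mul] at h1
  have h4 : 5 * (I i).n ≤ r * (I i).n := Nat.mul_le_mul_right _ hr5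
  omega

private lemma Ba2_split (hB : SelfMir I) {r : ℕ} (κ : ∀ i, Stub (Fin (I i).n) → Fin r)
    (hc : ∀ j, Closed I (cl κ j)) (hn : ∀ j, ¬ Null I (fun i => (cl κ j i).card))
    {A : SSet I} (hA : Closed I A) (j0 : Fin r)
    (h1 : ¬ Null I (fun i => (cl κ j0 i ∩ A i).card))
    (h2 : ¬ Null I (fun i => (cl κ j0 i \ A i).card)) : Ba2Good I (r + 1) := by
  let κ' : ∀ i, Stub (Fin (I i).n) → Fin (r + 1) := fun i s =>
    if κ i s = j0 ∧ s ∉ A i then Fin.last r else (κ i s).castSucc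
  have e1 : cl κ' (Fin.last r) = fun i => cl κ j0 i ∩ (A i)ᶜ := by
    funext i
    ext s
    simp only [cl, κ', mem_filter, mem_univ, true_and, mem_inter, mem_compl]
    by_cases h : κ i s = j0 ∧ s ∉ A i
    · rw [if_pos h]; exact ⟨fun _ => h, fun _ => rfl⟩
    · rw [if_neg h]
      exact ⟨fun e => absurd e (Fin.castSucc_lt_last _).ne, fun e => absurd e h⟩
  have e2 : cl κ' j0.castSucc = fun i => cl κ j0 i ∩ A i := by
    funext i
    ext s
    simp only [cl, κ', mem_filter, mem_univ, true_and, mem_inter]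
    by_cases h : κ i s = j0 ∧ s ∉ A i
    · rw [if_pos h]
      exact ⟨fun e => absurd e.symm (Fin.castSucc_lt_last _).ne, fun e => absurd e.2 h.2⟩
    · rw [if_neg h, Fin.castSucc_inj]
      refine ⟨fun e => ⟨e, ?_⟩, fun e => e.1⟩
      by_contra hs
      exact h ⟨e, hs⟩
  have e3 : ∀ j : Fin r, j ≠ j0 → cl κ' j.castSucc = cl κ j := by
    intro j hj
    funext i
    ext s
    simp only [cl, κ', mem_filter, mem_univ, true_and]
    by_cases h : κ i s = j0 ∧ s ∉ A i
    · rw [if_pos h]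
      exact ⟨fun e => absurd e.symm (Fin.castSucc_lt_last _).ne,
        fun e => absurd (e.symm.trans h.1) hj⟩
    · rw [if_neg h, Fin.castSucc_inj]
  refine ⟨κ', fun j => ?_, fun j => ?_⟩
  · refine Fin.lastCases ?_ (fun j => ?_) j
    · rw [e1]; exact (hc j0).inter (b_compl hB hA)
    · by_cases hj : j = j0
      · subst hj; rw [e2]; exact (hc j).inter hA
      · rw [e3 j hj]; exact hc j
  · refine Fin.lastCases ?_ (fun j => ?_) j
    · rw [e1]
      intro h
      refine h2 (h.mono (Eventually.of_forall fun i => ?_))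
      refine card_le_card fun s hs => ?_
      rw [Finset.mem_sdiff] at hs
      exact mem_inter.2 ⟨hs.1, mem_compl.2 hs.2⟩
    · by_cases hj : j = j0
      · subst hj; rw [e2]; exact h1
      · rw [e3 j hj]; exact hn j

theorem exists_atoms (hI : Grow I) (hB : SelfMir I) :
    ∃ (r : ℕ) (κ : ∀ i, Stub (Fin (I i).n) → Fin r), 0 < r ∧ r ≤ 4 ∧ Atoms I r κ := by
  have h1 : Ba2Good I (Nat.findGreatest (Ba2Good I) 4) :=
    Nat.findGreatest_spec (m := 1) (by norm_num) (Ba2_one hI)
  have h2 : 1 ≤ Nat.findGreatest (Ba2Good I) 4 :=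
    Nat.le_findGreatest (by norm_num) (Ba2_one hI)
  have h3 : ∀ r, Ba2Good I r → r ≤ Nat.findGreatest (Ba2Good I) 4 :=
    fun r hr => Nat.le_findGreatest (Ba2_le hI hB hr) hr
  obtain ⟨κ, hc, hn⟩ := h1
  refine ⟨_, κ, h2, Nat.findGreatest_le 4, hc, hn, fun A hA j => ?_⟩
  by_contra hcon
  rw [not_or] at hcon
  have := h3 _ (Ba2_split hB κ hc hn hA j hcon.1 hcon.2)
  omega

end Pool.Agent.BE
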