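import Pool.Agent.Lib.MP_dd4ef3_lc.BE.Defs

set_option autoImplicit false

open Finset Classical

noncomputable section

namespace Pool.Agent.BE

variable {V C : Type} [Fintype V] [DecidableEq V] {G : Ctx V C}

namespace PF
variable (F : PF G)

lemma real_mu_iff (s : Stub V) : F.real (F.mu s) ↔ F.real s :=
  ⟨fun h => by simpa using F.real_mu _ h, F.real_mu s⟩
lemma mu_inj {s t : Stub V} (h : F.mu s = F.mu t) : s = t := by
  have := congrArg F.mu h; simpa using this
lemma kept_ne {s : Stub V} {a : C} (h : F.kept s = some a) : F.kept (nu s) ≠ some a := by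
  unfold kept at h ⊢
  by_cases h1 : F.real (nu s)
  · rw [if_pos h1] at h
    by_cases h2 : F.real s
    · simp only [nu_nu, h2, if_true, nu_fst]
      intro e
      have := F.pc s h2 h1
      apply this
      rw [Option.some.inj e, Option.some.inj h]
    · simp [h2]
  · rw [if_neg h1] at h; cases h
lemma adj_symm {s t : Stub V} (h : F.adj s t) : F.adj t s := by
  obtain ⟨h1, h2, h3⟩ := h
  exact ⟨h1.symm, h3, h2⟩
lemma loop_iff (s : Stub V) : F.loop s.1 ↔ F.mu s = nu s := by
  obtain ⟨v, b⟩ := s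
  cases b
  · simp [loop]
  · simp only [loop, nu_mk, Bool.not_true]
    constructor
    · intro h; rw [← h]; simp
    · intro h; rw [← h]; simp
lemma ne_of_not_loop {s : Stub V} (h : ¬ F.loop s.1) : (F.mu s).1 ≠ s.1 := by
  intro e
  rcases eq_or_eq_nu e with h1 | h1
  · exact F.mu_ne s h1
  · exact h ((F.loop_iff s).2 h1)
lemma loop_mu_iff (s : Stub V) : F.loop (F.mu s).1 ↔ F.loop s.1 := by
  have key : ∀ s : Stub V, F.loop s.1 → F.loop (F.mu s).1 := by
    intro s h
    have := (F.loop_iff s).1 h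
    rw [this]; exact h
  exact ⟨fun h => by simpa using key _ h, key s⟩
lemma not_real_of_loop {s : Stub V} (h : F.loop s.1) : ¬ F.real s := by
  intro hr
  apply F.real_ne s hr
  rw [(F.loop_iff s).1 h]; rfl
lemma kept_of_loop {s : Stub V} (h : F.loop s.1) : F.kept s = none := by
  unfold kept
  rw [if_neg (F.not_real_of_loop (s := nu s) h)]
/-- every vertex `w` has a stub that does not keep the colour `a` -/
lemma exists_avail (w : V) (a : C) : ∃ b, some a ≠ F.kept (w, b) := by
  by_cases h : F.kept (w, false) = some a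
  · exact ⟨true, fun e => F.kept_ne h (by simpa using e.symm)⟩
  · exact ⟨false, fun e => h e.symm⟩
lemma mem_nb {B : Finset V} {v : V} :
    v ∈ F.nb B ↔ v ∈ B ∨ ∃ s : Stub V, s.1 ∈ B ∧ (F.mu s).1 = v := by
  simp only [nb, mem_union, mem_image]
  constructor
  · rintro (h | ⟨u, hu, e⟩ | ⟨u, hu, e⟩)
    · exact Or.inl h
    · exact Or.inr ⟨(u, false), hu, e⟩
    · exact Or.inr ⟨(u, true), hu, e⟩
  · rintro (h | ⟨⟨u, b⟩, hu, e⟩)
    · exact Or.inl h
    · cases b
      · exact Or.inr (Or.inl ⟨u, hu, e⟩)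
      · exact Or.inr (Or.inr ⟨u, hu, e⟩)
lemma mem_nb' {B : Finset V} {v : V} : v ∈ F.nb B ↔ v ∈ B ∨ ∃ b, (F.mu (v, b)).1 ∈ B := by
  rw [mem_nb]
  constructor
  · rintro (h | ⟨s, hs, e⟩)
    · exact Or.inl h
    · refine Or.inr ⟨(F.mu s).2, ?_⟩
      have : (v, (F.mu s).2) = F.mu s := by rw [← e]
      rw [this]; simpa using hs
  · rintro (h | ⟨b, hb⟩)
    · exact Or.inl h
    · exact Or.inr ⟨F.mu (v, b), hb, by simp⟩
lemma subset_nb (B : Finset V) : B ⊆ F.nb B := fun _ h => F.mem_nb.2 (Or.inl h)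
lemma nb_mono {B B' : Finset V} (h : B ⊆ B') : F.nb B ⊆ F.nb B' := by
  intro v hv
  rcases F.mem_nb'.1 hv with h1 | ⟨b, hb⟩
  · exact F.mem_nb'.2 (Or.inl (h h1))
  · exact F.mem_nb'.2 (Or.inr ⟨b, h hb⟩)
lemma card_nb (B : Finset V) : (F.nb B).card ≤ 3 * B.card := by
  unfold nb
  have h1 := card_union_le B (B.image (fun v => (F.mu (v, false)).1) ∪
    B.image (fun v => (F.mu (v, true)).1))
  have h2 := card_union_le (B.image (fun v => (F.mu (v, false)).1))
    (B.image (fun v => (F.mu (v, true)).1))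
  have h3 : (B.image (fun v => (F.mu (v, false)).1)).card ≤ B.card := card_image_le
  have h4 : (B.image (fun v => (F.mu (v, true)).1)).card ≤ B.card := card_image_le
  omega
lemma mem_zone {B : Finset V} {s : Stub V} : s ∈ F.zone B ↔ s.1 ∈ B ∨ (F.mu s).1 ∈ B := by
  simp [zone]
lemma zone_mu {B : Finset V} {s : Stub V} (h : s ∈ F.zone B) : F.mu s ∈ F.zone B := by
  rw [mem_zone] at h ⊢; simpa [or_comm] using h
lemma zone_image (B : Finset V) : (F.zone B).image Prod.fst = F.nb B := by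
  ext v
  rw [mem_image, mem_nb']
  constructor
  · rintro ⟨⟨u, b⟩, hs, rfl⟩
    rcases F.mem_zone.1 hs with h | h
    · exact Or.inl h
    · exact Or.inr ⟨b, h⟩
  · rintro (h | ⟨b, h⟩)
    · exact ⟨(v, false), F.mem_zone.2 (Or.inl h), rfl⟩
    · exact ⟨(v, b), F.mem_zone.2 (Or.inr h), rfl⟩
lemma card_zone (B : Finset V) : (F.zone B).card ≤ 4 * B.card := by
  have h0 : (B ×ˢ (univ : Finset Bool)).card = 2 * B.card := by simp [mul_comm]
  have h1 : F.zone B ⊆ (B ×ˢ (univ : Finset Bool)) ∪ (B ×ˢ (univ : Finset Bool)).image F.mu := by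
    intro s hs
    rcases F.mem_zone.1 hs with h | h
    · exact mem_union_left _ (by simpa using h)
    · exact mem_union_right _ (mem_image.2 ⟨F.mu s, by simpa using h, by simp⟩)
  have h2 := card_le_card h1
  have h3 := card_union_le (B ×ˢ (univ : Finset Bool)) ((B ×ˢ (univ : Finset Bool)).image F.mu)
  have h4 : ((B ×ˢ (univ : Finset Bool)).image F.mu).card ≤ (B ×ˢ (univ : Finset Bool)).card :=
    card_image_le
  omega
lemma mem_NS {l : Stub V → Node} {z : V} {a : Option C} {K : Node} {t : Stub V} :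
    t ∈ F.NS l z a K ↔
      l t = K ∧ t.1 ≠ z ∧ some (G.c t.1 z) ≠ F.kept t ∧ some (G.c z t.1) ≠ a := by
  simp only [NS, mem_filter, mem_univ, true_and]
lemma mem_NS_kept {l : Stub V → Node} {s t : Stub V} {K : Node} :
    t ∈ F.NS l s.1 (F.kept s) K ↔ l t = K ∧ F.adj s t := by
  rw [mem_NS]; unfold adj
  constructor
  · rintro ⟨h1, h2, h3, h4⟩; exact ⟨h1, h2.symm, h4, h3⟩
  · rintro ⟨h1, h2, h3, h4⟩; exact ⟨h1, h2.symm, h4, h3⟩
end PF

omit [DecidableEq V] in
lemma card_stub : Fintype.card (Stub V) = 2 * Fintype.card V := by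
  simp [Stub, mul_comm]
lemma deg_opt (G : Ctx V C) (u : V) (o : Option C) :
    2 * (univ.filter (fun w => w ≠ u ∧ some (G.c u w) = o)).card + 2 ≤ Fintype.card V := by
  cases o with
  | none =>
    have := G.deg u (G.c u u)
    have h0 : (univ.filter (fun w => w ≠ u ∧ some (G.c u w) = (none : Option C))).card = 0 := by
      simp
    omega
  | some a =>
    have := G.deg u a
    have h0 : (univ.filter (fun w => w ≠ u ∧ some (G.c u w) = some a)) =
        (univ.filter (fun w => w ≠ u ∧ G.c u w = a)) := by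
      ext w; simp
    rw [h0]; exact this
/-- a `μ`-closed stub set has even size -/
lemma even_of_invol {α : Type} (S : Finset α) (f : α → α) (h1 : ∀ s ∈ S, f s ∈ S)
    (h2 : ∀ s ∈ S, f (f s) = s) (h3 : ∀ s ∈ S, f s ≠ s) : Even S.card := by
  have h := Finset.sum_involution (s := S) (f := fun _ => (1 : ZMod 2)) (fun a _ => f a)
    (fun _ _ => by decide) (fun a ha _ => h3 a ha) (fun a ha => h1 a ha) (fun a ha => h2 a ha)
  rw [sum_const, nsmul_eq_mul, mul_one] at h
  exact (ZMod.natCast_eq_zero_iff_even).1 h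

end Pool.Agent.BE
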