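import Pool.Agent.Lib.MP_dd4ef3_lc.BE.Ba

set_option autoImplicit false

open Finset Classical Filter

noncomputable section

namespace Pool.Agent.BE

variable {I : ℕ → Inst}

variable {r : ℕ} {κ : ∀ i, Stub (Fin (I i).n) → Fin r}

private lemma Bb_closed (hκ : Atoms I r κ) (J : Finset (Fin r)) :
    Closed I (fun i => univ.filter (fun s => κ i s ∈ J)) := by
  induction J using Finset.induction_on with
  | empty =>
    have : (fun i => (((I i).F.leak (univ.filter (fun s => κ i s ∈ (∅ : Finset (Fin r)))) : ℕ) : ℝ) /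
        ((I i).n : ℝ) ^ 2) = fun _ => 0 := by
      funext i; simp [PF.leak]
    unfold Closed Null2
    rw [this]
    exact tendsto_const_nhds
  | insert j J _ ih =>
    have := (hκ.closed j).union ih
    convert this using 2 with i
    ext s
    simp [cl]

private lemma Bb_big {U : VSet I} (hU : ¬ Null I (fun i => (U i).card)) (J : Finset (Fin r))
    (h : ∀ j ∈ J, Null I (fun i => (univ.filter (fun s => s.1 ∈ U i ∧ κ i s = j)).card)) :
    ¬ Null I (fun i => ((U i).filter (fun u => ∀ b, κ i (u, b) ∉ J)).card) := by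
  intro h0
  refine hU ((h0.add (null_sum J _ h)).mono (Eventually.of_forall fun i => ?_))
  have h1 : U i ⊆ (U i).filter (fun u => ∀ b, κ i (u, b) ∉ J) ∪
      J.biUnion (fun j => (univ.filter (fun s => s.1 ∈ U i ∧ κ i s = j)).image Prod.fst) := by
    intro u hu
    by_cases hc : ∀ b, κ i (u, b) ∉ J
    · exact mem_union_left _ (mem_filter.2 ⟨hu, hc⟩)
    · push Not at hc
      obtain ⟨b, hb⟩ := hc
      exact mem_union_right _ (mem_biUnion.2 ⟨_, hb, mem_image.2 ⟨(u, b),
        mem_filter.2 ⟨mem_univ _, hu, rfl⟩, rfl⟩⟩)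
  refine (card_le_card h1).trans ((card_union_le _ _).trans (Nat.add_le_add_left ?_ _))
  exact card_biUnion_le.trans (sum_le_sum fun j _ => card_image_le)

theorem b_meet (hI : Grow I) (hB : SelfMir I) (hκ : Atoms I r κ) (U W : VSet I)
    (hU : ¬ Null I (fun i => (U i).card)) (hW : ¬ Null I (fun i => (W i).card)) :
    ∃ j, ¬ Null I (fun i => (univ.filter (fun s => s.1 ∈ U i ∧ κ i s = j)).card) ∧
      ¬ Null I (fun i => (univ.filter (fun s => s.1 ∈ W i ∧ κ i s = j)).card) := by
  by_contra hc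
  set J : Finset (Fin r) := univ.filter
    (fun j => ¬ Null I (fun i => (univ.filter (fun s => s.1 ∈ U i ∧ κ i s = j)).card)) with hJ
  have h1 := Bb_big (κ := κ) hU Jᶜ (fun j hj => by
    by_contra h
    exact (mem_compl.1 hj) (mem_filter.2 ⟨mem_univ _, h⟩))
  have h2 := Bb_big (κ := κ) hW J (fun j hj => by
    by_contra h
    exact hc ⟨j, (mem_filter.1 hj).2, h⟩)
  have h3 := b_cross hB (Bb_closed hκ J)
  obtain ⟨i, u, hu, w, hw, huw, hE⟩ := (exists_pair hI h1 h2 (fun i =>
    (univ.filter (fun p : Stub (Fin (I i).n) × Stub (Fin (I i).n) =>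
      p.1 ∈ univ.filter (fun s => κ i s ∈ J) ∧ p.2 ∉ univ.filter (fun s => κ i s ∈ J) ∧
        (I i).F.adj p.1 p.2)).image (fun p => (p.1.1, p.2.1)))
    (h3.mono (Eventually.of_forall fun i => by convert card_image_le))).exists
  obtain ⟨b, hb⟩ := (I i).F.exists_avail u ((I i).G.c u w)
  obtain ⟨b', hb'⟩ := (I i).F.exists_avail w ((I i).G.c w u)
  refine hE (mem_image.2 ⟨((u, b), (w, b')), mem_filter.2 ⟨mem_univ _, ?_, ?_, huw, hb, hb'⟩, rfl⟩)
  · have := (mem_filter.1 hu).2 b
    rw [mem_compl, not_not] at this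
    exact mem_filter.2 ⟨mem_univ _, this⟩
  · exact fun h => (mem_filter.1 hw).2 b' (mem_filter.1 h).2

/-- vertices with one stub labelled `K` and the other one labelled `K'` -/
def mixV (l : Lab I) (K K' : Node) : VSet I :=
  fun i => univ.filter (fun v => ∃ b, l i (v, b) = K ∧ l i (v, !b) = K')

end Pool.Agent.BE
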