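import Pool.Agent.Lib.MP_dd4ef3_lc.BE.Bb

set_option autoImplicit false

open Finset Classical Filter

noncomputable section

namespace Pool.Agent.BE

variable {I : ℕ → Inst}

variable {r : ℕ} {κ : ∀ i, Stub (Fin (I i).n) → Fin r}

/-- ordered vertex types -/
def bb2O (κ : ∀ i, Stub (Fin (I i).n) → Fin r) (j k : Fin r) : VSet I :=
  fun i => univ.filter (fun v => κ i (v, false) = j ∧ κ i (v, true) = k)

lemma bb2_row (j : Fin r) (i : ℕ) :
    (univ.filter (fun v => κ i (v, false) = j)).card = ∑ k, (bb2O κ j k i).card := by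
  rw [card_eq_sum_card_fiberwise (f := fun v => κ i (v, true)) (t := univ) (fun _ _ => mem_univ _)]
  refine sum_congr rfl (fun k _ => ?_)
  congr 1
  ext v; simp [bb2O]

lemma bb2_col (j : Fin r) (i : ℕ) :
    (univ.filter (fun v => κ i (v, true) = j)).card = ∑ k, (bb2O κ k j i).card := by
  rw [card_eq_sum_card_fiberwise (f := fun v => κ i (v, false)) (t := univ) (fun _ _ => mem_univ _)]
  refine sum_congr rfl (fun k _ => ?_)
  congr 1
  ext v; simp [bb2O, and_comm]

lemma bb2_total (i : ℕ) : ∑ j, ∑ k, (bb2O κ j k i).card = (I i).n := by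
  have h := card_eq_sum_card_fiberwise (s := (univ : Finset (Fin (I i).n)))
    (f := fun v => κ i (v, false)) (t := univ) (fun _ _ => mem_univ _)
  rw [card_univ, Fintype.card_fin] at h
  exact (sum_congr rfl (fun j _ => (bb2_row j i).symm)).trans h.symm

lemma bb2_touch (j : Fin r) (i : ℕ) :
    ((cl κ j i).image Prod.fst).card + (bb2O κ j j i).card =
      ∑ k, (bb2O κ j k i).card + ∑ k, (bb2O κ k j i).card := by
  rw [← bb2_row, ← bb2_col, ← card_union_add_card_inter
    (univ.filter (fun v => κ i (v, false) = j)) (univ.filter (fun v => κ i (v, true) = j))]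
  congr 1
  · congr 1
    ext v
    simp [cl]
  · congr 1
    ext v
    simp [bb2O]

lemma bb2_mix (e : Fin r → Node) {j k : Fin r} (hjk : j ≠ k) (i : ℕ) :
    (bb2O κ j k i).card + (bb2O κ k j i).card ≤
      (mixV (fun i s => e (κ i s)) (e j) (e k) i).card := by
  rw [← card_union_of_disjoint]
  · refine card_le_card (fun v hv => ?_)
    simp only [bb2O, mem_union, mem_filter, mem_univ, true_and] at hv
    simp only [mixV, mem_filter, mem_univ, true_and]
    rcases hv with h | h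
    · exact ⟨false, by simp [h.1], by simp [h.2]⟩
    · exact ⟨true, by simp [h.2], by simp [h.1]⟩
  · rw [disjoint_left]
    intro v h1 h2
    simp only [bb2O, mem_filter, mem_univ, true_and] at h1 h2
    exact hjk (h1.1.symm.trans h2.1)

lemma bb2_not_null {f g : ℕ → ℕ} {a : ℝ} (ha : 0 < a)
    (hf : Tendsto (fun i => (f i : ℝ) / ((I i).n : ℝ)) UF (nhds a)) (hfg : ∀ i, f i ≤ g i) :
    ¬ Null I g := by
  intro hg
  have h0 : Null I f := hg.mono (Eventually.of_forall hfg)
  have := tendsto_nhds_unique hf h0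
  linarith

lemma bb2_ev {f g : ℕ → ℕ} {a : ℝ} (ha : 3 / 5 < a)
    (hf : Tendsto (fun i => (f i : ℝ) / ((I i).n : ℝ)) UF (nhds a)) (hfg : ∀ i, f i ≤ g i) :
    ∀ᶠ i in UF, 3 * (I i).n ≤ 5 * g i := by
  filter_upwards [hf.eventually (lt_mem_nhds ha)] with i hi
  rcases Nat.eq_zero_or_pos (I i).n with h | h
  · omega
  · have hn : (0 : ℝ) < (I i).n := by exact_mod_cast h
    rw [lt_div_iff₀ hn] at hi
    have h1 : (f i : ℝ) ≤ g i := by exact_mod_cast hfg i
    have h2 : (3 * (I i).n : ℝ) ≤ 5 * g i := by linarith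
    exact_mod_cast h2

/-- limit densities of the ordered types -/
lemma bb2_lim (hI : Grow I) (hB : SelfMir I) (hκ : Atoms I r κ) :
    ∃ o : Fin r → Fin r → ℝ,
      (∀ j k, Tendsto (fun i => ((bb2O κ j k i).card : ℝ) / ((I i).n : ℝ)) UF (nhds (o j k))) ∧
      (∀ j k, 0 ≤ o j k) ∧ (∑ j, ∑ k, o j k = 1) ∧
      (∀ j, 1 / 2 ≤ ∑ k, o j k + ∑ k, o k j - o j j) ∧
      ∀ j k l m, 0 < o j k → 0 < o l m → j = l ∨ j = m ∨ k = l ∨ k = m := by
  have hex : ∀ j k : Fin r, ∃ a : ℝ,
      Tendsto (fun i => ((bb2O κ j k i).card : ℝ) / ((I i).n : ℝ)) UF (nhds a) := by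
    intro j k
    refine has_lim _ 1 (fun i => ?_)
    simpa using card_le_univ (bb2O κ j k i)
  choose o ho using hex
  have hpos : ∀ᶠ i in UF, (0 : ℝ) < (I i).n := by
    filter_upwards [ev_ge hI 1] with i hi
    exact_mod_cast hi
  refine ⟨o, ho, fun j k => ge_of_tendsto' (ho j k) (fun i => by positivity), ?_, ?_, ?_⟩
  · have h1 : Tendsto (fun i => ∑ j, ∑ k, ((bb2O κ j k i).card : ℝ) / ((I i).n : ℝ)) UF
        (nhds (∑ j, ∑ k, o j k)) :=
      tendsto_finsetSum _ (fun j _ => tendsto_finsetSum _ (fun k _ => ho j k))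
    have h2 : Tendsto (fun i => ∑ j, ∑ k, ((bb2O κ j k i).card : ℝ) / ((I i).n : ℝ)) UF
        (nhds 1) := by
      refine tendsto_const_nhds.congr' ?_
      filter_upwards [hpos] with i hi
      simp only [← sum_div]
      rw [eq_div_iff hi.ne', one_mul]
      exact_mod_cast (bb2_total (κ := κ) i).symm
    exact tendsto_nhds_unique h1 h2
  · intro j
    obtain ⟨g, hg, hev⟩ := b_touch hI hB (hκ.closed j) (hκ.big j)
    have h1 : Tendsto (fun i => 2 * (∑ k, ((bb2O κ j k i).card : ℝ) / ((I i).n : ℝ) +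
        ∑ k, ((bb2O κ k j i).card : ℝ) / ((I i).n : ℝ) -
        ((bb2O κ j j i).card : ℝ) / ((I i).n : ℝ)) + (g i : ℝ) / ((I i).n : ℝ)) UF
        (nhds (2 * (∑ k, o j k + ∑ k, o k j - o j j) + 0)) :=
      ((((tendsto_finsetSum _ (fun k _ => ho j k)).add
        (tendsto_finsetSum _ (fun k _ => ho k j))).sub (ho j j)).const_mul 2).add hg
    have h2 : (1 : ℝ) ≤ 2 * (∑ k, o j k + ∑ k, o k j - o j j) + 0 := by
      refine ge_of_tendsto h1 ?_
      filter_upwards [hpos, hev] with i hi hev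
      simp only [← sum_div]
      have h3 : (((cl κ j i).image Prod.fst).card : ℝ) + (bb2O κ j j i).card =
          ∑ k, ((bb2O κ j k i).card : ℝ) + ∑ k, ((bb2O κ k j i).card : ℝ) := by
        exact_mod_cast bb2_touch (κ := κ) j i
      have h4 : ((I i).n : ℝ) ≤ 2 * (((cl κ j i).image Prod.fst).card : ℝ) + g i := by
        exact_mod_cast hev
      rw [← add_div, ← sub_div, ← mul_div_assoc, ← add_div, le_div_iff₀ hi]
      linarith
    linarith
  · intro j k l m h1 h2
    obtain ⟨x, hx1, hx2⟩ := b_meet hI hB hκ (bb2O κ j k) (bb2O κ l m)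
      (bb2_not_null h1 (ho j k) (fun _ => le_rfl)) (bb2_not_null h2 (ho l m) (fun _ => le_rfl))
    have key : ∀ p q : Fin r,
        ¬ Null I (fun i => (univ.filter (fun s => s.1 ∈ bb2O κ p q i ∧ κ i s = x)).card) →
        p = x ∨ q = x := by
      intro p q h
      by_contra hc
      push Not at hc
      apply h
      refine (null_const hI 0).mono (Eventually.of_forall (fun i => ?_))
      rw [Nat.le_zero, card_eq_zero, filter_eq_empty_iff]
      rintro ⟨v, b⟩ _ ⟨hv, hs⟩
      simp only [bb2O, mem_filter, mem_univ, true_and] at hv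
      cases b
      · exact hc.1 (hv.1.symm.trans hs)
      · exact hc.2 (hv.2.symm.trans hs)
    rcases key j k hx1 with h | h <;> rcases key l m hx2 with h' | h' <;> simp [h, h']

lemma bb2_zero {o : Fin r → Fin r → ℝ} (h0 : ∀ j k, 0 ≤ o j k)
    (h3 : ∀ j k l m, 0 < o j k → 0 < o l m → j = l ∨ j = m ∨ k = l ∨ k = m)
    (j k l m : Fin r) (h : ¬ (j = l ∨ j = m ∨ k = l ∨ k = m)) :
    o j k + o k j = 0 ∨ o l m + o m l = 0 := by
  by_contra hc
  push Not at hc
  have a1 : 0 < o j k ∨ 0 < o k j := by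
    by_contra h'
    push Not at h'
    exact hc.1 (by linarith [h0 j k, h0 k j, h'.1, h'.2])
  have a2 : 0 < o l m ∨ 0 < o m l := by
    by_contra h'
    push Not at h'
    exact hc.2 (by linarith [h0 l m, h0 m l, h'.1, h'.2])
  apply h
  rcases a1 with a1 | a1 <;> rcases a2 with a2 | a2 <;> have := h3 _ _ _ _ a1 a2 <;> tauto

lemma bb2_real2 {o : Fin 2 → Fin 2 → ℝ} (h0 : ∀ j k, 0 ≤ o j k)
    (h2 : ∀ j, 1 / 2 ≤ ∑ k, o j k + ∑ k, o k j - o j j)
    (h3 : ∀ j k l m, 0 < o j k → 0 < o l m → j = l ∨ j = m ∨ k = l ∨ k = m) :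
    0 < o 0 1 + o 1 0 := by
  have a0 := h2 0
  have a1 := h2 1
  simp only [Fin.sum_univ_two] at a0 a1
  have := h0 0 1
  have := h0 1 0
  rcases bb2_zero h0 h3 0 0 1 1 (by decide) with h | h <;> linarith

lemma bb2_real3 {o : Fin 3 → Fin 3 → ℝ} (h0 : ∀ j k, 0 ≤ o j k) (h1 : ∑ j, ∑ k, o j k = 1)
    (h2 : ∀ j, 1 / 2 ≤ ∑ k, o j k + ∑ k, o k j - o j j)
    (h3 : ∀ j k l m, 0 < o j k → 0 < o l m → j = l ∨ j = m ∨ k = l ∨ k = m) :
    ∃ x y z : Fin 3, x ≠ y ∧ x ≠ z ∧ y ≠ z ∧ 0 < o x y + o y x ∧ 0 < o x z + o z x ∧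
      3 / 5 < o x y + o y x + (o x z + o z x) := by
  have a0 := h2 0
  have a1 := h2 1
  have a2 := h2 2
  simp only [Fin.sum_univ_three] at a0 a1 a2 h1
  have p01 := add_nonneg (h0 0 1) (h0 1 0)
  have p02 := add_nonneg (h0 0 2) (h0 2 0)
  have p12 := add_nonneg (h0 1 2) (h0 2 1)
  by_cases c0 : o 0 0 + o 0 0 = 0
  · by_cases c1 : o 1 1 + o 1 1 = 0
    · by_cases c2 : o 2 2 + o 2 2 = 0
      · by_cases d1 : o 1 2 + o 2 1 ≤ o 0 1 + o 1 0 ∧ o 1 2 + o 2 1 ≤ o 0 2 + o 2 0
        · exact ⟨0, 1, 2, by decide, by decide, by decide, by linarith [d1.1, d1.2],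
            by linarith [d1.1, d1.2], by linarith [d1.1, d1.2]⟩
        · by_cases d2 : o 0 2 + o 2 0 ≤ o 0 1 + o 1 0
          · have d3 : o 0 2 + o 2 0 ≤ o 1 2 + o 2 1 := by
              by_contra h'
              exact d1 ⟨by linarith, by linarith⟩
            exact ⟨1, 0, 2, by decide, by decide, by decide, by linarith, by linarith,
              by linarith⟩
          · have d3 : o 0 1 + o 1 0 ≤ o 1 2 + o 2 1 := by
              by_contra h'
              exact d1 ⟨by linarith, by linarith⟩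
            exact ⟨2, 0, 1, by decide, by decide, by decide, by linarith, by linarith,
              by linarith⟩
      · have e1 := (bb2_zero h0 h3 2 2 0 1 (by decide)).resolve_left c2
        exact ⟨2, 0, 1, by decide, by decide, by decide, by linarith, by linarith, by linarith⟩
    · have e1 := (bb2_zero h0 h3 1 1 0 2 (by decide)).resolve_left c1
      have e2 := (bb2_zero h0 h3 1 1 2 2 (by decide)).resolve_left c1
      exact ⟨1, 0, 2, by decide, by decide, by decide, by linarith, by linarith, by linarith⟩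
  · have e1 := (bb2_zero h0 h3 0 0 1 2 (by decide)).resolve_left c0
    have e2 := (bb2_zero h0 h3 0 0 1 1 (by decide)).resolve_left c0
    have e3 := (bb2_zero h0 h3 0 0 2 2 (by decide)).resolve_left c0
    exact ⟨0, 1, 2, by decide, by decide, by decide, by linarith, by linarith, by linarith⟩

lemma bb2_real4 {o : Fin 4 → Fin 4 → ℝ} (h0 : ∀ j k, 0 ≤ o j k) (h1 : ∑ j, ∑ k, o j k = 1)
    (h2 : ∀ j, 1 / 2 ≤ ∑ k, o j k + ∑ k, o k j - o j j)
    (h3 : ∀ j k l m, 0 < o j k → 0 < o l m → j = l ∨ j = m ∨ k = l ∨ k = m) : False := by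
  have a0 := h2 0
  have a1 := h2 1
  have a2 := h2 2
  have a3 := h2 3
  simp only [Fin.sum_univ_four] at a0 a1 a2 a3 h1
  have := h0 0 0
  have := h0 1 1
  have := h0 2 2
  have := h0 3 3
  rcases bb2_zero h0 h3 0 1 2 3 (by decide) with e1 | e1 <;>
    rcases bb2_zero h0 h3 0 2 1 3 (by decide) with e2 | e2 <;>
      rcases bb2_zero h0 h3 0 3 1 2 (by decide) with e3 | e3 <;> linarith

lemma bb2_lab3 : ∀ x y z : Fin 3, x ≠ y → x ≠ z → y ≠ z → ∃ e : Fin 3 → Node,
    Function.Injective e ∧ (∀ j, e j ≠ .Xb) ∧ e x = .X ∧ e y = .Z1 ∧ e z = .Z2 := by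
  intro x y z h1 h2 h3
  refine ⟨fun j => if j = x then .X else if j = y then .Z1 else .Z2, ?_, ?_, ?_, ?_, ?_⟩
  · intro a b
    revert x y z a b
    decide
  · intro j
    dsimp only
    split_ifs <;> simp
  · simp
  · simp [h1.symm]
  · simp [h2.symm, h3.symm]

theorem b_label (hI : Grow I) (hB : SelfMir I) (hκ : Atoms I r κ) (hr0 : 0 < r) (hr : r ≤ 4) :
    ∃ e : Fin r → Node, Function.Injective e ∧ (∀ j, e j ≠ .Xb) ∧
      (∀ b, (∀ j, e j ≠ Zof b) ∨
        ¬ Null I (fun i => (mixV (fun i s => e (κ i s)) .X (Zof b) i).card)) ∧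
      ((∀ j, e j ≠ .Z1) ∨ (∀ j, e j ≠ .Z2) ∨
        ∀ᶠ i in UF, 3 * (I i).n ≤ 5 * ((mixV (fun i s => e (κ i s)) .X .Z1 i).card +
          (mixV (fun i s => e (κ i s)) .X .Z2 i).card)) := by
  obtain ⟨o, ho, h0, h1, h2, h3⟩ := bb2_lim hI hB hκ
  have hpair : ∀ j k : Fin r, Tendsto (fun i =>
      (((bb2O κ j k i).card + (bb2O κ k j i).card : ℕ) : ℝ) / ((I i).n : ℝ)) UF
      (nhds (o j k + o k j)) := by
    intro j k
    refine ((ho j k).add (ho k j)).congr (fun i => ?_)
    push_cast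
    ring
  obtain rfl | rfl | rfl | rfl : r = 1 ∨ r = 2 ∨ r = 3 ∨ r = 4 := by omega
  · refine ⟨fun _ => .X, fun a b _ => Subsingleton.elim a b, by simp, fun b => Or.inl ?_,
      Or.inl (by simp)⟩
    cases b <;> simp [Zof]
  · have hp := bb2_real2 h0 h2 h3
    refine ⟨![.X, .Z1], by decide, by decide, fun b => ?_, Or.inr (Or.inl (by decide))⟩
    cases b
    · exact Or.inr (bb2_not_null hp (hpair 0 1)
        (fun i => bb2_mix (κ := κ) ![.X, .Z1] (j := 0) (k := 1) (by decide) i))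
    · exact Or.inl (by decide)
  · obtain ⟨x, y, z, hxy, hxz, hyz, p1, p2, p3⟩ := bb2_real3 h0 h1 h2 h3
    obtain ⟨e, he, hX, ex, ey, ez⟩ := bb2_lab3 x y z hxy hxz hyz
    have m1 := fun i => bb2_mix (κ := κ) e hxy i
    have m2 := fun i => bb2_mix (κ := κ) e hxz i
    rw [ex, ey] at m1
    rw [ex, ez] at m2
    refine ⟨e, he, hX, fun b => Or.inr ?_, Or.inr (Or.inr ?_)⟩
    · cases b
      · exact bb2_not_null p1 (hpair x y) m1
      · exact bb2_not_null p2 (hpair x z) m2
    · refine bb2_ev (f := fun i => ((bb2O κ x y i).card + (bb2O κ y x i).card) +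
        ((bb2O κ x z i).card + (bb2O κ z x i).card)) p3 ?_ (fun i => add_le_add (m1 i) (m2 i))
      refine ((hpair x y).add (hpair x z)).congr (fun i => ?_)
      push_cast
      ring
  · exact (bb2_real4 h0 h1 h2 h3).elim

end Pool.Agent.BE
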