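import Pool.Agent.Lib.MP_dd4ef3_lc.BE.S1a

set_option autoImplicit false

open Finset Classical Filter

noncomputable section

namespace Pool.Agent.BE

section fin

variable {V C : Type} [Fintype V] [DecidableEq V] {G : Ctx V C} (F : PF G) (A : Finset (Stub V))

private lemma s1c_adj {s t : Stub V} {e : ℤ} (he : e ≠ 0) (hs : F.phi A s = 0)
    (ht : F.phi A t = 0) (hs' : F.phi A (nu s) = e) (ht' : F.phi A (nu t) = e) (hne : s.1 ≠ t.1)
    (hb : (s.1, t.1) ∉ F.badPairs A) : F.adj s t := by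
  have hm : F.phi A (F.ch A s.1 (G.c s.1 t.1)) + F.phi A (F.ch A t.1 (G.c t.1 s.1)) = 0 := by
    by_contra h
    exact hb (by simp only [PF.badPairs, mem_filter, mem_univ, true_and]; exact ⟨hne, h⟩)
  have ha := F.adj_ch A hne
  rcases eq_or_eq_nu (F.ch_fst A s.1 (G.c s.1 t.1)) with h1 | h1 <;>
    rcases eq_or_eq_nu (F.ch_fst A t.1 (G.c t.1 s.1)) with h2 | h2 <;> rw [h1, h2] at hm ha
  · exact ha
  · omega
  · omega
  · omega

private lemma s1c_Z1 {s : Stub V} (h : F.labA A s = .Z1) :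
    F.phi A s = 0 ∧ F.phi A (nu s) = 1 := by
  unfold PF.labA at h
  have := F.phi_cases A s
  split_ifs at h with h1 h2 h3
  exact ⟨by omega, h3⟩

private lemma s1c_Z2 {s : Stub V} (h : F.labA A s = .Z2) :
    F.phi A s = 0 ∧ F.phi A (nu s) ≠ 1 := by
  unfold PF.labA at h
  have := F.phi_cases A s
  split_ifs at h with h1 h2 h3
  exact ⟨by omega, h3⟩

private lemma s1c_zero {s : Stub V} {b : Bool} (h : F.labA A s = Zof b) : F.phi A s = 0 := by
  cases b
  · exact (s1c_Z1 F A h).1
  · exact (s1c_Z2 F A h).1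

private lemma s1c_lab {s : Stub V} (b : Bool) (h : F.phi A s = 0) :
    F.labA A s = Zof b ∨ F.labA A s = Zof (!b) := by
  unfold PF.labA
  rw [if_neg (by omega), if_neg (by omega)]
  cases b <;> split_ifs <;> simp [Zof]

private lemma s1c_ty00 {s : Stub V} (h : F.phi A s = 0) (h' : F.phi A (nu s) = 0) :
    s.1 ∈ F.ty A 0 0 := by
  rw [F.mem_ty]
  rcases eq_or_eq_nu (F.hi_fst A s.1) with h1 | h1 <;>
    rcases eq_or_eq_nu (F.lo_fst A s.1) with h2 | h2 <;> rw [h1, h2] <;> exact ⟨‹_›, ‹_›⟩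

/-- non-adjacent pairs of equal `Z` label lie over few vertex pairs -/
private lemma s1c_count (b : Bool) :
    ((PF.labSet (F.labA A) (Zof b) ×ˢ PF.labSet (F.labA A) (Zof b)).filter
      (fun p => ¬ F.adj p.1 p.2)).card ≤
      4 * (1 * Fintype.card V + (F.badPairs A).card + (F.ty A 0 0).card * Fintype.card V +
        (F.ty A 0 0).card * Fintype.card V) := by
  set E : Finset (V × V) := (univ.image (fun v : V => (v, v)) ∪ F.badPairs A) ∪
    (F.ty A 0 0 ×ˢ univ) ∪ (univ ×ˢ F.ty A 0 0) with hE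
  have hc : E.card ≤ 1 * Fintype.card V + (F.badPairs A).card +
      (F.ty A 0 0).card * Fintype.card V + (F.ty A 0 0).card * Fintype.card V := by
    refine (card_union_le _ _).trans (add_le_add ((card_union_le _ _).trans (add_le_add
      ((card_union_le _ _).trans (add_le_add ?_ le_rfl)) ?_)) ?_)
    · simpa using card_image_le (s := (univ : Finset V)) (f := fun v : V => (v, v))
    · simp
    · simp [mul_comm]
  have hsub : ((PF.labSet (F.labA A) (Zof b) ×ˢ PF.labSet (F.labA A) (Zof b)).filter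
      (fun p => ¬ F.adj p.1 p.2)) ⊆ (E ×ˢ (univ : Finset (Bool × Bool))).image
        (fun q => ((q.1.1, q.2.1), (q.1.2, q.2.2))) := by
    rintro ⟨s, t⟩ hp
    simp only [mem_filter, mem_product, PF.labSet, mem_univ, true_and] at hp
    obtain ⟨⟨hs, ht⟩, hn⟩ := hp
    refine mem_image.mpr ⟨((s.1, t.1), (s.2, t.2)), mem_product.mpr ⟨?_, mem_univ _⟩, rfl⟩
    by_contra hnE
    simp only [hE, mem_union, not_or, mem_product, mem_univ, and_true, true_and] at hnE
    obtain ⟨⟨⟨h1, h2⟩, h3⟩, h4⟩ := hnE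
    have hne : s.1 ≠ t.1 := fun h => h1 (mem_image.mpr ⟨s.1, mem_univ _, by rw [← h]⟩)
    apply hn
    cases b
    · exact s1c_adj F A one_ne_zero (s1c_Z1 F A hs).1 (s1c_Z1 F A ht).1 (s1c_Z1 F A hs).2
        (s1c_Z1 F A ht).2 hne h2
    · have key : ∀ r : Stub V, F.labA A r = .Z2 → r.1 ∉ F.ty A 0 0 → F.phi A (nu r) = -1 := by
        intro r hr hO
        obtain ⟨a1, a2⟩ := s1c_Z2 F A hr
        rcases F.phi_cases A (nu r) with h | h | h
        · exact absurd h a2
        · exact absurd (s1c_ty00 F A a1 h) hO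
        · exact h
      exact s1c_adj F A (e := -1) (by decide) (s1c_Z2 F A hs).1 (s1c_Z2 F A ht).1
        (key s hs h3) (key t ht h4) hne h2
  refine (card_le_card hsub).trans (card_image_le.trans ?_)
  rw [card_product, card_univ, mul_comm]
  exact Nat.mul_le_mul (by simp) hc

/-- a set mapped by `μ` into a union -/
private lemma s1c_mu {S T U : Finset (Stub V)} (h : ∀ s ∈ S, F.mu s ∈ T ∨ F.mu s ∈ U) :
    S.card ≤ T.card + U.card := by
  refine le_trans ?_ (card_union_le T U)
  refine card_le_card_of_injOn F.mu (fun s hs => mem_union.mpr (h s hs)) ?_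
  intro s _ t _ hst
  simpa using congrArg F.mu hst

omit [Fintype V] in
private lemma s1c_id {S T U : Finset (Stub V)} (h : ∀ s ∈ S, s ∈ T ∨ s ∈ U) :
    S.card ≤ T.card + U.card :=
  (card_le_card (fun s hs => mem_union.mpr (h s hs))).trans (card_union_le T U)

section sets

variable (l : Stub V → Node) (Z Z' : Node) (B : Finset (Stub V))

private lemma s1c_a (hmu : ∀ s, l s = Z → l (F.mu s) = Z ∨ l (F.mu s) = Z') :
    (B.filter (fun s => l (F.mu s) = Z)).card ≤ (univ.filter (fun s => s ∈ B ∧ l s = Z)).card +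
      (univ.filter (fun s => s ∈ B ∧ l s = Z' ∧ l (F.mu s) = Z)).card :=
  s1c_id fun s hs => by
    simp only [mem_filter, mem_univ, true_and] at hs ⊢
    have := hmu _ hs.2
    rw [PF.mu_mu] at this
    exact this.imp (fun h => ⟨hs.1, h⟩) (fun h => ⟨hs.1, h, hs.2⟩)

private lemma s1c_b (hmu : ∀ s, l s = Z → l (F.mu s) = Z ∨ l (F.mu s) = Z') :
    (univ.filter (fun s => l s = Z ∧ s ∉ B)).card ≤
      2 * (univ.filter (fun t => l t = Z ∧ F.mu t ∉ B)).card +
      (univ.filter (fun s => s ∈ B ∧ l s = Z' ∧ l (F.mu s) = Z)).card := by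
  have e1 := s1c_id (S := univ.filter (fun s => l s = Z ∧ s ∉ B))
    (T := univ.filter (fun s => l (F.mu s) = Z ∧ s ∉ B))
    (U := univ.filter (fun s => l s = Z ∧ l (F.mu s) = Z')) (fun s hs => by
      simp only [mem_filter, mem_univ, true_and] at hs ⊢
      exact (hmu _ hs.1).imp (fun h => ⟨h, hs.2⟩) (fun h => ⟨hs.1, h⟩))
  have e2 := s1c_mu F (S := univ.filter (fun s => l (F.mu s) = Z ∧ s ∉ B))
    (T := univ.filter (fun t => l t = Z ∧ F.mu t ∉ B)) (U := ∅) (fun s hs => by
      simp only [mem_filter, mem_univ, true_and, PF.mu_mu] at hs ⊢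
      exact Or.inl hs)
  have e3 := s1c_id (S := univ.filter (fun s => l s = Z ∧ l (F.mu s) = Z'))
    (T := univ.filter (fun t => l t = Z ∧ F.mu t ∉ B))
    (U := univ.filter (fun t => F.mu t ∈ B ∧ l (F.mu t) = Z' ∧ l t = Z)) (fun s hs => by
      simp only [mem_filter, mem_univ, true_and] at hs ⊢
      by_cases h : F.mu s ∈ B
      · exact Or.inr ⟨h, hs.2, hs.1⟩
      · exact Or.inl ⟨hs.1, h⟩)
  have e4 := s1c_mu F (S := univ.filter (fun t => F.mu t ∈ B ∧ l (F.mu t) = Z' ∧ l t = Z))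
    (T := univ.filter (fun s => s ∈ B ∧ l s = Z' ∧ l (F.mu s) = Z)) (U := ∅) (fun s hs => by
      simp only [mem_filter, mem_univ, true_and, PF.mu_mu] at hs ⊢
      exact Or.inl hs)
  rw [card_empty] at e2 e4
  omega

private lemma s1c_c :
    (univ.filter (fun s => s ∈ B ∧ l s = Z' ∧ l (F.mu s) = Z)).card ≤
      (univ.filter (fun s => s ∈ B ∧ l s = Z)).card +
      (univ.filter (fun t => l t = Z' ∧ F.mu t ∉ B)).card := by
  have e1 := s1c_id (S := univ.filter (fun s => s ∈ B ∧ l s = Z' ∧ l (F.mu s) = Z))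
    (T := univ.filter (fun s => F.mu s ∈ B ∧ l (F.mu s) = Z))
    (U := univ.filter (fun t => l t = Z' ∧ F.mu t ∉ B)) (fun s hs => by
      simp only [mem_filter, mem_univ, true_and] at hs ⊢
      by_cases h : F.mu s ∈ B
      · exact Or.inl ⟨h, hs.2.2⟩
      · exact Or.inr ⟨hs.2.1, h⟩)
  have e2 := s1c_mu F (S := univ.filter (fun s => F.mu s ∈ B ∧ l (F.mu s) = Z))
    (T := univ.filter (fun s => s ∈ B ∧ l s = Z)) (U := ∅) (fun s hs => by
      simp only [mem_filter, mem_univ, true_and] at hs ⊢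
      exact Or.inl hs)
  rw [card_empty] at e2
  omega

private lemma s1c_d (hmu : ∀ s, l s = Z → l (F.mu s) = Z ∨ l (F.mu s) = Z') :
    (univ.filter (fun s => l s = Z ∧ s ∉ B)).card ≤
      (univ.filter (fun t => l t = Z ∧ F.mu t ∉ B)).card +
      (univ.filter (fun t => l t = Z' ∧ F.mu t ∉ B)).card :=
  s1c_mu F fun s hs => by
    simp only [mem_filter, mem_univ, true_and, PF.mu_mu] at hs ⊢
    exact (hmu _ hs.1).imp (fun h => ⟨h, hs.2⟩) (fun h => ⟨h, hs.2⟩)

private def s1cD (s : Stub V) : ℕ :=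
  (((PF.labSet l Z ×ˢ PF.labSet l Z).filter (fun p => ¬ F.adj p.1 p.2)).filter
    (fun p => p.1 = s)).card

private lemma s1c_sum : ∑ s, s1cD F l Z s =
    ((PF.labSet l Z ×ˢ PF.labSet l Z).filter (fun p => ¬ F.adj p.1 p.2)).card :=
  (card_eq_sum_card_fiberwise (f := Prod.fst) (t := univ) fun _ _ => mem_univ _).symm

private lemma s1c_e {s : Stub V} (hs : l s = Z) :
    (PF.labSet l Z).card ≤ (F.NS l s.1 (F.kept s) Z).card + s1cD F l Z s := by
  refine (s1c_id (T := F.NS l s.1 (F.kept s) Z)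
    (U := (((PF.labSet l Z ×ˢ PF.labSet l Z).filter (fun p => ¬ F.adj p.1 p.2)).filter
      (fun p => p.1 = s)).image Prod.snd) fun t ht => ?_).trans (add_le_add le_rfl card_image_le)
  by_cases ha : F.adj s t
  · left
    simp only [PF.NS, PF.labSet, mem_filter, mem_univ, true_and] at ht ⊢
    exact ⟨ht, ha.1.symm, ha.2.2, ha.2.1⟩
  · right
    refine mem_image.mpr ⟨(s, t), mem_filter.mpr ⟨mem_filter.mpr ⟨mem_product.mpr ⟨?_, ht⟩, ha⟩,
      rfl⟩, rfl⟩
    simp only [PF.labSet, mem_filter, mem_univ, true_and]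
    exact hs

private lemma s1c_arith {n k z a d g : ℕ} (h1 : n ≤ k * z) (h2 : 2 * k * g ≤ n) (e : z ≤ a + d)
    (hlt : a < n / (2 * k)) : g < d := by
  by_contra hle
  have e4 := Nat.mul_div_le n (2 * k)
  have e5 := Nat.mul_le_mul_left (2 * k) hlt
  have e6 := Nat.mul_le_mul_left (2 * k) (e.trans (add_le_add le_rfl (not_lt.mp hle)))
  have hk : 0 < k := Nat.pos_of_ne_zero (by rintro rfl; simp at hlt)
  rw [Nat.succ_eq_add_one] at e5
  nlinarith

end sets

end fin

variable {I : ℕ → Inst}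

variable {A : SSet I}

theorem clique_Z (hI : Grow I) (hA : Closed I A) (hX : BigX I A) (b : Bool) :
    Null2 I (fun i => ((PF.labSet (labS I A i) (Zof b) ×ˢ PF.labSet (labS I A i) (Zof b)).filter
      (fun p => ¬ (I i).F.adj p.1 p.2)).card) := by
  have h0 := (ty00_null hI hA hX).mul_n
  refine (((((null_const hI 1).mul_n.add (tight_pairs hA)).add h0).add h0).const_mul 4).mono
    (Eventually.of_forall fun i => ?_)
  have := s1c_count (I i).F (A i) b
  rw [Fintype.card_fin] at this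
  convert this using 3
  rfl

theorem ns_Z (hI : Grow I) (hA : Closed I A) (hX : BigX I A) (b : Bool) :
    NSlim I (labS I A) (Zof b) (Zof b) := by
  intro B hB hY
  have H : ∀ c : Bool,
      ¬ Null I (fun i => (univ.filter (fun s => s ∈ B i ∧ labS I A i s = Zof c)).card) →
      Null I (fun i =>
        (univ.filter (fun t => labS I A i t = Zof c ∧ (I i).F.mu t ∉ B i)).card) := by
    intro c hc
    refine dense_leak hI (X := fun i => univ.filter (fun s => s ∈ B i ∧ labS I A i s = Zof c))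
      (Y := fun i => univ.filter (fun t => labS I A i t = Zof c ∧ (I i).F.mu t ∉ B i)) hB
      (fun i s hs => (mem_filter.mp hs).2.1) (fun i t ht => (mem_filter.mp ht).2.2)
      ((clique_Z hI hA hX c).mono (Eventually.of_forall fun i => card_le_card ?_)) hc
    rintro ⟨s, t⟩ hp
    simp only [mem_filter, mem_product, PF.labSet, mem_univ, true_and] at hp ⊢
    exact ⟨⟨hp.1.1.2, hp.1.2.1⟩, hp.2⟩
  have hmu : ∀ i s, labS I A i s = Zof b →
      labS I A i ((I i).F.mu s) = Zof b ∨ labS I A i ((I i).F.mu s) = Zof (!b) := by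
    intro i s hs
    refine s1c_lab (I i).F (A i) b ?_
    rw [PF.phi_mu, s1c_zero (I i).F (A i) hs, neg_zero]
  by_cases hC : Null I (fun i => (univ.filter (fun s => s ∈ B i ∧ labS I A i s = Zof (!b) ∧
      labS I A i ((I i).F.mu s) = Zof b)).card)
  · have h1 := H b (fun h => hY ((h.add hC).mono (Eventually.of_forall fun i => by
      convert s1c_a (I i).F (labS I A i) (Zof b) (Zof (!b)) (B i) (hmu i))))
    exact ((h1.const_mul 2).add hC).mono (Eventually.of_forall fun i => by
      convert s1c_b (I i).F (labS I A i) (Zof b) (Zof (!b)) (B i) (hmu i))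
  · have h2 := H (!b) (fun h => hC (h.mono (Eventually.of_forall fun i => card_le_card
      fun s hs => by
        simp only [mem_filter, mem_univ, true_and] at hs ⊢
        exact ⟨hs.1, hs.2.1⟩)))
    have h1 := H b (fun h => hC ((h.add h2).mono (Eventually.of_forall fun i => by
      convert s1c_c (I i).F (labS I A i) (Zof b) (Zof (!b)) (B i))))
    exact (h1.add h2).mono (Eventually.of_forall fun i => by
      convert s1c_d (I i).F (labS I A i) (Zof b) (Zof (!b)) (B i) (hmu i))

theorem deg_Z (hI : Grow I) (hA : Closed I A) (hX : BigX I A) (b : Bool) : ∃ k0 : ℕ, 0 < k0 ∧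
    Null I (fun i => (univ.filter (fun s => labS I A i s = Zof b ∧
      ((I i).F.NS (labS I A i) s.1 ((I i).F.kept s) (Zof b)).card < (I i).n / k0)).card) := by
  by_cases hZ : Null I (fun i => (PF.labSet (labS I A i) (Zof b)).card)
  · refine ⟨1, one_pos, hZ.mono (Eventually.of_forall fun i => card_le_card fun s hs => ?_)⟩
    simp only [mem_filter, mem_univ, true_and, PF.labSet] at hs ⊢
    exact hs.1
  obtain ⟨k, hk, hev⟩ := (not_null_iff hI).mp hZ
  obtain ⟨g, hg, hd⟩ := markov hI (α := fun i => Stub (Fin (I i).n))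
    (fun i s => s1cD (I i).F (labS I A i) (Zof b) s)
    ((clique_Z hI hA hX b).mono (Eventually.of_forall fun i =>
      (s1c_sum (I i).F (labS I A i) (Zof b)).le))
  refine ⟨2 * k, by omega, hd.mono ?_⟩
  filter_upwards [hev, (null_iff hI).mp hg (2 * k)] with i h1 h2
  refine card_le_card fun s hs => mem_filter.mpr ⟨mem_univ _, ?_⟩
  obtain ⟨hs, hlt⟩ := (mem_filter.mp hs).2
  exact s1c_arith h1 h2 (s1c_e (I i).F (labS I A i) (Zof b) hs) hlt

end Pool.Agent.BE
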