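import Pool.Agent.Lib.MP_dd4ef3_lc.BE.S1a

set_option autoImplicit false

open Finset Classical Filter

noncomputable section

namespace Pool.Agent.BE

section fin

variable {V C : Type} [Fintype V] [DecidableEq V] {G : Ctx V C} (F : PF G) (A : Finset (Stub V))

private lemma s1d_count (s : Stub V) (W : Finset V) (K : Node)
    (hW : ∀ w ∈ W, w ≠ s.1 ∧ F.ch A s.1 (G.c s.1 w) = s ∧
      (F.phi A s + F.phi A (F.ch A w (G.c w s.1)) = 0 → F.labA A (F.ch A w (G.c w s.1)) = K)) :
    W.card ≤ (F.NS (F.labA A) s.1 (F.kept s) K).card +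
      (univ.filter (fun w => (s.1, w) ∈ F.badPairs A)).card := by
  have h1 : W ⊆ (F.NS (F.labA A) s.1 (F.kept s) K).image Prod.fst ∪
      univ.filter (fun w => (s.1, w) ∈ F.badPairs A) := by
    intro w hw
    obtain ⟨a, b, c⟩ := hW w hw
    by_cases hb : (s.1, w) ∈ F.badPairs A
    · exact mem_union_right _ (mem_filter.2 ⟨mem_univ _, hb⟩)
    · refine mem_union_left _ (mem_image.2 ⟨F.ch A w (G.c w s.1), ?_, F.ch_fst A _ _⟩)
      have hm : F.mA A s.1 w = 0 := by
        by_contra hne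
        exact hb (mem_filter.2 ⟨mem_univ _, a.symm, hne⟩)
      unfold PF.mA at hm
      rw [b] at hm
      have hadj := F.adj_ch A (u := s.1) (w := w) a.symm
      rw [b] at hadj
      exact F.mem_NS_kept.2 ⟨c hm, hadj⟩
  have h2 := card_le_card h1
  have h3 := card_union_le ((F.NS (F.labA A) s.1 (F.kept s) K).image Prod.fst)
    (univ.filter (fun w => (s.1, w) ∈ F.badPairs A))
  have h4 : ((F.NS (F.labA A) s.1 (F.kept s) K).image Prod.fst).card ≤
      (F.NS (F.labA A) s.1 (F.kept s) K).card := card_image_le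
  omega

private lemma s1d_labX {s : Stub V} : F.labA A s = .X ↔ F.phi A s = 1 := by
  unfold PF.labA
  split_ifs with h1 h2 h3 <;> simp [h1]

private lemma s1d_labXb {s : Stub V} : F.labA A s = .Xb ↔ F.phi A s = -1 := by
  unfold PF.labA
  split_ifs with h1 h2 h3
  · simp [h1]
  · simp [h2]
  · simp [h2]
  · simp [h2]

private lemma s1d_labZ1 {s : Stub V} :
    F.labA A s = .Z1 ↔ F.phi A s = 0 ∧ F.phi A (nu s) = 1 := by
  have := F.phi_cases A s
  unfold PF.labA
  split_ifs with h1 h2 h3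
  · simp [h1]
  · simp [h2]
  · simp only [true_iff]; exact ⟨by omega, h3⟩
  · simp [h3]

private lemma s1d_labZ2 {s : Stub V} (h0 : F.phi A s = 0) (h1 : F.phi A (nu s) ≠ 1) :
    F.labA A s = .Z2 := by
  unfold PF.labA
  rw [if_neg (by omega), if_neg (by omega), if_neg h1]

private lemma s1d_lo {s : Stub V} (h : F.phi A s < F.phi A (nu s)) :
    F.hi A s.1 = nu s ∧ F.lo A s.1 = s := by
  have h1 : F.hi A (nu s).1 = nu s := F.eq_hi_of_lt A (by simpa using h)
  rw [nu_fst] at h1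
  exact ⟨h1, by unfold PF.lo; rw [h1, nu_nu]⟩

private lemma s1d_same {s : Stub V} {p : ℤ} (h : F.phi A s = p) (h' : F.phi A (nu s) = p) :
    s.1 ∈ F.ty A p p := by
  rw [F.mem_ty]
  have e : F.lo A s.1 = nu (F.hi A s.1) := rfl
  rcases eq_or_eq_nu (s := s) (t := F.hi A s.1) (F.hi_fst A _) with h1 | h1
  · rw [e, h1]; exact ⟨h, h'⟩
  · rw [e, h1, nu_nu]; exact ⟨h', h⟩

private lemma s1d_X {s : Stub V} (h : F.labA A s = .X) (ht : s.1 ∉ F.ty A 1 1) :
    Fintype.card V ≤ 2 * ((F.NS (F.labA A) s.1 (F.kept s) .Xb).card +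
      (univ.filter (fun w => (s.1, w) ∈ F.badPairs A)).card) := by
  have h1 := (s1d_labX F A).1 h
  have h2 : F.phi A (nu s) < F.phi A s := by
    have := F.phi_cases A (nu s)
    have h3 : F.phi A (nu s) ≠ 1 := fun e => ht (s1d_same F A h1 e)
    omega
  have h3 := F.eq_hi_of_lt A h2
  have hc := s1d_count F A s (univ.filter (fun w => w ≠ s.1 ∧ some (G.c s.1 w) ≠ F.kept s)) .Xb
    (fun w hw => by
      obtain ⟨a, b⟩ := (mem_filter.1 hw).2
      refine ⟨a, ?_, fun e => (s1d_labXb F A).2 (by omega)⟩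
      unfold PF.ch
      rw [h3, if_neg b])
  have hd := deg_opt G s.1 (F.kept s)
  have hu : (univ : Finset V) ⊆ insert s.1
      (univ.filter (fun w => w ≠ s.1 ∧ some (G.c s.1 w) ≠ F.kept s) ∪
        univ.filter (fun w => w ≠ s.1 ∧ some (G.c s.1 w) = F.kept s)) := by
    intro w _
    by_cases a : w = s.1
    · exact mem_insert.2 (Or.inl a)
    · refine mem_insert.2 (Or.inr ?_)
      by_cases b : some (G.c s.1 w) = F.kept s
      · exact mem_union_right _ (mem_filter.2 ⟨mem_univ _, a, b⟩)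
      · exact mem_union_left _ (mem_filter.2 ⟨mem_univ _, a, b⟩)
  have h5 := (card_le_card hu).trans ((card_insert_le _ _).trans
    (Nat.add_le_add_right (card_union_le _ _) 1))
  rw [card_univ] at h5
  omega

private lemma s1d_Xb {s : Stub V} (h : F.labA A s = .Xb) (ht : s.1 ∉ F.ty A (-1) (-1)) :
    F.phi A (F.lo A s.1) < F.phi A (F.hi A s.1) ∧
    F.fdeg A s.1 ≤ (F.NS (F.labA A) s.1 (F.kept s) .X).card +
      (univ.filter (fun w => (s.1, w) ∈ F.badPairs A)).card := by
  have h1 := (s1d_labXb F A).1 h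
  have h2 : F.phi A s < F.phi A (nu s) := by
    have := F.phi_cases A (nu s)
    have h3 : F.phi A (nu s) ≠ -1 := fun e => ht (s1d_same F A h1 e)
    omega
  obtain ⟨h3, h4⟩ := s1d_lo F A h2
  refine ⟨by rw [h3, h4]; exact h2, ?_⟩
  refine s1d_count F A s _ .X fun w hw => ?_
  obtain ⟨a, b⟩ := (mem_filter.1 hw).2
  refine ⟨a, ?_, fun e => (s1d_labX F A).2 (by omega)⟩
  unfold PF.ch
  rw [if_pos b, h4]

private lemma s1d_Z {s : Stub V} (h : F.labA A s = .Z1) :
    F.phi A (F.lo A s.1) < F.phi A (F.hi A s.1) ∧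
    F.fdeg A s.1 ≤ (F.NS (F.labA A) s.1 (F.kept s) .Z2).card +
      (univ.filter (fun w => (s.1, w) ∈ F.badPairs A)).card + (F.ty A 1 0).card := by
  obtain ⟨h1, h1'⟩ := (s1d_labZ1 F A).1 h
  have h2 : F.phi A s < F.phi A (nu s) := by omega
  obtain ⟨h3, h4⟩ := s1d_lo F A h2
  refine ⟨by rw [h3, h4]; exact h2, ?_⟩
  have hc := s1d_count F A s
    (univ.filter (fun w => w ≠ s.1 ∧ some (G.c s.1 w) = F.kept (F.hi A s.1)) \ F.ty A 1 0) .Z2
    (fun w hw => by
      obtain ⟨hw1, hw2⟩ := mem_sdiff.1 hw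
      obtain ⟨a, b⟩ := (mem_filter.1 hw1).2
      refine ⟨a, ?_, fun e => s1d_labZ2 F A (by omega) fun e' => hw2 ?_⟩
      · unfold PF.ch
        rw [if_pos b, h4]
      · obtain ⟨k1, k2⟩ := s1d_lo F A (s := F.ch A w (G.c w s.1)) (by omega)
        rw [F.ch_fst] at k1 k2
        rw [F.mem_ty, k1, k2]
        exact ⟨e', by omega⟩)
  have h5 := le_card_sdiff (F.ty A 1 0)
    (univ.filter (fun w => w ≠ s.1 ∧ some (G.c s.1 w) = F.kept (F.hi A s.1)))
  unfold PF.fdeg
  omega

end fin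

variable {I : ℕ → Inst}

private lemma s1d_null (S : SSet I) (B : VSet I) (hB : Null I (fun i => (B i).card))
    (h : ∀ᶠ i in UF, ∀ s ∈ S i, s.1 ∈ B i) : Null I (fun i => (S i).card) := by
  refine (hB.const_mul 2).mono (h.mono fun i hi => ?_)
  have h1 : S i ⊆ B i ×ˢ (univ : Finset Bool) := fun s hs => mem_product.2 ⟨hi s hs, mem_univ _⟩
  have h2 := card_le_card h1
  rw [card_product, card_univ, Fintype.card_bool] at h2
  omega

private lemma s1d_union {B B' : VSet I} (hB : Null I (fun i => (B i).card))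
    (hB' : Null I (fun i => (B' i).card)) : Null I (fun i => (B i ∪ B' i).card) :=
  (hB.add hB').mono (Eventually.of_forall fun _ => card_union_le _ _)

variable {A : SSet I}

theorem deg_X (hI : Grow I) (hA : Closed I A) :
    Null I (fun i => (univ.filter (fun s => labS I A i s = .X ∧
      ((I i).F.NS (labS I A i) s.1 ((I i).F.kept s) .Xb).card < (I i).n / 3)).card) := by
  obtain ⟨g, hg, hr⟩ := tight_row hI hA
  refine s1d_null _ _ (s1d_union (ty11_null hI hA) hr) ?_
  filter_upwards [(null_iff hI).1 hg 6] with i h6 s hs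
  obtain ⟨a, b⟩ := (mem_filter.1 hs).2
  by_contra hc
  rw [mem_union, not_or] at hc
  have h1 := s1d_X (I i).F (A i) a hc.1
  have h2 := hc.2
  rw [mem_filter, not_and, not_lt] at h2
  have h3 := h2 (mem_univ _)
  rw [Fintype.card_fin] at h1
  unfold labS at b
  omega

theorem deg_Xb (hI : Grow I) (hA : Closed I A) :
    Null I (fun i => (univ.filter (fun s => labS I A i s = .Xb ∧
      ((I i).F.NS (labS I A i) s.1 ((I i).F.kept s) .X).card < (I i).n / 3)).card) := by
  obtain ⟨g, hg, hr⟩ := tight_row hI hA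
  obtain ⟨g', hg', hd⟩ := tight_deg hI hA
  refine s1d_null _ _ (s1d_union (s1d_union (tymm_null hI hA) hr) hd) ?_
  filter_upwards [(null_iff hI).1 hg 12, (null_iff hI).1 hg' 6] with i h6 h6' s hs
  obtain ⟨a, b⟩ := (mem_filter.1 hs).2
  by_contra hc
  rw [mem_union, mem_union, not_or, not_or] at hc
  obtain ⟨⟨c1, c2⟩, c3⟩ := hc
  obtain ⟨h0, h1⟩ := s1d_Xb (I i).F (A i) a c1
  rw [mem_filter, not_and, not_lt] at c2
  have h3 := c2 (mem_univ _)
  rw [mem_filter, not_and, not_and, not_lt] at c3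
  have h4 := c3 (mem_univ _) h0
  unfold labS at b
  omega

theorem deg_TZ (hI : Grow I) (hA : Closed I A)
    (hT : ¬ Null I (fun i => ((I i).F.ty (A i) 1 (-1)).card)) : ∃ k0 : ℕ, 0 < k0 ∧
    Null I (fun i => (univ.filter (fun s => labS I A i s = .Z1 ∧
      ((I i).F.NS (labS I A i) s.1 ((I i).F.kept s) .Z2).card < (I i).n / k0)).card) := by
  obtain ⟨g, hg, hr⟩ := tight_row hI hA
  obtain ⟨g', hg', hd⟩ := tight_deg hI hA
  obtain ⟨k, hk, hT⟩ := (not_null_iff hI).1 hT
  refine ⟨4 * k, by omega, s1d_null _ _ (s1d_union hr hd) ?_⟩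
  have hn := ((hg.const_mul 2).add hg').add ((tymm_null hI hA).const_mul 2)
  filter_upwards [(null_iff hI).1 hn (2 * k), hT] with i h6 hT s hs
  obtain ⟨a, b⟩ := (mem_filter.1 hs).2
  by_contra hc
  rw [mem_union, not_or] at hc
  obtain ⟨c2, c3⟩ := hc
  obtain ⟨h0, h1⟩ := s1d_Z (I i).F (A i) a
  rw [mem_filter, not_and, not_lt] at c2
  have h3 := c2 (mem_univ _)
  rw [mem_filter, not_and, not_and, not_lt] at c3
  have h4 := c3 (mem_univ _) h0
  have h5 := (I i).F.ty_balance (A i)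
  have h7 := (I i).F.ty_total (A i)
  rw [Fintype.card_fin] at h7
  unfold labS at b
  generalize ((I i).F.NS ((I i).F.labA (A i)) s.1 ((I i).F.kept s) .Z2).card = N at b h1
  generalize ((I i).F.ty (A i) 1 (-1)).card = T at hT h7
  generalize ((I i).F.ty (A i) (-1) (-1)).card = M at h5 h6 h7
  have h8 : T ≤ 2 * N + (2 * g i + g' i + 2 * M) := by omega
  have h9 : 4 * k * N < (I i).n := by
    have e1 : 4 * k * N < 4 * k * ((I i).n / (4 * k)) := Nat.mul_lt_mul_of_pos_left b (by omega)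
    exact e1.trans_le (Nat.mul_div_le _ _)
  have h10 : 2 * k * T ≤ 2 * k * (2 * N + (2 * g i + g' i + 2 * M)) := Nat.mul_le_mul_left _ h8
  rw [mul_add] at h10
  have e2 : 2 * k * T = 2 * (k * T) := by ring
  have e3 : 2 * k * (2 * N) = 4 * k * N := by ring
  omega

end Pool.Agent.BE
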