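import Pool.Agent.Lib.MP_dd4ef3_lc.BE.S1b
import Pool.Agent.Lib.MP_dd4ef3_lc.BE.S1c
import Pool.Agent.Lib.MP_dd4ef3_lc.BE.S1d

set_option autoImplicit false

open Finset Classical Filter

noncomputable section

namespace Pool.Agent.BE

section fin

variable {V C : Type} [Fintype V] [DecidableEq V] {G : Ctx V C} (F : PF G) (A : Finset (Stub V))

lemma S1e_X (s : Stub V) : F.labA A s = .X ↔ F.phi A s = 1 := by
  unfold PF.labA
  split_ifs with h1 h2 h3 <;> simp [h1]

lemma S1e_Xb (s : Stub V) : F.labA A s = .Xb ↔ F.phi A s = -1 := by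
  unfold PF.labA
  split_ifs with h1 h2 h3
  · simp [h1]
  · simp [h2]
  · simp [h2]
  · simp [h2]

lemma S1e_Z (s : Stub V) : (F.labA A s = .Z1 ∨ F.labA A s = .Z2) ↔ F.phi A s = 0 := by
  have := F.phi_cases A s
  unfold PF.labA
  split_ifs with h1 h2 h3
  · simp [h1]
  · simp [h2]
  · simp; omega
  · simp; omega

lemma S1e_Z1 (s : Stub V) : F.labA A s = .Z1 ↔ F.phi A s = 0 ∧ F.phi A (nu s) = 1 := by
  have := F.phi_cases A s
  unfold PF.labA
  split_ifs with h1 h2 h3
  · simp [h1]
  · simp [h2]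
  · simp [h3]; omega
  · simp [h3]

lemma S1e_Z2 (s : Stub V) : F.labA A s = .Z2 ↔ F.phi A s = 0 ∧ F.phi A (nu s) ≠ 1 := by
  have := F.phi_cases A s
  unfold PF.labA
  split_ifs with h1 h2 h3
  · simp [h1]
  · simp [h2]
  · simp [h3]
  · simp [h3]; omega

lemma S1e_lv (s : Stub V) : lv true (F.labA A s) = F.phi A s := by
  have := F.phi_cases A s
  unfold PF.labA
  split_ifs with h1 h2 h3
  · simp [lv, bsg, cls, h1]
  · simp [lv, bsg, cls, h2]
  · simp only [lv, bsg, cls, if_true]; omega
  · simp only [lv, bsg, cls, if_true]; omega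

/-- vertices whose two stubs have the same level -/
def S1eEq : Finset V :=
  univ.filter (fun v => lv true (F.labA A (v, false)) = lv true (F.labA A (v, true)))

lemma S1e_mem_Eq {v : V} : v ∈ S1eEq F A ↔ F.phi A (v, false) = F.phi A (v, true) := by
  simp only [S1eEq, mem_filter, mem_univ, true_and, S1e_lv]

lemma S1e_Eq_card :
    (S1eEq F A).card ≤ (F.ty A 1 1).card + (F.ty A 0 0).card + (F.ty A (-1) (-1)).card := by
  have hsub : S1eEq F A ⊆ F.ty A 1 1 ∪ F.ty A 0 0 ∪ F.ty A (-1) (-1) := by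
    intro v hv
    have h := (S1e_mem_Eq F A).1 hv
    have hh : F.hi A v = (v, false) := by
      unfold PF.hi
      rw [if_neg (by omega)]
    have hlo : F.lo A v = (v, true) := by
      unfold PF.lo
      rw [hh]; rfl
    simp only [mem_union, PF.mem_ty, hh, hlo]
    rcases F.phi_cases A (v, false) with h1 | h1 | h1
    · exact Or.inl (Or.inl ⟨h1, by omega⟩)
    · exact Or.inl (Or.inr ⟨h1, by omega⟩)
    · exact Or.inr ⟨h1, by omega⟩
  calc (S1eEq F A).card ≤ _ := card_le_card hsub
    _ ≤ (F.ty A 1 1 ∪ F.ty A 0 0).card + (F.ty A (-1) (-1)).card := card_union_le _ _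
    _ ≤ _ := Nat.add_le_add_right (card_union_le _ _) _

/-- atypical stubs are stubs with few neighbours -/
lemma S1e_notTyp (D d1 d2 d3 d4 : ℕ) (h1 : D ≤ d1) (h2 : D ≤ d2) (h3 : D ≤ d3) (h4 : D ≤ d4) :
    (univ.filter (fun s => ¬ F.Typ (F.labA A) false D s)).card ≤
      (univ.filter (fun s => F.labA A s = .X ∧
        (F.NS (F.labA A) s.1 (F.kept s) .Xb).card < d1)).card +
      (univ.filter (fun s => F.labA A s = .Xb ∧
        (F.NS (F.labA A) s.1 (F.kept s) .X).card < d2)).card +
      (univ.filter (fun s => F.labA A s = Zof false ∧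
        (F.NS (F.labA A) s.1 (F.kept s) (Zof false)).card < d3)).card +
      (univ.filter (fun s => F.labA A s = Zof true ∧
        (F.NS (F.labA A) s.1 (F.kept s) (Zof true)).card < d4)).card := by
  refine le_trans (card_le_card (t := _ ∪ _ ∪ _ ∪ _) ?_)
    (le_trans (card_union_le _ _) (Nat.add_le_add_right (le_trans (card_union_le _ _)
      (Nat.add_le_add_right (card_union_le _ _) _)) _))
  intro s hs
  have hs' : ¬ F.Typ (F.labA A) false D s := (mem_filter.1 hs).2
  have hlt : (F.NS (F.labA A) s.1 (F.kept s) (mir false (F.labA A s))).card < D := by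
    by_contra hge
    apply hs'
    refine ⟨not_lt.1 hge, ?_, ?_⟩
    · rintro (h | h)
      · rw [h]
        have := (S1e_X F A s).1 h
        exact (S1e_Xb F A _).2 (by rw [F.phi_mu]; omega)
      · rw [h]
        have := (S1e_Xb F A s).1 h
        exact (S1e_X F A _).2 (by rw [F.phi_mu]; omega)
    · intro h
      have := (S1e_Z F A s).1 h
      exact (S1e_Z F A _).2 (by rw [F.phi_mu]; omega)
  simp only [mem_union, mem_filter, mem_univ, true_and]
  cases hK : F.labA A s
  · rw [hK] at hlt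
    exact Or.inl (Or.inl (Or.inl ⟨rfl, lt_of_lt_of_le hlt h1⟩))
  · rw [hK] at hlt
    exact Or.inl (Or.inl (Or.inr ⟨rfl, lt_of_lt_of_le hlt h2⟩))
  · rw [hK] at hlt
    exact Or.inl (Or.inr ⟨rfl, lt_of_lt_of_le hlt h3⟩)
  · rw [hK] at hlt
    exact Or.inr ⟨rfl, lt_of_lt_of_le hlt h4⟩

lemma S1e_stubs (B : Finset V) : (univ.filter (fun s : Stub V => s.1 ∈ B)).card = 2 * B.card := by
  have : univ.filter (fun s : Stub V => s.1 ∈ B) = B ×ˢ (univ : Finset Bool) := by
    ext s; simp
  rw [this]; simp [mul_comm]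

lemma S1e_typ_ne {D : ℕ} {s : Stub V} (h : F.TypV (F.labA A) false D s.1) :
    F.phi A s ≠ F.phi A (nu s) := by
  have h1 := h.2.2 rfl
  rw [S1e_lv, S1e_lv] at h1
  obtain ⟨v, b⟩ := s
  cases b
  · exact h1
  · exact fun e => h1 e.symm

lemma S1e_mem_TT {D : ℕ} {b : Bool} {s : Stub V} (h : F.TypV (F.labA A) false D s.1)
    (hs : F.labA A s = Zof b) : s.1 ∈ F.TT (F.labA A) false D b := by
  have hne := S1e_typ_ne F A h
  refine mem_filter.2 ⟨mem_univ _, h, !s.2, ?_, ?_⟩
  · change F.labA A (nu s) = _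
    cases b
    · exact (S1e_X F A _).2 ((S1e_Z1 F A s).1 hs).2
    · have h2 := (S1e_Z2 F A s).1 hs
      have h3 := F.phi_cases A (nu s)
      exact (S1e_Xb F A _).2 (by omega)
  · rw [Bool.not_not]; exact hs

lemma S1e_Z_card (D : ℕ) (b : Bool) : (PF.labSet (F.labA A) (Zof b)).card ≤
    (F.TT (F.labA A) false D b).card + 2 * (F.atyp (F.labA A) false D).card := by
  rw [← S1e_stubs]
  have hsub : PF.labSet (F.labA A) (Zof b) ⊆
      univ.filter (fun s => F.labA A s = Zof b ∧ F.TypV (F.labA A) false D s.1) ∪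
        univ.filter (fun s : Stub V => s.1 ∈ F.atyp (F.labA A) false D) := by
    intro s hs
    have h1 : F.labA A s = Zof b := (mem_filter.1 hs).2
    by_cases h : F.TypV (F.labA A) false D s.1
    · exact mem_union_left _ (mem_filter.2 ⟨mem_univ _, h1, h⟩)
    · exact mem_union_right _ (mem_filter.2 ⟨mem_univ _, mem_filter.2 ⟨mem_univ _, h⟩⟩)
  refine le_trans (card_le_card hsub) (le_trans (card_union_le _ _) (Nat.add_le_add_right ?_ _))
  refine card_le_card_of_injOn Prod.fst ?_ ?_
  · intro s hs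
    have h := (mem_filter.1 (mem_coe.1 hs)).2
    exact mem_coe.2 (S1e_mem_TT F A h.2 h.1)
  · intro s hs t ht e
    have h := (mem_filter.1 (mem_coe.1 hs)).2
    have h' := (mem_filter.1 (mem_coe.1 ht)).2
    rcases eq_or_eq_nu (s := s) (t := t) e.symm with h1 | h1
    · exact h1.symm
    · exfalso
      have hz : ∀ u, F.labA A u = Zof b → F.phi A u = 0 := by
        intro u hu
        apply (S1e_Z F A u).1
        cases b
        · exact Or.inl hu
        · exact Or.inr hu
      apply S1e_typ_ne F A h.2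
      rw [hz s h.1, ← h1, hz t h'.1]

lemma S1e_TZ_card (D d : ℕ) (hd : D ≤ d) : (PF.labSet (F.labA A) .Z1).card ≤
    (F.TZ (F.labA A) false D).card + (2 * (F.atyp (F.labA A) false D).card +
      (univ.filter (fun s => F.labA A s = .Z1 ∧
        (F.NS (F.labA A) s.1 (F.kept s) .Z2).card < d)).card) := by
  rw [← S1e_stubs]
  refine le_trans (card_le_card (t := _ ∪ (_ ∪ _)) ?_)
    (le_trans (card_union_le _ _) (Nat.add_le_add_left (card_union_le _ _) _))
  intro s hs
  have h1 : F.labA A s = .Z1 := (mem_filter.1 hs).2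
  by_cases h : F.TypV (F.labA A) false D s.1
  · by_cases h2 : (F.NS (F.labA A) s.1 (F.kept s) .Z2).card < d
    · exact mem_union_right _ (mem_union_right _ (mem_filter.2 ⟨mem_univ _, h1, h2⟩))
    · exact mem_union_left _ (mem_filter.2 ⟨mem_univ _, h, h1, le_trans hd (not_lt.1 h2)⟩)
  · exact mem_union_right _ (mem_union_left _
      (mem_filter.2 ⟨mem_univ _, mem_filter.2 ⟨mem_univ _, h⟩⟩))

lemma S1e_P_card (D : ℕ) : (F.ty A 1 0).card ≤
    (F.TT (F.labA A) false D false).card + (F.atyp (F.labA A) false D).card := by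
  refine le_trans (card_le_card (t := _ ∪ _) ?_) (card_union_le _ _)
  intro v hv
  obtain ⟨h1, h2⟩ := (F.mem_ty A).1 hv
  by_cases h : F.TypV (F.labA A) false D v
  · apply mem_union_left
    have hf := F.lo_fst A v
    have : (F.lo A v).1 ∈ F.TT (F.labA A) false D false := by
      apply S1e_mem_TT F A (by rw [hf]; exact h)
      refine (S1e_Z1 F A _).2 ⟨h2, ?_⟩
      unfold PF.lo
      rw [nu_nu]; exact h1
    rwa [hf] at this
  · exact mem_union_right _ (mem_filter.2 ⟨mem_univ _, h⟩)

lemma S1e_Q_card (D : ℕ) : (F.ty A 0 (-1)).card ≤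
    (F.TT (F.labA A) false D true).card + (F.atyp (F.labA A) false D).card := by
  refine le_trans (card_le_card (t := _ ∪ _) ?_) (card_union_le _ _)
  intro v hv
  obtain ⟨h1, h2⟩ := (F.mem_ty A).1 hv
  by_cases h : F.TypV (F.labA A) false D v
  · apply mem_union_left
    have hf := F.hi_fst A v
    have : (F.hi A v).1 ∈ F.TT (F.labA A) false D true := by
      apply S1e_mem_TT F A (by rw [hf]; exact h)
      refine (S1e_Z2 F A _).2 ⟨h1, ?_⟩
      change F.phi A (F.lo A v) ≠ 1
      omega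
    rwa [hf] at this
  · exact mem_union_right _ (mem_filter.2 ⟨mem_univ _, h⟩)

lemma S1e_hub_card (W : Finset V) (T : Finset (Stub V))
    (hW : ∀ s : Stub V, s.1 ∈ W → (F.mu s).1 ∈ W)
    (hT : ∀ s : Stub V, s.1 ∈ W → F.phi A s = 1 → s ∈ T) :
    W.card ≤ (S1eEq F A).card + 2 * T.card := by
  have hsub : W ⊆ S1eEq F A ∪ (T.image Prod.fst ∪ T.image (fun s => (F.mu s).1)) := by
    intro v hv
    have key : ∀ b, F.phi A (v, b) ≠ 0 →
        v ∈ T.image Prod.fst ∪ T.image (fun s => (F.mu s).1) := by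
      intro b hb
      rcases F.phi_cases A (v, b) with h1 | h1 | h1
      · exact mem_union_left _ (mem_image.2 ⟨(v, b), hT _ hv h1, rfl⟩)
      · exact absurd h1 hb
      · refine mem_union_right _ (mem_image.2 ⟨F.mu (v, b), hT _ (hW _ hv) ?_, by simp⟩)
        rw [F.phi_mu]; omega
    by_cases h : F.phi A (v, false) = F.phi A (v, true)
    · exact mem_union_left _ ((S1e_mem_Eq F A).2 h)
    · apply mem_union_right
      by_cases h0 : F.phi A (v, false) = 0
      · exact key true (by omega)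
      · exact key false h0
  have h1 := card_le_card hsub
  have h2 := card_union_le (S1eEq F A) (T.image Prod.fst ∪ T.image (fun s => (F.mu s).1))
  have h3 := card_union_le (T.image Prod.fst) (T.image (fun s => (F.mu s).1))
  have h4 : (T.image Prod.fst).card ≤ T.card := card_image_le
  have h5 : (T.image (fun s => (F.mu s).1)).card ≤ T.card := card_image_le
  omega

end fin

variable {I : ℕ → Inst}

lemma S1e_dich (hI : Grow I) (f : ℕ → ℕ) :
    ∃ k : ℕ, Null I f ∨ ∀ᶠ i in UF, (I i).n ≤ k * f i := by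
  by_cases h : Null I f
  · exact ⟨0, Or.inl h⟩
  · obtain ⟨k, -, hk⟩ := (not_null_iff hI).1 h
    exact ⟨k, Or.inr hk⟩

lemma S1e_big (hI : Grow I) {f t e : ℕ → ℕ} {k k0 : ℕ} (hk : 2 * k ≤ k0)
    (hf : ∀ᶠ i in UF, (I i).n ≤ k * f i) (he : Null I e) (h : ∀ i, f i ≤ t i + e i) :
    ∀ᶠ i in UF, (I i).n ≤ k0 * t i := by
  filter_upwards [hf, (null_iff hI).1 he (2 * k)] with i h1 h2
  have h3 : k * f i ≤ k * t i + k * e i := by
    rw [← mul_add]; exact Nat.mul_le_mul_left _ (h i)
  have h4 : 2 * k * t i ≤ k0 * t i := Nat.mul_le_mul_right _ hk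
  have h5 : 2 * k * t i = 2 * (k * t i) := mul_assoc _ _ _
  have h6 : 2 * k * e i = 2 * (k * e i) := mul_assoc _ _ _
  omega

lemma S1e_Eq_null (hI : Grow I) {A : SSet I} (hA : Closed I A) (hX : BigX I A) :
    Null I (fun i => (S1eEq (I i).F (A i)).card) :=
  Null.mono (((ty11_null hI hA).add (ty00_null hI hA hX)).add (tymm_null hI hA))
    (Eventually.of_forall fun i => S1e_Eq_card (I i).F (A i))

lemma S1e_hub (hI : Grow I) {A : SSet I} (hA : Closed I A) (hX : BigX I A) (W : VSet I)
    (T : SSet I) (hW : ∀ i s, s.1 ∈ W i → ((I i).F.mu s).1 ∈ W i)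
    (hT : ∀ i s, s.1 ∈ W i → (I i).F.phi (A i) s = 1 → s ∈ T i)
    (hn : ¬ Null I (fun i => (W i).card)) : ¬ Null I (fun i => (T i).card) := fun h =>
  hn (Null.mono ((S1e_Eq_null hI hA hX).add (h.const_mul 2))
    (Eventually.of_forall fun i => S1e_hub_card (I i).F (A i) (W i) (T i) (hW i) (hT i)))

theorem str_S1 (hI : Grow I) (hl : Null I (fun i => (I i).F.loops.card)) {A : SSet I}
    (hA : Closed I A) (hX : BigX I A) : ∃ k0, Str I false (labS I A) k0 := by
  obtain ⟨k1, hk1, hZ1⟩ := deg_Z hI hA hX false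
  obtain ⟨k2, hk2, hZ2⟩ := deg_Z hI hA hX true
  obtain ⟨m1, hm1⟩ := S1e_dich hI (fun i => (PF.labSet (labS I A i) (Zof false)).card)
  obtain ⟨m2, hm2⟩ := S1e_dich hI (fun i => (PF.labSet (labS I A i) (Zof true)).card)
  obtain ⟨k3, hk3, hT⟩ : ∃ k3 : ℕ, 0 < k3 ∧ (Null I (fun i => ((I i).F.ty (A i) 1 (-1)).card) ∨
      Null I (fun i => (univ.filter (fun s => labS I A i s = .Z1 ∧
        ((I i).F.NS (labS I A i) s.1 ((I i).F.kept s) .Z2).card < (I i).n / k3)).card)) := by
    by_cases h : Null I (fun i => ((I i).F.ty (A i) 1 (-1)).card)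
    · exact ⟨1, one_pos, Or.inl h⟩
    · obtain ⟨k, hk, h'⟩ := deg_TZ hI hA h
      exact ⟨k, hk, Or.inr h'⟩
  obtain ⟨k0, hk0⟩ : ∃ k0 : ℕ, k0 = 3 + k1 + k2 + k3 + 2 * m1 + 2 * m2 := ⟨_, rfl⟩
  have hat : Null I (fun i => ((I i).F.atyp (labS I A i) false ((I i).n / k0)).card) := by
    refine atyp_null (labS I A) false (fun i => (I i).n / k0) hl ?_ (fun _ => ?_)
    · refine Null.mono ((((deg_X hI hA).add (deg_Xb hI hA)).add hZ1).add hZ2)
        (Eventually.of_forall fun i => ?_)
      exact S1e_notTyp (I i).F (A i) _ _ _ _ _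
        (Nat.div_le_div_left (by omega) (by norm_num))
        (Nat.div_le_div_left (by omega) (by norm_num))
        (Nat.div_le_div_left (by omega) hk1) (Nat.div_le_div_left (by omega) hk2)
    · exact S1e_Eq_null hI hA hX
  refine ⟨k0, by omega, fun h => absurd h (by simp), hat, ?_, ?_, ?_, ?_⟩
  · intro b
    cases b
    · rcases hm1 with h | h
      · exact Or.inl h
      · exact Or.inr (S1e_big hI (by omega) h (hat.const_mul 2)
          (fun i => S1e_Z_card (I i).F (A i) _ false))
    · rcases hm2 with h | h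
      · exact Or.inl h
      · exact Or.inr (S1e_big hI (by omega) h (hat.const_mul 2)
          (fun i => S1e_Z_card (I i).F (A i) _ true))
  · rcases hm1 with h | h
    · exact Or.inl h
    rcases hT with hT | hT
    · refine Or.inr (Or.inr (Or.inr ?_))
      have hN := ((((ty11_null hI hA).add hT).add (ty00_null hI hA hX)).add
        (tymm_null hI hA)).add (hat.const_mul 2)
      filter_upwards [(null_iff hI).1 hN 3] with i hi
      have h1 := (I i).F.ty_total (A i)
      rw [Fintype.card_fin] at h1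
      have h2 : ((I i).F.ty (A i) 1 0).card ≤
          ((I i).F.TT (labS I A i) false ((I i).n / k0) false).card +
            ((I i).F.atyp (labS I A i) false ((I i).n / k0)).card :=
        S1e_P_card (I i).F (A i) _
      have h3 : ((I i).F.ty (A i) 0 (-1)).card ≤
          ((I i).F.TT (labS I A i) false ((I i).n / k0) true).card +
            ((I i).F.atyp (labS I A i) false ((I i).n / k0)).card :=
        S1e_Q_card (I i).F (A i) _
      omega
    · exact Or.inr (Or.inr (Or.inl (S1e_big hI (by omega) h ((hat.const_mul 2).add hT)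
        (fun i => S1e_TZ_card (I i).F (A i) _ _ (Nat.div_le_div_left (by omega) hk3)))))
  · intro K
    cases K
    · exact ns_X hI hA hX
    · exact ns_Xb hI hA hX
    · exact ns_Z hI hA hX false
    · exact ns_Z hI hA hX true
  · intro W hW h1 h2
    have hXb : ∀ i s, (I i).F.phi (A i) s = 1 →
        labS I A i s = .X ∧ labS I A i ((I i).F.mu s) = mir false .X := by
      intro i s hs
      exact ⟨(S1e_X (I i).F (A i) s).2 hs,
        (S1e_Xb (I i).F (A i) _).2 (by rw [(I i).F.phi_mu]; omega)⟩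
    refine ⟨.X, rfl, ?_, ?_⟩
    · exact S1e_hub hI hA hX W _ hW
        (fun i s hs hp => mem_filter.2 ⟨mem_univ _, hs, hXb i s hp⟩) h1
    · refine S1e_hub hI hA hX (fun i => (W i)ᶜ) _ (fun i s hs => ?_)
        (fun i s hs hp => mem_filter.2 ⟨mem_univ _, mem_compl.1 hs, hXb i s hp⟩) h2
      refine mem_compl.2 (fun h => mem_compl.1 hs ?_)
      have := hW i _ h
      simpa using this

end Pool.Agent.BE
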