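import Pool.Agent.Lib.MP_dd4ef3_lc.BE.Bb2
import Pool.Agent.Lib.MP_dd4ef3_lc.BE.Ba2
import Pool.Agent.Lib.MP_dd4ef3_lc.BE.S1e

set_option autoImplicit false

open Finset Classical Filter

noncomputable section

namespace Pool.Agent.BE

variable {I : ℕ → Inst}

lemma Bc_mir {K : Node} (h : K ≠ .Xb) : mir true K = K := by
  cases K <;> simp_all [mir]

lemma Bc_Lof (b : Bool) : Lof true b = .X := by
  cases b <;> simp [Lof, mir]

/-- a set covered by a null set and another set passes non-nullity to the other set -/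
lemma Bc_not_null {f g h : ℕ → ℕ} (hf : ¬ Null I f) (hh : Null I h)
    (hle : ∀ i, f i ≤ g i + h i) : ¬ Null I g := fun hg =>
  hf ((hg.add hh).mono (Eventually.of_forall hle))

lemma Bc_null_zero (hI : Grow I) {f : ℕ → ℕ} (h : ∀ i, f i = 0) : Null I f :=
  (null_const hI 0).mono (Eventually.of_forall fun i => (h i).le)

section
variable {r : ℕ} {κ : ∀ i, Stub (Fin (I i).n) → Fin r}

lemma Bc_mem_cl {i : ℕ} {j : Fin r} {s : Stub (Fin (I i).n)} : s ∈ cl κ j i ↔ κ i s = j := by
  simp [cl]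

lemma Bc_typ (hI : Grow I) (hB : SelfMir I) (hκ : Atoms I r κ) {e : Fin r → Node}
    (hx : ∀ j, e j ≠ .Xb) {k0 : ℕ} (hk : 4 ≤ k0) :
    Null I (fun i => (univ.filter
      (fun s => ¬ (I i).F.Typ (fun s => e (κ i s)) true ((I i).n / k0) s)).card) := by
  choose g hg hd using fun j => b_deg hI hB (hκ.closed j)
  have h1 := null_sum univ _ fun j (_ : j ∈ (univ : Finset (Fin r))) =>
    (hd j).add (b_mu hB (hκ.closed j)).1
  refine h1.mono ?_
  have h2 : ∀ᶠ i in UF, ∀ j, 2 * g j i ≤ (I i).n :=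
    eventually_all.2 fun j => (null_iff hI).1 (hg j) 2
  filter_upwards [h2] with i hi
  refine le_trans (card_le_card (t := univ.biUnion fun j : Fin r =>
    (univ.filter (fun s => s ∈ cl κ j i ∧
      2 * (((cl κ j i).filter (fun t => (I i).F.adj s t)).image Prod.fst).card + g j i < (I i).n)) ∪
    (univ.filter (fun s => s ∈ cl κ j i ∧ (I i).F.mu s ∉ cl κ j i))) ?_)
    (card_biUnion_le.trans (sum_le_sum fun j _ => card_union_le _ _))
  intro s hs
  rw [mem_filter] at hs
  rw [mem_biUnion]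
  refine ⟨κ i s, mem_univ _, ?_⟩
  by_contra hn
  simp only [mem_union, mem_filter, mem_univ, true_and, Bc_mem_cl, not_or, not_lt, not_not] at hn
  obtain ⟨a1, a2⟩ := hn
  refine hs.2 ⟨?_, fun _ => by simp only [a2, Bc_mir (hx _)], fun h => by simpa only [a2] using h⟩
  simp only [Bc_mir (hx _)]
  have a3 : ((cl κ (κ i s) i).filter (fun t => (I i).F.adj s t)).card ≤
      ((I i).F.NS (fun s => e (κ i s)) s.1 ((I i).F.kept s) (e (κ i s))).card := by
    refine card_le_card fun t ht => ?_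
    rw [mem_filter, Bc_mem_cl] at ht
    obtain ⟨b1, b2, b3, b4⟩ := ht
    simp only [PF.NS, mem_filter, mem_univ, true_and]
    exact ⟨by rw [b1], b2.symm, b4, b3⟩
  have a4 := card_image_le (s := (cl κ (κ i s) i).filter (fun t => (I i).F.adj s t))
    (f := Prod.fst)
  have a5 := hi (κ i s)
  have a6 : (I i).n / k0 ≤ (I i).n / 4 := Nat.div_le_div_left hk (by norm_num)
  omega

lemma Bc_TT (l : Lab I) (D : ℕ) (b : Bool) (i : ℕ) :
    (mixV l .X (Zof b) i).card ≤
      ((I i).F.TT (l i) true D b).card + ((I i).F.atyp (l i) true D).card := by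
  refine le_trans (card_le_card fun v hv => ?_) (card_union_le _ _)
  simp only [mixV, mem_filter, mem_univ, true_and] at hv
  simp only [mem_union, PF.TT, PF.atyp, mem_filter, mem_univ, true_and, Bc_Lof]
  by_cases h : (I i).F.TypV (l i) true D v
  · exact Or.inl ⟨h, hv⟩
  · exact Or.inr h

lemma Bc_lab_null (hI : Grow I) {e : Fin r → Node} {K : Node} (h : ∀ j, e j ≠ K) :
    Null I (fun i => (PF.labSet (fun s => e (κ i s)) K).card) :=
  Bc_null_zero hI fun i => by simp [PF.labSet, h]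

lemma Bc_ns (hI : Grow I) (hB : SelfMir I) (hκ : Atoms I r κ) {e : Fin r → Node}
    (he : Function.Injective e) (hx : ∀ j, e j ≠ .Xb) (K : Node) :
    NSlim I (fun i s => e (κ i s)) K (mir true K) := by
  intro A hA hn
  by_cases hK : ∃ j, e j = K
  · obtain ⟨j, rfl⟩ := hK
    rw [Bc_mir (hx j)]
    have h1 : ¬ Null I (fun i => (cl κ j i ∩ A i).card) := by
      refine Bc_not_null hn (b_mu hB (hκ.closed j)).2 fun i => ?_
      refine le_trans (card_le_card fun s hs => ?_) (card_union_le _ _)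
      rw [mem_filter] at hs
      simp only [mem_union, mem_inter, mem_filter, mem_univ, true_and, Bc_mem_cl]
      by_cases h : κ i s = j
      · exact Or.inl ⟨h, hs.1⟩
      · exact Or.inr ⟨h, he hs.2⟩
    refine ((hκ.atom A hA j).resolve_left h1).mono (Eventually.of_forall fun i => ?_)
    refine card_le_card fun s hs => ?_
    simp only [mem_filter, mem_univ, true_and] at hs
    exact Finset.mem_sdiff.2 ⟨Bc_mem_cl.2 (he hs.1), hs.2⟩
  · exact absurd (Bc_null_zero hI fun i => by
      rw [card_eq_zero, filter_eq_empty_iff]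
      exact fun s _ h => hK ⟨_, h⟩) hn

lemma Bc_hub (hB : SelfMir I) (hκ : Atoms I r κ) (e : Fin r → Node) (j : Fin r)
    (p : ∀ i, Stub (Fin (I i).n) → Prop) (U : VSet I) (hp : ∀ i s, s.1 ∈ U i → p i s)
    (h : ¬ Null I (fun i => (univ.filter (fun s => s.1 ∈ U i ∧ κ i s = j)).card)) :
    ¬ Null I (fun i => (univ.filter (fun s => p i s ∧ e (κ i s) = e j ∧
      e (κ i ((I i).F.mu s)) = e j)).card) := by
  refine Bc_not_null h (b_mu hB (hκ.closed j)).1 fun i => ?_
  refine le_trans (card_le_card fun s hs => ?_) (card_union_le _ _)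
  simp only [mem_filter, mem_univ, true_and] at hs
  simp only [mem_union, mem_filter, mem_univ, true_and, Bc_mem_cl]
  by_cases h : κ i ((I i).F.mu s) = j
  · exact Or.inl ⟨hp i s hs.1, by rw [hs.2], by rw [h]⟩
  · exact Or.inr ⟨hs.2, h⟩

end

theorem str_B (hI : Grow I) (hl : Null I (fun i => (I i).F.loops.card)) (hB : SelfMir I) :
    ∃ l k0, Str I true l k0 := by
  obtain ⟨r, κ, hr0, hr, hκ⟩ := exists_atoms hI hB
  obtain ⟨e, he, hx, hm, ht⟩ := b_label hI hB hκ hr0 hr
  have hk : ∀ b, ∃ k : ℕ, (∀ j, e j ≠ Zof b) ∨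
      ∀ᶠ i in UF, (I i).n ≤ k * (mixV (fun i s => e (κ i s)) .X (Zof b) i).card := fun b => by
    rcases hm b with h | h
    · exact ⟨0, Or.inl h⟩
    · obtain ⟨k, -, hk⟩ := (not_null_iff hI).1 h
      exact ⟨k, Or.inr hk⟩
  choose k hk using hk
  have h4 : 4 ≤ 4 + 2 * k false + 2 * k true := by omega
  have hkb : ∀ b, 2 * k b ≤ 4 + 2 * k false + 2 * k true := fun b => by cases b <;> omega
  generalize 4 + 2 * k false + 2 * k true = k0 at h4 hkb
  have hat : Null I (fun i => ((I i).F.atyp (fun s => e (κ i s)) true ((I i).n / k0)).card) :=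
    atyp_null (fun i s => e (κ i s)) true (fun i => (I i).n / k0) hl (Bc_typ hI hB hκ hx h4)
      (fun h => by cases h)
  refine ⟨fun i s => e (κ i s), k0, by omega, fun _ i s => hx _, hat, fun b => ?_, ?_,
    Bc_ns hI hB hκ he hx, fun W _ h1 h2 => ?_⟩
  · rcases hk b with h | h
    · exact Or.inl (Bc_lab_null hI h)
    · refine Or.inr ?_
      filter_upwards [h, (null_iff hI).1 hat (2 * k b)] with i a1 a2
      have a3 := Nat.mul_le_mul_left (2 * k b) (Bc_TT (fun i s => e (κ i s)) ((I i).n / k0) b i)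
      have a4 := Nat.mul_le_mul_right
        ((I i).F.TT (fun s => e (κ i s)) true ((I i).n / k0) b).card (hkb b)
      rw [mul_add, mul_assoc] at a3
      omega
  · rcases ht with h | h | h
    · exact Or.inl (Bc_lab_null hI h)
    · exact Or.inr (Or.inl (Bc_lab_null hI h))
    · refine Or.inr (Or.inr (Or.inr ?_))
      filter_upwards [h, (null_iff hI).1 hat 40] with i a1 a2
      have a3 := Bc_TT (fun i s => e (κ i s)) ((I i).n / k0) false i
      have a4 := Bc_TT (fun i s => e (κ i s)) ((I i).n / k0) true i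
      simp only [Zof, Bool.false_eq_true, if_false, if_true] at a3 a4
      omega
  · obtain ⟨j, a1, a2⟩ := b_meet hI hB hκ W (fun i => (W i)ᶜ) h1 h2
    refine ⟨e j, by rw [Bc_mir (hx j), Bc_mir (hx j)], ?_, ?_⟩
    · rw [Bc_mir (hx j)]
      convert Bc_hub hB hκ e j (fun i s => s.1 ∈ W i) W (fun _ _ h => h) a1
    · rw [Bc_mir (hx j)]
      convert Bc_hub hB hκ e j (fun i s => s.1 ∉ W i) (fun i => (W i)ᶜ)
        (fun _ _ h => mem_compl.1 h) a2

theorem structure_thm (hI : Grow I) (hl : Null I (fun i => (I i).F.loops.card)) :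
    ∃ sm l k0, Str I sm l k0 := by
  by_cases hB : SelfMir I
  · obtain ⟨l, k0, h⟩ := str_B hI hl hB
    exact ⟨true, l, k0, h⟩
  · simp only [SelfMir, not_forall, not_not] at hB
    obtain ⟨A, hA, hX⟩ := hB
    obtain ⟨k0, h⟩ := str_S1 hI hl hA hX
    exact ⟨false, _, k0, h⟩

end Pool.Agent.BE
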