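import Pool.Agent.Lib.MP_dd4ef3_lc.BE.Orbit

set_option autoImplicit false

open Finset Classical

noncomputable section

namespace Pool.Agent.BE

variable {V C : Type} [Fintype V] [DecidableEq V] {G : Ctx V C}

lemma twin_sum_le {α ι : Type} [DecidableEq α] (A : ι → Finset α) (x : ℕ) (T : Finset ι)
    (hx : ∀ i ∈ T, ∀ j ∈ T, i ≠ j → (A i ∩ A j).card ≤ x) :
    ∑ i ∈ T, (A i).card ≤ (T.biUnion A).card + T.card ^ 2 * x := by
  induction T using Finset.induction_on with
  | empty => simp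
  | insert a T ha ih =>
    have h1 := ih fun i hi j hj => hx i (mem_insert_of_mem hi) j (mem_insert_of_mem hj)
    have h2 : (A a ∩ T.biUnion A).card ≤ T.card * x := by
      rw [inter_biUnion]
      exact card_biUnion_le_card_mul _ _ _ fun j hj =>
        hx a (mem_insert_self _ _) j (mem_insert_of_mem hj) fun e => ha (e ▸ hj)
    have h3 := card_union_add_card_inter (A a) (T.biUnion A)
    rw [sum_insert ha, biUnion_insert, card_insert_of_notMem ha]
    have h4 : (T.card + 1) ^ 2 * x = T.card ^ 2 * x + 2 * (T.card * x) + x := by ring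
    omega

theorem bonferroni {α ι : Type} [DecidableEq α] (U : Finset α) (S : Finset ι) (A : ι → Finset α)
    (h M : ℕ) (hA : ∀ i ∈ S, A i ⊆ U ∧ h ≤ (A i).card) (hS : S.card = M) (hM : 2 ≤ M)
    (hh : 2 * U.card ≤ M * h) :
    ∃ i ∈ S, ∃ j ∈ S, i ≠ j ∧ U.card ≤ M ^ 2 * (A i ∩ A j).card := by
  by_contra hc
  push Not at hc
  obtain ⟨i, hi, j, hj, hij⟩ := one_lt_card.1 (by omega : 1 < S.card)
  have hU : 0 < U.card := lt_of_le_of_lt (Nat.zero_le _) (hc i hi j hj hij)
  have hM2 : 0 < M ^ 2 := by positivity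
  have h1 := twin_sum_le A ((U.card - 1) / M ^ 2) S fun i hi j hj hij => by
    rw [Nat.le_div_iff_mul_le hM2, mul_comm]
    have := hc i hi j hj hij
    omega
  have h2 : (S.biUnion A).card ≤ U.card :=
    card_le_card (biUnion_subset.2 fun i hi => (hA i hi).1)
  have h3 : S.card * h ≤ ∑ i ∈ S, (A i).card := by
    simpa using card_nsmul_le_sum S (fun i => (A i).card) h fun i hi => (hA i hi).2
  have h4 := Nat.mul_div_le (U.card - 1) (M ^ 2)
  rw [hS] at h1 h3
  omega

/-- far pairs on a short cycle are twins -/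
lemma twin_of_far (F : PF G) {L j : ℕ} {a a' : Stub V} (ha : ¬ F.loop a.1) (ha' : ¬ F.loop a'.1)
    (hf : F.FarPair L a a') (h1 : 1 ≤ j) (h2 : j ≤ L) (e : (F.sig ^ j) a = a) : F.Tw L a a' := by
  obtain ⟨f1, f2, f3, f4⟩ := hf
  refine ⟨ha, ha', fun h => f1 (h ▸ F.near_refl L _), fun h => f2 (h ▸ F.near_refl L _),
    fun h => f3 (h ▸ F.near_refl L _), fun h => f4 (h ▸ F.near_refl L _),
    ⟨j, h1, h2, Or.inl e⟩, fun i hi => f2 ⟨a.2, i % j, ?_, ?_⟩⟩
  · have := Nat.mod_lt i h1
    omega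
  · rw [← hi, F.sig_pow_mod e i]

/-- two stubs at distance at least two on a long cycle are twins -/
lemma twin_of_long (F : PF G) {L d : ℕ} {a : Stub V} (ha : ¬ F.loop a.1)
    (ha' : ¬ F.loop ((F.sig ^ d) a).1) (hl : ∀ j, 1 ≤ j → j ≤ L → (F.sig ^ j) a ≠ a)
    (h1 : 2 ≤ d) (h2 : d + 1 ≤ L) : F.Tw L a ((F.sig ^ d) a) := by
  have e0 : a.1 = ((F.sig ^ 0) a).1 := by simp
  have e1 : (F.mu a).1 = ((F.sig ^ 1) a).1 := by simp [PF.sig_apply]
  have e2 : (F.mu ((F.sig ^ d) a)).1 = ((F.sig ^ (d + 1)) a).1 := by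
    rw [pow_succ', Equiv.Perm.mul_apply, PF.sig_apply, nu_fst]
  refine ⟨ha, ha', fun h => ?_, fun h => ?_, fun h => ?_, fun h => ?_,
    ⟨d, by omega, by omega, Or.inr rfl⟩, fun i hi => ?_⟩
  · have := F.ray_inj hl (by omega) (by omega) (e0.symm.trans h)
    omega
  · have := F.ray_inj hl (by omega) h2 (e0.symm.trans (h.trans e2))
    omega
  · have := F.ray_inj hl (by omega) (by omega) (e1.symm.trans h)
    omega
  · have := F.ray_inj hl (by omega) h2 (e1.symm.trans (h.trans e2))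
    omega
  · rcases le_total d i with hdi | hdi
    · obtain ⟨k, rfl⟩ := Nat.exists_eq_add_of_le' hdi
      rw [pow_add, Equiv.Perm.mul_apply] at hi
      exact F.sig_pow_ne_mu _ _ hi
    · obtain ⟨k, rfl⟩ := Nat.exists_eq_add_of_le' hdi
      rw [pow_add, Equiv.Perm.mul_apply] at hi
      apply F.sig_pow_ne_mu k ((F.sig ^ i) a)
      conv_rhs => rw [hi, F.mu_mu]

/-- greedy choice of pairwise far stubs -/
lemma twin_greedy (F : PF G) (D : Finset (Stub V)) (L M : ℕ)
    (hD : 16 * M * (L + 2) + 2 * F.loops.card < D.card) (m : ℕ) (hm : m ≤ M) :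
    ∃ S ⊆ D, S.card = m ∧ ∀ a ∈ S, ∀ a' ∈ S, a ≠ a' → F.FarPair L a a' := by
  induction m with
  | zero => exact ⟨∅, by simp, rfl, by simp⟩
  | succ m ih =>
    obtain ⟨S, hS, hc, hf⟩ := ih (by omega)
    set W : Finset V := S.image Prod.fst ∪ S.image (fun s => (F.mu s).1) with hW
    have hWc : W.card ≤ 2 * M := by
      have h1 := card_union_le (S.image Prod.fst) (S.image (fun s => (F.mu s).1))
      have h2 : (S.image Prod.fst).card ≤ S.card := card_image_le
      have h3 : (S.image (fun s => (F.mu s).1)).card ≤ S.card := card_image_le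
      rw [← hW] at h1
      omega
    have h1 := F.avoid_card L W
    have h2 : 8 * W.card * (L + 2) ≤ 16 * M * (L + 2) := Nat.mul_le_mul_right _ (by omega)
    obtain ⟨s, hs, hs'⟩ := exists_mem_notMem_of_card_lt_card
      (s := univ.filter (fun s => ¬ F.Avoid L W s)) (t := D) (by omega)
    have hA : F.Avoid L W s := by simpa using hs'
    have hfar : ∀ t ∈ S, F.FarPair L t s := fun t ht =>
      F.farPair_of_avoid hA (mem_union_left _ (mem_image_of_mem _ ht))
        (mem_union_right _ (mem_image_of_mem (fun s => (F.mu s).1) ht))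
    have hn : s ∉ S := fun h => (hfar s h).1 (F.near_refl L _)
    refine ⟨insert s S, insert_subset hs hS, by rw [card_insert_of_notMem hn, hc], ?_⟩
    intro a ha a' ha' hne
    rcases mem_insert.1 ha with rfl | h3 <;> rcases mem_insert.1 ha' with rfl | h4
    · exact absurd rfl hne
    · exact F.farPair_symm (hfar _ h4)
    · exact hfar _ h3
    · exact hf _ h3 _ h4 hne

/-- some stub sees many elements of `D` at even positions of its ray -/
lemma twin_count (F : PF G) (D : Finset (Stub V)) (m M : ℕ) (hD : D.Nonempty)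
    (h : 2 * Fintype.card V * M ≤ m * D.card) :
    ∃ x : Stub V, M ≤ ((range m).filter (fun j => (F.sig ^ (2 * j)) x ∈ D)).card := by
  by_contra hc
  push Not at hc
  have h1 : ∑ x : Stub V, ((range m).filter (fun j => (F.sig ^ (2 * j)) x ∈ D)).card =
      ∑ j ∈ range m, (univ.filter (fun x : Stub V => (F.sig ^ (2 * j)) x ∈ D)).card := by
    simp only [card_filter]
    exact sum_comm
  have h2 : ∀ j, (univ.filter (fun x : Stub V => (F.sig ^ (2 * j)) x ∈ D)).card = D.card := by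
    intro j
    refine card_bij (fun x _ => (F.sig ^ (2 * j)) x) (fun x hx => (mem_filter.1 hx).2)
      (fun x _ y _ e => (F.sig ^ (2 * j)).injective e) fun y hy => ?_
    exact ⟨(F.sig ^ (2 * j)).symm y, by simpa using hy, by simp⟩
  obtain ⟨s, -⟩ := hD
  have h3 := sum_lt_sum_of_nonempty (s := (univ : Finset (Stub V))) ⟨s, mem_univ _⟩
    (fun x _ => hc x)
  rw [h1, sum_congr rfl fun j _ => h2 j, sum_const, sum_const, card_range, card_univ,
    card_stub, smul_eq_mul, smul_eq_mul] at h3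
  omega

theorem twin_family (F : PF G) (C0 : Finset (Stub V)) (W : Finset V) (M κ L : ℕ)
    (hκ : κ ≤ C0.card) (hL : 2 ≤ L)
    (h1 : 64 * (W.card + 2 * M) * (L + 2) + 8 * F.loops.card ≤ κ)
    (h2 : 32 * Fintype.card V * M ≤ L * κ) :
    ∃ S ⊆ C0, S.card = M ∧ (∀ s ∈ S, F.Avoid L W s) ∧
      ∀ a ∈ S, ∀ a' ∈ S, a ≠ a' → F.Tw L a a' ∨ F.Tw L a' a := by
  rcases Nat.eq_zero_or_pos M with rfl | hM
  · exact ⟨∅, by simp, rfl, by simp, by simp⟩
  set C1 := C0.filter (F.Avoid L W) with hC1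
  set P : Stub V → Prop := fun s => ∃ j, 1 ≤ j ∧ j ≤ L ∧ (F.sig ^ j) s = s with hP
  have a1 := card_filter_add_card_filter_not (s := C0) (F.Avoid L W)
  have a2 : (C0.filter (fun s => ¬ F.Avoid L W s)).card ≤
      8 * W.card * (L + 2) + 2 * F.loops.card :=
    (card_le_card (filter_subset_filter _ (subset_univ _))).trans (F.avoid_card L W)
  have a3 := card_filter_add_card_filter_not (s := C1) P
  have a4 : 64 * (W.card + 2 * M) * (L + 2) =
      8 * (8 * W.card * (L + 2)) + 8 * (16 * M * (L + 2)) := by ring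
  have a5 : 0 < 16 * M * (L + 2) := by positivity
  rw [← hC1] at a1
  by_cases hs : 3 * κ ≤ 8 * (C1.filter P).card
  · obtain ⟨S, hS, hc, hf⟩ := twin_greedy F (C1.filter P) L M (by omega) M le_rfl
    have hA : ∀ s ∈ S, F.Avoid L W s := fun s h => (mem_filter.1 (mem_filter.1 (hS h)).1).2
    refine ⟨S, fun s h => (mem_filter.1 (mem_filter.1 (hS h)).1).1, hc, hA, ?_⟩
    intro a ha a' ha' hne
    obtain ⟨j, j1, j2, e⟩ := (mem_filter.1 (hS ha)).2
    exact Or.inl (twin_of_far F (hA a ha).1 (hA a' ha').1 (hf a ha a' ha' hne) j1 j2 e)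
  · set D := C1.filter (fun s => ¬ P s) with hD
    have b1 : 3 * κ ≤ 8 * D.card := by omega
    have b2 : L ≤ 3 * (L / 2) := by omega
    have b3 : 2 * Fintype.card V * M ≤ L / 2 * D.card := by
      have c1 : L * κ ≤ 3 * (L / 2) * κ := Nat.mul_le_mul_right _ b2
      have c2 : L / 2 * (3 * κ) ≤ L / 2 * (8 * D.card) := Nat.mul_le_mul_left _ b1
      nlinarith
    obtain ⟨x, hx⟩ := twin_count F D (L / 2) M (card_pos.1 (by omega)) b3
    obtain ⟨J, hJ, hJc⟩ := exists_subset_card_eq hx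
    have hJ1 : ∀ j ∈ J, j < L / 2 ∧ (F.sig ^ (2 * j)) x ∈ D := fun j hj =>
      ⟨mem_range.1 (mem_filter.1 (hJ hj)).1, (mem_filter.1 (hJ hj)).2⟩
    have hA : ∀ j ∈ J, F.Avoid L W ((F.sig ^ (2 * j)) x) := fun j hj =>
      (mem_filter.1 (mem_filter.1 (hJ1 j hj).2).1).2
    have key : ∀ i ∈ J, ∀ j ∈ J, i < j →
        F.Tw L ((F.sig ^ (2 * i)) x) ((F.sig ^ (2 * j)) x) := by
      intro i hi j hj hij
      have e : (F.sig ^ (2 * j)) x = (F.sig ^ (2 * (j - i))) ((F.sig ^ (2 * i)) x) := by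
        rw [← Equiv.Perm.mul_apply, ← pow_add]
        congr 2
        omega
      have hj' := (hJ1 j hj).1
      have hl := (hA j hj).1
      rw [e] at hl ⊢
      exact twin_of_long F (hA i hi).1 hl
        (fun k k1 k2 ek => (mem_filter.1 (hJ1 i hi).2).2 ⟨k, k1, k2, ek⟩) (by omega) (by omega)
    refine ⟨J.image (fun j => (F.sig ^ (2 * j)) x), ?_, ?_, ?_, ?_⟩
    · intro s hs
      obtain ⟨j, hj, rfl⟩ := mem_image.1 hs
      exact (mem_filter.1 (mem_filter.1 (hJ1 j hj).2).1).1
    · rw [card_image_of_injOn, hJc]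
      intro i hi j hj e
      rcases lt_trichotomy i j with h | h | h
      · exact absurd (congrArg Prod.fst e) (key i hi j hj h).2.2.1
      · exact h
      · exact absurd (congrArg Prod.fst e).symm (key j hj i hi h).2.2.1
    · intro s hs
      obtain ⟨j, hj, rfl⟩ := mem_image.1 hs
      exact hA j hj
    · intro a ha a' ha' hne
      obtain ⟨i, hi, rfl⟩ := mem_image.1 ha
      obtain ⟨j, hj, rfl⟩ := mem_image.1 ha'
      rcases lt_trichotomy i j with h | h | h
      · exact Or.inl (key i hi j hj h)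
      · exact absurd (by rw [h]) hne
      · exact Or.inr (key j hj i hi h)

end Pool.Agent.BE
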