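import Pool.Agent.Lib.MP_dd4ef3_lc.BE.Reach
import Pool.Agent.Lib.MP_dd4ef3_lc.BE.Twin

set_option autoImplicit false

open Finset Classical

noncomputable section

namespace Pool.Agent.BE

variable {V C : Type} [Fintype V] [DecidableEq V] {G : Ctx V C}

/-- a sequence of far twin pairs, consecutive ones completely joined -/
def ChSeq (F : PF G) (L r : ℕ) (a a' : ℕ → Stub V) : Prop :=
  (∀ i, i < r → ∀ x y, (x = a i ∨ x = a' i) → (y = a (i + 1) ∨ y = a' (i + 1)) →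
    F.adj x (F.mu y)) ∧
  (∀ i, i ≤ r → F.Tw L (a i) (a' i)) ∧
  ∀ i i', i < i' → i' ≤ r → ∀ x y, (x = a i ∨ x = a' i) → (y = a i' ∨ y = a' i') →
    F.FarPair L x y

def ChMem {α : Type} (r : ℕ) (a a' : ℕ → α) (x : α) : Prop :=
  ∃ i, i ≤ r ∧ (x = a i ∨ x = a' i)

lemma ch_single {F : PF G} {L : ℕ} {p p' : Stub V} (h : F.Tw L p p') :
    ChSeq F L 0 (fun _ => p) (fun _ => p') :=
  ⟨fun i hi => absurd hi (by omega), fun _ _ => h, fun i i' h1 h2 => absurd h1 (by omega)⟩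

lemma ch_mem_single {α : Type} {p p' x : α} (h : ChMem 0 (fun _ => p) (fun _ => p') x) :
    x = p ∨ x = p' := by
  obtain ⟨_, _, h⟩ := h
  exact h

lemma ch_cat {F : PF G} {L r r' : ℕ} {a a' b b' : ℕ → Stub V} (hA : ChSeq F L r a a')
    (hB : ChSeq F L r' b b')
    (hlink : ∀ x y, (x = a r ∨ x = a' r) → (y = b 0 ∨ y = b' 0) → F.adj x (F.mu y))
    (hfar : ∀ x y, ChMem r a a' x → ChMem r' b b' y → F.FarPair L x y) :
    ∃ c c' : ℕ → Stub V, ChSeq F L (r + 1 + r') c c' ∧ (∀ i, i ≤ r → c i = a i ∧ c' i = a' i) ∧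
      (∀ i, c (r + 1 + i) = b i ∧ c' (r + 1 + i) = b' i) ∧
      ∀ x, ChMem (r + 1 + r') c c' x → ChMem r a a' x ∨ ChMem r' b b' x := by
  let c : ℕ → Stub V := fun i => if i ≤ r then a i else b (i - (r + 1))
  let c' : ℕ → Stub V := fun i => if i ≤ r then a' i else b' (i - (r + 1))
  have e1 : ∀ i, i ≤ r → c i = a i ∧ c' i = a' i := by
    intro i hi; simp [c, c', hi]
  have e2 : ∀ i, c (r + 1 + i) = b i ∧ c' (r + 1 + i) = b' i := by
    intro i
    have : ¬ r + 1 + i ≤ r := by omega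
    simp [c, c', this]
  have split : ∀ i, i ≤ r ∨ ∃ m, i = r + 1 + m := by
    intro i
    by_cases h : i ≤ r
    · exact Or.inl h
    · exact Or.inr ⟨i - (r + 1), by omega⟩
  refine ⟨c, c', ⟨?_, ?_, ?_⟩, e1, e2, ?_⟩
  · intro i hi x y hx hy
    rcases split i with h | ⟨m, rfl⟩
    · rw [(e1 i h).1, (e1 i h).2] at hx
      rcases lt_or_eq_of_le h with h' | h'
      · rw [(e1 (i + 1) h').1, (e1 (i + 1) h').2] at hy
        exact hA.1 i h' x y hx hy
      · subst h'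
        have q := e2 0
        rw [add_zero] at q
        rw [q.1, q.2] at hy
        exact hlink x y hx hy
    · rw [(e2 m).1, (e2 m).2] at hx
      rw [add_assoc (r + 1) m 1, (e2 (m + 1)).1, (e2 (m + 1)).2] at hy
      exact hB.1 m (by omega) x y hx hy
  · intro i hi
    rcases split i with h | ⟨m, rfl⟩
    · rw [(e1 i h).1, (e1 i h).2]; exact hA.2.1 i h
    · rw [(e2 m).1, (e2 m).2]; exact hB.2.1 m (by omega)
  · intro i i' h1 h2 x y hx hy
    rcases split i with h | ⟨m, rfl⟩ <;> rcases split i' with h' | ⟨m', rfl⟩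
    · rw [(e1 i h).1, (e1 i h).2] at hx
      rw [(e1 i' h').1, (e1 i' h').2] at hy
      exact hA.2.2 i i' h1 h' x y hx hy
    · rw [(e1 i h).1, (e1 i h).2] at hx
      rw [(e2 m').1, (e2 m').2] at hy
      exact hfar x y ⟨i, h, hx⟩ ⟨m', by omega, hy⟩
    · omega
    · rw [(e2 m).1, (e2 m).2] at hx
      rw [(e2 m').1, (e2 m').2] at hy
      exact hB.2.2 m m' (by omega) (by omega) x y hx hy
  · rintro x ⟨i, hi, hx⟩
    rcases split i with h | ⟨m, rfl⟩
    · rw [(e1 i h).1, (e1 i h).2] at hx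
      exact Or.inl ⟨i, h, hx⟩
    · rw [(e2 m).1, (e2 m).2] at hx
      exact Or.inr ⟨m, by omega, hx⟩

/-- the four vertices of two pairs -/
def chV (F : PF G) (p p' : Stub V) : Finset V := {p.1, (F.mu p).1, p'.1, (F.mu p').1}

lemma ch_card_chV (F : PF G) (p p' : Stub V) : (chV F p p').card ≤ 4 := card_le_four

lemma ch_mem_chV (F : PF G) {p p' x : Stub V} (h : x = p ∨ x = p') :
    x.1 ∈ chV F p p' ∧ (F.mu x).1 ∈ chV F p p' := by
  rcases h with h | h <;> simp [chV, h]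

lemma ch_aux (F : PF G) (h M κ L β : ℕ) (Y : Finset (Stub V)) (hL : 2 ≤ L) (hM : 2 ≤ M)
    (hh : 4 * Fintype.card V ≤ M * h)
    (h1 : 64 * (β + 2 * M) * (L + 2) + 8 * F.loops.card ≤ κ)
    (h2 : 32 * Fintype.card V * M ≤ L * κ) (j : ℕ) :
    (j + 1) * κ * M ^ 2 ≤ 2 * Fintype.card V → ∀ C0 : Finset (Stub V), C0 ⊆ F.reach h Y j →
      (j + 1) * κ ≤ C0.card → ∀ W : Finset V, W.card + 4 * (j + 1) ≤ β →
      ∃ (r : ℕ) (a a' : ℕ → Stub V), r ≤ j ∧ a 0 ∈ Y ∧ a' 0 ∈ Y ∧ a r ∈ C0 ∧ a' r ∈ C0 ∧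
        ChSeq F L r a a' ∧ ∀ x, ChMem r a a' x → F.Avoid L W x := by
  have fam : ∀ (C1 : Finset (Stub V)) (W : Finset V), κ ≤ C1.card → W.card ≤ β →
      ∃ S ⊆ C1, S.card = M ∧ (∀ s ∈ S, F.Avoid L W s) ∧
        ∀ a ∈ S, ∀ a' ∈ S, a ≠ a' → F.Tw L a a' ∨ F.Tw L a' a := by
    intro C1 W hc hW
    refine twin_family F C1 W M κ L hc hL (le_trans ?_ h1) h2
    have : 64 * (W.card + 2 * M) * (L + 2) ≤ 64 * (β + 2 * M) * (L + 2) := by gcongr
    omega
  induction j with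
  | zero =>
    intro _ C0 hC hC' W hW
    obtain ⟨S, s1, s2, s3, s4⟩ := fam C0 W (by omega) (by omega)
    obtain ⟨p, hp, p', hp', hne⟩ := one_lt_card.1 (by omega : 1 < S.card)
    have key : ∀ p ∈ S, ∀ p' ∈ S, F.Tw L p p' →
        ∃ (r : ℕ) (a a' : ℕ → Stub V), r ≤ 0 ∧ a 0 ∈ Y ∧ a' 0 ∈ Y ∧ a r ∈ C0 ∧ a' r ∈ C0 ∧
          ChSeq F L r a a' ∧ ∀ x, ChMem r a a' x → F.Avoid L W x := by
      intro p hp p' hp' ht
      refine ⟨0, fun _ => p, fun _ => p', le_rfl, hC (s1 hp), hC (s1 hp'), s1 hp, s1 hp',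
        ch_single ht, fun x hx => ?_⟩
      rcases ch_mem_single hx with e | e <;> rw [e]
      exacts [s3 p hp, s3 p' hp']
    rcases s4 p hp p' hp' hne with ht | ht
    exacts [key p hp p' hp' ht, key p' hp' p hp ht]
  | succ j ih =>
    intro hj C0 hC hC' W hW
    have hj' : (j + 1) * κ * M ^ 2 ≤ 2 * Fintype.card V :=
      le_trans (by gcongr; omega) hj
    by_cases hc : (j + 1) * κ ≤ (C0 ∩ F.reach h Y j).card
    · obtain ⟨r, a, a', q1, q2, q3, q4, q5, q6, q7⟩ :=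
        ih hj' _ inter_subset_right hc W (by omega)
      exact ⟨r, a, a', by omega, q2, q3, inter_subset_left q4, inter_subset_left q5, q6, q7⟩
    have hnew : κ ≤ (C0 \ F.reach h Y j).card := by
      have := card_sdiff_add_card_inter C0 (F.reach h Y j)
      rw [add_mul (j + 1) 1 κ] at hC'
      omega
    obtain ⟨S, s1, s2, s3, s4⟩ := fam _ W hnew (by omega)
    let A : Stub V → Finset (Stub V) :=
      fun s' => (F.reach h Y j).filter (fun s => F.adj s (F.mu s'))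
    have hA : ∀ s ∈ S, A s ⊆ univ ∧ h ≤ (A s).card := by
      intro s hs
      refine ⟨subset_univ _, ?_⟩
      have m1 := mem_sdiff.1 (s1 hs)
      have m2 := hC m1.1
      rw [PF.reach, mem_union] at m2
      exact (mem_filter.1 (m2.resolve_left m1.2)).2
    obtain ⟨p, hp, p', hp', hne, hcard⟩ := bonferroni univ S A h M hA s2 hM
      (by rw [card_univ, card_stub]; omega)
    rw [card_univ, card_stub] at hcard
    have key : ∀ p ∈ S, ∀ p' ∈ S, F.Tw L p p' →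
        2 * Fintype.card V ≤ M ^ 2 * (A p ∩ A p').card →
        ∃ (r : ℕ) (a a' : ℕ → Stub V), r ≤ j + 1 ∧ a 0 ∈ Y ∧ a' 0 ∈ Y ∧ a r ∈ C0 ∧ a' r ∈ C0 ∧
          ChSeq F L r a a' ∧ ∀ x, ChMem r a a' x → F.Avoid L W x := by
      intro p hp p' hp' ht hcard
      have hbig : (j + 1) * κ ≤ (A p ∩ A p').card := by
        have : M ^ 2 * ((j + 1) * κ) ≤ M ^ 2 * (A p ∩ A p').card := by
          rw [mul_comm]; exact hj'.trans hcard
        exact Nat.le_of_mul_le_mul_left this (by positivity)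
      obtain ⟨r, a, a', q1, q2, q3, q4, q5, q6, q7⟩ := ih hj' (A p ∩ A p')
        (inter_subset_left.trans (filter_subset _ _)) hbig (W ∪ chV F p p') (by
          have := card_union_le W (chV F p p')
          have := ch_card_chV F p p'
          omega)
      obtain ⟨c, c', c1, c2, c3, c4⟩ := ch_cat q6 (ch_single ht)
        (by
          intro x y hx hy
          have hx' : x ∈ A p ∩ A p' := by
            rcases hx with e | e <;> rw [e]
            exacts [q4, q5]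
          rcases hy with e | e <;> rw [e]
          · exact (mem_filter.1 (mem_inter.1 hx').1).2
          · exact (mem_filter.1 (mem_inter.1 hx').2).2)
        (by
          intro x y hx hy
          have := ch_mem_chV F (ch_mem_single hy)
          exact F.farPair_symm (F.farPair_of_avoid (q7 x hx) (mem_union_right _ this.1)
            (mem_union_right _ this.2)))
      refine ⟨r + 1 + 0, c, c', by omega, ?_, ?_, ?_, ?_, c1, fun x hx => ?_⟩
      · rw [(c2 0 (by omega)).1]; exact q2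
      · rw [(c2 0 (by omega)).2]; exact q3
      · rw [(c3 0).1]; exact (mem_sdiff.1 (s1 hp)).1
      · rw [(c3 0).2]; exact (mem_sdiff.1 (s1 hp')).1
      · rcases c4 x hx with e | e
        · exact F.avoid_mono subset_union_left (q7 x e)
        · rcases ch_mem_single e with e | e <;> rw [e]
          exacts [s3 p hp, s3 p' hp']
    rcases s4 p hp p' hp' hne with ht | ht
    · exact key p hp p' hp' ht hcard
    · exact key p' hp' p hp ht (by rw [inter_comm]; exact hcard)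

theorem twin_chain (F : PF G) (h M κ L β : ℕ) (Y : Finset (Stub V)) (hL : 2 ≤ L) (hM : 2 ≤ M)
    (hh : 4 * Fintype.card V ≤ M * h)
    (h1 : 64 * (β + 2 * M) * (L + 2) + 8 * F.loops.card ≤ κ)
    (h2 : 32 * Fintype.card V * M ≤ L * κ) (j : ℕ) (hj : (j + 1) * κ * M ^ 2 ≤ 2 * Fintype.card V)
    (C0 : Finset (Stub V)) (hC : C0 ⊆ F.reach h Y j) (hC' : (j + 1) * κ ≤ C0.card)
    (W : Finset V) (hW : W.card + 4 * (j + 1) ≤ β) :
    ∃ (r : ℕ) (a a' : ℕ → Stub V), r ≤ j ∧ a 0 ∈ Y ∧ a' 0 ∈ Y ∧ a r ∈ C0 ∧ a' r ∈ C0 ∧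
      (∀ i, i < r → ∀ x y, (x = a i ∨ x = a' i) → (y = a (i + 1) ∨ y = a' (i + 1)) →
        F.adj x (F.mu y)) ∧
      (∀ i, i ≤ r → F.Tw L (a i) (a' i) ∧ F.Avoid L W (a i) ∧ F.Avoid L W (a' i)) ∧
      ∀ i i', i < i' → i' ≤ r → ∀ x y, (x = a i ∨ x = a' i) → (y = a i' ∨ y = a' i') →
        F.FarPair L x y := by
  obtain ⟨r, a, a', q1, q2, q3, q4, q5, q6, q7⟩ :=
    ch_aux F h M κ L β Y hL hM hh h1 h2 j hj C0 hC hC' W hW
  exact ⟨r, a, a', q1, q2, q3, q4, q5, q6.1, fun i hi => ⟨q6.2.1 i hi,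
    q7 _ ⟨i, hi, Or.inl rfl⟩, q7 _ ⟨i, hi, Or.inr rfl⟩⟩, q6.2.2⟩

end Pool.Agent.BE
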