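import Pool.Agent.Lib.MP_dd4ef3_lc.Basic

/-! Definitions for the Bollobas-Erdos bound (paper: be_dd4ef3_paper_helper24.md). -/

set_option autoImplicit false

open Finset Classical

noncomputable section

namespace Pool.Agent.BE

/-- Local edge colouring (`c u w` is the colour of the edge `uw` at `u`) with all monochromatic
degrees below `⌊n/2⌋`. -/
structure Ctx (V C : Type) [Fintype V] [DecidableEq V] where
  c : V → V → C
  deg : ∀ v a, 2 * (univ.filter (fun w => w ≠ v ∧ c v w = a)).card + 2 ≤ Fintype.card V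

abbrev Stub (V : Type) := V × Bool

def nu {V : Type} (s : Stub V) : Stub V := (s.1, !s.2)

@[simp] lemma nu_fst {V : Type} (s : Stub V) : (nu s).1 = s.1 := rfl
@[simp] lemma nu_nu {V : Type} (s : Stub V) : nu (nu s) = s := by simp [nu]
@[simp] lemma nu_mk {V : Type} (v : V) (b : Bool) : nu ((v, b) : Stub V) = (v, !b) := rfl
lemma nu_ne {V : Type} (s : Stub V) : nu s ≠ s := by
  intro h; have := congrArg Prod.snd h; simp [nu] at this
lemma eq_or_eq_nu {V : Type} {s t : Stub V} (h : t.1 = s.1) : t = s ∨ t = nu s := by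
  obtain ⟨u, a⟩ := s; obtain ⟨w, b⟩ := t
  simp only at h; subst h; cases a <;> cases b <;> simp [nu]

inductive Node | X | Xb | Z1 | Z2
  deriving DecidableEq, Fintype

/-- classes -/
abbrev Gp := ℤ × ZMod 2 × ZMod 2

def mir (sm : Bool) : Node → Node
  | .X => if sm then .X else .Xb
  | .Xb => .X
  | .Z1 => .Z1
  | .Z2 => .Z2

def cls : Node → Gp
  | .X => (1, 0, 0)
  | .Xb => (-1, 0, 0)
  | .Z1 => (0, 1, 0)
  | .Z2 => (0, 0, 1)

/-- signed first coordinate -/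
def bsg (sg : Bool) (g : Gp) : ℤ := if sg then g.1 else -g.1

/-- signed level of a node -/
def lv (sg : Bool) (K : Node) : ℤ := bsg sg (cls K)

def Zof (i : Bool) : Node := if i then .Z2 else .Z1
def Lof (sm i : Bool) : Node := if i then mir sm .X else .X
def piOf (i : Bool) (g : Gp) : ZMod 2 := if i then g.2.2 else g.2.1
def par (g : Gp) : ZMod 2 := (g.1 : ZMod 2) + g.2.1 + g.2.2
def tcls : Gp := (0, 1, 1)
def Balanced (sm : Bool) (g : Gp) : Prop := g.2 = 0 ∧ (sm = true ∨ g.1 = 0)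
def Step (g g' : Gp) : Prop := ∃ K K' : Node, g' + cls K = g + cls K'

/-- `U` (for `sg = true`) and `D` (for `sg = false`) of the paper. -/
def UU (sg : Bool) (A0 : Set Gp) : Prop :=
  ∃ a ∈ A0, bsg sg a = 1 ∨ (bsg sg a = 2 ∧ (a.2 = 0 ∨ tcls ∈ A0))

/-- virtual toggle `V_i` -/
def VV (sm i : Bool) (A0 : Set Gp) : Prop :=
  ∃ l : List Gp, l.length ≤ 4 ∧ (∀ a ∈ l, a ∈ A0) ∧ l.sum.2 = (cls (Zof i)).2 ∧
    (sm = true ∨ ((l.sum.1 = 1 ∨ l.sum.1 = -1) ∧ ∃ a ∈ A0, a.1 = l.sum.1))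

/-- real toggle at the vertex `w` (options `O` at `τ`, `O2` at `2τ`) -/
def One {V : Type} (sm i : Bool) (O O2 : V → Gp → Prop) (w : V) : Prop :=
  ∀ g, O2 w g → ∃ K1 K2 : Node, g = cls K1 + cls K2 ∧
    O w (cls (Lof sm i) + cls K2) ∧ O w (cls (Zof i) + cls K2)

/-- two compatible real toggles -/
def Two {V : Type} (sm : Bool) (O O2 : V → Gp → Prop) (Z : Finset V) : Prop :=
  (∃ w1 ∈ Z, ∃ w2 ∈ Z, w1 ≠ w2 ∧ One sm false O O2 w1 ∧ One sm true O O2 w2) ∨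
  (∃ w ∈ Z, One sm false O O2 w ∧ One sm true O O2 w ∧
    ∀ A B : Node, (A = Lof sm false ∨ A = .Z1) → (B = Lof sm true ∨ B = .Z2) →
      O w (cls A + cls B))

variable {V C : Type} [Fintype V] [DecidableEq V]

/-- Pseudo-factor. -/
structure PF (G : Ctx V C) where
  mu : Stub V → Stub V
  real : Stub V → Prop
  mu_mu : ∀ s, mu (mu s) = s
  mu_ne : ∀ s, mu s ≠ s
  real_mu : ∀ s, real s → real (mu s)
  real_ne : ∀ s, real s → (mu s).1 ≠ s.1
  pc : ∀ s, real s → real (nu s) → G.c s.1 (mu s).1 ≠ G.c s.1 (mu (nu s)).1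

attribute [simp] PF.mu_mu

namespace PF

variable {G : Ctx V C} (F : PF G)

def kept (s : Stub V) : Option C :=
  if F.real (nu s) then some (G.c s.1 (F.mu (nu s)).1) else none

def adj (s t : Stub V) : Prop :=
  s.1 ≠ t.1 ∧ some (G.c s.1 t.1) ≠ F.kept s ∧ some (G.c t.1 s.1) ≠ F.kept t

def loop (v : V) : Prop := F.mu (v, false) = (v, true)

def loops : Finset V := univ.filter F.loop

/-- `σ = ν ∘ μ` -/
def sig : Equiv.Perm (Stub V) where
  toFun s := nu (F.mu s)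
  invFun s := F.mu (nu s)
  left_inv s := by simp
  right_inv s := by simp

lemma sig_apply (s : Stub V) : F.sig s = nu (F.mu s) := rfl

def Conn : V → V → Prop :=
  Relation.EqvGen (fun u w => ∃ s : Stub V, s.1 = u ∧ (F.mu s).1 = w)

def comp (v : V) : Finset V := univ.filter (F.Conn v)

def ncomp : ℕ := (univ.image F.comp).card

def Near (L : ℕ) (u v : V) : Prop := ∃ (b : Bool) (j : ℕ), j ≤ L + 1 ∧ ((F.sig ^ j) (u, b)).1 = v

def FarPair (L : ℕ) (s t : Stub V) : Prop :=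
  ¬ F.Near L s.1 t.1 ∧ ¬ F.Near L s.1 (F.mu t).1 ∧ ¬ F.Near L (F.mu s).1 t.1 ∧
    ¬ F.Near L (F.mu s).1 (F.mu t).1

/-- `s` is not a loop stub and its pair is far from the vertex set `W` -/
def Avoid (L : ℕ) (W : Finset V) (s : Stub V) : Prop :=
  ¬ F.loop s.1 ∧ ∀ w ∈ W, ¬ F.Near L w s.1 ∧ ¬ F.Near L w (F.mu s).1

/-- non-loop cycles are longer than `L` -/
def Per (L : ℕ) : Prop := ∀ s : Stub V, ¬ F.loop s.1 → ∀ j, 1 ≤ j → j ≤ L → (F.sig ^ j) s ≠ s

/-- twins -/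
def Tw (L : ℕ) (a a' : Stub V) : Prop :=
  ¬ F.loop a.1 ∧ ¬ F.loop a'.1 ∧ a.1 ≠ a'.1 ∧ a.1 ≠ (F.mu a').1 ∧ (F.mu a).1 ≠ a'.1 ∧
    (F.mu a).1 ≠ (F.mu a').1 ∧
    (∃ j, 1 ≤ j ∧ j ≤ L ∧ ((F.sig ^ j) a = a ∨ (F.sig ^ j) a = a')) ∧
    ∀ i : ℕ, (F.sig ^ i) a ≠ F.mu a'

/-- `B` together with its neighbours in `F` -/
def nb (B : Finset V) : Finset V :=
  B ∪ (B.image (fun v => (F.mu (v, false)).1) ∪ B.image (fun v => (F.mu (v, true)).1))

/-- all pairs touching `B` -/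
def zone (B : Finset V) : Finset (Stub V) := univ.filter (fun s => s.1 ∈ B ∨ (F.mu s).1 ∈ B)

def leak (A : Finset (Stub V)) : ℕ :=
  (univ.filter (fun p : Stub V × Stub V => p.1 ∈ A ∧ F.adj p.1 p.2 ∧ F.mu p.2 ∉ A)).card

/-- layers of robust reachability -/
def reach (h : ℕ) (Y : Finset (Stub V)) : ℕ → Finset (Stub V)
  | 0 => Y
  | j + 1 => reach h Y j ∪
      univ.filter (fun s' => h ≤ ((reach h Y j).filter (fun s => F.adj s (F.mu s'))).card)

/-- `F'` only turns phantoms into real pairs and rearranges real ones -/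
def Improves (F' : PF G) : Prop :=
  (∀ s, F.real s → F'.real s) ∧ ∀ s, ¬ F'.real s → F'.mu s = F.mu s

/-- all non-loop stubs are real -/
def AllReal : Prop := ∀ s : Stub V, ¬ F.loop s.1 → F.real s

section labels

variable (l : Stub V → Node)

/-- `N(z,a,K)` -/
def NS (z : V) (a : Option C) (K : Node) : Finset (Stub V) :=
  univ.filter (fun t => l t = K ∧ t.1 ≠ z ∧ some (G.c t.1 z) ≠ F.kept t ∧ some (G.c z t.1) ≠ a)

def Feas (z : V) (τ : ℕ) (K1 K2 : Node) : Prop :=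
  ∃ Γ : Set C, τ ≤ ((F.NS l z none K1).filter (fun t => G.c z t.1 ∈ Γ)).card ∧
    τ ≤ ((F.NS l z none K2).filter (fun t => G.c z t.1 ∉ Γ)).card

/-- local options of the vertex `z` for the cut set `Cs` -/
def Opt (Cs : Finset (Stub V)) (τ : ℕ) (z : V) (g : Gp) : Prop :=
  ((z, false) ∈ Cs ∧ (z, true) ∈ Cs ∧ ∃ K1 K2, F.Feas l z τ K1 K2 ∧ g = cls K1 + cls K2) ∨
  (∃ b K, (z, b) ∈ Cs ∧ (z, !b) ∉ Cs ∧ τ ≤ (F.NS l z (F.kept (z, b)) K).card ∧ g = cls K)

def NSfin (K K' : Node) (θ ζ : ℕ) : Prop :=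
  ∀ A : Finset (Stub V), F.leak A ≤ ζ → θ ≤ (A.filter (fun s => l (F.mu s) = K)).card →
    (univ.filter (fun s => l s = K' ∧ s ∉ A)).card < θ

def Walks (sm : Bool) (τ L k β : ℕ) : Prop :=
  ∀ (K : Node) (T1 T2 : Finset (Stub V)), (∀ t ∈ T1, l t = K) → (∀ t ∈ T2, l t = mir sm K) →
    τ ≤ T1.card → τ ≤ T2.card → ∀ W : Finset V, W.card ≤ β →
    ∃ (r : ℕ) (w : ℕ → Stub V), r < k ∧ F.mu (w 0) ∈ T1 ∧ w r ∈ T2 ∧
      (∀ j, j < r → F.adj (w j) (F.mu (w (j + 1)))) ∧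
      (∀ i j, i < j → j ≤ r → F.FarPair L (w i) (w j)) ∧ ∀ j, j ≤ r → F.Avoid L W (w j)

def Typ (sm : Bool) (D : ℕ) (s : Stub V) : Prop :=
  D ≤ (F.NS l s.1 (F.kept s) (mir sm (l s))).card ∧
    ((l s = .X ∨ l s = .Xb) → l (F.mu s) = mir sm (l s)) ∧
    ((l s = .Z1 ∨ l s = .Z2) → (l (F.mu s) = .Z1 ∨ l (F.mu s) = .Z2))

def TypV (sm : Bool) (D : ℕ) (v : V) : Prop :=
  ¬ F.loop v ∧ (∀ b, F.Typ l sm D (v, b) ∧ F.Typ l sm D (F.mu (v, b))) ∧
    (sm = false → lv true (l (v, false)) ≠ lv true (l (v, true)))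

def atyp (sm : Bool) (D : ℕ) : Finset V := univ.filter (fun v => ¬ F.TypV l sm D v)

def TT (sm : Bool) (D : ℕ) (i : Bool) : Finset V :=
  univ.filter (fun v => F.TypV l sm D v ∧ ∃ b, l (v, b) = Lof sm i ∧ l (v, !b) = Zof i)

/-- typical `Z1` stubs with many `Z2` neighbours -/
def TZ (sm : Bool) (D : ℕ) : Finset (Stub V) :=
  univ.filter (fun s => F.TypV l sm D s.1 ∧ l s = .Z1 ∧ D ≤ (F.NS l s.1 (F.kept s) .Z2).card)

def labSet (K : Node) : Finset (Stub V) := univ.filter (fun s => l s = K)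

/-- the edge `uw` has a colour kept by neither stub of `u` -/
def Free (u w : V) : Prop := w ≠ u ∧ ∀ b, some (G.c u w) ≠ F.kept (u, b)

/-- top level of a node with at least `θ` available stubs -/
def lam (sg : Bool) (θ : ℕ) (z : V) (a : Option C) : ℤ :=
  if ∃ K, θ ≤ (F.NS l z a K).card ∧ lv sg K = 1 then 1
  else if ∃ K, θ ≤ (F.NS l z a K).card ∧ lv sg K = 0 then 0 else -1

lemma exists_fv (sg : Bool) (θ : ℕ) (z : V) :
    ∃ a : C, ∀ a' : C, F.lam l sg θ z (some a) ≤ F.lam l sg θ z (some a') := by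
  have hb : ∀ a, F.lam l sg θ z a = 1 ∨ F.lam l sg θ z a = 0 ∨ F.lam l sg θ z a = -1 := by
    intro a; unfold lam; split_ifs <;> simp
  by_cases h1 : ∃ a : C, F.lam l sg θ z (some a) = -1
  · obtain ⟨a, ha⟩ := h1
    exact ⟨a, fun a' => by rcases hb (some a') with h | h | h <;> omega⟩
  by_cases h0 : ∃ a : C, F.lam l sg θ z (some a) = 0
  · obtain ⟨a, ha⟩ := h0
    refine ⟨a, fun a' => ?_⟩
    rcases hb (some a') with h | h | h
    · omega
    · omega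
    · exact absurd ⟨a', h⟩ h1
  · refine ⟨G.c z z, fun a' => ?_⟩
    rcases hb (some a') with h | h | h
    · rcases hb (some (G.c z z)) with h' | h' | h' <;> omega
    · exact absurd ⟨a', h⟩ h0
    · exact absurd ⟨a', h⟩ h1

def fv (sg : Bool) (θ : ℕ) (z : V) : C := (F.exists_fv l sg (3 * θ) z).choose
def pv (sg : Bool) (θ : ℕ) (z : V) : ℤ := - F.lam l sg (3 * θ) z (some (F.fv l sg θ z))
def qv (sg : Bool) (θ : ℕ) (z : V) : ℤ :=
  - max (F.lam l sg (3 * θ) z (some (F.fv l sg θ z))) (F.lam l sg (6 * θ) z none)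
def xv (sg : Bool) (θ : ℕ) (z : V) (a : C) : ℤ :=
  if a = F.fv l sg θ z then F.qv l sg θ z else F.pv l sg θ z
def yv (sg : Bool) (θ : ℕ) (z : V) (a : C) : ℤ :=
  if a = F.fv l sg θ z then F.pv l sg θ z else F.qv l sg θ z
def psi (sg : Bool) (θ : ℕ) (s : Stub V) : ℤ := - F.lam l sg (3 * θ) s.1 (F.kept s)

/-- clean vertices of Lemma R -/
def Clean (sg : Bool) (θ : ℕ) (B0 : Finset V) (u : V) : Prop :=
  Disjoint (F.nb {u}) B0 ∧ (F.loop u → F.pv l sg θ u + F.qv l sg θ u = 0) ∧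
    (¬ F.loop u → (∀ b, F.psi l sg θ (u, b) + F.psi l sg θ (F.mu (u, b)) = 0) ∧
      ∀ z ∈ F.nb {u}, F.psi l sg θ (z, false) + F.psi l sg θ (z, true) =
        F.pv l sg θ z + F.qv l sg θ z)

end labels

/-! potentials of a stub set `A` -/

def phi (A : Finset (Stub V)) (s : Stub V) : ℤ :=
  (if s ∈ A then 1 else 0) - (if F.mu s ∈ A then 1 else 0)
def hi (A : Finset (Stub V)) (u : V) : Stub V :=
  if F.phi A (u, false) < F.phi A (u, true) then (u, true) else (u, false)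
def lo (A : Finset (Stub V)) (u : V) : Stub V := nu (F.hi A u)
def ch (A : Finset (Stub V)) (u : V) (a : C) : Stub V :=
  if some a = F.kept (F.hi A u) then F.lo A u else F.hi A u
def mA (A : Finset (Stub V)) (u w : V) : ℤ :=
  F.phi A (F.ch A u (G.c u w)) + F.phi A (F.ch A w (G.c w u))
/-- ordered pairs that are not tight -/
def badPairs (A : Finset (Stub V)) : Finset (V × V) :=
  univ.filter (fun p => p.1 ≠ p.2 ∧ F.mA A p.1 p.2 ≠ 0)
/-- vertices of type `(p,q)` -/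
def ty (A : Finset (Stub V)) (p q : ℤ) : Finset V :=
  univ.filter (fun v => F.phi A (F.hi A v) = p ∧ F.phi A (F.lo A v) = q)
/-- degree in the colour kept by the high stub -/
def fdeg (A : Finset (Stub V)) (u : V) : ℕ :=
  (univ.filter (fun w => w ≠ u ∧ some (G.c u w) = F.kept (F.hi A u))).card
def labA (A : Finset (Stub V)) (s : Stub V) : Node :=
  if F.phi A s = 1 then .X else if F.phi A s = -1 then .Xb
  else if F.phi A (nu s) = 1 then .Z1 else .Z2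

end PF

/-- colours a cut stub may receive -/
def colP (G : Ctx V C) (E : Finset (Stub V)) (rho : Stub V → Stub V)
    (T : Stub V → Finset (Stub V)) (s : Stub V) (a : C) : Prop :=
  (s ∈ E ∧ ∃ t ∈ T s, G.c s.1 t.1 = a) ∨ (s ∉ E ∧ G.c s.1 (rho s).1 = a)

/-- A surgery in progress. -/
structure Plan {G : Ctx V C} (F : PF G) where
  Cs : Finset (Stub V)
  E : Finset (Stub V)
  rho : Stub V → Stub V
  T : Stub V → Finset (Stub V)
  Cs_mu : ∀ s ∈ Cs, F.mu s ∈ Cs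
  E_sub : E ⊆ Cs
  rho_mem : ∀ s ∈ Cs, s ∉ E → rho s ∈ Cs ∧ rho s ∉ E
  rho_rho : ∀ s ∈ Cs, s ∉ E → rho (rho s) = s
  rho_ne : ∀ s ∈ Cs, s ∉ E → (rho s).1 ≠ s.1
  T_ok : ∀ e ∈ E, ∀ t ∈ T e, t.1 ≠ e.1 ∧ some (G.c t.1 e.1) ≠ F.kept t
  single : ∀ s ∈ Cs, nu s ∉ Cs → ∀ a, colP G E rho T s a → some a ≠ F.kept s
  double : ∀ s ∈ Cs, nu s ∈ Cs → ∀ a, colP G E rho T s a → ¬ colP G E rho T (nu s) a

/-- A labelled plan. -/
structure LPlan {G : Ctx V C} (F : PF G) (l : Stub V → Node) (τ : ℕ) extends Plan F where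
  lab : Stub V → Node
  lab_ok : ∀ e ∈ E, τ ≤ (T e).card ∧ ∀ t ∈ T e, l t = lab e
  anchor : ∀ s ∈ Cs, s ∈ E ∨ nu s ∈ E ∨ nu (rho s) ∈ E

namespace LPlan
variable {G : Ctx V C} {F : PF G} {l : Stub V → Node} {τ : ℕ} (P : LPlan F l τ)
def cl : Gp := ∑ e ∈ P.E, cls (P.lab e)
def supp : Finset V := P.Cs.image Prod.fst
end LPlan

/-- every plan on at most six vertices that avoids `B0` has its class in `A0` -/
def Small {G : Ctx V C} (F : PF G) (l : Stub V → Node) (τ : ℕ) (A0 : Set Gp) (B0 : Finset V) :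
    Prop :=
  ∀ P : LPlan F l τ, P.supp.card ≤ 6 → Disjoint P.supp B0 → P.cl ∈ A0

def Avail {G : Ctx V C} (F : PF G) (l : Stub V → Node) (τ : ℕ) (g : Gp) (k : ℕ) : Prop :=
  ∀ W : Finset V, W.card ≤ k → ∃ P : LPlan F l τ, P.supp.card ≤ 6 ∧ Disjoint P.supp W ∧ P.cl = g

/-! limit setting -/

structure Inst where
  n : ℕ
  C : Type
  G : Ctx (Fin n) C
  F : PF G

abbrev UF : Filter ℕ := (Filter.hyperfilter ℕ : Filter ℕ)

def Null (I : ℕ → Inst) (f : ℕ → ℕ) : Prop :=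
  Filter.Tendsto (fun i => (f i : ℝ) / ((I i).n : ℝ)) UF (nhds 0)
def Null2 (I : ℕ → Inst) (f : ℕ → ℕ) : Prop :=
  Filter.Tendsto (fun i => (f i : ℝ) / ((I i).n : ℝ) ^ 2) UF (nhds 0)
def Grow (I : ℕ → Inst) : Prop := ∀ i, i ≤ (I i).n
abbrev SSet (I : ℕ → Inst) := ∀ i, Finset (Stub (Fin (I i).n))
abbrev VSet (I : ℕ → Inst) := ∀ i, Finset (Fin (I i).n)
abbrev Lab (I : ℕ → Inst) := ∀ i, Stub (Fin (I i).n) → Node
def Closed (I : ℕ → Inst) (A : SSet I) : Prop := Null2 I (fun i => (I i).F.leak (A i))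

/-- non-splitting of the node `K` -/
def NSlim (I : ℕ → Inst) (l : Lab I) (K K' : Node) : Prop :=
  ∀ A : SSet I, Closed I A →
    ¬ Null I (fun i => ((A i).filter (fun s => l i ((I i).F.mu s) = K)).card) →
    Null I (fun i => (univ.filter (fun s => l i s = K' ∧ s ∉ A i)).card)

/-- output of the structure theorem -/
structure Str (I : ℕ → Inst) (sm : Bool) (l : Lab I) (k0 : ℕ) : Prop where
  pos : 0 < k0
  noXb : sm = true → ∀ i s, l i s ≠ .Xb
  atyp : Null I (fun i => ((I i).F.atyp (l i) sm ((I i).n / k0)).card)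
  mix : ∀ b, Null I (fun i => (PF.labSet (l i) (Zof b)).card) ∨
    ∀ᶠ i in UF, (I i).n ≤ k0 * ((I i).F.TT (l i) sm ((I i).n / k0) b).card
  two : Null I (fun i => (PF.labSet (l i) .Z1).card) ∨ Null I (fun i => (PF.labSet (l i) .Z2).card) ∨
    (∀ᶠ i in UF, (I i).n ≤ k0 * ((I i).F.TZ (l i) sm ((I i).n / k0)).card) ∨
    ∀ᶠ i in UF, 11 * (I i).n ≤ 20 * (((I i).F.TT (l i) sm ((I i).n / k0) false).card +
      ((I i).F.TT (l i) sm ((I i).n / k0) true).card)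
  ns : ∀ K, NSlim I l K (mir sm K)
  hub : ∀ W : VSet I, (∀ i s, s.1 ∈ W i → ((I i).F.mu s).1 ∈ W i) →
    ¬ Null I (fun i => (W i).card) → ¬ Null I (fun i => (W i)ᶜ.card) →
    ∃ K, mir sm (mir sm K) = K ∧
      ¬ Null I (fun i => (univ.filter (fun s => s.1 ∈ W i ∧ l i s = K ∧
        l i ((I i).F.mu s) = mir sm K)).card) ∧
      ¬ Null I (fun i => (univ.filter (fun s => s.1 ∉ W i ∧ l i s = K ∧
        l i ((I i).F.mu s) = mir sm K)).card)

end Pool.Agent.BE
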