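import Pool.Agent.Lib.MP_dd4ef3_lc.BE.Orbit

set_option autoImplicit false

open Finset Classical

noncomputable section

namespace Pool.Agent.BE

variable {V C : Type} [Fintype V] [DecidableEq V] {G : Ctx V C}

theorem ham_of_conn (F : PF G) (hr : ∀ s, F.real s) (hc : ∀ u w, F.Conn u w) :
    ∃ σ : Equiv.Perm V, (∀ v, σ v ≠ v ∧ σ (σ v) ≠ v ∧ G.c (σ v) v ≠ G.c (σ v) (σ (σ v))) ∧
      ∀ u v, σ.SameCycle u v := by
  rcases isEmpty_or_nonempty V with hV | ⟨⟨v0⟩⟩
  · exact ⟨1, fun v => hV.elim v, fun v => hV.elim v⟩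
  choose J hJ using fun v => (F.conn_iff (v0, false) v).1 (hc v0 v)
  obtain ⟨out, ho1, ho2⟩ : ∃ out : V → Stub V, (∀ v, (out v).1 = v) ∧
      ∀ v, F.sig.SameCycle (v0, false) (out v) :=
    ⟨fun v => (F.sig ^ J v) (v0, false), hJ, fun v =>
      Equiv.Perm.sameCycle_pow_right.2 (Equiv.Perm.SameCycle.refl _ _)⟩
  have uniq : ∀ s : Stub V, F.sig.SameCycle (v0, false) s → out s.1 = s := by
    intro s hs
    rcases eq_or_eq_nu (ho1 s.1) with e | e
    · exact e
    · obtain ⟨k, hk⟩ := (hs.symm.trans (ho2 s.1)).exists_nat_pow_eq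
      exact absurd (hk.trans e) (F.sig_pow_ne_nu k s)
  have step : ∀ v, out (F.sig (out v)).1 = F.sig (out v) := fun v =>
    uniq _ (Equiv.Perm.sameCycle_apply_right.2 (ho2 v))
  have inj : Function.Injective (fun v => (F.sig (out v)).1) := by
    intro v w e
    have e1 : F.sig (out v) = F.sig (out w) := by
      rw [← step v, ← step w]
      exact congrArg out e
    rw [← ho1 v, ← ho1 w, F.sig.injective e1]
  obtain ⟨σ, hσ⟩ : ∃ σ : Equiv.Perm V, ∀ v, σ v = (F.sig (out v)).1 :=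
    ⟨Equiv.ofBijective _ (Finite.injective_iff_bijective.1 inj), fun _ => rfl⟩
  have st : ∀ v, out (σ v) = F.sig (out v) := fun v => by rw [hσ, step]
  have hm : ∀ v, (F.mu (out v)).1 = σ v := fun v => by rw [hσ]; rfl
  have pw : ∀ (k : ℕ) v, out ((σ ^ k) v) = (F.sig ^ k) (out v) := by
    intro k v
    induction k with
    | zero => rfl
    | succ k ih => rw [pow_succ', pow_succ', Equiv.Perm.mul_apply, Equiv.Perm.mul_apply, st, ih]
  refine ⟨σ, fun v => ?_, fun u v => ?_⟩
  · have h1 := F.real_ne (out v) (hr _)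
    have h2 := F.pc (out (σ v)) (hr _) (hr _)
    have h3 : F.mu (nu (out (σ v))) = out v := by rw [st, PF.sig_apply, nu_nu, F.mu_mu]
    rw [hm, ho1] at h1
    rw [h3, hm, ho1, ho1] at h2
    exact ⟨h1, fun e => h2 (by rw [e]), fun e => h2 e.symm⟩
  · obtain ⟨k, hk⟩ := ((ho2 u).symm.trans (ho2 v)).exists_nat_pow_eq
    refine ⟨(k : ℤ), ?_⟩
    rw [zpow_natCast, ← ho1 ((σ ^ k) u), pw, hk, ho1]

theorem exists_start (G : Ctx V C) (h : 2 ≤ Fintype.card V) : ∃ F : PF G, ∀ v, ¬ F.loop v := by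
  obtain ⟨π, hπ⟩ : ∃ π : Equiv.Perm V, ∀ v, π v ≠ v := by
    obtain ⟨m, hm⟩ : ∃ m, Fintype.card V = m + 2 := ⟨Fintype.card V - 2, by omega⟩
    have e : V ≃ Fin (m + 2) := Fintype.equivFinOfCardEq hm
    refine ⟨e.symm.permCongr (finRotate (m + 2)), fun v hv => ?_⟩
    have h1 : e v ∈ (finRotate (m + 2)).support := by rw [support_finRotate]; exact mem_univ _
    apply Equiv.Perm.mem_support.1 h1
    rw [Equiv.permCongr_apply, Equiv.symm_symm, Equiv.symm_apply_eq] at hv
    exact hv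
  refine ⟨⟨fun s => if s.2 = true then (π.symm s.1, false) else (π s.1, true), fun _ => False,
    ?_, ?_, fun _ h => h, fun _ h => h.elim, fun _ h => h.elim⟩, fun v hv => ?_⟩
  · rintro ⟨v, b⟩
    cases b <;> simp
  · rintro ⟨v, b⟩
    cases b <;> simp
  · simp only [PF.loop] at hv
    exact hπ v (by simpa using hv)

/-- keep one component, turn the rest into loops -/
theorem exists_restrict (F : PF G) (hF : F.AllReal) (v0 : V) :
    ∃ F' : PF G, F'.AllReal ∧ (∀ v, ¬ F'.loop v → F.Conn v0 v) ∧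
      (∀ v, F.Conn v0 v → F'.comp v = F.comp v0) := by
  have cm : ∀ s : Stub V, F.Conn v0 s.1 → F.Conn v0 (F.mu s).1 :=
    fun s h => F.conn_trans h (F.conn_mu s)
  obtain ⟨F', h1, h2, h3⟩ : ∃ F' : PF G, (∀ s, F.Conn v0 s.1 → F'.mu s = F.mu s) ∧
      (∀ s, ¬ F.Conn v0 s.1 → F'.mu s = nu s) ∧ ∀ s, F.Conn v0 s.1 → F.real s → F'.real s := by
    refine ⟨⟨fun s => if F.Conn v0 s.1 then F.mu s else nu s, fun s => F.Conn v0 s.1 ∧ F.real s,
      ?_, ?_, ?_, ?_, ?_⟩, fun s h => if_pos h, fun s h => if_neg h, fun s h h' => ⟨h, h'⟩⟩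
    · intro s
      by_cases h : F.Conn v0 s.1
      · simp only [if_pos h, if_pos (cm s h), F.mu_mu]
      · simp only [if_neg h, nu_fst, nu_nu]
    · intro s
      by_cases h : F.Conn v0 s.1
      · simp only [if_pos h]
        exact F.mu_ne s
      · simp only [if_neg h]
        exact nu_ne s
    · rintro s ⟨h, h'⟩
      simp only [if_pos h]
      exact ⟨cm s h, F.real_mu s h'⟩
    · rintro s ⟨h, h'⟩
      simp only [if_pos h]
      exact F.real_ne s h'
    · rintro s ⟨h, h'⟩ ⟨_, h''⟩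
      simp only [nu_fst, if_pos h]
      exact F.pc s h' h''
  have h4 : ∀ v, ¬ F'.loop v → F.Conn v0 v := by
    intro v hv
    by_contra h
    exact hv (h2 (v, false) h)
  refine ⟨F', fun s hs => ?_, h4, fun v hv => ?_⟩
  · have hc := h4 _ hs
    refine h3 s hc (hF s fun hl => hs ?_)
    rw [F'.loop_iff, h1 s hc, ← F.loop_iff]
    exact hl
  · ext w
    constructor
    · intro hw
      refine F'.conn_closed (W := F.comp v0) (fun s hs => ?_) (F.mem_comp.2 hv) (F'.mem_comp.1 hw)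
      rw [h1 s (F.mem_comp.1 hs)]
      exact F.comp_closed v0 s hs
    · intro hw
      obtain ⟨j, rfl⟩ := (F.conn_iff (v, false) w).1
        (F.conn_trans (F.conn_symm hv) (F.mem_comp.1 hw))
      rw [PF.mem_comp]
      clear hw
      induction j with
      | zero => exact F'.conn_refl _
      | succ j ih =>
        rw [pow_succ', Equiv.Perm.mul_apply, PF.sig_apply, nu_fst,
          ← h1 _ (F.conn_trans hv (F.conn_sig_pow (v, false) j))]
        exact F'.conn_trans ih (F'.conn_mu _)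

/-- if no closed set splits, some component is a giant -/
theorem exists_giant (F : PF G) (γ : ℕ) (hγ : 3 < γ) (hn : 0 < Fintype.card V)
    (h : ∀ W : Finset V, (∀ s : Stub V, s.1 ∈ W → (F.mu s).1 ∈ W) →
      Fintype.card V ≤ γ * W.card → ¬ Fintype.card V ≤ γ * Wᶜ.card) :
    ∃ v, γ * (F.comp v)ᶜ.card < Fintype.card V := by
  obtain ⟨W, hW, hmin⟩ := exists_min_image
    (univ.filter (fun W : Finset V => (∀ s : Stub V, s.1 ∈ W → (F.mu s).1 ∈ W) ∧
      Fintype.card V ≤ γ * W.card)) card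
    ⟨univ, mem_filter.2 ⟨mem_univ _, fun _ _ => mem_univ _, by
      rw [card_univ]; exact Nat.le_mul_of_pos_left _ (by omega)⟩⟩
  obtain ⟨hc, hl⟩ := (mem_filter.1 hW).2
  have hsm : ∀ W' : Finset V, (∀ s : Stub V, s.1 ∈ W' → (F.mu s).1 ∈ W') → W'.card < W.card →
      γ * W'.card < Fintype.card V := by
    intro W' h1 h2
    by_contra h3
    have := hmin W' (mem_filter.2 ⟨mem_univ _, h1, not_lt.1 h3⟩)
    omega
  have h0 := not_le.1 (h W hc hl)
  obtain ⟨v, hv⟩ : W.Nonempty := by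
    rw [← card_pos]
    by_contra h1
    have h2 : W.card = 0 := by omega
    rw [h2] at hl
    omega
  have hsub : F.comp v ⊆ W := fun w hw => F.conn_closed hc hv (F.mem_comp.1 hw)
  by_cases he : F.comp v = W
  · exact ⟨v, by rw [he]; exact h0⟩
  exfalso
  have a1 := hsm _ (F.comp_closed v) (card_lt_card (ssubset_of_ne_of_subset he hsub))
  have a0 : 0 < (F.comp v).card := card_pos.2 ⟨v, F.mem_comp.2 (F.conn_refl v)⟩
  have a3 := card_sdiff_add_card_eq_card hsub
  have a2 := hsm (W \ F.comp v) (fun s hs => by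
    rw [mem_sdiff] at hs ⊢
    exact ⟨hc s hs.1, fun h1 => hs.2 (by simpa using F.comp_closed v (F.mu s) h1)⟩) (by omega)
  have a4 := card_add_card_compl W
  have a5 : γ * Fintype.card V = γ * (W \ F.comp v).card + γ * (F.comp v).card + γ * Wᶜ.card := by
    rw [← a4, ← a3]
    ring
  have a6 : 4 * Fintype.card V ≤ γ * Fintype.card V := Nat.mul_le_mul_right _ (by omega)
  omega

end Pool.Agent.BE
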