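import Pool.Agent.Lib.MP_dd4ef3_lc.BE.Basic

set_option autoImplicit false

open Finset Classical

noncomputable section

namespace Pool.Agent.BE

variable {V C : Type} [Fintype V] [DecidableEq V] {G : Ctx V C}

variable {F : PF G} {l : Stub V → Node} {τ : ℕ}

/-- local data at a vertex all of whose cut stubs are ends -/
def PlanMkGood (F : PF G) (l : Stub V → Node) (τ : ℕ) (Cs : Finset (Stub V)) (z : V) (g : Gp)
    (lab : Bool → Node) (T : Bool → Finset (Stub V)) : Prop :=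
  (∀ b, (z, b) ∈ Cs → τ ≤ (T b).card ∧
    ∀ t ∈ T b, l t = lab b ∧ t.1 ≠ z ∧ some (G.c t.1 z) ≠ F.kept t) ∧
  (∀ b, (z, b) ∈ Cs → (z, !b) ∉ Cs → ∀ t ∈ T b, some (G.c z t.1) ≠ F.kept (z, b)) ∧
  (∀ b, (z, b) ∈ Cs → (z, !b) ∈ Cs → ∀ t ∈ T b, ∀ t' ∈ T (!b), G.c z t.1 ≠ G.c z t'.1) ∧
  g = (if (z, true) ∈ Cs then cls (lab true) else 0) +
    (if (z, false) ∈ Cs then cls (lab false) else 0)

theorem planMk_good {Cs : Finset (Stub V)} {z : V} {g : Gp} (h : F.Opt l Cs τ z g) :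
    ∃ lab T, PlanMkGood F l τ Cs z g lab T := by
  rcases h with ⟨h0, h1, K1, K2, ⟨Γ, hA, hB⟩, rfl⟩ | ⟨b, K, h0, h1, hK, rfl⟩
  · refine ⟨fun b => cond b K2 K1, fun b => cond b
      ((F.NS l z none K2).filter (fun t => G.c z t.1 ∉ Γ))
      ((F.NS l z none K1).filter (fun t => G.c z t.1 ∈ Γ)), ?_, ?_, ?_, ?_⟩
    · intro b _
      cases b
      · refine ⟨hA, fun t ht => ?_⟩
        obtain ⟨a1, a2, a3, -⟩ := F.mem_NS.1 (mem_filter.1 ht).1
        exact ⟨a1, a2, a3⟩
      · refine ⟨hB, fun t ht => ?_⟩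
        obtain ⟨a1, a2, a3, -⟩ := F.mem_NS.1 (mem_filter.1 ht).1
        exact ⟨a1, a2, a3⟩
    · intro b _ hb
      cases b
      · exact absurd h1 hb
      · exact absurd h0 hb
    · intro b _ _ t ht t' ht' e
      cases b
      · exact (mem_filter.1 ht').2 (e ▸ (mem_filter.1 ht).2)
      · exact (mem_filter.1 ht).2 (e ▸ (mem_filter.1 ht').2)
    · rw [if_pos h0, if_pos h1, add_comm]
      rfl
  · refine ⟨fun _ => K, fun _ => F.NS l z (F.kept (z, b)) K, ?_, ?_, ?_, ?_⟩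
    · refine fun _ _ => ⟨hK, fun t ht => ?_⟩
      obtain ⟨a1, a2, a3, -⟩ := F.mem_NS.1 ht
      exact ⟨a1, a2, a3⟩
    · intro b' hb' _ t ht
      have e : b' = b := by
        by_contra hne
        have : b' = !b := by cases b <;> cases b' <;> simp_all
        exact h1 (this ▸ hb')
      rw [e]
      exact (F.mem_NS.1 ht).2.2.2
    · intro b' h2 h3
      exfalso
      cases b <;> cases b' <;> first | exact h1 h2 | exact h1 h3
    · cases b
      · rw [if_pos h0, if_neg (by simpa using h1), zero_add]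
      · rw [if_pos h0, if_neg (by simpa using h1), add_zero]

omit [Fintype V] in
theorem planMk_sum (E : Finset (Stub V)) (S : Finset V) (hS : ∀ e ∈ E, e.1 ∈ S)
    (f : Stub V → Gp) :
    ∑ e ∈ E, f e = ∑ z ∈ S, ((if (z, true) ∈ E then f (z, true) else 0) +
      (if (z, false) ∈ E then f (z, false) else 0)) := by
  have h1 : E = (S ×ˢ (univ : Finset Bool)).filter (fun e => e ∈ E) := by
    ext e
    simp only [mem_filter, mem_product, mem_univ, and_true]
    exact ⟨fun h => ⟨hS e h, h⟩, fun h => h.2⟩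
  conv_lhs => rw [h1, sum_filter, sum_product]
  refine sum_congr rfl fun z _ => ?_
  rw [Fintype.sum_bool]

theorem plan_of_opts (Cs : Finset (Stub V)) (hC : ∀ s ∈ Cs, F.mu s ∈ Cs) (g : V → Gp)
    (hg : ∀ z ∈ Cs.image Prod.fst, F.Opt l Cs τ z (g z)) :
    ∃ P : LPlan F l τ, P.Cs = Cs ∧ P.cl = ∑ z ∈ Cs.image Prod.fst, g z := by
  have h : ∀ z, ∃ lab T, z ∈ Cs.image Prod.fst → PlanMkGood F l τ Cs z (g z) lab T := by
    intro z
    by_cases hz : z ∈ Cs.image Prod.fst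
    · obtain ⟨lab, T, h⟩ := planMk_good (hg z hz)
      exact ⟨lab, T, fun _ => h⟩
    · exact ⟨fun _ => .X, fun _ => ∅, fun h => absurd h hz⟩
  choose lab T h using h
  have h' : ∀ s ∈ Cs, PlanMkGood F l τ Cs s.1 (g s.1) (lab s.1) (T s.1) :=
    fun s hs => h _ (mem_image_of_mem _ hs)
  refine ⟨{ Cs := Cs, E := Cs, rho := id, T := fun s => T s.1 s.2, lab := fun s => lab s.1 s.2
            Cs_mu := hC
            E_sub := Subset.refl _
            rho_mem := fun s hs hn => absurd hs hn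
            rho_rho := fun s hs hn => absurd hs hn
            rho_ne := fun s hs hn => absurd hs hn
            T_ok := fun e he t ht => (((h' e he).1 e.2 he).2 t ht).2
            single := ?_
            double := ?_
            lab_ok := fun e he => ⟨((h' e he).1 e.2 he).1,
              fun t ht => (((h' e he).1 e.2 he).2 t ht).1⟩
            anchor := fun s hs => Or.inl hs }, rfl, ?_⟩
  · rintro s hs hn a (⟨-, t, ht, rfl⟩ | ⟨h1, -⟩)
    · exact (h' s hs).2.1 s.2 hs hn t ht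
    · exact absurd hs h1
  · rintro s hs hn a (⟨-, t, ht, rfl⟩ | ⟨h1, -⟩) (⟨-, t', ht', e⟩ | ⟨h2, -⟩)
    · exact (h' s hs).2.2.1 s.2 hs hn t ht t' ht' e.symm
    · exact h2 hn
    · exact h1 hs
    · exact h1 hs
  · show ∑ e ∈ Cs, cls (lab e.1 e.2) = _
    rw [planMk_sum Cs (Cs.image Prod.fst) (fun e he => mem_image_of_mem _ he)]
    exact sum_congr rfl fun z hz => (h z hz).2.2.2.symm

/-- a plan with one new edge, between the stubs `s` and `t` -/
theorem plan_of_edge (Cs : Finset (Stub V)) (hC : ∀ s ∈ Cs, F.mu s ∈ Cs) (s t : Stub V)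
    (hs : s ∈ Cs) (ht : t ∈ Cs) (hst : s.1 ≠ t.1) (hs' : nu s ∈ Cs) (g : V → Gp)
    (hg : ∀ z ∈ Cs.image Prod.fst, z ≠ s.1 → z ≠ t.1 → F.Opt l Cs τ z (g z))
    (Ku : Node) (hKu : τ ≤ (F.NS l s.1 (some (G.c s.1 t.1)) Ku).card) (gw : Gp)
    (hw : (nu t ∈ Cs ∧ ∃ Kw, τ ≤ (F.NS l t.1 (some (G.c t.1 s.1)) Kw).card ∧ gw = cls Kw) ∨
      (nu t ∉ Cs ∧ some (G.c t.1 s.1) ≠ F.kept t ∧ gw = 0)) :
    ∃ P : LPlan F l τ, P.Cs = Cs ∧
      P.cl = ∑ z ∈ ((Cs.image Prod.fst).erase s.1).erase t.1, g z + cls Ku + gw := by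
  obtain ⟨Kw, hw1, hw2, hw3⟩ : ∃ Kw,
      (nu t ∈ Cs → τ ≤ (F.NS l t.1 (some (G.c t.1 s.1)) Kw).card) ∧
      (nu t ∉ Cs → some (G.c t.1 s.1) ≠ F.kept t) ∧ gw = if nu t ∈ Cs then cls Kw else 0 := by
    rcases hw with ⟨h1, Kw, h2, h3⟩ | ⟨h1, h2, h3⟩
    · exact ⟨Kw, fun _ => h2, fun h => absurd h1 h, by rw [if_pos h1, h3]⟩
    · exact ⟨.X, fun h => absurd h h1, fun _ => h2, by rw [if_neg h1, h3]⟩
  have h : ∀ z, ∃ lab T, z ∈ Cs.image Prod.fst → z ≠ s.1 → z ≠ t.1 →
      PlanMkGood F l τ Cs z (g z) lab T := by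
    intro z
    by_cases hz : z ∈ Cs.image Prod.fst ∧ z ≠ s.1 ∧ z ≠ t.1
    · obtain ⟨lab, T, h⟩ := planMk_good (hg z hz.1 hz.2.1 hz.2.2)
      exact ⟨lab, T, fun _ _ _ => h⟩
    · exact ⟨fun _ => .X, fun _ => ∅, fun h1 h2 h3 => absurd ⟨h1, h2, h3⟩ hz⟩
  choose lab T h using h
  have h' : ∀ x ∈ Cs, x.1 ≠ s.1 → x.1 ≠ t.1 →
      PlanMkGood F l τ Cs x.1 (g x.1) (lab x.1) (T x.1) :=
    fun x hx => h _ (mem_image_of_mem _ hx)
  have hts : t ≠ s := fun e => hst (by rw [e])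
  obtain ⟨E, hE⟩ : ∃ E : Finset (Stub V), ∀ x, x ∈ E ↔ x ∈ Cs ∧ x ≠ s ∧ x ≠ t :=
    ⟨(Cs.erase s).erase t, fun x => by simp only [mem_erase]; tauto⟩
  obtain ⟨rho, hrs, hrt⟩ : ∃ rho : Stub V → Stub V, rho s = t ∧ rho t = s :=
    ⟨fun x => if x = s then t else s, if_pos rfl, if_neg hts⟩
  obtain ⟨T', hT1, hT2, hT3⟩ : ∃ T' : Stub V → Finset (Stub V),
      (∀ x, x.1 = s.1 → T' x = F.NS l s.1 (some (G.c s.1 t.1)) Ku) ∧
      (∀ x, x.1 = t.1 → T' x = F.NS l t.1 (some (G.c t.1 s.1)) Kw) ∧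
      ∀ x, x.1 ≠ s.1 → x.1 ≠ t.1 → T' x = T x.1 x.2 :=
    ⟨fun x => if x.1 = s.1 then F.NS l s.1 (some (G.c s.1 t.1)) Ku
      else if x.1 = t.1 then F.NS l t.1 (some (G.c t.1 s.1)) Kw else T x.1 x.2,
      fun x hx => if_pos hx,
      fun x hx => by
        beta_reduce
        rw [if_neg (by rw [hx]; exact hst.symm), if_pos hx],
      fun x h1 h2 => by
        beta_reduce
        rw [if_neg h1, if_neg h2]⟩
  obtain ⟨lab', hL1, hL2, hL3⟩ : ∃ lab' : Stub V → Node,
      (∀ x, x.1 = s.1 → lab' x = Ku) ∧ (∀ x, x.1 = t.1 → lab' x = Kw) ∧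
      ∀ x, x.1 ≠ s.1 → x.1 ≠ t.1 → lab' x = lab x.1 x.2 :=
    ⟨fun x => if x.1 = s.1 then Ku else if x.1 = t.1 then Kw else lab x.1 x.2,
      fun x hx => if_pos hx,
      fun x hx => by
        beta_reduce
        rw [if_neg (by rw [hx]; exact hst.symm), if_pos hx],
      fun x h1 h2 => by
        beta_reduce
        rw [if_neg h1, if_neg h2]⟩
  have hsE : s ∉ E := fun h => ((hE s).1 h).2.1 rfl
  have htE : t ∉ E := fun h => ((hE t).1 h).2.2 rfl
  have hnsE : nu s ∈ E := (hE _).2 ⟨hs', nu_ne s, fun e => hst (by rw [← e]; rfl)⟩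
  have hntE : nu t ∈ E ↔ nu t ∈ Cs :=
    ⟨fun h => ((hE _).1 h).1, fun h => (hE _).2 ⟨h, fun e => hst (by rw [← e]; rfl), nu_ne t⟩⟩
  have hnE : ∀ x ∈ Cs, x ∉ E → x = s ∨ x = t := by
    intro x hx hn
    by_contra hc
    exact hn ((hE x).2 ⟨hx, fun e => hc (Or.inl e), fun e => hc (Or.inr e)⟩)
  have hoE : ∀ x ∈ Cs, x.1 ≠ s.1 → x.1 ≠ t.1 → x ∈ E := fun x hx h1 h2 =>
    (hE x).2 ⟨hx, fun e => h1 (by rw [e]), fun e => h2 (by rw [e])⟩
  have hends : ∀ e ∈ E, τ ≤ (T' e).card ∧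
      ∀ y ∈ T' e, l y = lab' e ∧ y.1 ≠ e.1 ∧ some (G.c y.1 e.1) ≠ F.kept y := by
    intro e he
    obtain ⟨he1, he2, he3⟩ := (hE e).1 he
    by_cases h1 : e.1 = s.1
    · rw [hT1 e h1, hL1 e h1, h1]
      refine ⟨hKu, fun y hy => ?_⟩
      obtain ⟨a1, a2, a3, -⟩ := F.mem_NS.1 hy
      exact ⟨a1, a2, a3⟩
    by_cases h2 : e.1 = t.1
    · rw [hT2 e h2, hL2 e h2, h2]
      refine ⟨hw1 ?_, fun y hy => ?_⟩
      · rcases eq_or_eq_nu h2 with e' | e'
        · exact absurd e' he3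
        · exact e' ▸ he1
      · obtain ⟨a1, a2, a3, -⟩ := F.mem_NS.1 hy
        exact ⟨a1, a2, a3⟩
    · rw [hT3 e h1 h2, hL3 e h1 h2]
      exact (h' e he1 h1 h2).1 e.2 he1
  have cs : ∀ a, colP G E rho T' s a → a = G.c s.1 t.1 := by
    rintro a (⟨h1, -⟩ | ⟨-, h1⟩)
    · exact absurd h1 hsE
    · rw [← h1, hrs]
  have ct : ∀ a, colP G E rho T' t a → a = G.c t.1 s.1 := by
    rintro a (⟨h1, -⟩ | ⟨-, h1⟩)
    · exact absurd h1 htE
    · rw [← h1, hrt]
  have cns : ¬ colP G E rho T' (nu s) (G.c s.1 t.1) := by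
    rintro (⟨-, y, hy, e⟩ | ⟨h1, -⟩)
    · rw [hT1 _ (nu_fst s)] at hy
      exact (F.mem_NS.1 hy).2.2.2 (congrArg some e)
    · exact h1 hnsE
  have cnt : nu t ∈ Cs → ¬ colP G E rho T' (nu t) (G.c t.1 s.1) := by
    rintro h0 (⟨-, y, hy, e⟩ | ⟨h1, -⟩)
    · rw [hT2 _ (nu_fst t)] at hy
      exact (F.mem_NS.1 hy).2.2.2 (congrArg some e)
    · exact h1 (hntE.2 h0)
  have co : ∀ x ∈ Cs, x.1 ≠ s.1 → x.1 ≠ t.1 → ∀ a, colP G E rho T' x a →
      ∃ y ∈ T x.1 x.2, G.c x.1 y.1 = a := by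
    rintro x hx h1 h2 a (⟨-, y, hy, e⟩ | ⟨h3, -⟩)
    · exact ⟨y, hT3 x h1 h2 ▸ hy, e⟩
    · exact absurd (hoE x hx h1 h2) h3
  refine ⟨{ Cs := Cs, E := E, rho := rho, T := T', lab := lab'
            Cs_mu := hC
            E_sub := fun x hx => ((hE x).1 hx).1
            rho_mem := ?_
            rho_rho := ?_
            rho_ne := ?_
            T_ok := fun e he y hy => ((hends e he).2 y hy).2
            single := ?_
            double := ?_
            lab_ok := fun e he => ⟨(hends e he).1, fun y hy => ((hends e he).2 y hy).1⟩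
            anchor := ?_ }, rfl, ?_⟩
  · intro x hx hn
    rcases hnE x hx hn with e | e
    · rw [e, hrs]; exact ⟨ht, htE⟩
    · rw [e, hrt]; exact ⟨hs, hsE⟩
  · intro x hx hn
    rcases hnE x hx hn with e | e
    · rw [e, hrs, hrt]
    · rw [e, hrt, hrs]
  · intro x hx hn
    rcases hnE x hx hn with e | e
    · rw [e, hrs]; exact hst.symm
    · rw [e, hrt]; exact hst
  · intro x hx hn a ha
    by_cases h1 : x.1 = s.1
    · rcases eq_or_eq_nu h1 with e | e
      · exact absurd hs' (e ▸ hn)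
      · rw [e, nu_nu] at hn
        exact absurd hs hn
    by_cases h2 : x.1 = t.1
    · rcases eq_or_eq_nu h2 with e | e
      · rw [e] at hn ha ⊢
        rw [ct a ha]
        exact hw2 hn
      · rw [e, nu_nu] at hn
        exact absurd ht hn
    · obtain ⟨y, hy, rfl⟩ := co x hx h1 h2 a ha
      exact (h' x hx h1 h2).2.1 x.2 hx hn y hy
  · intro x hx hn a ha hb
    by_cases h1 : x.1 = s.1
    · rcases eq_or_eq_nu h1 with e | e
      · rw [e] at ha hb
        exact cns (cs a ha ▸ hb)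
      · rw [e] at ha hb
        rw [nu_nu] at hb
        exact cns (cs a hb ▸ ha)
    by_cases h2 : x.1 = t.1
    · rcases eq_or_eq_nu h2 with e | e
      · rw [e] at ha hb hn
        exact cnt hn (ct a ha ▸ hb)
      · rw [e] at ha hb hx
        rw [nu_nu] at hb
        exact cnt hx (ct a hb ▸ ha)
    · obtain ⟨y, hy, e⟩ := co x hx h1 h2 a ha
      obtain ⟨y', hy', e'⟩ := co (nu x) hn h1 h2 a hb
      exact (h' x hx h1 h2).2.2.1 x.2 hx hn y hy y' hy' (e.trans e'.symm)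
  · intro x hx
    by_cases hn : x ∈ E
    · exact Or.inl hn
    rcases hnE x hx hn with e | e
    · exact Or.inr (Or.inl (e ▸ hnsE))
    · refine Or.inr (Or.inr ?_)
      show nu (rho x) ∈ E
      rw [e, hrt]
      exact hnsE
  · show ∑ e ∈ E, cls (lab' e) = _
    have m1 : s.1 ∈ Cs.image Prod.fst := mem_image_of_mem _ hs
    have m2 : t.1 ∈ (Cs.image Prod.fst).erase s.1 :=
      mem_erase.2 ⟨hst.symm, mem_image_of_mem _ ht⟩
    have two : ∀ (x : Stub V) (K : Node), x ∉ E → (∀ y : Stub V, y.1 = x.1 → lab' y = K) →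
        (if (x.1, true) ∈ E then cls (lab' (x.1, true)) else 0) +
          (if (x.1, false) ∈ E then cls (lab' (x.1, false)) else 0) =
          if nu x ∈ E then cls K else 0 := by
      rintro ⟨v, b⟩ K h1 h2
      rw [h2 (v, true) rfl, h2 (v, false) rfl]
      cases b
      · rw [if_neg h1, add_zero]; rfl
      · rw [if_neg h1, zero_add]; rfl
    rw [planMk_sum E (Cs.image Prod.fst) (fun e he => mem_image_of_mem _ ((hE e).1 he).1),
      ← sum_erase_add _ _ m1, ← sum_erase_add _ _ m2, two s Ku hsE hL1, two t Kw htE hL2,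
      if_pos hnsE, hw3, add_right_comm]
    congr 1
    · congr 1
      refine sum_congr rfl fun z hz => ?_
      obtain ⟨z2, hz'⟩ := mem_erase.1 hz
      obtain ⟨z1, hz''⟩ := mem_erase.1 hz'
      have e : ∀ b, ((z, b) ∈ E) = ((z, b) ∈ Cs) := fun b =>
        propext ⟨fun h => ((hE _).1 h).1, fun h => hoE _ h z1 z2⟩
      rw [(h z hz'' z1 z2).2.2.2, hL3 (z, true) z1 z2, hL3 (z, false) z1 z2]
      simp only [e]
    · simp only [hntE]

theorem small_pair {A0 : Set Gp} {B0 : Finset V} (hS : Small F l τ A0 B0) (s : Stub V)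
    (hl : ¬ F.loop s.1) (h1 : s.1 ∉ B0) (h2 : (F.mu s).1 ∉ B0) (K K' : Node)
    (hK : τ ≤ (F.NS l s.1 (F.kept s) K).card)
    (hK' : τ ≤ (F.NS l (F.mu s).1 (F.kept (F.mu s)) K').card) : cls K + cls K' ∈ A0 := by
  have hne : (F.mu s).1 ≠ s.1 := F.ne_of_not_loop hl
  have him : ({s, F.mu s} : Finset (Stub V)).image Prod.fst = {s.1, (F.mu s).1} := by
    rw [image_insert, image_singleton]
  obtain ⟨P, hP, hc⟩ := plan_of_opts (F := F) (l := l) (τ := τ) {s, F.mu s} (by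
      intro x hx
      rcases mem_insert.1 hx with e | e
      · rw [e]; exact mem_insert_of_mem (mem_singleton_self _)
      · rw [mem_singleton.1 e, F.mu_mu]; exact mem_insert_self _ _)
    (fun z => if z = s.1 then cls K else cls K') (by
      intro z hz
      rw [him] at hz
      rcases mem_insert.1 hz with e | e
      · subst e
        refine Or.inr ⟨s.2, K, mem_insert_self _ _, fun h => ?_, hK, if_pos rfl⟩
        rcases mem_insert.1 h with e | e
        · exact nu_ne s e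
        · exact hne (congrArg Prod.fst (mem_singleton.1 e)).symm
      · rw [mem_singleton] at e
        subst e
        refine Or.inr ⟨(F.mu s).2, K', mem_insert_of_mem (mem_singleton_self _), fun h => ?_, hK',
          if_neg hne⟩
        rcases mem_insert.1 h with e | e
        · have e' := congrArg Prod.fst e
          exact hne e'
        · exact nu_ne (F.mu s) (mem_singleton.1 e))
  have hsupp : P.supp = {s.1, (F.mu s).1} := by rw [LPlan.supp, hP, him]
  have := hS P (by rw [hsupp]; exact card_le_two.trans (by norm_num)) (by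
    rw [hsupp, disjoint_insert_left, disjoint_singleton_left]; exact ⟨h1, h2⟩)
  rwa [hc, him, sum_pair hne.symm, if_pos rfl, if_neg hne] at this

theorem small_loop {A0 : Set Gp} {B0 : Finset V} (hS : Small F l τ A0 B0) (u : V)
    (hl : F.loop u) (h1 : u ∉ B0) (K K' : Node) (hK : F.Feas l u τ K K') :
    cls K + cls K' ∈ A0 := by
  have hl1 : F.mu (u, false) = (u, true) := hl
  have him : ({(u, false), (u, true)} : Finset (Stub V)).image Prod.fst = {u} := by
    rw [image_insert, image_singleton]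
    exact pair_eq_singleton u
  obtain ⟨P, hP, hc⟩ := plan_of_opts (F := F) (l := l) (τ := τ) {(u, false), (u, true)} (by
      intro x hx
      rcases mem_insert.1 hx with e | e
      · rw [e, hl1]; exact mem_insert_of_mem (mem_singleton_self _)
      · rw [mem_singleton.1 e, ← hl1, F.mu_mu]; exact mem_insert_self _ _)
    (fun _ => cls K + cls K') (by
      intro z hz
      rw [him, mem_singleton] at hz
      subst hz
      exact Or.inl ⟨mem_insert_self _ _, mem_insert_of_mem (mem_singleton_self _), K, K', hK, rfl⟩)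
  have hsupp : P.supp = {u} := by rw [LPlan.supp, hP, him]
  have := hS P (by rw [hsupp, card_singleton]; norm_num) (by
    rw [hsupp, disjoint_singleton_left]; exact h1)
  rwa [hc, him, sum_singleton] at this

end Pool.Agent.BE
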