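import Pool.Agent.Lib.MP_dd4ef3_lc.BE.Loc
import Pool.Agent.Lib.MP_dd4ef3_lc.BE.PlanMk

set_option autoImplicit false

open Finset Classical

noncomputable section

namespace Pool.Agent.BE

variable {V C : Type} [Fintype V] [DecidableEq V] {G : Ctx V C}

variable {F : PF G} {l : Stub V → Node} {τ : ℕ} {A0 : Set Gp} {B0 : Finset V}

lemma flex_opt_single {Cs : Finset (Stub V)} {p : Stub V} (hp : p ∈ Cs) (hn : nu p ∉ Cs) {K : Node}
    (h : τ ≤ (F.NS l p.1 (F.kept p) K).card) : F.Opt l Cs τ p.1 (cls K) :=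
  Or.inr ⟨p.2, K, hp, hn, h, rfl⟩

lemma flex_opt_double {Cs : Finset (Stub V)} {p : Stub V} (hp : p ∈ Cs) (hn : nu p ∈ Cs)
    {K1 K2 : Node} (h : F.Feas l p.1 τ K1 K2) : F.Opt l Cs τ p.1 (cls K1 + cls K2) := by
  obtain ⟨v, b⟩ := p
  cases b
  · exact Or.inl ⟨hp, hn, K1, K2, h, rfl⟩
  · exact Or.inl ⟨hn, hp, K1, K2, h, rfl⟩

lemma flex_vv1 {sm i : Bool} {a : Gp} (ha : a ∈ A0) (h2 : a.2 = (cls (Zof i)).2)
    (h1 : a.1 = 1 ∨ a.1 = -1) : VV sm i A0 :=
  ⟨[a], by simp, by simpa using ha, by simpa using h2,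
    Or.inr ⟨by simpa using h1, a, ha, by simp⟩⟩

lemma flex_vv2 {sm i : Bool} {a a' : Gp} (ha : a ∈ A0) (ha' : a' ∈ A0)
    (h2 : (a + a').2 = (cls (Zof i)).2)
    (h1 : sm = true ∨ ((a.1 = 1 ∨ a.1 = -1) ∧ a'.1 = 0)) : VV sm i A0 := by
  refine ⟨[a, a'], by simp, by simpa using ⟨ha, ha'⟩, by simpa using h2, h1.imp id fun h => ?_⟩
  have e : ([a, a'] : List Gp).sum.1 = a.1 := by simp [h.2]
  rw [e]
  exact ⟨h.1, a, ha, rfl⟩

lemma flex_algA {sm i : Bool} {Zj : Node} (hZ : Zj = .Z1 ∨ Zj = .Z2)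
    (h1 : cls (mir sm (Lof sm i)) + cls Zj ∈ A0) (h3 : cls (Zof i) + cls Zj ∈ A0) :
    VV sm i A0 := by
  by_cases e : Zj = Zof i
  · subst e
    exact flex_vv1 h1 (by cases sm <;> cases i <;> decide) (by cases sm <;> cases i <;> decide)
  · refine flex_vv2 h1 h3 ?_ (Or.inr ?_)
    · rcases hZ with rfl | rfl <;> cases sm <;> cases i <;> decide
    · rcases hZ with rfl | rfl <;> cases sm <;> cases i <;> decide

lemma flex_algC {sm i : Bool} {Zj K : Node} (hZ : Zj = .Z1 ∨ Zj = .Z2)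
    (h1 : cls (Lof sm i) + cls Zj + cls K + cls (mir sm (Lof sm i)) ∈ A0)
    (h2 : cls (Lof sm i) + cls Zj + cls K + cls (Zof i) ∈ A0) (h3 : cls (Zof i) + cls Zj ∈ A0) :
    VV sm i A0 := by
  cases sm
  · by_cases hK : K = .Z1 ∨ K = .Z2
    · refine flex_vv2 h2 h1 ?_ (Or.inr ?_)
      · rcases hZ with rfl | rfl <;> rcases hK with rfl | rfl <;> cases i <;> decide
      · rcases hZ with rfl | rfl <;> rcases hK with rfl | rfl <;> cases i <;> decide
    · have hK' : K = .X ∨ K = .Xb := by cases K <;> simp at hK ⊢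
      refine flex_vv2 h1 h3 ?_ (Or.inr ?_)
      · rcases hZ with rfl | rfl <;> rcases hK' with rfl | rfl <;> cases i <;> decide
      · rcases hZ with rfl | rfl <;> rcases hK' with rfl | rfl <;> cases i <;> decide
  · refine flex_vv2 h1 h2 ?_ (Or.inl rfl)
    rcases hZ with rfl | rfl <;> cases K <;> cases i <;> decide

/-- cut both pairs at `s.1` and the pair at `t`, add the edge between `s.1` and `t.1` -/
lemma flex_core (hS : Small F l τ A0 B0) (s t : Stub V) (K1 K2 : Node) (hl : ¬ F.loop s.1)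
    (h12 : (F.mu s).1 ≠ (F.mu (nu s)).1) (hw : t.1 ≠ s.1) (hw1 : t.1 ≠ (F.mu s).1)
    (hw2 : t.1 ≠ (F.mu (nu s)).1) (hu : s.1 ∉ F.nb B0) (hwB : t.1 ∉ F.nb B0)
    (ht : some (G.c t.1 s.1) ≠ F.kept t)
    (c1 : 3 * τ ≤ (F.NS l (F.mu s).1 (F.kept (F.mu s)) K1).card)
    (c2 : 3 * τ ≤ (F.NS l (F.mu (nu s)).1 (F.kept (F.mu (nu s))) K2).card)
    (hn : 24 * τ ≤ Fintype.card V) :
    ∃ K, ∀ Ku, τ ≤ (F.NS l s.1 (some (G.c s.1 t.1)) Ku).card →
      cls K1 + cls K2 + cls K + cls Ku ∈ A0 := by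
  obtain ⟨Cs, hCs⟩ : ∃ Cs : Finset (Stub V),
      Cs = {s, nu s, F.mu s, F.mu (nu s), t, F.mu t} := ⟨_, rfl⟩
  have mem : ∀ r, r ∈ Cs ↔ r = s ∨ r = nu s ∨ r = F.mu s ∨ r = F.mu (nu s) ∨ r = t ∨ r = F.mu t := by
    intro r; rw [hCs]; simp only [mem_insert, mem_singleton]
  have memV : ∀ z, z ∈ Cs.image Prod.fst ↔
      z = s.1 ∨ z = (F.mu s).1 ∨ z = (F.mu (nu s)).1 ∨ z = t.1 ∨ z = (F.mu t).1 := by
    intro z
    rw [mem_image]
    constructor
    · rintro ⟨r, hr, rfl⟩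
      rcases (mem r).1 hr with rfl | rfl | rfl | rfl | rfl | rfl <;> simp
    · rintro (rfl | rfl | rfl | rfl | rfl)
      · exact ⟨s, by simp [mem], rfl⟩
      · exact ⟨F.mu s, by simp [mem], rfl⟩
      · exact ⟨F.mu (nu s), by simp [mem], rfl⟩
      · exact ⟨t, by simp [mem], rfl⟩
      · exact ⟨F.mu t, by simp [mem], rfl⟩
  have hC : ∀ r ∈ Cs, F.mu r ∈ Cs := by
    intro r hr
    rcases (mem r).1 hr with rfl | rfl | rfl | rfl | rfl | rfl <;> simp [mem]
  have fin : ∀ P : LPlan F l τ, P.Cs = Cs → P.cl ∈ A0 := by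
    intro P hP
    refine hS P ?_ ?_
    · unfold LPlan.supp
      rw [hP]
      refine card_image_le.trans ?_
      rw [hCs]
      exact card_le_six
    · unfold LPlan.supp
      rw [hP, disjoint_left]
      intro z hz hB
      rcases (memV z).1 hz with rfl | rfl | rfl | rfl | rfl
      · exact hu (F.mem_nb'.2 (Or.inl hB))
      · exact hu (F.mem_nb'.2 (Or.inr ⟨s.2, hB⟩))
      · exact hu (F.mem_nb'.2 (Or.inr ⟨!s.2, hB⟩))
      · exact hwB (F.mem_nb'.2 (Or.inl hB))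
      · exact hwB (F.mem_nb'.2 (Or.inr ⟨t.2, hB⟩))
  have n1 : (F.mu s).1 ≠ s.1 := F.ne_of_not_loop hl
  have n2 : (F.mu (nu s)).1 ≠ s.1 := F.ne_of_not_loop (s := nu s) hl
  have ny : (F.mu t).1 ≠ s.1 := by
    intro e
    rcases eq_or_eq_nu e with h | h
    · exact hw1 (by rw [← h]; simp)
    · exact hw2 (by rw [← h]; simp)
  have hs : s ∈ Cs := by simp [mem]
  have hs' : nu s ∈ Cs := by simp [mem]
  have ht' : t ∈ Cs := by simp [mem]
  have hp1 : F.mu s ∈ Cs := by simp [mem]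
  have hp2 : F.mu (nu s) ∈ Cs := by simp [mem]
  have hx : F.mu t ∈ Cs := by simp [mem]
  have o1 : (F.mu t).1 ≠ (F.mu s).1 → F.Opt l Cs τ (F.mu s).1 (cls K1) := fun h => by
    refine flex_opt_single hp1 (fun hh => ?_) (by omega)
    rcases (mem _).1 hh with e | e | e | e | e | e
    · exact n1 (congrArg Prod.fst e :)
    · exact n1 (congrArg Prod.fst e :)
    · exact nu_ne _ e
    · exact h12 (congrArg Prod.fst e :)
    · exact hw1 (congrArg Prod.fst e :).symm
    · exact h (congrArg Prod.fst e :).symm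
  have o2 : (F.mu t).1 ≠ (F.mu (nu s)).1 → F.Opt l Cs τ (F.mu (nu s)).1 (cls K2) := fun h => by
    refine flex_opt_single hp2 (fun hh => ?_) (by omega)
    rcases (mem _).1 hh with e | e | e | e | e | e
    · exact n2 (congrArg Prod.fst e :)
    · exact n2 (congrArg Prod.fst e :)
    · exact h12 (congrArg Prod.fst e :).symm
    · exact nu_ne _ e
    · exact hw2 (congrArg Prod.fst e :).symm
    · exact h (congrArg Prod.fst e :).symm
  have nt : (F.mu t).1 ≠ t.1 → nu t ∉ Cs := fun h hh => by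
    rcases (mem _).1 hh with e | e | e | e | e | e
    · exact hw (congrArg Prod.fst e :)
    · exact hw (congrArg Prod.fst e :)
    · exact hw1 (congrArg Prod.fst e :)
    · exact hw2 (congrArg Prod.fst e :)
    · exact nu_ne _ e
    · exact h (congrArg Prod.fst e :).symm
  have two : ((F.mu t).1 = t.1 ∨ (F.mu t).1 = (F.mu s).1 ∨ (F.mu t).1 = (F.mu (nu s)).1) →
      ∀ g1 g2 gw : Gp, F.Opt l Cs τ (F.mu s).1 g1 → F.Opt l Cs τ (F.mu (nu s)).1 g2 →
      ((nu t ∈ Cs ∧ ∃ Kw, τ ≤ (F.NS l t.1 (some (G.c t.1 s.1)) Kw).card ∧ gw = cls Kw) ∨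
        (nu t ∉ Cs ∧ some (G.c t.1 s.1) ≠ F.kept t ∧ gw = 0)) →
      ∀ Ku, τ ≤ (F.NS l s.1 (some (G.c s.1 t.1)) Ku).card → g1 + g2 + cls Ku + gw ∈ A0 := by
    intro hy g1 g2 gw q1 q2 q3 Ku hKu
    have eS : ((Cs.image Prod.fst).erase s.1).erase t.1 = {(F.mu s).1, (F.mu (nu s)).1} := by
      ext z
      rw [mem_erase, mem_erase, memV, mem_insert, mem_singleton]
      constructor
      · rintro ⟨a1, a2, e | e | e | e | e⟩
        · exact absurd e a2
        · exact Or.inl e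
        · exact Or.inr e
        · exact absurd e a1
        · rcases hy with h | h | h
          · exact absurd (e.trans h) a1
          · exact Or.inl (e.trans h)
          · exact Or.inr (e.trans h)
      · rintro (rfl | rfl)
        · exact ⟨hw1.symm, n1, by simp⟩
        · exact ⟨hw2.symm, n2, by simp⟩
    obtain ⟨P, hP, hcl⟩ := plan_of_edge Cs hC s t hs ht' hw.symm hs'
      (fun z => if z = (F.mu s).1 then g1 else g2) (fun z hz a1 a2 => by
        have hz' : z ∈ ({(F.mu s).1, (F.mu (nu s)).1} : Finset V) := by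
          rw [← eS]; exact mem_erase.2 ⟨a2, mem_erase.2 ⟨a1, hz⟩⟩
        rcases mem_insert.1 hz' with e | e
        · rw [if_pos e, e]; exact q1
        · rw [mem_singleton] at e
          rw [if_neg (by rw [e]; exact h12.symm), e]; exact q2) Ku hKu gw q3
    have := fin P hP
    rw [hcl, eS, sum_pair h12, if_pos rfl, if_neg h12.symm] at this
    exact this
  by_cases y0 : (F.mu t).1 = t.1
  · obtain ⟨Kw, hKw⟩ := F.NS_ex l t.1 (some (G.c t.1 s.1)) τ (by omega)
    have e : F.mu t = nu t := (eq_or_eq_nu y0).resolve_left (F.mu_ne t)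
    refine ⟨Kw, fun Ku hKu => ?_⟩
    have := two (Or.inl y0) _ _ (cls Kw) (o1 (by rw [y0]; exact hw1)) (o2 (by rw [y0]; exact hw2))
      (Or.inl ⟨e ▸ hx, Kw, hKw, rfl⟩) Ku hKu
    convert this using 1
    abel
  by_cases y1 : (F.mu t).1 = (F.mu s).1
  · obtain ⟨K, hK⟩ := F.feas_some l (z := (F.mu s).1) (θ := τ) (K1 := K1) hn
      (c1.trans (card_le_card (F.NS_sub l _ _ _)))
    have e : F.mu t = nu (F.mu s) := (eq_or_eq_nu y1).resolve_left fun h =>
      hw (congrArg Prod.fst (F.mu_inj h) :)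
    refine ⟨K, fun Ku hKu => ?_⟩
    have := two (Or.inr (Or.inl y1)) _ _ 0 (flex_opt_double hp1 (e ▸ hx) hK)
      (o2 (by rw [y1]; exact h12)) (Or.inr ⟨nt y0, ht, rfl⟩) Ku hKu
    convert this using 1
    abel
  by_cases y2 : (F.mu t).1 = (F.mu (nu s)).1
  · obtain ⟨K, hK⟩ := F.feas_some l (z := (F.mu (nu s)).1) (θ := τ) (K1 := K2) hn
      (c2.trans (card_le_card (F.NS_sub l _ _ _)))
    have e : F.mu t = nu (F.mu (nu s)) := (eq_or_eq_nu y2).resolve_left fun h =>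
      hw (congrArg Prod.fst (F.mu_inj h) :)
    refine ⟨K, fun Ku hKu => ?_⟩
    have := two (Or.inr (Or.inr y2)) _ _ 0 (o1 y1) (flex_opt_double hp2 (e ▸ hx) hK)
      (Or.inr ⟨nt y0, ht, rfl⟩) Ku hKu
    convert this using 1
    abel
  obtain ⟨K, hK⟩ := F.NS_ex l (F.mu t).1 (F.kept (F.mu t)) τ (by omega)
  have o3 : F.Opt l Cs τ (F.mu t).1 (cls K) := by
    refine flex_opt_single hx (fun hh => ?_) hK
    rcases (mem _).1 hh with e | e | e | e | e | e
    · exact ny (congrArg Prod.fst e :)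
    · exact ny (congrArg Prod.fst e :)
    · exact y1 (congrArg Prod.fst e :)
    · exact y2 (congrArg Prod.fst e :)
    · exact y0 (congrArg Prod.fst e :)
    · exact nu_ne _ e
  refine ⟨K, fun Ku hKu => ?_⟩
  have eS : ((Cs.image Prod.fst).erase s.1).erase t.1 =
      {(F.mu t).1, (F.mu s).1, (F.mu (nu s)).1} := by
    ext z
    rw [mem_erase, mem_erase, memV, mem_insert, mem_insert, mem_singleton]
    constructor
    · rintro ⟨a1, a2, e | e | e | e | e⟩
      · exact absurd e a2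
      · exact Or.inr (Or.inl e)
      · exact Or.inr (Or.inr e)
      · exact absurd e a1
      · exact Or.inl e
    · rintro (rfl | rfl | rfl)
      · exact ⟨y0, ny, by simp⟩
      · exact ⟨hw1.symm, n1, by simp⟩
      · exact ⟨hw2.symm, n2, by simp⟩
  obtain ⟨P, hP, hcl⟩ := plan_of_edge Cs hC s t hs ht' hw.symm hs'
    (fun z => if z = (F.mu t).1 then cls K else if z = (F.mu s).1 then cls K1 else cls K2)
    (fun z hz a1 a2 => by
      have hz' : z ∈ ({(F.mu t).1, (F.mu s).1, (F.mu (nu s)).1} : Finset V) := by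
        rw [← eS]; exact mem_erase.2 ⟨a2, mem_erase.2 ⟨a1, hz⟩⟩
      rcases mem_insert.1 hz' with e | e
      · rw [if_pos e, e]; exact o3
      rcases mem_insert.1 e with e | e
      · rw [if_neg (by rw [e]; exact Ne.symm y1), if_pos e, e]; exact o1 y1
      · rw [mem_singleton] at e
        rw [if_neg (by rw [e]; exact Ne.symm y2), if_neg (by rw [e]; exact h12.symm), e]
        exact o2 y2) Ku hKu 0 (Or.inr ⟨nt y0, ht, rfl⟩)
  have := fin P hP
  rw [hcl, eS, sum_insert (by simp [y1, y2]), sum_pair h12, if_pos rfl, if_neg (Ne.symm y1),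
    if_pos rfl, if_neg (Ne.symm y2), if_neg h12.symm] at this
  convert this using 1
  abel

/-- neighbours that are lost when `a'` is forbidden have the colour `a'` -/
lemma flex_other (z : V) (o : Option C) (a' γ : C) (K : Node) (hγ : γ ≠ a') :
    (F.NS l z o K).card ≤ (F.NS l z (some a') K).card + (F.NS l z (some γ) K).card := by
  refine le_trans (card_le_card ?_) (card_union_le _ _)
  intro t ht
  obtain ⟨h1, h2, h3, -⟩ := F.mem_NS.1 ht
  rw [mem_union, F.mem_NS, F.mem_NS]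
  by_cases e : G.c z t.1 = a'
  · exact Or.inr ⟨h1, h2, h3, fun h => hγ ((Option.some.inj h).symm.trans e)⟩
  · exact Or.inl ⟨h1, h2, h3, fun h => e (Option.some.inj h)⟩

lemma flex_free (u : V) (o o' : Option C) :
    ∃ w, w ≠ u ∧ some (G.c u w) ≠ o ∧ some (G.c u w) ≠ o' := by
  by_contra h
  push Not at h
  have h1 := deg_opt G u o
  have h2 := deg_opt G u o'
  have h3 : (univ.erase u : Finset V) ⊆ univ.filter (fun w => w ≠ u ∧ some (G.c u w) = o) ∪
      univ.filter (fun w => w ≠ u ∧ some (G.c u w) = o') := by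
    intro w hw
    have hw' := (mem_erase.1 hw).1
    rw [mem_union, mem_filter, mem_filter]
    by_cases e : some (G.c u w) = o
    · exact Or.inl ⟨mem_univ _, hw', e⟩
    · exact Or.inr ⟨mem_univ _, hw', h w hw' e⟩
  have h4 := (card_le_card h3).trans (card_union_le _ _)
  rw [card_erase_of_mem (mem_univ u), card_univ] at h4
  omega

lemma flex_kept_some {s : Stub V} {a : C} (h : F.kept s = some a) :
    G.c s.1 (F.mu (nu s)).1 = a := by
  unfold PF.kept at h
  split_ifs at h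
  exact Option.some.inj h

theorem flex_dichotomy (hS : Small F l τ A0 B0) (sm : Bool) (D : ℕ) (hτ : 0 < τ) (hD : 18 * τ ≤ D)
    (hn : 48 * τ ≤ Fintype.card V) (i : Bool) :
    VV sm i A0 ∨ ∀ u ∈ F.TT l sm D i, u ∉ F.nb B0 → ∃ w ∈ F.nb B0, F.Free u w := by
  by_cases hV : VV sm i A0
  · exact Or.inl hV
  refine Or.inr fun u hu huB => ?_
  obtain ⟨⟨hl, hty, -⟩, b, eL, eZ⟩ := (mem_filter.1 hu).2
  obtain ⟨s, hs⟩ : ∃ s : Stub V, s = (u, b) := ⟨_, rfl⟩
  have hs1 : s.1 = u := by rw [hs]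
  have hs2 : nu s = (u, !b) := by rw [hs]; rfl
  have tL := hty b
  have tZ := hty (!b)
  rw [← hs] at tL eL
  rw [← hs2] at tZ eZ
  subst hs1
  have mm : mir sm (mir sm (Lof sm i)) = Lof sm i := by cases sm <;> cases i <;> rfl
  have mZ : mir sm (Zof i) = Zof i := by cases i <;> rfl
  have hLx : Lof sm i = .X ∨ Lof sm i = .Xb := by cases sm <;> cases i <;> simp [Lof, mir]
  have hZz : Zof i = .Z1 ∨ Zof i = .Z2 := by cases i <;> simp [Zof]
  have d1 := tL.1.1
  rw [eL] at d1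
  have e1 := tL.1.2.1 (by rw [eL]; exact hLx)
  have d2 := tL.2.1
  rw [e1, eL, mm] at d2
  have d3 := tZ.1.1
  rw [eZ, mZ] at d3
  have hZj := tZ.1.2.2 (by rw [eZ]; exact hZz)
  have d4 := tZ.2.1
  have mj : mir sm (l (F.mu (nu s))) = l (F.mu (nu s)) := by
    rcases hZj with h | h <;> rw [h] <;> rfl
  rw [mj] at d4
  have b0 : s.1 ∉ B0 := fun h => huB (F.mem_nb'.2 (Or.inl h))
  have b1 : (F.mu s).1 ∉ B0 := fun h => huB (F.mem_nb'.2 (Or.inr ⟨s.2, h⟩))
  have b2 : (F.mu (nu s)).1 ∉ B0 := fun h => huB (F.mem_nb'.2 (Or.inr ⟨!s.2, h⟩))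
  have a3 : cls (Zof i) + cls (l (F.mu (nu s))) ∈ A0 :=
    small_pair hS (nu s) hl b0 b2 _ _ (by omega) (by omega)
  have cA : (F.NS l s.1 (F.kept (nu s)) (mir sm (Lof sm i))).card < τ := by
    by_contra h
    exact hV (flex_algA hZj (small_pair hS (nu s) hl b0 b2 _ _ (not_lt.1 h) (by omega)) a3)
  have cB : (F.NS l s.1 (F.kept s) (Zof i)).card < τ := by
    by_contra h
    exact hV (flex_vv1 (small_pair hS s hl b0 b1 _ (Lof sm i) (not_lt.1 h) (by omega))
      (by cases sm <;> cases i <;> decide) (by cases sm <;> cases i <;> decide))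
  obtain ⟨a, ha⟩ : ∃ a, F.kept (nu s) = some a := by
    cases h : F.kept (nu s) with
    | some a => exact ⟨a, rfl⟩
    | none =>
      rw [h] at cA
      have := card_le_card (F.NS_sub l s.1 (F.kept s) (mir sm (Lof sm i)))
      omega
  obtain ⟨a', ha'⟩ : ∃ a, F.kept s = some a := by
    cases h : F.kept s with
    | some a => exact ⟨a, rfl⟩
    | none =>
      rw [h] at cB
      have := card_le_card (F.NS_sub l s.1 (F.kept (nu s)) (Zof i))
      have d3' : D ≤ (F.NS l s.1 (F.kept (nu s)) (Zof i)).card := d3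
      omega
  have k1 : G.c s.1 (F.mu s).1 = a := by simpa using flex_kept_some ha
  have k2 : G.c s.1 (F.mu (nu s)).1 = a' := flex_kept_some ha'
  have haa : a ≠ a' := fun e => F.kept_ne ha' (by rw [ha, e])
  obtain ⟨w, w1, w2, w3⟩ := flex_free (G := G) s.1 (some a) (some a')
  have hfree : F.Free s.1 w := ⟨w1, fun b' => by
    rcases eq_or_eq_nu (s := s) (t := (s.1, b')) rfl with e | e
    · rw [e, ha']; exact w3
    · rw [e, ha]; exact w2⟩
  by_contra hcon
  have hwB : w ∉ F.nb B0 := fun h => hcon ⟨w, h, hfree⟩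
  obtain ⟨b', hb'⟩ := F.exists_avail w (G.c w s.1)
  obtain ⟨K, hK⟩ := flex_core hS s (w, b') (Lof sm i) (l (F.mu (nu s))) hl
    (fun e => haa (by rw [← k1, ← k2, e])) w1 (fun e => w2 (by rw [← k1, ← e]))
    (fun e => w3 (by rw [← k2, ← e])) huB hwB hb' (by omega) (by omega) (by omega)
  have f1 := flex_other (F := F) (l := l) s.1 (F.kept s) a (G.c s.1 w) (mir sm (Lof sm i))
    fun e => w2 (congrArg some e)
  have f2 := flex_other (F := F) (l := l) s.1 (F.kept (nu s)) a' (G.c s.1 w) (Zof i)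
    fun e => w3 (congrArg some e)
  rw [← ha] at f1
  rw [← ha'] at f2
  have d3' : D ≤ (F.NS l s.1 (F.kept (nu s)) (Zof i)).card := d3
  exact hV (flex_algC hZj (hK _ (by show τ ≤ (F.NS l s.1 (some (G.c s.1 w)) _).card; omega))
    (hK _ (by show τ ≤ (F.NS l s.1 (some (G.c s.1 w)) _).card; omega)) a3)

theorem t_of_TZ (hS : Small F l τ A0 B0) (sm : Bool) (D : ℕ) (hD : 18 * τ ≤ D)
    (h : 2 * (F.nb B0).card < (F.TZ l sm D).card) : tcls ∈ A0 := by
  have h0 : (F.nb B0 ×ˢ (univ : Finset Bool)).card < (F.TZ l sm D).card := by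
    rw [card_product, card_univ, Fintype.card_bool]; omega
  obtain ⟨s, hs, hs'⟩ := exists_mem_notMem_of_card_lt_card h0
  have huB : s.1 ∉ F.nb B0 := fun e => hs' (mem_product.2 ⟨e, mem_univ _⟩)
  obtain ⟨⟨hl, hty, -⟩, e1, d2⟩ := (mem_filter.1 hs).2
  have tS : F.Typ l sm D s ∧ F.Typ l sm D (F.mu s) := hty s.2
  have d1 := tS.1.1
  rw [e1] at d1
  have d1' : D ≤ (F.NS l s.1 (F.kept s) .Z1).card := d1
  have d3 := tS.2.1
  have b0 : s.1 ∉ B0 := fun h => huB (F.mem_nb'.2 (Or.inl h))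
  have b1 : (F.mu s).1 ∉ B0 := fun h => huB (F.mem_nb'.2 (Or.inr ⟨s.2, h⟩))
  rcases tS.1.2.2 (Or.inl e1) with e | e
  · rw [e] at d3
    have d3' : D ≤ (F.NS l (F.mu s).1 (F.kept (F.mu s)) .Z1).card := d3
    have := small_pair hS s hl b0 b1 .Z2 .Z1 (by omega) (by omega)
    rwa [show cls .Z2 + cls .Z1 = tcls by decide] at this
  · rw [e] at d3
    have d3' : D ≤ (F.NS l (F.mu s).1 (F.kept (F.mu s)) .Z2).card := d3
    have := small_pair hS s hl b0 b1 .Z1 .Z2 (by omega) (by omega)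
    rwa [show cls .Z1 + cls .Z2 = tcls by decide] at this

end Pool.Agent.BE
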