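import Pool.Agent.Lib.MP_dd4ef3_lc.BE.Basic

set_option autoImplicit false

open Finset Classical

noncomputable section

namespace Pool.Agent.BE

variable {V C : Type} [Fintype V] [DecidableEq V] {G : Ctx V C}

theorem lp_identity (G : Ctx V C) (p q : V → ℤ) (f : V → Option C) :
    ∑ e ∈ univ.filter (fun e : V × V => e.1 ≠ e.2),
        ((if some (G.c e.1 e.2) = f e.1 then q e.1 else p e.1) +
          (if some (G.c e.2 e.1) = f e.2 then q e.2 else p e.2)) =
      ((Fintype.card V : ℤ) - 1) * ∑ u, (p u + q u) +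
        ∑ u, ((Fintype.card V : ℤ) - 1 -
          2 * ((univ.filter (fun w => w ≠ u ∧ some (G.c u w) = f u)).card : ℤ)) * (p u - q u) := by
  have e1 : ∀ g : V × V → ℤ, ∑ e ∈ univ.filter (fun e : V × V => e.1 ≠ e.2), g e =
      ∑ u, ∑ w ∈ univ.erase u, g (u, w) := by
    intro g
    rw [sum_filter, Fintype.sum_prod_type]
    refine sum_congr rfl fun u _ => ?_
    rw [← sum_filter]
    refine sum_congr ?_ fun _ _ => rfl
    ext w
    simp [eq_comm]
  have e2 : ∀ u, univ.filter (fun w => w ≠ u ∧ some (G.c u w) = f u) =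
      (univ.erase u).filter (fun w => some (G.c u w) = f u) := by
    intro u
    ext w
    simp
  rw [e1]
  simp only [e2]
  have sw : ∑ u, ∑ w ∈ univ.erase u, (if some (G.c w u) = f w then q w else p w) =
      ∑ u, ∑ w ∈ univ.erase u, (if some (G.c u w) = f u then q u else p u) := by
    rw [sum_comm' (t' := univ) (s' := fun w => univ.erase w)]
    intro x y
    simp [eq_comm]
  simp only [sum_add_distrib] at sw ⊢
  rw [sw, mul_add, mul_sum, mul_sum, ← sum_add_distrib, ← sum_add_distrib, ← sum_add_distrib]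
  refine sum_congr rfl fun u _ => ?_
  rw [sum_ite, sum_const, sum_const]
  have h := card_filter_add_card_filter_not (s := univ.erase u) (fun w => some (G.c u w) = f u)
  rw [card_erase_of_mem (mem_univ u), card_univ] at h
  have hp : 0 < Fintype.card V := Fintype.card_pos_iff.mpr ⟨u⟩
  have h' : ((((univ.erase u).filter (fun w => ¬ some (G.c u w) = f u)).card : ℤ)) =
      (Fintype.card V : ℤ) - 1 -
        (((univ.erase u).filter (fun w => some (G.c u w) = f u)).card : ℤ) := by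
    omega
  simp only [nsmul_eq_mul]
  rw [h']
  ring

namespace PF
variable (F : PF G) (A : Finset (Stub V))

lemma phi_mu (s : Stub V) : F.phi A (F.mu s) = - F.phi A s := by
  unfold phi
  rw [F.mu_mu]
  ring
lemma phi_cases (s : Stub V) : F.phi A s = 1 ∨ F.phi A s = 0 ∨ F.phi A s = -1 := by
  unfold phi
  split_ifs <;> simp
lemma phi_eq_one (s : Stub V) : F.phi A s = 1 ↔ s ∈ A ∧ F.mu s ∉ A := by
  unfold phi
  split_ifs with h1 h2 h2 <;> simp [h1, h2]
lemma hi_fst (u : V) : (F.hi A u).1 = u := by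
  unfold hi
  split_ifs <;> rfl
lemma lo_fst (u : V) : (F.lo A u).1 = u := by
  unfold lo
  rw [nu_fst, hi_fst]
lemma ch_fst (u : V) (a : C) : (F.ch A u a).1 = u := by
  unfold ch
  split_ifs
  · exact F.lo_fst A u
  · exact F.hi_fst A u
lemma lo_le_hi (u : V) : F.phi A (F.lo A u) ≤ F.phi A (F.hi A u) := by
  unfold lo hi
  split_ifs with h
  · exact h.le
  · exact not_lt.1 h
lemma eq_hi_or_lo (s : Stub V) : s = F.hi A s.1 ∨ s = F.lo A s.1 :=
  eq_or_eq_nu (F.hi_fst A s.1).symm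
lemma eq_hi_of_lt {s : Stub V} (h : F.phi A (nu s) < F.phi A s) : F.hi A s.1 = s := by
  rcases F.eq_hi_or_lo A s with e | e
  · exact e.symm
  · exfalso
    have h1 := F.lo_le_hi A s.1
    have h2 : nu s = F.hi A s.1 := by
      conv_lhs => rw [e]
      unfold lo
      rw [nu_nu]
    rw [← e, ← h2] at h1
    omega
private lemma lpi_ch_kept (u : V) (a : C) : some a ≠ F.kept (F.ch A u a) := by
  unfold ch
  split_ifs with h
  · exact fun e => F.kept_ne h.symm e.symm
  · exact h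
lemma adj_ch {u w : V} (h : u ≠ w) : F.adj (F.ch A u (G.c u w)) (F.ch A w (G.c w u)) := by
  unfold adj
  rw [ch_fst, ch_fst]
  exact ⟨h, F.lpi_ch_kept A u _, F.lpi_ch_kept A w _⟩
lemma mem_ty {p q : ℤ} {v : V} :
    v ∈ F.ty A p q ↔ F.phi A (F.hi A v) = p ∧ F.phi A (F.lo A v) = q := by
  simp only [ty, mem_filter, mem_univ, true_and]
private lemma lpi_sum_stub (g : Stub V → ℤ) :
    ∑ s, g s = ∑ u, (g (F.hi A u) + g (F.lo A u)) := by
  rw [Fintype.sum_prod_type]
  refine sum_congr rfl fun u _ => ?_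
  rw [Fintype.sum_bool]
  unfold lo hi
  split_ifs
  · rfl
  · exact add_comm _ _
private lemma lpi_sum_zero : ∑ u, (F.phi A (F.hi A u) + F.phi A (F.lo A u)) = 0 := by
  rw [← F.lpi_sum_stub A (F.phi A)]
  have h : ∑ s, F.phi A (F.mu s) = ∑ s, F.phi A s :=
    Equiv.sum_comp (⟨F.mu, F.mu, F.mu_mu, F.mu_mu⟩ : Equiv.Perm (Stub V)) (F.phi A)
  simp only [phi_mu, sum_neg_distrib] at h
  omega
private lemma lpi_sum : ∑ e ∈ univ.filter (fun e : V × V => e.1 ≠ e.2), F.mA A e.1 e.2 =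
    ∑ u, ((Fintype.card V : ℤ) - 1 - 2 * (F.fdeg A u : ℤ)) *
      (F.phi A (F.hi A u) - F.phi A (F.lo A u)) := by
  have h := lp_identity G (fun u => F.phi A (F.hi A u)) (fun u => F.phi A (F.lo A u))
    (fun u => F.kept (F.hi A u))
  rw [F.lpi_sum_zero A, mul_zero, zero_add] at h
  refine Eq.trans (sum_congr rfl fun e _ => ?_) h
  unfold mA ch
  rw [apply_ite (F.phi A), apply_ite (F.phi A)]
private lemma lpi_pos : (univ.filter (fun e : V × V => e.1 ≠ e.2 ∧ 0 < F.mA A e.1 e.2)).card ≤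
    2 * F.leak A := by
  set L := univ.filter
    (fun p : Stub V × Stub V => p.1 ∈ A ∧ F.adj p.1 p.2 ∧ F.mu p.2 ∉ A) with hL
  have h1 : univ.filter (fun e : V × V => e.1 ≠ e.2 ∧ 0 < F.mA A e.1 e.2) ⊆
      L.image (fun p => (p.1.1, p.2.1)) ∪ L.image (fun p => (p.2.1, p.1.1)) := by
    rintro ⟨u, w⟩ he
    obtain ⟨hne, hm⟩ := (mem_filter.1 he).2
    have ha := F.adj_ch A hne
    rw [mem_union]
    by_cases hc : F.ch A u (G.c u w) ∈ A ∧ F.mu (F.ch A w (G.c w u)) ∉ A
    · refine Or.inl (mem_image.2 ⟨(F.ch A u (G.c u w), F.ch A w (G.c w u)), ?_, ?_⟩)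
      · exact mem_filter.2 ⟨mem_univ _, hc.1, ha, hc.2⟩
      · simp only [ch_fst]
    · refine Or.inr (mem_image.2 ⟨(F.ch A w (G.c w u), F.ch A u (G.c u w)), ?_, ?_⟩)
      · have hc' : F.ch A w (G.c w u) ∈ A ∧ F.mu (F.ch A u (G.c u w)) ∉ A := by
          simp only [mA, phi] at hm
          split_ifs at hm <;> simp_all
        exact mem_filter.2 ⟨mem_univ _, hc'.1, F.adj_symm ha, hc'.2⟩
      · simp only [ch_fst]
  have h2 := (card_le_card h1).trans (card_union_le _ _)
  have h3 : (L.image (fun p => (p.1.1, p.2.1))).card ≤ L.card := card_image_le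
  have h4 : (L.image (fun p => (p.2.1, p.1.1))).card ≤ L.card := card_image_le
  have h5 : F.leak A = L.card := rfl
  omega
private lemma lpi_main : ∑ e ∈ univ.filter (fun e : V × V => e.1 ≠ e.2), F.mA A e.1 e.2 +
    ((univ.filter (fun e : V × V => e.1 ≠ e.2 ∧ F.mA A e.1 e.2 < 0)).card : ℤ) ≤
      4 * (F.leak A : ℤ) := by
  have h1 := F.lpi_pos A
  have h2 : ((univ.filter (fun e : V × V => e.1 ≠ e.2 ∧ F.mA A e.1 e.2 < 0)).card : ℤ) =
      ∑ e ∈ univ.filter (fun e : V × V => e.1 ≠ e.2), if F.mA A e.1 e.2 < 0 then 1 else 0 := by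
    rw [sum_boole, filter_filter]
  have h3 : ((univ.filter (fun e : V × V => e.1 ≠ e.2 ∧ 0 < F.mA A e.1 e.2)).card : ℤ) =
      ∑ e ∈ univ.filter (fun e : V × V => e.1 ≠ e.2), if 0 < F.mA A e.1 e.2 then 1 else 0 := by
    rw [sum_boole, filter_filter]
  have h4 : ∑ e ∈ univ.filter (fun e : V × V => e.1 ≠ e.2),
      (F.mA A e.1 e.2 + if F.mA A e.1 e.2 < 0 then 1 else 0) ≤
      ∑ e ∈ univ.filter (fun e : V × V => e.1 ≠ e.2),
        2 * (if 0 < F.mA A e.1 e.2 then 1 else 0 : ℤ) := by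
    refine sum_le_sum fun e _ => ?_
    have a1 := F.phi_cases A (F.ch A e.1 (G.c e.1 e.2))
    have a2 := F.phi_cases A (F.ch A e.2 (G.c e.2 e.1))
    have a3 : F.mA A e.1 e.2 ≤ 2 := by unfold mA; omega
    split_ifs <;> omega
  rw [sum_add_distrib, ← mul_sum, ← h2, ← h3] at h4
  omega
private lemma lpi_term (u : V) : 0 ≤ ((Fintype.card V : ℤ) - 1 - 2 * (F.fdeg A u : ℤ)) *
    (F.phi A (F.hi A u) - F.phi A (F.lo A u)) := by
  have h1 := F.lo_le_hi A u
  have h2 : 2 * F.fdeg A u + 2 ≤ Fintype.card V := deg_opt G u _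
  exact mul_nonneg (by omega) (by omega)
private lemma lpi_ty_card (p q : ℤ) : ((F.ty A p q).card : ℤ) =
    ∑ u, if F.phi A (F.hi A u) = p ∧ F.phi A (F.lo A u) = q then 1 else 0 := by
  rw [sum_boole]
  rfl
theorem tight_pairs_fin : (F.badPairs A).card ≤ 6 * F.leak A := by
  have h1 := F.lpi_pos A
  have h2 := F.lpi_main A
  rw [F.lpi_sum A] at h2
  have h3 := sum_nonneg (s := univ) (fun u _ => F.lpi_term A u)
  have h4 : F.badPairs A ⊆ univ.filter (fun e : V × V => e.1 ≠ e.2 ∧ 0 < F.mA A e.1 e.2) ∪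
      univ.filter (fun e : V × V => e.1 ≠ e.2 ∧ F.mA A e.1 e.2 < 0) := by
    intro e he
    obtain ⟨a1, a2⟩ := (mem_filter.1 he).2
    rw [mem_union, mem_filter, mem_filter]
    rcases lt_or_gt_of_ne a2 with h | h
    · exact Or.inr ⟨mem_univ _, a1, h⟩
    · exact Or.inl ⟨mem_univ _, a1, h⟩
  have h5 := (card_le_card h4).trans (card_union_le _ _)
  omega
theorem tight_deg_fin :
    ∑ u ∈ univ.filter (fun u => F.phi A (F.lo A u) < F.phi A (F.hi A u)),
      (Fintype.card V - 2 * F.fdeg A u) ≤ 8 * F.leak A := by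
  have h2 := F.lpi_main A
  rw [F.lpi_sum A] at h2
  have h3 : ((∑ u ∈ univ.filter (fun u => F.phi A (F.lo A u) < F.phi A (F.hi A u)),
      (Fintype.card V - 2 * F.fdeg A u) : ℕ) : ℤ) ≤
      2 * ∑ u, ((Fintype.card V : ℤ) - 1 - 2 * (F.fdeg A u : ℤ)) *
        (F.phi A (F.hi A u) - F.phi A (F.lo A u)) := by
    rw [Nat.cast_sum, sum_filter, mul_sum]
    refine sum_le_sum fun u _ => ?_
    have a1 := F.lpi_term A u
    have a2 : 2 * F.fdeg A u + 2 ≤ Fintype.card V := deg_opt G u _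
    split_ifs with h
    · have a3 : ((Fintype.card V : ℤ) - 1 - 2 * (F.fdeg A u : ℤ)) * 1 ≤
          ((Fintype.card V : ℤ) - 1 - 2 * (F.fdeg A u : ℤ)) *
            (F.phi A (F.hi A u) - F.phi A (F.lo A u)) :=
        mul_le_mul_of_nonneg_left (by omega) (by omega)
      omega
    · omega
  omega
theorem ty_balance : (F.ty A 1 0).card + 2 * (F.ty A 1 1).card =
    (F.ty A 0 (-1)).card + 2 * (F.ty A (-1) (-1)).card := by
  have h : ((F.ty A 1 0).card : ℤ) + 2 * (F.ty A 1 1).card -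
      (F.ty A 0 (-1)).card - 2 * (F.ty A (-1) (-1)).card = 0 := by
    refine Eq.trans ?_ (F.lpi_sum_zero A)
    simp only [lpi_ty_card, mul_sum, ← sum_add_distrib, ← sum_sub_distrib]
    refine sum_congr rfl fun u _ => ?_
    have a0 := F.lo_le_hi A u
    rcases F.phi_cases A (F.hi A u) with a1 | a1 | a1 <;>
      rcases F.phi_cases A (F.lo A u) with a2 | a2 | a2 <;>
      rw [a1, a2] at a0 ⊢ <;> omega
  omega
theorem ty_total : (F.ty A 1 1).card + (F.ty A 1 0).card + (F.ty A 1 (-1)).card + (F.ty A 0 0).card +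
    (F.ty A 0 (-1)).card + (F.ty A (-1) (-1)).card = Fintype.card V := by
  have h : ((F.ty A 1 1).card : ℤ) + (F.ty A 1 0).card + (F.ty A 1 (-1)).card + (F.ty A 0 0).card +
      (F.ty A 0 (-1)).card + (F.ty A (-1) (-1)).card = ∑ _u : V, (1 : ℤ) := by
    simp only [lpi_ty_card, ← sum_add_distrib]
    refine sum_congr rfl fun u _ => ?_
    have a0 := F.lo_le_hi A u
    rcases F.phi_cases A (F.hi A u) with a1 | a1 | a1 <;>
      rcases F.phi_cases A (F.lo A u) with a2 | a2 | a2 <;>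
      rw [a1, a2] at a0 ⊢ <;> omega
  rw [sum_const, card_univ, nsmul_eq_mul, mul_one] at h
  omega
theorem phi_one_card : (univ.filter (fun s => F.phi A s = 1)).card =
    2 * (F.ty A 1 1).card + (F.ty A 1 0).card + (F.ty A 1 (-1)).card := by
  have h : ((univ.filter (fun s => F.phi A s = 1)).card : ℤ) =
      2 * (F.ty A 1 1).card + (F.ty A 1 0).card + (F.ty A 1 (-1)).card := by
    rw [← sum_boole, F.lpi_sum_stub A]
    simp only [lpi_ty_card, mul_sum, ← sum_add_distrib]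
    refine sum_congr rfl fun u _ => ?_
    have a0 := F.lo_le_hi A u
    rcases F.phi_cases A (F.hi A u) with a1 | a1 | a1 <;>
      rcases F.phi_cases A (F.lo A u) with a2 | a2 | a2 <;>
      rw [a1, a2] at a0 ⊢ <;> omega
  omega
end PF

end Pool.Agent.BE
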