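import Pool.Agent.Lib.MP_dd4ef3_lc.BE.Val
import Pool.Agent.Lib.MP_dd4ef3_lc.BE.PlanMk

set_option autoImplicit false

open Finset Classical

noncomputable section

namespace Pool.Agent.BE

variable {V C : Type} [Fintype V] [DecidableEq V] {G : Ctx V C}

variable {F : PF G} {l : Stub V → Node} {τ : ℕ} {A0 : Set Gp} {B0 : Finset V}

lemma typx_mir (sg : Bool) (K : Node) : lv sg (mir false K) = -lv sg K := by
  cases sg <;> cases K <;> simp [lv, bsg, cls, mir]

lemma typx_UU {sg : Bool} {K K' K2 : Node} (h : cls K + cls K' ∈ A0) (h1 : lv sg K2 < lv sg K')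
    (h2 : -lv sg K' < lv sg K) : UU sg A0 := by
  refine ⟨_, h, ?_⟩
  cases sg <;> cases K <;> cases K' <;> cases K2 <;> simp [lv, bsg, cls] at h1 h2 ⊢

lemma typx_mu {D : ℕ} {s : Stub V} (sg : Bool) (h : F.Typ l false D s) :
    lv sg (mir false (l (F.mu s))) = lv sg (l s) := by
  obtain ⟨-, h1, h2⟩ := h
  rcases e : l s with _ | _ | _ | _
  · rw [h1 (Or.inl e), e]; rfl
  · rw [h1 (Or.inr e), e]; rfl
  · rcases h2 (Or.inl e) with h3 | h3 <;> rw [h3] <;> cases sg <;> rfl
  · rcases h2 (Or.inr e) with h3 | h3 <;> rw [h3] <;> cases sg <;> rfl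

/-- a typical vertex off `nb B0` has `d ≥ 1` and its value at any colour is at most the level of an
available stub -/
theorem typ_x (hS : Small F l τ A0 B0) (sg : Bool) (hU : ¬ UU sg A0) (D : ℕ) (hτ : 0 < τ)
    (hD : 18 * τ ≤ D) (hn : 48 * τ ≤ Fintype.card V) (w : V) (hw : F.TypV l false D w)
    (hB : w ∉ F.nb B0) :
    F.qv l sg (2 * τ) w < F.pv l sg (2 * τ) w ∧
      ∀ a : C, ∃ b, some a ≠ F.kept (w, b) ∧ F.xv l sg (2 * τ) w a ≤ lv sg (l (w, b)) := by
  obtain ⟨hl, ht, hne⟩ := hw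
  obtain ⟨b, hb⟩ : ∃ b, lv sg (l (w, !b)) < lv sg (l (w, b)) := by
    have h1 := hne rfl
    have h2 : lv sg (l (w, false)) ≠ lv sg (l (w, true)) := by
      cases sg
      · intro e
        apply h1
        simp only [lv, bsg, Bool.false_eq_true, if_false, if_true] at e ⊢
        omega
      · exact h1
    rcases h2.lt_or_gt with h3 | h3
    · exact ⟨true, h3⟩
    · exact ⟨false, h3⟩
  obtain ⟨e1, e2, e3⟩ := F.typ_val l sg (θ := 2 * τ) (by omega) (by omega) (w, b) _ _ hb _ _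
    (typx_mir sg _) (typx_mir sg _) (le_trans (by omega) (ht b).1.1)
    (le_trans (by omega) (ht (!b)).1.1) fun K hK => by
      by_contra hc
      have h1 := small_pair hS (w, b) hl (fun h => hB (F.subset_nb _ h))
        (fun h => hB (F.mem_nb'.2 (Or.inr ⟨b, h⟩))) K _ (le_trans (by omega) hK)
        (le_trans (by omega) (ht b).2.1)
      have h2 := typx_mu sg (ht b).1
      exact hU (typx_UU h1 (h2 ▸ hb) (h2 ▸ not_le.1 hc))
  change F.pv l sg (2 * τ) w = _ at e2
  change F.qv l sg (2 * τ) w ≤ _ at e3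
  refine ⟨by omega, fun a => ?_⟩
  by_cases ha : a = F.fv l sg (2 * τ) w
  · refine ⟨!b, fun e => F.kept_ne e1 (ha ▸ e.symm), ?_⟩
    rw [PF.xv, if_pos ha]
    exact e3
  · refine ⟨b, fun e => ha (Option.some.inj (e.trans e1)), ?_⟩
    rw [PF.xv, if_neg ha]
    exact e2.le

end Pool.Agent.BE
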