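import Pool.Agent.Lib.MP_dd4ef3_lc.BE.Rare
import Pool.Agent.Lib.MP_dd4ef3_lc.BE.LPI
import Pool.Agent.Lib.MP_dd4ef3_lc.BE.TypX

set_option autoImplicit false

open Finset Classical

noncomputable section

namespace Pool.Agent.BE

variable {V C : Type} [Fintype V] [DecidableEq V] {G : Ctx V C}

lemma lpb_card_le {α : Type} (S : Finset α) (f : α → ℤ) (h : ∀ x ∈ S, 0 ≤ f x) :
    ((S.filter (fun x => 0 < f x)).card : ℤ) ≤ ∑ x ∈ S, f x := by
  calc ((S.filter (fun x => 0 < f x)).card : ℤ) = ∑ _x ∈ S.filter (fun x => 0 < f x), (1 : ℤ) := by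
        simp
    _ ≤ ∑ x ∈ S.filter (fun x => 0 < f x), f x := sum_le_sum fun x hx => (mem_filter.1 hx).2
    _ ≤ ∑ x ∈ S, f x :=
        sum_le_sum_of_subset_of_nonneg (filter_subset _ _) fun x hx _ => h x hx

lemma lpb_upper (m : V → V → ℤ) (hs : ∀ u w, m u w = m w u) (h2 : ∀ u w, m u w ≤ 2)
    (Bad : Finset V) (hb : ∀ u w, u ≠ w → u ∉ Bad → w ∉ Bad → m u w ≤ 0) (ρ : ℕ)
    (hρ : ∀ u, (univ.filter (fun w => w ≠ u ∧ 0 < m u w)).card ≤ ρ) :
    ∑ e ∈ univ.filter (fun e : V × V => e.1 ≠ e.2), m e.1 e.2 ≤ 4 * (ρ * Bad.card : ℕ) := by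
  set S := univ.filter (fun e : V × V => e.1 ≠ e.2) with hS
  set P := S.filter (fun e => 0 < m e.1 e.2) with hP
  have mP : ∀ e, e ∈ P ↔ e.1 ≠ e.2 ∧ 0 < m e.1 e.2 := fun e => by simp [hP, hS]
  have h1 : ∑ e ∈ S, m e.1 e.2 ≤ 2 * (P.card : ℤ) := by
    rw [← sum_filter_add_sum_filter_not S (fun e => 0 < m e.1 e.2)]
    have a1 : ∑ e ∈ P, m e.1 e.2 ≤ ∑ _e ∈ P, (2 : ℤ) := sum_le_sum fun e _ => h2 _ _
    have a2 : ∑ e ∈ S.filter (fun e => ¬ 0 < m e.1 e.2), m e.1 e.2 ≤ 0 :=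
      sum_nonpos fun e he => not_lt.1 (mem_filter.1 he).2
    rw [sum_const, nsmul_eq_mul] at a1
    linarith
  have h3 : (P.filter (fun e => e.1 ∈ Bad)).card ≤ ρ * Bad.card := by
    refine card_le_mul_card_image_of_maps_to (f := Prod.fst) (fun e he => (mem_filter.1 he).2) ρ
      fun u _ => le_trans ?_ (hρ u)
    refine card_le_card_of_injOn Prod.snd (fun e he => ?_) fun e he e' he' h => ?_
    · obtain ⟨a, rfl⟩ := mem_filter.1 (mem_coe.1 he)
      have := (mP e).1 (mem_filter.1 a).1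
      simpa using ⟨this.1.symm, this.2⟩
    · exact Prod.ext ((mem_filter.1 (mem_coe.1 he)).2.trans (mem_filter.1 (mem_coe.1 he')).2.symm) h
  have h4 : (P.filter (fun e => e.2 ∈ Bad)).card ≤ ρ * Bad.card := by
    refine card_le_mul_card_image_of_maps_to (f := Prod.snd) (fun e he => (mem_filter.1 he).2) ρ
      fun u _ => le_trans ?_ (hρ u)
    refine card_le_card_of_injOn Prod.fst (fun e he => ?_) fun e he e' he' h => ?_
    · obtain ⟨a, rfl⟩ := mem_filter.1 (mem_coe.1 he)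
      have := (mP e).1 (mem_filter.1 a).1
      rw [hs] at this
      simpa using this
    · exact Prod.ext h ((mem_filter.1 (mem_coe.1 he)).2.trans (mem_filter.1 (mem_coe.1 he')).2.symm)
  have h5 : P ⊆ P.filter (fun e => e.1 ∈ Bad) ∪ P.filter (fun e => e.2 ∈ Bad) := by
    intro e he
    have a := (mP e).1 he
    by_contra hc
    simp only [mem_union, mem_filter, he, true_and, not_or] at hc
    exact absurd (hb _ _ a.1 hc.1 hc.2) (not_le.2 a.2)
  have h6 := (card_le_card h5).trans (card_union_le _ _)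
  have h7 : P.card ≤ 2 * (ρ * Bad.card) := by omega
  have h8 : (P.card : ℤ) ≤ 2 * (ρ * Bad.card : ℕ) := by exact_mod_cast h7
  linarith

lemma lpb_bsg_add (sg : Bool) (a b : Gp) : bsg sg (a + b) = bsg sg a + bsg sg b := by
  cases sg <;> simp [bsg]; ring

namespace PF

variable (F : PF G) (l : Stub V → Node) (sg : Bool) (θ : ℕ) (B : Finset V)

/-- the cost of a vertex in the zone -/
def lpbC (z : V) : ℤ :=
  if (z, false) ∈ F.zone B ∧ (z, true) ∈ F.zone B then F.pv l sg θ z + F.qv l sg θ z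
  else (if (z, false) ∈ F.zone B then F.psi l sg θ (z, false) else 0) +
    (if (z, true) ∈ F.zone B then F.psi l sg θ (z, true) else 0)

/-- the defect of a vertex -/
def lpbS (z : V) : ℤ :=
  if (z, false) ∈ F.zone B ∧ (z, true) ∈ F.zone B then 0
  else if F.loop z then F.pv l sg θ z + F.qv l sg θ z
  else F.pv l sg θ z + F.qv l sg θ z - F.psi l sg θ (z, false) - F.psi l sg θ (z, true)

/-- non-loop stubs outside the zone -/
def lpbW : Finset (Stub V) := univ.filter (fun s => s ∉ F.zone B ∧ ¬ F.loop s.1)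

lemma lpb_memW {s : Stub V} : s ∈ F.lpbW B ↔ s ∉ F.zone B ∧ ¬ F.loop s.1 := by simp [lpbW]

lemma lpb_W_mu {s : Stub V} (h : s ∈ F.lpbW B) : F.mu s ∈ F.lpbW B := by
  rw [lpb_memW] at h ⊢
  exact ⟨fun a => h.1 (by simpa using F.zone_mu a), fun a => h.2 ((F.loop_mu_iff s).1 a)⟩

lemma lpb_not_zone {z : V} (hz : z ∉ F.nb B) (b : Bool) : (z, b) ∉ F.zone B := fun h =>
  hz (F.zone_image B ▸ mem_image.2 ⟨(z, b), h, rfl⟩)

lemma lpb_opt (hn : 24 * θ ≤ Fintype.card V) {z : V} (hz : z ∈ F.nb B) :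
    ∃ g, F.Opt l (F.zone B) θ z g ∧ - F.lpbC l sg θ B z ≤ bsg sg g := by
  have single : ∀ b, (z, b) ∈ F.zone B → (z, !b) ∉ F.zone B →
      ∃ g, F.Opt l (F.zone B) θ z g ∧ - F.psi l sg θ (z, b) ≤ bsg sg g := by
    intro b h1 h2
    obtain ⟨K, a1, a2⟩ := F.lam_ex l sg (θ := 3 * θ) z (F.kept (z, b)) (by omega)
    refine ⟨cls K, Or.inr ⟨b, K, h1, h2, by omega, rfl⟩, ?_⟩
    simp only [psi, neg_neg]
    exact a2.ge
  unfold lpbC
  by_cases h1 : (z, false) ∈ F.zone B <;> by_cases h2 : (z, true) ∈ F.zone B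
  · obtain ⟨K1, K2, a1, a2⟩ := F.feas_val l sg z hn
    refine ⟨cls K1 + cls K2, Or.inl ⟨h1, h2, K1, K2, a1, rfl⟩, ?_⟩
    rw [if_pos ⟨h1, h2⟩, lpb_bsg_add]
    exact a2
  · simpa [h1, h2] using single false h1 h2
  · simpa [h1, h2] using single true h2 h1
  · rw [← F.zone_image B] at hz
    obtain ⟨⟨u, b⟩, a, rfl⟩ := mem_image.1 hz
    cases b
    · exact absurd a h1
    · exact absurd a h2

lemma lpb_loop_zone {z : V} (h : F.loop z) (b : Bool) : (z, b) ∈ F.zone B ↔ z ∈ B := by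
  rw [mem_zone, (F.loop_iff (z, b)).1 h]
  simp

lemma lpb_decomp : ∑ z, (F.pv l sg θ z + F.qv l sg θ z) - ∑ z, F.lpbC l sg θ B z =
    ∑ z, F.lpbS l sg θ B z + ∑ s ∈ F.lpbW B, F.psi l sg θ s := by
  rw [lpbW, sum_filter, Fintype.sum_prod_type, ← sum_sub_distrib, ← sum_add_distrib]
  refine sum_congr rfl fun z _ => ?_
  rw [Fintype.sum_bool]
  unfold lpbC lpbS
  by_cases h0 : F.loop z
  · by_cases h : z ∈ B <;> simp [F.lpb_loop_zone B h0, h0, h]
  · by_cases h1 : (z, false) ∈ F.zone B <;> by_cases h2 : (z, true) ∈ F.zone B <;>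
      simp [h0, h1, h2] <;> ring

lemma lpb_pair : 2 * ∑ s ∈ F.lpbW B, F.psi l sg θ s =
    ∑ s ∈ F.lpbW B, (F.psi l sg θ s + F.psi l sg θ (F.mu s)) := by
  have : ∑ s ∈ F.lpbW B, F.psi l sg θ (F.mu s) = ∑ s ∈ F.lpbW B, F.psi l sg θ s :=
    sum_nbij' F.mu F.mu (fun s hs => F.lpb_W_mu B hs) (fun s hs => F.lpb_W_mu B hs)
      (fun s _ => F.mu_mu s) (fun s _ => F.mu_mu s) fun s _ => rfl
  rw [sum_add_distrib, this]
  ring

lemma lpb_xv_le (z : V) (a : C) : F.xv l sg θ z a ≤ 1 := by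
  have := F.val_bounds l sg θ z
  unfold xv
  split_ifs <;> omega

end PF

variable {F : PF G} {l : Stub V → Node} {τ : ℕ} {A0 : Set Gp} {B0 : Finset V}

lemma lpb_S_nonneg (hS : Small F l τ A0 B0) (sg : Bool) (hU : ¬ UU sg A0)
    (hn : 48 * τ ≤ Fintype.card V) (B : Finset V) (hB : B0 ⊆ B) (z : V) :
    0 ≤ F.lpbS l sg (2 * τ) B z := by
  unfold PF.lpbS
  split_ifs with h1 h2
  · exact le_rfl
  · refine loop_nonneg hS sg hU hn z h2 fun h => h1 ?_
    simp [F.lpb_loop_zone B h2, hB h]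
  · have := F.skew_nonneg l sg (2 * τ) z
    omega

lemma lpb_d_nonneg (hS : Small F l τ A0 B0) (sg : Bool) (hU : ¬ UU sg A0)
    (hn : 48 * τ ≤ Fintype.card V) (B : Finset V) (hB : B0 ⊆ B) (s : Stub V)
    (hs : s ∈ F.lpbW B) : 0 ≤ F.psi l sg (2 * τ) s + F.psi l sg (2 * τ) (F.mu s) := by
  obtain ⟨h1, h2⟩ := (F.lpb_memW B).1 hs
  exact pair_nonneg hS sg hU hn s h2 (fun h => h1 (F.mem_zone.2 (Or.inl (hB h))))
    fun h => h1 (F.mem_zone.2 (Or.inr (hB h)))

lemma lpb_clean (hS : Small F l τ A0 B0) (sg : Bool) (hU : ¬ UU sg A0)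
    (hn : 48 * τ ≤ Fintype.card V) (B : Finset V) (hB : B0 ⊆ B) (u : V) (h1 : u ∉ F.nb B)
    (h2 : u ∉ ((F.lpbW B).filter (fun s =>
      0 < F.psi l sg (2 * τ) s + F.psi l sg (2 * τ) (F.mu s))).image Prod.fst)
    (h3 : u ∉ F.nb (univ.filter (fun z => 0 < F.lpbS l sg (2 * τ) B z))) :
    F.Clean l sg (2 * τ) B0 u := by
  have hz := F.lpb_not_zone B h1
  have cases_nb : ∀ z ∈ F.nb {u}, z = u ∨ ∃ b, (F.mu (u, b)).1 = z := by
    intro z hz
    rcases F.mem_nb.1 hz with h | ⟨⟨v, b⟩, h, e⟩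
    · exact Or.inl (mem_singleton.1 h)
    · obtain rfl : v = u := mem_singleton.1 h
      exact Or.inr ⟨b, e⟩
  have zero : ∀ z ∈ F.nb {u}, F.lpbS l sg (2 * τ) B z = 0 := by
    intro z hz
    refine le_antisymm (not_lt.1 fun h => h3 ?_) (lpb_S_nonneg hS sg hU hn B hB z)
    rcases cases_nb z hz with rfl | ⟨b, rfl⟩
    · exact F.mem_nb'.2 (Or.inl (by simpa using h))
    · exact F.mem_nb'.2 (Or.inr ⟨b, by simpa using h⟩)
  refine ⟨disjoint_left.2 fun z hz hz' => h1 ?_, fun hl => ?_, fun hl => ⟨fun b => ?_, ?_⟩⟩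
  · rcases cases_nb z hz with rfl | ⟨b, rfl⟩
    · exact F.subset_nb B (hB hz')
    · exact F.mem_nb'.2 (Or.inr ⟨b, hB hz'⟩)
  · have := zero u (F.subset_nb _ (mem_singleton_self u))
    simpa [PF.lpbS, hz, hl] using this
  · have hw : (u, b) ∈ F.lpbW B := (F.lpb_memW B).2 ⟨hz b, hl⟩
    refine le_antisymm (not_lt.1 fun h => h2 ?_) (lpb_d_nonneg hS sg hU hn B hB _ hw)
    exact mem_image.2 ⟨(u, b), mem_filter.2 ⟨hw, h⟩, rfl⟩
  · intro z hz'
    have e := zero z hz'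
    have a : ∃ b, (z, b) ∈ F.lpbW B := by
      rcases cases_nb z hz' with rfl | ⟨b, rfl⟩
      · exact ⟨false, (F.lpb_memW B).2 ⟨hz false, hl⟩⟩
      · exact ⟨(F.mu (u, b)).2, F.lpb_W_mu B ((F.lpb_memW B).2 ⟨hz b, hl⟩)⟩
    obtain ⟨b, a⟩ := a
    obtain ⟨a1, a2⟩ := (F.lpb_memW B).1 a
    unfold PF.lpbS at e
    rw [if_neg (fun h => a1 (by cases b; exacts [h.1, h.2])), if_neg a2] at e
    omega

lemma lpb_partners (hS : Small F l τ A0 B0) (sg : Bool) (hU : ¬ UU sg A0) (D : ℕ) (hτ : 0 < τ)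
    (hD : 18 * τ ≤ D) (hAt : (F.atyp l false D).card ≤ τ) (hn : 48 * τ ≤ Fintype.card V)
    (B : Finset V) (hB : B0 ⊆ B) (u : V) :
    (univ.filter (fun w => w ≠ u ∧
      0 < F.xv l sg (2 * τ) u (G.c u w) + F.xv l sg (2 * τ) w (G.c w u))).card ≤
        73 * τ + 3 * B.card := by
  have h1 := F.rare_count l sg (2 * τ) u
  set R := univ.filter (fun t : Stub V => t.1 ≠ u ∧ some (G.c t.1 u) ≠ F.kept t ∧
      - F.xv l sg (2 * τ) u (G.c u t.1) < lv sg (l t)) with hR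
  have h2 : univ.filter (fun w => w ≠ u ∧
      0 < F.xv l sg (2 * τ) u (G.c u w) + F.xv l sg (2 * τ) w (G.c w u)) ⊆
      F.atyp l false D ∪ (F.nb B ∪ R.image Prod.fst) := by
    intro w hw
    obtain ⟨a1, a2⟩ := (mem_filter.1 hw).2
    by_cases b1 : F.TypV l false D w
    · refine mem_union_right _ ?_
      by_cases b2 : w ∈ F.nb B
      · exact mem_union_left _ b2
      · obtain ⟨b, c1, c2⟩ := (typ_x hS sg hU D hτ hD hn w b1
          (fun h => b2 (F.nb_mono hB h))).2 (G.c w u)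
        refine mem_union_right _ (mem_image.2 ⟨(w, b), ?_, rfl⟩)
        rw [hR, mem_filter]
        exact ⟨mem_univ _, a1, c1, by simp only; omega⟩
    · exact mem_union_left _ (by simpa [PF.atyp] using b1)
  have h3 := (card_le_card h2).trans (card_union_le _ _)
  have h4 := card_union_le (F.nb B) (R.image Prod.fst)
  have h5 : (R.image Prod.fst).card ≤ R.card := card_image_le
  have h6 := F.card_nb B
  omega

lemma lpb_lower (hS : Small F l τ A0 B0) (sg : Bool) (hU : ¬ UU sg A0) (D : ℕ) (hτ : 0 < τ)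
    (hD : 18 * τ ≤ D) (hAt : (F.atyp l false D).card ≤ τ) (hn : 48 * τ ≤ Fintype.card V)
    (B : Finset V) (hB : B0 ⊆ B) :
    ((Fintype.card V : ℤ) - 1) * ∑ u, (F.pv l sg (2 * τ) u + F.qv l sg (2 * τ) u) +
      ((Fintype.card V : ℤ) - τ - 3 * B.card) ≤
    ∑ e ∈ univ.filter (fun e : V × V => e.1 ≠ e.2),
      (F.xv l sg (2 * τ) e.1 (G.c e.1 e.2) + F.xv l sg (2 * τ) e.2 (G.c e.2 e.1)) := by
  have h1 := lp_identity G (F.pv l sg (2 * τ)) (F.qv l sg (2 * τ))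
    (fun u => some (F.fv l sg (2 * τ) u))
  have h2 : ∑ e ∈ univ.filter (fun e : V × V => e.1 ≠ e.2),
      (F.xv l sg (2 * τ) e.1 (G.c e.1 e.2) + F.xv l sg (2 * τ) e.2 (G.c e.2 e.1)) = _ :=
    Eq.trans (sum_congr rfl fun e _ => by simp only [PF.xv, Option.some.injEq]) h1
  rw [h2]
  refine add_le_add le_rfl ?_
  set T := (F.atyp l false D ∪ F.nb B)ᶜ with hT
  have h3 : (Fintype.card V : ℤ) - τ - 3 * B.card ≤ T.card := by
    have a1 := card_add_card_compl (F.atyp l false D ∪ F.nb B)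
    have a2 := card_union_le (F.atyp l false D) (F.nb B)
    have a3 := F.card_nb B
    rw [← hT] at a1
    omega
  have h4 : ∀ u, (1 : ℤ) ≤ (Fintype.card V : ℤ) - 1 - 2 * ((univ.filter (fun w => w ≠ u ∧
      some (G.c u w) = some (F.fv l sg (2 * τ) u))).card : ℤ) := fun u => by
    have := deg_opt G u (some (F.fv l sg (2 * τ) u))
    omega
  refine h3.trans ?_
  calc (T.card : ℤ) = ∑ _u ∈ T, (1 : ℤ) := by simp
    _ ≤ ∑ u ∈ T, ((Fintype.card V : ℤ) - 1 - 2 * ((univ.filter (fun w => w ≠ u ∧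
        some (G.c u w) = some (F.fv l sg (2 * τ) u))).card : ℤ)) *
        (F.pv l sg (2 * τ) u - F.qv l sg (2 * τ) u) := by
      refine sum_le_sum fun u hu => ?_
      rw [hT, mem_compl, mem_union, not_or] at hu
      have a1 := (typ_x hS sg hU D hτ hD hn u (by simpa [PF.atyp] using hu.1)
        (fun h => hu.2 (F.nb_mono hB h))).1
      exact one_le_mul_of_one_le_of_one_le (h4 u) (by omega)
    _ ≤ _ := by
      refine sum_le_sum_of_subset_of_nonneg (subset_univ _) fun u _ _ => ?_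
      have a1 := F.val_bounds l sg (2 * τ) u
      exact mul_nonneg (zero_le_one.trans (h4 u)) (by omega)

theorem lp_bound (hS : Small F l τ A0 B0) (sg : Bool) (hU : ¬ UU sg A0) (D : ℕ) (hτ : 0 < τ)
    (hD : 18 * τ ≤ D) (hAt : (F.atyp l false D).card ≤ τ) (B : Finset V) (hB : B0 ⊆ B)
    (hn : 10000 * (B.card + 1) ^ 2 * τ ≤ Fintype.card V) :
    ∃ g : V → Gp, (∀ z ∈ F.nb B, F.Opt l (F.zone B) (2 * τ) z (g z)) ∧
      1 ≤ ∑ z ∈ F.nb B, bsg sg (g z) := by
  have hn' : 48 * τ ≤ Fintype.card V :=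
    le_trans (Nat.mul_le_mul_right _ (by nlinarith [Nat.zero_le B.card])) hn
  have key : ∑ z, F.lpbC l sg (2 * τ) B z ≤ -1 := by
    by_contra hc
    set SK := univ.filter (fun z => 0 < F.lpbS l sg (2 * τ) B z) with hSK
    set NN := (F.lpbW B).filter (fun s =>
      0 < F.psi l sg (2 * τ) s + F.psi l sg (2 * τ) (F.mu s)) with hNN
    set Bad := F.nb B ∪ (NN.image Prod.fst ∪ F.nb SK) with hBad
    have h1 := lpb_card_le univ _ fun z _ => lpb_S_nonneg hS sg hU hn' B hB z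
    have h2 := lpb_card_le _ _ (lpb_d_nonneg hS sg hU hn' B hB)
    have h3 := F.lpb_decomp l sg (2 * τ) B
    have h4 := F.lpb_pair l sg (2 * τ) B
    have h5 := lpb_lower hS sg hU D hτ hD hAt hn' B hB
    have h6 := lpb_upper (fun u w => F.xv l sg (2 * τ) u (G.c u w) + F.xv l sg (2 * τ) w (G.c w u))
      (fun u w => by rw [add_comm])
      (fun u w => by
        have a1 := F.lpb_xv_le l sg (2 * τ) u (G.c u w)
        have a2 := F.lpb_xv_le l sg (2 * τ) w (G.c w u)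
        omega) Bad
      (fun u w huw hu hw => by
        simp only [hBad, mem_union, not_or] at hu hw
        exact rare_nonpos hS sg hU hτ hn' u w huw
          (lpb_clean hS sg hU hn' B hB u hu.1 hu.2.1 hu.2.2)
          (lpb_clean hS sg hU hn' B hB w hw.1 hw.2.1 hw.2.2))
      (73 * τ + 3 * B.card) (lpb_partners hS sg hU D hτ hD hAt hn' B hB)
    have h7 : Bad.card ≤ 3 * B.card + NN.card + 3 * SK.card := by
      have a1 := card_union_le (F.nb B) (NN.image Prod.fst ∪ F.nb SK)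
      have a2 := card_union_le (NN.image Prod.fst) (F.nb SK)
      have a3 : (NN.image Prod.fst).card ≤ NN.card := card_image_le
      have a4 := F.card_nb B
      have a5 := F.card_nb SK
      rw [← hBad] at a1
      omega
    rw [← hSK] at h1
    rw [← hNN] at h2
    have h8 := h5.trans h6
    generalize ∑ u, (F.pv l sg (2 * τ) u + F.qv l sg (2 * τ) u) = P at h3 h8
    have h9 : (Bad.card : ℤ) ≤ 3 * B.card + 3 * P := by omega
    have h10 : 0 ≤ P := by omega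
    push_cast at h8
    have hn2 : (10000 : ℤ) * ((B.card : ℤ) + 1) ^ 2 * τ ≤ Fintype.card V := by exact_mod_cast hn
    have t1 : (1 : ℤ) ≤ τ := by exact_mod_cast hτ
    have b0 : (0 : ℤ) ≤ B.card := Nat.cast_nonneg _
    generalize (Bad.card : ℤ) = x at h8 h9
    generalize (B.card : ℤ) = β at h8 h9 hn2 b0
    generalize (τ : ℤ) = t at h8 hn2 t1
    generalize (Fintype.card V : ℤ) = n at h8 hn2
    have e1 : β ≤ β * t := le_mul_of_one_le_right b0 t1
    have e2 : 0 ≤ β * β * t := by positivity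
    have e3 : β * β ≤ β * β * t := le_mul_of_one_le_right (by positivity) t1
    have e4 : (73 * t + 3 * β) * x ≤ (73 * t + 3 * β) * (3 * β + 3 * P) :=
      mul_le_mul_of_nonneg_left h9 (by positivity)
    have e5 : 12 * (73 * t + 3 * β) * P ≤ (n - 1) * P :=
      mul_le_mul_of_nonneg_right (by nlinarith) h10
    nlinarith
  have ex : ∀ z, ∃ g, z ∈ F.nb B →
      F.Opt l (F.zone B) (2 * τ) z g ∧ - F.lpbC l sg (2 * τ) B z ≤ bsg sg g := fun z => by
    by_cases hz : z ∈ F.nb B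
    · obtain ⟨g, hg⟩ := F.lpb_opt l sg (2 * τ) B (by omega) hz
      exact ⟨g, fun _ => hg⟩
    · exact ⟨0, fun h => absurd h hz⟩
  choose g hg using ex
  refine ⟨g, fun z hz => (hg z hz).1, ?_⟩
  have h1 : ∑ z ∈ F.nb B, F.lpbC l sg (2 * τ) B z = ∑ z, F.lpbC l sg (2 * τ) B z :=
    sum_subset (subset_univ _) fun z _ hz => by simp [PF.lpbC, F.lpb_not_zone B hz]
  have h2 : ∑ z ∈ F.nb B, - F.lpbC l sg (2 * τ) B z ≤ ∑ z ∈ F.nb B, bsg sg (g z) :=
    sum_le_sum fun z hz => (hg z hz).2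
  rw [sum_neg_distrib] at h2
  omega

end Pool.Agent.BE
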