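import Pool.Agent.Lib.MP_dd4ef3_lc.BE.Loc

set_option autoImplicit false

open Finset Classical

noncomputable section

namespace Pool.Agent.BE

variable {V C : Type} [Fintype V] [DecidableEq V] {G : Ctx V C}

variable {F : PF G} {l : Stub V → Node} {τ : ℕ}

/-- free partners of `w` among the vertices of `T_i` outside `B` -/
private def toggleFr (F : PF G) (l : Stub V → Node) (sm : Bool) (D : ℕ) (B : Finset V) (i : Bool)
    (w : V) : Finset V :=
  (F.TT l sm D i \ B).filter (fun u => F.Free u w)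

private lemma toggle_offer {sm : Bool} {D : ℕ} {B : Finset V} {i : Bool} {w u : V}
    (hu : u ∈ toggleFr F l sm D B i w) {A : Node} (hA : A = Lof sm i ∨ A = Zof i) :
    ∃ b, (u, b) ∈ F.NS l w none A := by
  simp only [toggleFr, mem_filter, mem_sdiff, PF.TT, mem_univ, true_and] at hu
  obtain ⟨⟨⟨-, b, h1, h2⟩, -⟩, h3, h4⟩ := hu
  rcases hA with rfl | rfl
  · exact ⟨b, F.mem_NS.2 ⟨h1, h3.symm, h4 b, by simp⟩⟩
  · exact ⟨!b, F.mem_NS.2 ⟨h2, h3.symm, h4 _, by simp⟩⟩

private lemma toggle_opt {B : Finset V} {w : V} (hw : w ∈ B) {θ : ℕ} {K1 K2 : Node}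
    (h : F.Feas l w θ K1 K2) : F.Opt l (F.zone B) θ w (cls K1 + cls K2) :=
  Or.inl ⟨F.mem_zone.2 (Or.inl hw), F.mem_zone.2 (Or.inl hw), K1, K2, h, rfl⟩

private lemma toggle_heavy {sm : Bool} {D : ℕ} {B : Finset V} {i : Bool} {w : V} (hw : w ∈ B)
    (h' : 6 * τ < (toggleFr F l sm D B i w).card) :
    One sm i (F.Opt l (F.zone B) τ) (F.Opt l (F.zone B) (2 * τ)) w := by
  have h : 2 * τ ≤ (toggleFr F l sm D B i w).card := by omega
  rintro g (⟨-, -, K1, K2, hf, rfl⟩ | ⟨b, K, -, h2, -⟩)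
  · rcases F.feas_FM l hf (Lof sm i) (Zof i) _ h (fun u hu => toggle_offer hu (Or.inl rfl))
      (fun u hu => toggle_offer hu (Or.inr rfl)) with ⟨a1, a2⟩ | ⟨a1, a2⟩
    · exact ⟨K2, K1, add_comm _ _, toggle_opt hw a1, toggle_opt hw a2⟩
    · exact ⟨K1, K2, rfl, toggle_opt hw a1, toggle_opt hw a2⟩
  · exact absurd (F.mem_zone.2 (Or.inl hw)) h2

private lemma toggle_sum {sm : Bool} {D : ℕ} {B : Finset V} {i : Bool}
    (hF : ∀ u ∈ F.TT l sm D i, u ∉ B → ∃ w ∈ B, F.Free u w) :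
    (F.TT l sm D i).card ≤ B.card + ∑ w ∈ B, (toggleFr F l sm D B i w).card := by
  have h1 : F.TT l sm D i ⊆ B ∪ B.biUnion (toggleFr F l sm D B i) := by
    intro u hu
    by_cases hb : u ∈ B
    · exact mem_union_left _ hb
    · obtain ⟨w, hw, hf⟩ := hF u hu hb
      exact mem_union_right _ (mem_biUnion.2 ⟨w, hw, mem_filter.2 ⟨mem_sdiff.2 ⟨hu, hb⟩, hf⟩⟩)
  have h2 := card_le_card h1
  have h3 := card_union_le B (B.biUnion (toggleFr F l sm D B i))
  have h4 : (B.biUnion (toggleFr F l sm D B i)).card ≤ _ := card_biUnion_le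
  omega

private lemma toggle_ex {sm : Bool} {D : ℕ} {B : Finset V} {i : Bool}
    (hF : ∀ u ∈ F.TT l sm D i, u ∉ B → ∃ w ∈ B, F.Free u w)
    (hbig : B.card * (6 * τ + 1) < (F.TT l sm D i).card) :
    ∃ w ∈ B, 6 * τ < (toggleFr F l sm D B i w).card := by
  by_contra hc
  push Not at hc
  have h1 := toggle_sum hF
  have h2 : ∑ w ∈ B, (toggleFr F l sm D B i w).card ≤ B.card * (6 * τ) := by
    simpa using sum_le_card_nsmul B _ _ hc
  rw [mul_add, mul_one] at hbig
  omega

private lemma toggle_uniq {sm : Bool} {D : ℕ} {B : Finset V} {i : Bool} {w : V}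
    (hF : ∀ u ∈ F.TT l sm D i, u ∉ B → ∃ w ∈ B, F.Free u w) (hw : w ∈ B)
    (hu : ∀ w' ∈ B, w' ≠ w → (toggleFr F l sm D B i w').card ≤ 6 * τ) :
    (F.TT l sm D i).card ≤ B.card + B.card * (6 * τ) + (toggleFr F l sm D B i w).card := by
  have h1 := toggle_sum hF
  rw [← add_sum_erase B _ hw] at h1
  have h2 : ∑ w' ∈ B.erase w, (toggleFr F l sm D B i w').card ≤ (B.erase w).card * (6 * τ) := by
    simpa using sum_le_card_nsmul (B.erase w) _ (6 * τ)
      (fun x hx => hu x (mem_of_mem_erase hx) (ne_of_mem_erase hx))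
  have h3 : (B.erase w).card * (6 * τ) ≤ B.card * (6 * τ) :=
    Nat.mul_le_mul_right _ card_erase_le
  omega

private lemma toggle_disj (sm : Bool) (D : ℕ) (B : Finset V) (w : V) :
    Disjoint (toggleFr F l sm D B false w) (toggleFr F l sm D B true w) := by
  rw [disjoint_left]
  intro u h1 h2
  simp only [toggleFr, mem_filter, mem_sdiff, PF.TT, mem_univ, true_and] at h1 h2
  obtain ⟨⟨⟨-, b, -, a2⟩, -⟩, -⟩ := h1
  obtain ⟨⟨⟨-, b', a3, a4⟩, -⟩, -⟩ := h2
  by_cases e : b' = b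
  · subst e
    rw [a2] at a4
    simp [Zof] at a4
  · have e' : b' = !b := by cases b <;> cases b' <;> simp_all
    subst e'
    rw [a2] at a3
    cases sm <;> simp [Zof, Lof, mir] at a3

private lemma toggle_stubs {w : V} {A : Node} (U : Finset V)
    (hU : ∀ u ∈ U, ∃ b, (u, b) ∈ F.NS l w none A) :
    ∃ T : Finset (Stub V), T ⊆ F.NS l w none A ∧ ∀ (P : C → Prop) [DecidablePred P],
      (U.filter (fun u => P (G.c w u))).card ≤ (T.filter (fun t => P (G.c w t.1))).card := by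
  refine ⟨F.NS l w none A, subset_rfl, fun P _ => ?_⟩
  refine le_trans (card_le_card ?_) (card_image_le (f := Prod.fst))
  intro u hu
  obtain ⟨h1, h2⟩ := mem_filter.1 hu
  obtain ⟨b, hb⟩ := hU u h1
  exact mem_image.2 ⟨(u, b), mem_filter.2 ⟨hb, h2⟩, rfl⟩

theorem toggle_one (sm : Bool) (D : ℕ) (B : Finset V) (i : Bool)
    (hF : ∀ u ∈ F.TT l sm D i, u ∉ B → ∃ w ∈ B, F.Free u w)
    (hbig : B.card * (6 * τ + 1) < (F.TT l sm D i).card) :
    ∃ w ∈ B, One sm i (F.Opt l (F.zone B) τ) (F.Opt l (F.zone B) (2 * τ)) w := by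
  obtain ⟨w, hw, h⟩ := toggle_ex hF hbig
  exact ⟨w, hw, toggle_heavy hw h⟩

theorem toggle_two (sm : Bool) (D : ℕ) (B : Finset V)
    (hF : ∀ i, ∀ u ∈ F.TT l sm D i, u ∉ B → ∃ w ∈ B, F.Free u w)
    (hbig : ∀ i, B.card * (6 * τ + 1) < (F.TT l sm D i).card)
    (hn : 400 * (B.card + 1) * (τ + 1) ≤ Fintype.card V)
    (hsum : 11 * Fintype.card V ≤ 20 * ((F.TT l sm D false).card + (F.TT l sm D true).card)) :
    Two sm (F.Opt l (F.zone B) τ) (F.Opt l (F.zone B) (2 * τ)) B := by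
  by_cases hc : ∃ w1 ∈ B, ∃ w2 ∈ B, w1 ≠ w2 ∧ 6 * τ < (toggleFr F l sm D B false w1).card ∧
      6 * τ < (toggleFr F l sm D B true w2).card
  · obtain ⟨w1, h1, w2, h2, hne, a1, a2⟩ := hc
    exact Or.inl ⟨w1, h1, w2, h2, hne, toggle_heavy h1 a1, toggle_heavy h2 a2⟩
  push Not at hc
  obtain ⟨w, hw, a1⟩ := toggle_ex (hF false) (hbig false)
  obtain ⟨w2, hw2, a2⟩ := toggle_ex (hF true) (hbig true)
  obtain rfl : w = w2 := by
    by_contra hne
    have := hc w hw w2 hw2 hne a1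
    omega
  refine Or.inr ⟨w, hw, toggle_heavy hw a1, toggle_heavy hw a2, ?_⟩
  intro A A' hA hA'
  refine toggle_opt hw ?_
  rcases JF (fun u => G.c w u) (toggleFr F l sm D B false w) (toggleFr F l sm D B true w) τ
    (by omega) (by omega) with ⟨Γ, c1, c2⟩ | ⟨γ, c1, c2⟩
  · obtain ⟨T1, s1, t1⟩ := toggle_stubs (F := F) (l := l) (w := w) (A := A) _
      (fun u hu => toggle_offer (sm := sm) (D := D) (B := B) (i := false) hu hA)
    obtain ⟨T2, s2, t2⟩ := toggle_stubs (F := F) (l := l) (w := w) (A := A') _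
      (fun u hu => toggle_offer (sm := sm) (D := D) (B := B) (i := true) hu hA')
    refine F.feas_of_sub l T1 T2 s1 s2 Γ (c1.trans ?_) (c2.trans ?_)
    · exact t1 (fun a => a ∈ Γ)
    · exact t2 (fun a => a ∉ Γ)
  · exfalso
    have u1 := toggle_uniq (τ := τ) (hF false) hw (fun w' h' hne => by
      by_contra hlt
      have := hc w' h' w hw hne (not_le.1 hlt)
      omega)
    have u2 := toggle_uniq (τ := τ) (hF true) hw
      (fun w' h' hne => hc w hw w' h' hne.symm a1)
    have hd := G.deg w γ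
    have key : ∀ i, (toggleFr F l sm D B i w).card =
        ((toggleFr F l sm D B i w).filter (fun u => G.c w u = γ)).card +
        ((toggleFr F l sm D B i w).filter (fun u => G.c w u ≠ γ)).card :=
      fun i => (card_filter_add_card_filter_not (s := toggleFr F l sm D B i w)
        (fun u => G.c w u = γ)).symm
    have hsub : (toggleFr F l sm D B false w).filter (fun u => G.c w u = γ) ∪
        (toggleFr F l sm D B true w).filter (fun u => G.c w u = γ) ⊆
        univ.filter (fun u => u ≠ w ∧ G.c w u = γ) := by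
      intro u hu
      rw [mem_filter]
      rcases mem_union.1 hu with h | h <;>
      · obtain ⟨h1, h2⟩ := mem_filter.1 h
        exact ⟨mem_univ _, (mem_filter.1 h1).2.1.symm, h2⟩
    have h5 := card_le_card hsub
    rw [card_union_of_disjoint (disjoint_filter_filter (toggle_disj sm D B w))] at h5
    have k1 := key false
    have k2 := key true
    have e : 400 * (B.card + 1) * (τ + 1) = 400 * (B.card * τ) + 400 * B.card + 400 * τ + 400 := by
      ring
    have e2 : B.card * (6 * τ) = 6 * (B.card * τ) := by ring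
    omega

end Pool.Agent.BE
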