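import Pool.Agent.Lib.MP_dd4ef3_lc.BE.PlanOps
import Pool.Agent.Lib.MP_dd4ef3_lc.BE.PlanMk
import Pool.Agent.Lib.MP_dd4ef3_lc.BE.LPB
import Pool.Agent.Lib.MP_dd4ef3_lc.BE.Flex
import Pool.Agent.Lib.MP_dd4ef3_lc.BE.Toggle
import Pool.Agent.Lib.MP_dd4ef3_lc.BE.Alg

set_option autoImplicit false

open Finset Classical

noncomputable section

namespace Pool.Agent.BE

variable {V C : Type} [Fintype V] [DecidableEq V] {G : Ctx V C}

lemma avail_mono {F : PF G} {l : Stub V → Node} {τ : ℕ} {g : Gp} {k k' : ℕ} (h : k ≤ k')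
    (hA : Avail F l τ g k') : Avail F l τ g k := fun W hW => hA W (hW.trans h)

lemma small_mono {F : PF G} {l : Stub V → Node} {τ : ℕ} {A0 : Set Gp} {B0 B1 : Finset V}
    (h : B0 ⊆ B1) (hS : Small F l τ A0 B0) : Small F l τ A0 B1 :=
  fun P h1 h2 => hS P h1 (h2.mono_right h)

lemma stabilise {α : Type} (S : ℕ → Finset α) (h : ∀ j, S (j + 1) ⊆ S j) (m : ℕ)
    (hm : (S 0).card ≤ m) : ∃ j, j ≤ m ∧ S j ⊆ S (j + 1) := by
  by_contra hc
  push Not at hc
  have key : ∀ j, j ≤ m + 1 → (S j).card + j ≤ m := by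
    intro j
    induction j with
    | zero => intro _; simpa using hm
    | succ j ih =>
      intro hj
      have h1 := ih (by omega)
      have h2 : (S (j + 1)).card < (S j).card :=
        card_lt_card ⟨h j, hc j (by omega)⟩
      omega
  have := key (m + 1) le_rfl
  omega

theorem gap (F : PF G) (l : Stub V → Node) (τ : ℕ) :
    ∃ (N : ℕ) (A0 : Set Gp) (B0 : Finset V), 1 ≤ N ∧ N ≤ 1000000 ^ 100 ∧ B0.card ≤ 100 * N ∧
      Small F l τ A0 B0 ∧ ∀ a ∈ A0, Avail F l τ a (1000000 * N) := by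
  set Cl : Finset Gp := Icc (-12 : ℤ) 12 ×ˢ (univ : Finset (ZMod 2 × ZMod 2)) with hCl
  have hClc : Cl.card = 100 := by
    rw [hCl, card_product]; simp
  set S : ℕ → Finset Gp := fun j => Cl.filter (fun g => Avail F l τ g (1000000 ^ j)) with hS
  obtain ⟨j, hj, hsub⟩ := stabilise S (fun j g hg => by
    simp only [hS, mem_filter] at hg ⊢
    exact ⟨hg.1, avail_mono (Nat.pow_le_pow_right (by norm_num) (by omega)) hg.2⟩) 100
    (by rw [← hClc]; exact card_filter_le _ _)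
  have hW : ∀ g : Gp, ∃ W : Finset V, W.card ≤ 1000000 ^ j ∧ (¬ Avail F l τ g (1000000 ^ j) →
      ∀ P : LPlan F l τ, P.supp.card ≤ 6 → Disjoint P.supp W → P.cl ≠ g) := by
    intro g
    by_cases h : Avail F l τ g (1000000 ^ j)
    · exact ⟨∅, by simp, fun h' => absurd h h'⟩
    · have h' := h
      unfold Avail at h'
      push Not at h'
      obtain ⟨W, h1, h2⟩ := h'
      exact ⟨W, h1, fun _ => h2⟩
  choose W hW1 hW2 using hW
  refine ⟨1000000 ^ j, {g | g ∈ S (j + 1)}, Cl.biUnion W, Nat.one_le_pow _ _ (by norm_num),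
    Nat.pow_le_pow_right (by norm_num) hj, ?_, ?_, ?_⟩
  · rw [← hClc]; exact card_biUnion_le_card_mul _ _ _ (fun g _ => hW1 g)
  · intro P h1 h2
    have hb := P.cl_bound
    have hmem : P.cl ∈ Cl := by
      rw [hCl, mem_product, mem_Icc]
      refine ⟨⟨by omega, by omega⟩, mem_univ _⟩
    apply hsub
    simp only [hS, mem_filter]
    refine ⟨hmem, ?_⟩
    by_contra hn
    exact hW2 _ hn P h1 (h2.mono_right (subset_biUnion_of_mem W hmem)) rfl
  · intro a ha
    have ha' : a ∈ S (j + 1) := ha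
    have := (mem_filter.1 ha').2
    rwa [pow_succ, mul_comm] at this

omit [Fintype V] [DecidableEq V] in
lemma two_mono {sm : Bool} {O O2 : V → Gp → Prop} {Z Z' : Finset V} (h : Z ⊆ Z')
    (hT : Two sm O O2 Z) : Two sm O O2 Z' := by
  rcases hT with ⟨w1, h1, w2, h2, h3⟩ | ⟨w, h1, h2⟩
  · exact Or.inl ⟨w1, h h1, w2, h h2, h3⟩
  · exact Or.inr ⟨w, h h1, h2⟩

theorem exists_balanced_plan_aux (M Kc : ℕ) (hKc : 10000 * (303 * M + 1) ^ 2 ≤ Kc)
    (hKc2 : 2000000 * M ≤ Kc) (F : PF G) (l : Stub V → Node) (sm : Bool) (τ D : ℕ)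
    (N : ℕ) (A0 : Set Gp) (B0 : Finset V) (hN1 : 1 ≤ N) (hNM : N ≤ M) (hB0 : B0.card ≤ 100 * N)
    (hS : Small F l τ A0 B0) (hA : ∀ a ∈ A0, Avail F l τ a (1000000 * N))
    (hτ : 0 < τ) (hn : Kc * τ ≤ Fintype.card V) (hD : 18 * τ ≤ D)
    (hAt : (F.atyp l sm D).card ≤ τ)
    (hmix : ∀ i, (PF.labSet l (Zof i)).card < τ ∨ Kc * τ ≤ (F.TT l sm D i).card)
    (htwo : (PF.labSet l .Z1).card < τ ∨ (PF.labSet l .Z2).card < τ ∨
      Kc * τ ≤ (F.TZ l sm D).card ∨
        11 * Fintype.card V ≤ 20 * ((F.TT l sm D false).card + (F.TT l sm D true).card))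
    (e : Stub V) : ∃ P : LPlan F l τ, e ∈ P.Cs ∧ Balanced sm P.cl ∧ P.Cs.card ≤ Kc := by
  set B1 : Finset V := insert e.1 B0 with hB1
  have hS1 : Small F l τ A0 B1 := small_mono (subset_insert _ _) hS
  have hB1c : B1.card ≤ 101 * N := (card_insert_le _ _).trans (by omega)
  set B : Finset V := F.nb B1 with hB
  have hBc : B.card ≤ 303 * N := (F.card_nb B1).trans (by omega)
  have hZc : (F.nb B).card ≤ 909 * N := (F.card_nb B).trans (by omega)
  have hBM : B.card ≤ 303 * M := by omega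
  have hK1 : 10000 * (B.card + 1) ^ 2 ≤ Kc :=
    le_trans (Nat.mul_le_mul_left _ (Nat.pow_le_pow_left (by omega) 2)) hKc
  have hK2 : 10000 * (B.card + 1) ≤ Kc := le_trans (by nlinarith) hK1
  have hK3 : 10000 * (B.card + 1) * τ ≤ Kc * τ := Nat.mul_le_mul_right _ hK2
  have hn48 : 48 * τ ≤ Fintype.card V := by nlinarith
  have hbig : B.card * (6 * τ + 1) < Kc * τ := by nlinarith
  have hflex : ∀ i, (PF.labSet l (Zof i)).card < τ ∨ VV sm i A0 ∨
      ((∀ u ∈ F.TT l sm D i, u ∉ B → ∃ w ∈ B, F.Free u w) ∧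
        B.card * (6 * τ + 1) < (F.TT l sm D i).card) := by
    intro i
    rcases hmix i with h | h
    · exact Or.inl h
    · rcases flex_dichotomy hS1 sm D hτ hD hn48 i with h' | h'
      · exact Or.inr (Or.inl h')
      · exact Or.inr (Or.inr ⟨h', by omega⟩)
  have hzone : ∀ g : V → Gp, (∀ z ∈ F.nb B, F.Opt l (F.zone B) τ z (g z)) →
      ∃ P : LPlan F l τ, P.Cs = F.zone B ∧ P.cl = ∑ z ∈ F.nb B, g z := by
    intro g hg
    have := plan_of_opts (F := F) (l := l) (τ := τ) (F.zone B) (fun s hs => F.zone_mu hs) g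
      (by rw [F.zone_image]; exact hg)
    rwa [F.zone_image] at this
  obtain ⟨g, ls, hg, hls, hlen, hbal⟩ := alg (F.nb B) (F.Opt l (F.zone B) τ)
    (F.Opt l (F.zone B) (2 * τ)) A0 sm (fun i => (PF.labSet l (Zof i)).card < τ)
    (fun z g h => F.opt_mono l (by omega) h)
    (fun z hz => F.opt_ex l (by omega) (by rw [F.zone_image]; exact hz))
    (fun z g g' h h' => F.opt_chain l h h')
    (fun z g h => F.opt_bound l h)
    (fun g hg => by obtain ⟨P, _, h⟩ := hzone g hg; rw [← h]; exact P.par_cl)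
    (fun a ha => by
      obtain ⟨P, _, _, h⟩ := hA a ha ∅ (by simp)
      rw [← h]; exact P.par_cl)
    (fun i hi z g h => F.opt_null l i hi h)
    (fun hsm sg => by
      by_cases hU : UU sg A0
      · exact Or.inl hU
      · subst hsm
        exact Or.inr (lp_bound hS1 sg hU D hτ hD hAt B (F.subset_nb B1)
          ((Nat.mul_le_mul_right _ hK1).trans hn)))
    (fun i => by
      rcases hflex i with h | h | ⟨h, h'⟩
      · exact Or.inl h
      · exact Or.inr (Or.inl h)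
      · obtain ⟨w, hw, h1⟩ := toggle_one sm D B i h h'
        exact Or.inr (Or.inr ⟨w, F.subset_nb B hw, h1⟩))
    (by
      rcases hflex false with h0 | h0 | ⟨h0, h0'⟩
      · exact Or.inl h0
      · exact Or.inr (Or.inr (Or.inl h0))
      rcases hflex true with h1 | h1 | ⟨h1, h1'⟩
      · exact Or.inr (Or.inl h1)
      · exact Or.inr (Or.inr (Or.inr (Or.inl h1)))
      rcases htwo with h | h | h | h
      · exact Or.inl h
      · exact Or.inr (Or.inl h)
      · exact Or.inr (Or.inr (Or.inr (Or.inr (Or.inl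
          (t_of_TZ hS1 sm D hD (by rw [← hB]; nlinarith))))))
      · refine Or.inr (Or.inr (Or.inr (Or.inr (Or.inr (two_mono (F.subset_nb B) ?_)))))
        refine toggle_two sm D B (fun i => ?_) (fun i => ?_) (by nlinarith) h
        · cases i
          · exact h0
          · exact h1
        · cases i
          · exact h0'
          · exact h1')
  obtain ⟨P, hP1, hP2⟩ := hzone g hg
  have hsupp : P.supp = F.nb B := by rw [LPlan.supp, hP1, F.zone_image]
  obtain ⟨R, hR1, hR2, hR3⟩ := exists_add_list (1000000 * N) ls (fun a ha => hA a (hls a ha)) P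
    (by rw [hsupp]; omega)
  refine ⟨R, hR1 ?_, by rw [hR3, hP2]; exact hbal, ?_⟩
  · rw [hP1, F.mem_zone]
    exact Or.inl (F.subset_nb B1 (mem_insert_self _ _))
  · have := R.card_Cs
    rw [hsupp] at hR2
    omega

theorem exists_balanced_plan : ∃ Kc : ℕ, 0 < Kc ∧
    ∀ (V C : Type) [Fintype V] [DecidableEq V] (G : Ctx V C) (F : PF G) (l : Stub V → Node)
      (sm : Bool) (τ D : ℕ), 0 < τ → Kc * τ ≤ Fintype.card V → 18 * τ ≤ D →
      (F.atyp l sm D).card ≤ τ →
      (∀ i, (PF.labSet l (Zof i)).card < τ ∨ Kc * τ ≤ (F.TT l sm D i).card) →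
      ((PF.labSet l .Z1).card < τ ∨ (PF.labSet l .Z2).card < τ ∨ Kc * τ ≤ (F.TZ l sm D).card ∨
        11 * Fintype.card V ≤ 20 * ((F.TT l sm D false).card + (F.TT l sm D true).card)) →
      ∀ e : Stub V, ∃ P : LPlan F l τ, e ∈ P.Cs ∧ Balanced sm P.cl ∧ P.Cs.card ≤ Kc := by
  obtain ⟨M, hM⟩ : ∃ M : ℕ, M = 1000000 ^ 100 := ⟨_, rfl⟩
  refine ⟨10000 * (303 * M + 1) ^ 2 + 2000000 * M, by positivity, ?_⟩
  intro V C _ _ G F l sm τ D hτ hn hD hAt hmix htwo e
  obtain ⟨N, A0, B0, h1, h2, h3, h4, h5⟩ := gap F l τ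
  exact exists_balanced_plan_aux M _ (Nat.le_add_right _ _) (Nat.le_add_left _ _) F l sm τ D N A0 B0
    h1 (hM ▸ h2) h3 h4 h5 hτ hn hD hAt hmix htwo e

end Pool.Agent.BE
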