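import Pool.Agent.Lib.MP_dd4ef3_lc.BE.Orbit

set_option autoImplicit false

open Finset Classical

noncomputable section

namespace Pool.Agent.BE

variable {V C : Type} [Fintype V] [DecidableEq V] {G : Ctx V C}

variable {F : PF G} {l : Stub V → Node}

lemma reach_mono (h : ℕ) (Y : Finset (Stub V)) (j : ℕ) : F.reach h Y j ⊆ F.reach h Y (j + 1) :=
  subset_union_left

lemma Reach_le (h : ℕ) (Y : Finset (Stub V)) {i j : ℕ} (hij : i ≤ j) :
    F.reach h Y i ⊆ F.reach h Y j := by
  induction j, hij using Nat.le_induction with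
  | base => exact Subset.refl _
  | succ j _ ih => exact ih.trans (reach_mono h Y j)

lemma Reach_mem {h : ℕ} {Y : Finset (Stub V)} {j : ℕ} {s : Stub V} :
    s ∈ F.reach h Y (j + 1) ↔ s ∈ F.reach h Y j ∨
      h ≤ ((F.reach h Y j).filter (fun t => F.adj t (F.mu s))).card := by
  simp only [PF.reach, mem_union, mem_filter, mem_univ, true_and]

lemma Reach_stall (h g k : ℕ) (Y : Finset (Stub V)) (h2 : 2 * Fintype.card V < k * (g + 1)) :
    ∃ j, j < k ∧ (F.reach h Y (j + 1) \ F.reach h Y j).card ≤ g := by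
  by_contra hc
  push Not at hc
  have key : ∀ j, j ≤ k → j * (g + 1) ≤ (F.reach h Y j).card := by
    intro j
    induction j with
    | zero => intro _; simp
    | succ j ih =>
      intro hj
      have a1 := ih (by omega)
      have a2 := hc j (by omega)
      have a3 := card_sdiff_add_card_eq_card (reach_mono (F := F) h Y j)
      rw [Nat.succ_mul]
      omega
  have a1 := key k le_rfl
  have a2 : (F.reach h Y k).card ≤ 2 * Fintype.card V := by
    rw [← card_stub]; exact card_le_univ _
  omega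

lemma Reach_leak (h g j : ℕ) (Y : Finset (Stub V))
    (hg : (F.reach h Y (j + 1) \ F.reach h Y j).card ≤ g) :
    F.leak (F.reach h Y j) ≤ 2 * Fintype.card V * (h + g) := by
  set A := F.reach h Y j with hA
  set D := F.reach h Y (j + 1) \ A with hD
  set T : Finset (Stub V) := univ.filter (fun t => F.mu t ∉ F.reach h Y (j + 1)) with hT
  have hsub : univ.filter (fun p : Stub V × Stub V => p.1 ∈ A ∧ F.adj p.1 p.2 ∧ F.mu p.2 ∉ A) ⊆
      (univ ×ˢ D.image F.mu) ∪
        T.biUnion (fun t => (A.filter (fun s => F.adj s t)).image (fun s => (s, t))) := by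
    rintro ⟨s, t⟩ hp
    obtain ⟨p1, p2, p3⟩ := (mem_filter.1 hp).2
    by_cases ht : F.mu t ∈ F.reach h Y (j + 1)
    · exact mem_union_left _ (mem_product.2 ⟨mem_univ _,
        mem_image.2 ⟨F.mu t, mem_sdiff.2 ⟨ht, p3⟩, F.mu_mu t⟩⟩)
    · exact mem_union_right _ (mem_biUnion.2 ⟨t, mem_filter.2 ⟨mem_univ _, ht⟩,
        mem_image.2 ⟨s, mem_filter.2 ⟨p1, p2⟩, rfl⟩⟩)
  have c1 : ((univ : Finset (Stub V)) ×ˢ D.image F.mu).card ≤ 2 * Fintype.card V * g := by
    rw [card_product, card_univ, card_stub]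
    exact Nat.mul_le_mul_left _ (card_image_le.trans hg)
  have c2 : (T.biUnion (fun t => (A.filter (fun s => F.adj s t)).image (fun s => (s, t)))).card ≤
      T.card * h := by
    refine card_biUnion_le_card_mul _ _ _ (fun t ht => card_image_le.trans ?_)
    have a1 := (mem_filter.1 ht).2
    rw [Reach_mem, not_or, F.mu_mu] at a1
    exact (not_le.1 a1.2).le
  have c3 : T.card * h ≤ 2 * Fintype.card V * h := by
    refine Nat.mul_le_mul_right _ ?_
    rw [← card_stub]; exact card_le_univ _
  have c4 := (card_le_card hsub).trans (card_union_le _ _)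
  unfold PF.leak
  rw [mul_add]
  omega

theorem reach_big {K K' : Node} {θ ζ : ℕ} (hNS : F.NSfin l K K' θ ζ) (h g k : ℕ)
    (h1 : 2 * Fintype.card V * (h + g) ≤ ζ) (h2 : 2 * Fintype.card V < k * (g + 1))
    (Y : Finset (Stub V)) (hY : θ ≤ (Y.filter (fun s => l (F.mu s) = K)).card) :
    (univ.filter (fun s => l s = K' ∧ s ∉ F.reach h Y k)).card < θ := by
  obtain ⟨j, hj, hg⟩ := Reach_stall (F := F) h g k Y h2
  have a1 := hNS (F.reach h Y j) ((Reach_leak h g j Y hg).trans h1)
    (hY.trans (card_le_card (filter_subset_filter _ (Reach_le (F := F) h Y (Nat.zero_le j)))))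
  refine lt_of_le_of_lt (card_le_card fun s hs => ?_) a1
  obtain ⟨b1, b2⟩ := (mem_filter.1 hs).2
  exact mem_filter.2 ⟨mem_univ _, b1, fun e => b2 (Reach_le h Y hj.le e)⟩

/-- backward greedy walk -/
lemma Reach_back (h L B : ℕ) (Y : Finset (Stub V))
    (h3 : 8 * B * (L + 2) + 2 * F.loops.card < h) (j : ℕ) :
    ∀ s ∈ F.reach h Y j, ∀ W : Finset V, W.card + 2 * j ≤ B → F.Avoid L W s →
      ∃ (r : ℕ) (w : ℕ → Stub V), r ≤ j ∧ w 0 ∈ Y ∧ w r = s ∧
        (∀ i, i < r → F.adj (w i) (F.mu (w (i + 1)))) ∧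
        (∀ i i', i < i' → i' ≤ r → F.FarPair L (w i) (w i')) ∧ ∀ i, i ≤ r → F.Avoid L W (w i) := by
  induction j with
  | zero =>
    intro s hs W _ hav
    exact ⟨0, fun _ => s, le_rfl, hs, rfl, fun i hi => by omega, fun i i' a b => by omega,
      fun _ _ => hav⟩
  | succ j ih =>
    intro s hs W hW hav
    rcases Reach_mem.1 hs with hs1 | hs1
    · obtain ⟨r, w, a1, a2⟩ := ih s hs1 W (by omega) hav
      exact ⟨r, w, by omega, a2⟩
    · set W' : Finset V := insert s.1 (insert (F.mu s).1 W) with hW'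
      have c1 : W'.card ≤ W.card + 2 := by
        have b1 := card_insert_le s.1 (insert (F.mu s).1 W)
        have b2 := card_insert_le (F.mu s).1 W
        rw [hW']
        omega
      have hsub : W ⊆ W' := (subset_insert _ _).trans (subset_insert _ _)
      have c2 := F.avoid_card L W'
      have c3 : 8 * W'.card * (L + 2) ≤ 8 * B * (L + 2) := Nat.mul_le_mul_right _ (by omega)
      obtain ⟨t, ht, ht'⟩ := exists_mem_notMem_of_card_lt_card
        (show (univ.filter (fun s => ¬ F.Avoid L W' s)).card <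
          ((F.reach h Y j).filter (fun t => F.adj t (F.mu s))).card by omega)
      have hav' : F.Avoid L W' t := by simpa using ht'
      obtain ⟨t1, t2⟩ := mem_filter.1 ht
      obtain ⟨r, w, a1, a2, a3, a4, a5, a6⟩ := ih t t1 W' (by omega) hav'
      refine ⟨r + 1, fun i => if i ≤ r then w i else s, by omega, by simpa using a2, by simp,
        fun i hi => ?_, fun i i' b1 b2 => ?_, fun i hi => ?_⟩
      · by_cases e : i = r
        · subst e
          simpa [a3] using t2
        · have b1 : i ≤ r := by omega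
          have b2 : i + 1 ≤ r := by omega
          simp only [b1, b2, if_true]
          exact a4 i (by omega)
      · have b3 : i ≤ r := by omega
        by_cases e : i' ≤ r
        · simp only [b3, e, if_true]
          exact a5 i i' b1 e
        · simp only [b3, e, if_true, if_false]
          exact F.farPair_symm (F.farPair_of_avoid (a6 i b3) (mem_insert_self _ _)
            (mem_insert_of_mem (mem_insert_self _ _)))
      · by_cases e : i ≤ r
        · simp only [e, if_true]
          exact F.avoid_mono hsub (a6 i e)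
        · simp only [e, if_false]
          exact hav

theorem walks_of_NS (sm : Bool) (τ θ ζ h g k L β : ℕ) (hNS : ∀ K, F.NSfin l K (mir sm K) θ ζ)
    (h1 : 2 * Fintype.card V * (h + g) ≤ ζ) (h2 : 2 * Fintype.card V < k * (g + 1))
    (hθ : 2 * θ ≤ τ)
    (h3 : 8 * (β + 2 * (k + 1)) * (L + 2) + 2 * F.loops.card < min θ h) :
    F.Walks l sm τ L (k + 1) β := by
  intro K T1 T2 hT1 hT2 c1 c2 W hW
  obtain ⟨h3a, h3b⟩ := lt_min_iff.1 h3
  set Y := T1.image F.mu with hY
  have hYc : θ ≤ (Y.filter (fun s => l (F.mu s) = K)).card := by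
    rw [filter_true_of_mem, hY, card_image_of_injective _ (fun a b e => F.mu_inj e)]
    · omega
    · intro s hs
      obtain ⟨t, ht, rfl⟩ := mem_image.1 hs
      rw [F.mu_mu]; exact hT1 t ht
  have a1 := reach_big (hNS K) h g k h1 h2 Y hYc
  have a2 := F.avoid_card L W
  have a3 : 8 * W.card * (L + 2) ≤ 8 * (β + 2 * (k + 1)) * (L + 2) :=
    Nat.mul_le_mul_right _ (by omega)
  have a4 := card_union_le (univ.filter (fun s => l s = mir sm K ∧ s ∉ F.reach h Y k))
    (univ.filter (fun s => ¬ F.Avoid L W s))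
  obtain ⟨s, hs, hs'⟩ := exists_mem_notMem_of_card_lt_card
    (show ((univ.filter (fun s => l s = mir sm K ∧ s ∉ F.reach h Y k)) ∪
      (univ.filter (fun s => ¬ F.Avoid L W s))).card < T2.card by omega)
  rw [mem_union, not_or] at hs'
  have b1 : s ∈ F.reach h Y k := by
    by_contra e
    exact hs'.1 (mem_filter.2 ⟨mem_univ _, hT2 s hs, e⟩)
  have b2 : F.Avoid L W s := by simpa using hs'.2
  obtain ⟨r, w, d1, d2, d3, d4, d5, d6⟩ :=
    Reach_back h L (β + 2 * (k + 1)) Y h3b k s b1 W (by omega) b2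
  refine ⟨r, w, by omega, ?_, d3 ▸ hs, d4, d5, d6⟩
  obtain ⟨t, ht, e⟩ := mem_image.1 d2
  rw [← e, F.mu_mu]
  exact ht

end Pool.Agent.BE
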