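import Pool.Agent.Lib.MP_dd4ef3_lc.BE.Basic

set_option autoImplicit false

open Finset Classical

noncomputable section

namespace Pool.Agent.BE

variable {V C : Type} [Fintype V] [DecidableEq V] {G : Ctx V C}

variable {F : PF G} {l : Stub V → Node} {τ : ℕ}

theorem planOps_mu_not (P : Plan F) {s : Stub V} (h : s ∉ P.Cs) : F.mu s ∉ P.Cs := fun h' =>
  h (by simpa using P.Cs_mu _ h')

theorem Plan.exists_apply (P : Plan F) (hE : P.E = ∅) :
    ∃ F' : PF G, (∀ s ∈ P.Cs, F'.mu s = P.rho s ∧ F'.real s) ∧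
      (∀ s, s ∉ P.Cs → F'.mu s = F.mu s ∧ (F'.real s ↔ F.real s)) := by
  have hn : ∀ s, s ∉ P.E := fun s => by rw [hE]; exact notMem_empty s
  have hc : ∀ s, colP G P.E P.rho P.T s (G.c s.1 (P.rho s).1) := fun s => Or.inr ⟨hn s, rfl⟩
  refine ⟨⟨fun s => if s ∈ P.Cs then P.rho s else F.mu s, fun s => s ∈ P.Cs ∨ F.real s,
    fun s => ?_, fun s => ?_, fun s hs => ?_, fun s hs => ?_, fun s h1 h2 => ?_⟩,
    fun s hs => ⟨if_pos hs, Or.inl hs⟩, fun s hs => ⟨if_neg hs, or_iff_right hs⟩⟩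
  · by_cases h : s ∈ P.Cs
    · rw [if_pos h, if_pos (P.rho_mem s h (hn s)).1, P.rho_rho s h (hn s)]
    · rw [if_neg h, if_neg (planOps_mu_not P h), F.mu_mu]
  · by_cases h : s ∈ P.Cs
    · rw [if_pos h]
      exact fun e => P.rho_ne s h (hn s) (congrArg Prod.fst e)
    · rw [if_neg h]
      exact F.mu_ne s
  · by_cases h : s ∈ P.Cs
    · rw [if_pos h]
      exact Or.inl (P.rho_mem s h (hn s)).1
    · rw [if_neg h]
      exact Or.inr (F.real_mu s (hs.resolve_left h))
  · by_cases h : s ∈ P.Cs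
    · rw [if_pos h]
      exact P.rho_ne s h (hn s)
    · rw [if_neg h]
      exact F.real_ne s (hs.resolve_left h)
  · by_cases h : s ∈ P.Cs <;> by_cases h' : nu s ∈ P.Cs
    · rw [if_pos h, if_pos h']
      exact fun e => P.double s h h' _ (hc s) (Or.inr ⟨hn _, e.symm⟩)
    · rw [if_pos h, if_neg h']
      intro e
      refine P.single s h h' _ (hc s) ?_
      rw [PF.kept, if_pos (h2.resolve_left h'), e]
    · rw [if_neg h, if_pos h']
      intro e
      refine P.single (nu s) h' (by rwa [nu_nu]) _ (hc (nu s)) ?_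
      rw [PF.kept, nu_nu, if_pos (h1.resolve_left h), nu_fst, e]
    · rw [if_neg h, if_neg h']
      exact F.pc s (h1.resolve_left h) (h2.resolve_left h')

theorem Plan.even_E (P : Plan F) : Even P.E.card := by
  have h1 : Even P.Cs.card :=
    even_of_invol P.Cs F.mu P.Cs_mu (fun s _ => F.mu_mu s) (fun s _ => F.mu_ne s)
  have h2 : Even (P.Cs \ P.E).card := by
    refine even_of_invol _ P.rho (fun s hs => ?_) (fun s hs => ?_) (fun s hs e => ?_)
    · exact mem_sdiff.2 (P.rho_mem s (mem_sdiff.1 hs).1 (mem_sdiff.1 hs).2)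
    · exact P.rho_rho s (mem_sdiff.1 hs).1 (mem_sdiff.1 hs).2
    · exact P.rho_ne s (mem_sdiff.1 hs).1 (mem_sdiff.1 hs).2 (congrArg Prod.fst e)
  have h3 := card_sdiff_add_card_eq_card P.E_sub
  rw [Nat.even_iff] at *
  omega

theorem planOps_par_add (a b : Gp) : par (a + b) = par a + par b := by
  simp only [par, Prod.fst_add, Prod.snd_add, Int.cast_add]
  ring

theorem planOps_par_cls (K : Node) : par (cls K) = 1 := by
  cases K <;> decide

theorem planOps_par_sum {α : Type} (S : Finset α) (f : α → Node) :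
    par (∑ e ∈ S, cls (f e)) = (S.card : ZMod 2) := by
  induction S using Finset.induction_on with
  | empty => simp [par]
  | insert a S ha ih =>
    rw [sum_insert ha, planOps_par_add, ih, planOps_par_cls, card_insert_of_notMem ha]
    push_cast
    ring

theorem LPlan.par_cl (P : LPlan F l τ) : par P.cl = 0 := by
  rw [LPlan.cl, planOps_par_sum]
  exact (ZMod.natCast_eq_zero_iff_even).2 P.toPlan.even_E

theorem planOps_mem_supp (P : LPlan F l τ) {s : Stub V} (h : s ∈ P.Cs) : s.1 ∈ P.supp :=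
  mem_image_of_mem _ h

theorem LPlan.card_Cs (P : LPlan F l τ) : P.Cs.card ≤ 2 * P.supp.card := by
  have h : P.Cs ⊆ P.supp ×ˢ (univ : Finset Bool) := fun s hs =>
    mem_product.2 ⟨planOps_mem_supp P hs, mem_univ _⟩
  have := card_le_card h
  rw [card_product, card_univ, Fintype.card_bool] at this
  omega

theorem planOps_fst_sum {α : Type} (S : Finset α) (f : α → Node) :
    -(S.card : ℤ) ≤ (∑ e ∈ S, cls (f e)).1 ∧ (∑ e ∈ S, cls (f e)).1 ≤ S.card := by
  induction S using Finset.induction_on with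
  | empty => simp
  | insert a S ha ih =>
    have h : -1 ≤ (cls (f a)).1 ∧ (cls (f a)).1 ≤ 1 := by cases f a <;> simp [cls]
    rw [sum_insert ha, card_insert_of_notMem ha, Prod.fst_add]
    push_cast
    omega

theorem LPlan.cl_bound (P : LPlan F l τ) :
    -(2 * (P.supp.card : ℤ)) ≤ P.cl.1 ∧ P.cl.1 ≤ 2 * (P.supp.card : ℤ) := by
  have h1 := planOps_fst_sum P.E P.lab
  have h2 := card_le_card P.E_sub
  have h3 := P.card_Cs
  rw [LPlan.cl]
  omega

theorem planOps_colP {E E' : Finset (Stub V)} {rho rho' : Stub V → Stub V}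
    {T T' : Stub V → Finset (Stub V)} {s : Stub V} (h1 : s ∈ E ↔ s ∈ E') (h2 : rho s = rho' s)
    (h3 : T s = T' s) (a : C) : colP G E rho T s a ↔ colP G E' rho' T' s a := by
  unfold colP
  rw [h1, h2, h3]

theorem LPlan.exists_union (P Q : LPlan F l τ) (h : Disjoint P.supp Q.supp) :
    ∃ R : LPlan F l τ, R.Cs = P.Cs ∪ Q.Cs ∧ R.cl = P.cl + Q.cl := by
  have hP : ∀ s ∈ P.Cs, s.1 ∈ P.supp := fun s hs => planOps_mem_supp P hs
  have hQ : ∀ s ∈ Q.Cs, s.1 ∉ P.supp := fun s hs h' =>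
    disjoint_left.1 h h' (planOps_mem_supp Q hs)
  have eP : ∀ s : Stub V, s.1 ∈ P.supp → (s ∈ P.E ∪ Q.E ↔ s ∈ P.E) := fun s hs => by
    rw [mem_union]
    exact or_iff_left fun h' => hQ s (Q.E_sub h') hs
  have eQ : ∀ s : Stub V, s.1 ∉ P.supp → (s ∈ P.E ∪ Q.E ↔ s ∈ Q.E) := fun s hs => by
    rw [mem_union]
    exact or_iff_right fun h' => hs (hP s (P.E_sub h'))
  have cP : ∀ s : Stub V, s.1 ∈ P.supp → (s ∈ P.Cs ∪ Q.Cs ↔ s ∈ P.Cs) := fun s hs => by
    rw [mem_union]
    exact or_iff_left fun h' => hQ s h' hs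
  have cQ : ∀ s : Stub V, s.1 ∉ P.supp → (s ∈ P.Cs ∪ Q.Cs ↔ s ∈ Q.Cs) := fun s hs => by
    rw [mem_union]
    exact or_iff_right fun h' => hs (hP s h')
  set rho : Stub V → Stub V := fun s => if s.1 ∈ P.supp then P.rho s else Q.rho s with hrho
  set T : Stub V → Finset (Stub V) := fun s => if s.1 ∈ P.supp then P.T s else Q.T s with hT
  set lab : Stub V → Node := fun s => if s.1 ∈ P.supp then P.lab s else Q.lab s with hlab
  have rP : ∀ s : Stub V, s.1 ∈ P.supp → rho s = P.rho s := fun s hs => if_pos hs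
  have rQ : ∀ s : Stub V, s.1 ∉ P.supp → rho s = Q.rho s := fun s hs => if_neg hs
  have tP : ∀ s : Stub V, s.1 ∈ P.supp → T s = P.T s := fun s hs => if_pos hs
  have tQ : ∀ s : Stub V, s.1 ∉ P.supp → T s = Q.T s := fun s hs => if_neg hs
  have lP : ∀ s : Stub V, s.1 ∈ P.supp → lab s = P.lab s := fun s hs => if_pos hs
  have lQ : ∀ s : Stub V, s.1 ∉ P.supp → lab s = Q.lab s := fun s hs => if_neg hs
  have kP : ∀ s : Stub V, s.1 ∈ P.supp → ∀ a,
      (colP G (P.E ∪ Q.E) rho T s a ↔ colP G P.E P.rho P.T s a) := fun s hs =>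
    planOps_colP (eP s hs) (rP s hs) (tP s hs)
  have kQ : ∀ s : Stub V, s.1 ∉ P.supp → ∀ a,
      (colP G (P.E ∪ Q.E) rho T s a ↔ colP G Q.E Q.rho Q.T s a) := fun s hs =>
    planOps_colP (eQ s hs) (rQ s hs) (tQ s hs)
  refine ⟨⟨⟨P.Cs ∪ Q.Cs, P.E ∪ Q.E, rho, T, fun s hs => ?_, union_subset_union P.E_sub Q.E_sub,
    fun s hs hE => ?_, fun s hs hE => ?_, fun s hs hE => ?_, fun e he => ?_,
    fun s hs hn a ha => ?_, fun s hs hn a ha => ?_⟩, lab, fun e he => ?_, fun s hs => ?_⟩, rfl, ?_⟩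
  · rcases mem_union.1 hs with h' | h'
    · exact mem_union_left _ (P.Cs_mu s h')
    · exact mem_union_right _ (Q.Cs_mu s h')
  · by_cases h' : s.1 ∈ P.supp
    · rw [cP s h'] at hs
      rw [eP s h'] at hE
      obtain ⟨a1, a2⟩ := P.rho_mem s hs hE
      rw [rP s h', eP _ (hP _ a1)]
      exact ⟨mem_union_left _ a1, a2⟩
    · rw [cQ s h'] at hs
      rw [eQ s h'] at hE
      obtain ⟨a1, a2⟩ := Q.rho_mem s hs hE
      rw [rQ s h', eQ _ (hQ _ a1)]
      exact ⟨mem_union_right _ a1, a2⟩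
  · by_cases h' : s.1 ∈ P.supp
    · rw [cP s h'] at hs
      rw [eP s h'] at hE
      rw [rP s h', rP _ (hP _ (P.rho_mem s hs hE).1), P.rho_rho s hs hE]
    · rw [cQ s h'] at hs
      rw [eQ s h'] at hE
      rw [rQ s h', rQ _ (hQ _ (Q.rho_mem s hs hE).1), Q.rho_rho s hs hE]
  · by_cases h' : s.1 ∈ P.supp
    · rw [rP s h']
      exact P.rho_ne s ((cP s h').1 hs) (fun a => hE ((eP s h').2 a))
    · rw [rQ s h']
      exact Q.rho_ne s ((cQ s h').1 hs) (fun a => hE ((eQ s h').2 a))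
  · by_cases h' : e.1 ∈ P.supp
    · rw [tP e h']
      exact P.T_ok e ((eP e h').1 he)
    · rw [tQ e h']
      exact Q.T_ok e ((eQ e h').1 he)
  · by_cases h' : s.1 ∈ P.supp
    · exact P.single s ((cP s h').1 hs) (fun x => hn (mem_union_left _ x)) a ((kP s h' a).1 ha)
    · exact Q.single s ((cQ s h').1 hs) (fun x => hn (mem_union_right _ x)) a ((kQ s h' a).1 ha)
  · by_cases h' : s.1 ∈ P.supp
    · rw [kP (nu s) h' a]
      exact P.double s ((cP s h').1 hs) ((cP (nu s) h').1 hn) a ((kP s h' a).1 ha)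
    · rw [kQ (nu s) h' a]
      exact Q.double s ((cQ s h').1 hs) ((cQ (nu s) h').1 hn) a ((kQ s h' a).1 ha)
  · show τ ≤ (T e).card ∧ ∀ t ∈ T e, l t = lab e
    by_cases h' : e.1 ∈ P.supp
    · rw [tP e h', lP e h']
      exact P.lab_ok e ((eP e h').1 he)
    · rw [tQ e h', lQ e h']
      exact Q.lab_ok e ((eQ e h').1 he)
  · show s ∈ P.E ∪ Q.E ∨ nu s ∈ P.E ∪ Q.E ∨ nu (rho s) ∈ P.E ∪ Q.E
    by_cases h' : s.1 ∈ P.supp
    · rw [rP s h']
      exact (P.anchor s ((cP s h').1 hs)).imp (mem_union_left _)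
        (Or.imp (mem_union_left _) (mem_union_left _))
    · rw [rQ s h']
      exact (Q.anchor s ((cQ s h').1 hs)).imp (mem_union_right _)
        (Or.imp (mem_union_right _) (mem_union_right _))
  · show ∑ e ∈ P.E ∪ Q.E, cls (lab e) = ∑ e ∈ P.E, cls (P.lab e) + ∑ e ∈ Q.E, cls (Q.lab e)
    rw [sum_union (disjoint_left.2 fun s h1 h2 => hQ s (Q.E_sub h2) (hP s (P.E_sub h1)))]
    congr 1
    · exact sum_congr rfl fun e he => by rw [lP e (hP e (P.E_sub he))]
    · exact sum_congr rfl fun e he => by rw [lQ e (hQ e (Q.E_sub he))]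

/-- add a list of available classes -/
theorem exists_add_list (N : ℕ) (ls : List Gp) (h : ∀ a ∈ ls, Avail F l τ a N) (P : LPlan F l τ)
    (hN : P.supp.card + 6 * ls.length ≤ N) :
    ∃ R : LPlan F l τ, P.Cs ⊆ R.Cs ∧ R.supp.card ≤ P.supp.card + 6 * ls.length ∧
      R.cl = P.cl + ls.sum := by
  induction ls generalizing P with
  | nil => exact ⟨P, Subset.rfl, by simp, by simp⟩
  | cons a ls ih =>
    rw [List.length_cons] at hN
    obtain ⟨Q, h1, h2, h3⟩ := h a List.mem_cons_self P.supp (by omega)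
    obtain ⟨R, h4, h5⟩ := P.exists_union Q h2.symm
    have h6 : R.supp.card ≤ P.supp.card + 6 := by
      have : R.supp = P.supp ∪ Q.supp := by rw [LPlan.supp, h4, image_union]; rfl
      have h7 := card_union_le P.supp Q.supp
      rw [this]
      omega
    obtain ⟨R', h7, h8, h9⟩ := ih (fun b hb => h b (List.mem_cons_of_mem _ hb)) R (by omega)
    refine ⟨R', fun s hs => h7 (by rw [h4]; exact mem_union_left _ hs), ?_, ?_⟩
    · rw [List.length_cons]
      omega
    · rw [h9, h5, h3, List.sum_cons, add_assoc]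

end Pool.Agent.BE
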