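import Pool.Agent.Lib.MP_dd4ef3_lc.BE.Orbit
import Pool.Agent.Lib.MP_dd4ef3_lc.BE.PlanOps

set_option autoImplicit false

open Finset Classical

noncomputable section

namespace Pool.Agent.BE

variable {V C : Type} [Fintype V] [DecidableEq V] {G : Ctx V C}

variable {F : PF G} {l : Stub V → Node} {τ : ℕ}

/-- the ray behind `t` is not cut for `L` steps -/
def RzAnch (F : PF G) (L : ℕ) (Cs : Finset (Stub V)) (t : Stub V) : Prop :=
  t ∈ Cs ∧ ¬ F.loop t.1 ∧ ∀ j, j < L → (F.sig ^ j) (nu t) ∉ Cs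

def RzGood (L : ℕ) (Q : Plan F) (x : Stub V) : Prop :=
  x ∈ Q.E ∨ RzAnch F L Q.Cs x ∨ (x ∈ Q.Cs ∧ x ∉ Q.E ∧ RzAnch F L Q.Cs (Q.rho x))

def RzInv (L : ℕ) (Q : Plan F) : Prop :=
  ∀ s ∈ Q.Cs, RzGood L Q s ∨ RzGood L Q (nu s) ∨ (s ∉ Q.E ∧ RzGood L Q (nu (Q.rho s)))

/-- join two ends -/
lemma rz_close (Q : Plan F) (x y : Stub V) (hx : x ∈ Q.E) (hy : y ∈ Q.E) (hxy : x ∈ Q.T y)
    (hn : nu x ∉ Q.Cs) :
    ∃ R : Plan F, R.Cs = Q.Cs ∧ R.E = (Q.E.erase x).erase y ∧ R.T = Q.T ∧ R.rho y = x ∧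
      ∀ s, s ≠ x → s ≠ y → R.rho s = Q.rho s := by
  have hT := Q.T_ok y hy x hxy
  have hne : x ≠ y := fun h => hT.1 (by rw [h])
  let rho' : Stub V → Stub V := fun s => if s = x then y else if s = y then x else Q.rho s
  have r1 : rho' x = y := by simp [rho']
  have r2 : rho' y = x := by simp [rho', hne.symm]
  have r3 : ∀ s, s ≠ x → s ≠ y → rho' s = Q.rho s := by
    intro s h1 h2; simp [rho', h1, h2]
  have hxE : x ∉ (Q.E.erase x).erase y := by simp
  have hyE : y ∉ (Q.E.erase x).erase y := by simp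
  have hsub : (Q.E.erase x).erase y ⊆ Q.E := (erase_subset _ _).trans (erase_subset _ _)
  have hout : ∀ s, s ≠ x → s ≠ y → s ∉ (Q.E.erase x).erase y → s ∉ Q.E := by
    intro s h1 h2 h3 h4
    exact h3 (mem_erase.2 ⟨h2, mem_erase.2 ⟨h1, h4⟩⟩)
  have key : ∀ s, s ≠ x → ∀ a, colP G ((Q.E.erase x).erase y) rho' Q.T s a →
      colP G Q.E Q.rho Q.T s a := by
    intro s h1 a h
    rcases h with ⟨h2, h3⟩ | ⟨h2, h3⟩
    · exact Or.inl ⟨hsub h2, h3⟩
    · by_cases h4 : s = y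
      · subst h4
        rw [r2] at h3
        exact Or.inl ⟨hy, x, hxy, h3⟩
      · rw [r3 s h1 h4] at h3
        exact Or.inr ⟨hout s h1 h4 h2, h3⟩
  refine ⟨⟨Q.Cs, (Q.E.erase x).erase y, rho', Q.T, Q.Cs_mu, hsub.trans Q.E_sub, ?_, ?_, ?_,
    fun e he => Q.T_ok e (hsub he), ?_, ?_⟩, rfl, rfl, rfl, r2, r3⟩
  · intro s hs hsE
    by_cases h1 : s = x
    · rw [h1, r1]; exact ⟨Q.E_sub hy, hyE⟩
    by_cases h2 : s = y
    · rw [h2, r2]; exact ⟨Q.E_sub hx, hxE⟩
    rw [r3 s h1 h2]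
    have := Q.rho_mem s hs (hout s h1 h2 hsE)
    exact ⟨this.1, fun h => this.2 (hsub h)⟩
  · intro s hs hsE
    by_cases h1 : s = x
    · rw [h1, r1, r2]
    by_cases h2 : s = y
    · rw [h2, r2, r1]
    have h3 := Q.rho_mem s hs (hout s h1 h2 hsE)
    rw [r3 s h1 h2, r3 (Q.rho s) (fun h => h3.2 (by rw [h]; exact hx))
      (fun h => h3.2 (by rw [h]; exact hy))]
    exact Q.rho_rho s hs (hout s h1 h2 hsE)
  · intro s hs hsE
    by_cases h1 : s = x
    · rw [h1, r1]; exact hT.1.symm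
    by_cases h2 : s = y
    · rw [h2, r2]; exact hT.1
    rw [r3 s h1 h2]
    exact Q.rho_ne s hs (hout s h1 h2 hsE)
  · intro s hs hns a h
    by_cases h1 : s = x
    · subst h1
      rcases h with ⟨h2, _⟩ | ⟨_, h3⟩
      · exact absurd h2 hxE
      · rw [r1] at h3
        rw [← h3]
        exact hT.2
    · exact Q.single s hs hns a (key s h1 a h)
  · intro s hs hns a h h'
    have h1 : s ≠ x := fun e => hn (e ▸ hns)
    have h2 : nu s ≠ x := fun e => hn (by rw [← e, nu_nu]; exact hs)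
    exact Q.double s hs hns a (key s h1 a h) (key _ h2 a h')

lemma rz_close_inv (L : ℕ) (Q : Plan F) (x y : Stub V) (hx : x ∈ Q.E) (hy : y ∈ Q.E)
    (hxy : x ∈ Q.T y) (hn : nu x ∉ Q.Cs) (ha : RzAnch F L Q.Cs x) (hI : RzInv L Q) :
    ∃ R : Plan F, RzInv L R ∧ R.Cs = Q.Cs ∧ R.E = (Q.E.erase x).erase y ∧ R.T = Q.T := by
  obtain ⟨R, h1, h2, h3, h4, h5⟩ := rz_close Q x y hx hy hxy hn
  have hsub : ∀ s, s ∉ Q.E → s ∉ R.E ∧ R.rho s = Q.rho s := by
    intro s hs
    refine ⟨fun h => hs ?_, h5 s (fun e => hs (e ▸ hx)) (fun e => hs (e ▸ hy))⟩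
    rw [h2] at h
    exact mem_of_mem_erase (mem_of_mem_erase h)
  have hg : ∀ z, RzGood L Q z → RzGood L R z := by
    intro z hz
    unfold RzGood
    rw [h1]
    rcases hz with hz | hz | ⟨z1, z2, z3⟩
    · by_cases e1 : z = x
      · exact Or.inr (Or.inl (e1 ▸ ha))
      by_cases e2 : z = y
      · refine Or.inr (Or.inr ⟨Q.E_sub hz, ?_, ?_⟩)
        · rw [h2, e2]; simp
        · rw [e2, h4]; exact ha
      · left
        rw [h2]
        exact mem_erase.2 ⟨e2, mem_erase.2 ⟨e1, hz⟩⟩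
    · exact Or.inr (Or.inl hz)
    · refine Or.inr (Or.inr ⟨z1, (hsub z z2).1, ?_⟩)
      rw [(hsub z z2).2]; exact z3
  refine ⟨R, ?_, h1, h2, h3⟩
  intro s hs
  rw [h1] at hs
  rcases hI s hs with h | h | ⟨h, h'⟩
  · exact Or.inl (hg _ h)
  · exact Or.inr (Or.inl (hg _ h))
  · refine Or.inr (Or.inr ⟨(hsub s h).1, ?_⟩)
    rw [(hsub s h).2]
    exact hg _ h'

/-- cut a new pair; both stubs become ends -/
lemma rz_cut (Q : Plan F) (u : Stub V) (A : Finset (Stub V)) (h1 : ∀ s ∈ Q.Cs, s.1 ≠ u.1)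
    (h2 : ∀ s ∈ Q.Cs, s.1 ≠ (F.mu u).1) (hl : ¬ F.loop u.1) (hA : ∀ a ∈ A, F.adj u a) :
    ∃ R : Plan F, R.Cs = insert (F.mu u) (insert u Q.Cs) ∧
      R.E = insert (F.mu u) (insert u Q.E) ∧ R.rho = Q.rho ∧ R.T u = A ∧
      ∀ s ∈ Q.Cs, R.T s = Q.T s := by
  have hv : (F.mu u).1 ≠ u.1 := F.ne_of_not_loop hl
  have n1 : ∀ s ∈ Q.Cs, s ≠ u := fun s hs e => h1 s hs (by rw [e])
  have n2 : ∀ s ∈ Q.Cs, s ≠ F.mu u := fun s hs e => h2 s hs (by rw [e])
  let T' : Stub V → Finset (Stub V) :=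
    fun s => if s = u then A else if s = F.mu u then ∅ else Q.T s
  have t1 : T' u = A := by simp [T']
  have t2 : T' (F.mu u) = ∅ := by simp [T', F.mu_ne u]
  have t3 : ∀ s ∈ Q.Cs, T' s = Q.T s := by
    intro s hs; simp [T', n1 s hs, n2 s hs]
  have hE : ∀ s ∈ Q.Cs, s ∈ insert (F.mu u) (insert u Q.E) ↔ s ∈ Q.E := by
    intro s hs; simp [n1 s hs, n2 s hs]
  have hold : ∀ s ∈ insert (F.mu u) (insert u Q.Cs), s ∉ insert (F.mu u) (insert u Q.E) →
      s ∈ Q.Cs ∧ s ∉ Q.E := by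
    intro s hs hsE
    simp only [mem_insert, not_or] at hs hsE
    rcases hs with h | h | h
    · exact absurd h hsE.1
    · exact absurd h hsE.2.1
    · exact ⟨h, hsE.2.2⟩
  have key : ∀ s ∈ Q.Cs, ∀ a, colP G (insert (F.mu u) (insert u Q.E)) Q.rho T' s a →
      colP G Q.E Q.rho Q.T s a := by
    intro s hs a h
    unfold colP at h ⊢
    rw [hE s hs, t3 s hs] at h
    exact h
  refine ⟨⟨insert (F.mu u) (insert u Q.Cs), insert (F.mu u) (insert u Q.E), Q.rho, T', ?_,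
    insert_subset_insert _ (insert_subset_insert _ Q.E_sub), ?_, ?_, ?_, ?_, ?_, ?_⟩,
    rfl, rfl, rfl, t1, t3⟩
  · intro s hs
    simp only [mem_insert] at hs ⊢
    rcases hs with h | h | h
    · right; left; rw [h, F.mu_mu]
    · left; rw [h]
    · right; right; exact Q.Cs_mu s h
  · intro s hs hsE
    obtain ⟨a1, a2⟩ := hold s hs hsE
    have := Q.rho_mem s a1 a2
    exact ⟨mem_insert_of_mem (mem_insert_of_mem this.1), fun h => this.2 ((hE _ this.1).1 h)⟩
  · intro s hs hsE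
    obtain ⟨a1, a2⟩ := hold s hs hsE
    exact Q.rho_rho s a1 a2
  · intro s hs hsE
    obtain ⟨a1, a2⟩ := hold s hs hsE
    exact Q.rho_ne s a1 a2
  · intro e he t ht
    simp only [mem_insert] at he
    rcases he with h | h | h
    · rw [h, t2] at ht; simp at ht
    · rw [h, t1] at ht
      rw [h]
      exact ⟨(hA t ht).1.symm, (hA t ht).2.2⟩
    · rw [t3 e (Q.E_sub h)] at ht
      exact Q.T_ok e h t ht
  · intro s hs hns a h
    simp only [mem_insert] at hs
    rcases hs with e | e | e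
    · rcases h with ⟨_, t, ht, _⟩ | ⟨h3, _⟩
      · rw [e, t2] at ht; simp at ht
      · exact absurd (by rw [e]; exact mem_insert_self _ _) h3
    · rcases h with ⟨_, t, ht, h4⟩ | ⟨h3, _⟩
      · rw [e, t1] at ht
        rw [← h4, e]
        exact (hA t ht).2.1
      · exact absurd (by rw [e]; exact mem_insert_of_mem (mem_insert_self _ _)) h3
    · exact Q.single s e (fun h' => hns (mem_insert_of_mem (mem_insert_of_mem h'))) a
        (key s e a h)
  · intro s hs hns a h h'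
    simp only [mem_insert] at hs hns
    rcases hs with e | e | e
    · rcases hns with e' | e' | e'
      · exact nu_ne s (e'.trans e.symm)
      · exact hv (by rw [← e, ← e', nu_fst])
      · exact h2 _ e' (by rw [nu_fst, e])
    · rcases hns with e' | e' | e'
      · exact hv (by rw [← e', ← e, nu_fst])
      · exact nu_ne s (e'.trans e.symm)
      · exact h1 _ e' (by rw [nu_fst, e])
    · rcases hns with e' | e' | e'
      · exact h2 s e (by rw [← e', nu_fst])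
      · exact h1 s e (by rw [← e', nu_fst])
      · exact Q.double s e e' a (key s e a h) (key _ e' a h')

lemma rz_near {L j : ℕ} (hj : j < L) (t : Stub V) :
    F.Near L t.1 ((F.sig ^ j) (nu t)).1 := ⟨!t.2, j, by omega, rfl⟩

lemma rz_anch_new {L : ℕ} (hper : F.Per L) (Cs : Finset (Stub V)) (t : Stub V)
    (hl : ¬ F.loop t.1) (h : ∀ s ∈ Cs, ¬ F.Near L s.1 t.1) (j : ℕ) (hj : j < L) :
    (F.sig ^ j) (nu t) ≠ t ∧ (F.sig ^ j) (nu t) ≠ F.mu t ∧ (F.sig ^ j) (nu t) ∉ Cs := by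
  refine ⟨?_, ?_, ?_⟩
  · have := F.sig_pow_ne_nu j (nu t)
    rwa [nu_nu] at this
  · intro e
    apply hper (nu t) hl (j + 1) (by omega) (by omega)
    rw [pow_succ', Equiv.Perm.mul_apply, e, PF.sig_apply, F.mu_mu]
  · intro e
    exact h _ e (F.near_symm (rz_near hj t))

/-- move the end `e` along the pair of `u` -/
lemma rz_ext {L : ℕ} (hper : F.Per L) (Q : Plan F) (e u : Stub V) (A : Finset (Stub V))
    (he : e ∈ Q.E) (hu : F.mu u ∈ Q.T e) (hav : F.Avoid L (Q.Cs.image Prod.fst) u)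
    (hA : ∀ a ∈ A, F.adj u a) (hI : RzInv L Q) :
    ∃ R : Plan F, RzInv L R ∧ R.Cs = insert (F.mu u) (insert u Q.Cs) ∧
      R.E = insert u (Q.E.erase e) ∧ R.T u = A ∧ (∀ s ∈ Q.Cs, R.T s = Q.T s) ∧
      RzAnch F L R.Cs u ∧ nu u ∉ R.Cs ∧ u ∉ Q.Cs := by
  obtain ⟨hl, hav⟩ := hav
  have f1 : ∀ s ∈ Q.Cs, ¬ F.Near L s.1 u.1 := fun s hs => (hav _ (mem_image_of_mem _ hs)).1
  have f2 : ∀ s ∈ Q.Cs, ¬ F.Near L s.1 (F.mu u).1 :=
    fun s hs => (hav _ (mem_image_of_mem _ hs)).2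
  have h1 : ∀ s ∈ Q.Cs, s.1 ≠ u.1 := fun s hs e => f1 s hs (e ▸ F.near_refl L s.1)
  have h2 : ∀ s ∈ Q.Cs, s.1 ≠ (F.mu u).1 := fun s hs e => f2 s hs (e ▸ F.near_refl L s.1)
  have hv : (F.mu u).1 ≠ u.1 := F.ne_of_not_loop hl
  have hl' : ¬ F.loop (F.mu u).1 := fun h => hl ((F.loop_mu_iff u).1 h)
  have n1 : ∀ s ∈ Q.Cs, s ≠ u := fun s hs e => h1 s hs (by rw [e])
  have n2 : ∀ s ∈ Q.Cs, s ≠ F.mu u := fun s hs e => h2 s hs (by rw [e])
  obtain ⟨R, c1, c2, c3, c4, c5⟩ := rz_cut Q u A h1 h2 hl hA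
  have a1 : RzAnch F L R.Cs u := by
    rw [c1]
    refine ⟨mem_insert_of_mem (mem_insert_self _ _), hl, fun j hj h => ?_⟩
    obtain ⟨b1, b2, b3⟩ := rz_anch_new hper Q.Cs u hl f1 j hj
    simp only [mem_insert] at h
    rcases h with h | h | h
    exacts [b2 h, b1 h, b3 h]
  have a2 : RzAnch F L R.Cs (F.mu u) := by
    rw [c1]
    refine ⟨mem_insert_self _ _, hl', fun j hj h => ?_⟩
    obtain ⟨b1, b2, b3⟩ := rz_anch_new hper Q.Cs (F.mu u) hl' f2 j hj
    rw [F.mu_mu] at b2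
    simp only [mem_insert] at h
    rcases h with h | h | h
    exacts [b1 h, b2 h, b3 h]
  have am : ∀ x, RzAnch F L Q.Cs x → RzAnch F L R.Cs x := by
    intro x ⟨x1, x2, x3⟩
    rw [c1]
    refine ⟨mem_insert_of_mem (mem_insert_of_mem x1), x2, fun j hj h => ?_⟩
    simp only [mem_insert] at h
    rcases h with h | h | h
    · exact f2 x x1 (h ▸ rz_near hj x)
    · exact f1 x x1 (h ▸ rz_near hj x)
    · exact x3 j hj h
  have hE : ∀ s ∈ Q.Cs, s ∉ Q.E → s ∉ R.E := by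
    intro s hs hsE
    rw [c2]; simp [n1 s hs, n2 s hs, hsE]
  have hg : ∀ z, RzGood L Q z → RzGood L R z := by
    intro z hz
    rcases hz with hz | hz | ⟨z1, z2, z3⟩
    · left; rw [c2]; exact mem_insert_of_mem (mem_insert_of_mem hz)
    · exact Or.inr (Or.inl (am z hz))
    · refine Or.inr (Or.inr ⟨?_, hE z z1 z2, ?_⟩)
      · rw [c1]; exact mem_insert_of_mem (mem_insert_of_mem z1)
      · rw [c3]; exact am _ z3
  have hIR : RzInv L R := by
    intro s hs
    rw [c1] at hs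
    simp only [mem_insert] at hs
    rcases hs with h | h | h
    · exact Or.inl (Or.inr (Or.inl (h ▸ a2)))
    · exact Or.inl (Or.inr (Or.inl (h ▸ a1)))
    · rcases hI s h with g | g | ⟨g, g'⟩
      · exact Or.inl (hg _ g)
      · exact Or.inr (Or.inl (hg _ g))
      · refine Or.inr (Or.inr ⟨hE s h g, ?_⟩)
        rw [c3]; exact hg _ g'
  have m1 : nu (F.mu u) ∉ R.Cs := by
    rw [c1]
    simp only [mem_insert, not_or]
    refine ⟨nu_ne _, fun h => hv (by rw [← h, nu_fst, h]), fun h => h2 _ h rfl⟩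
  have m2 : nu u ∉ R.Cs := by
    rw [c1]
    simp only [mem_insert, not_or]
    refine ⟨fun h => hv (by rw [← h, nu_fst]), nu_ne _, fun h => h1 _ h rfl⟩
  have heC : e ∈ Q.Cs := Q.E_sub he
  obtain ⟨R', d0, d1, d2, d3⟩ := rz_close_inv L R (F.mu u) e
    (by rw [c2]; exact mem_insert_self _ _)
    (by rw [c2]; exact mem_insert_of_mem (mem_insert_of_mem he))
    (by rw [c5 e heC]; exact hu) m1 a2 hIR
  refine ⟨R', d0, d1.trans c1, ?_, by rw [d3, c4], fun s hs => by rw [d3, c5 s hs],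
    by rw [d1]; exact a1, by rw [d1]; exact m2, fun h => n1 u h rfl⟩
  rw [d2, c2, erase_insert, erase_insert_of_ne (n1 e heC).symm]
  simp only [mem_insert, not_or]
  exact ⟨F.mu_ne u, fun h => n2 _ (Q.E_sub h) rfl⟩

/-- join two ends by a spaced walk -/
lemma rz_walk {L : ℕ} (hper : F.Per L) (r : ℕ) :
    ∀ (Q : Plan F) (e1 e2 : Stub V) (w : ℕ → Stub V), RzInv L Q → e1 ∈ Q.E → e2 ∈ Q.E →
      e1 ≠ e2 → F.mu (w 0) ∈ Q.T e1 → w r ∈ Q.T e2 →
      (∀ j, j < r → F.adj (w j) (F.mu (w (j + 1)))) →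
      (∀ i j, i < j → j ≤ r → F.FarPair L (w i) (w j)) →
      (∀ j, j ≤ r → F.Avoid L (Q.Cs.image Prod.fst) (w j)) →
      ∃ R : Plan F, RzInv L R ∧ Q.Cs ⊆ R.Cs ∧ R.Cs.card ≤ Q.Cs.card + 2 * (r + 1) ∧
        R.E = (Q.E.erase e1).erase e2 ∧ ∀ s ∈ Q.Cs, R.T s = Q.T s := by
  induction r with
  | zero =>
    intro Q e1 e2 w hI h1 h2 hne w0 wr _ _ hav
    obtain ⟨R, c0, c1, c2, _, c4, c5, c6, c7⟩ :=
      rz_ext hper Q e1 (w 0) ∅ h1 w0 (hav 0 le_rfl) (by simp) hI
    obtain ⟨R', d0, d1, d2, d3⟩ := rz_close_inv L R (w 0) e2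
      (by rw [c2]; exact mem_insert_self _ _)
      (by rw [c2]; exact mem_insert_of_mem (mem_erase.2 ⟨hne.symm, h2⟩))
      (by rw [c4 e2 (Q.E_sub h2)]; exact wr) c6 c5 c0
    refine ⟨R', d0, ?_, ?_, ?_, fun s hs => by rw [d3, c4 s hs]⟩
    · rw [d1, c1]; exact (subset_insert _ _).trans (subset_insert _ _)
    · rw [d1, c1]
      have := card_insert_le (F.mu (w 0)) (insert (w 0) Q.Cs)
      have := card_insert_le (w 0) Q.Cs
      omega
    · rw [d2, c2, erase_insert (fun h => c7 (Q.E_sub (mem_of_mem_erase h)))]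
  | succ r ih =>
    intro Q e1 e2 w hI h1 h2 hne w0 wr hadj hfar hav
    obtain ⟨R, c0, c1, c2, c3, c4, _, _, c7⟩ :=
      rz_ext hper Q e1 (w 0) {F.mu (w 1)} h1 w0 (hav 0 (by omega))
        (by intro a ha; rw [mem_singleton.1 ha]; exact hadj 0 (by omega)) hI
    have hsub : Q.Cs ⊆ R.Cs := by
      rw [c1]; exact (subset_insert _ _).trans (subset_insert _ _)
    obtain ⟨R', d0, d1, d2, d3, d4⟩ := ih R (w 0) e2 (fun j => w (j + 1)) c0
      (by rw [c2]; exact mem_insert_self _ _)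
      (by rw [c2]; exact mem_insert_of_mem (mem_erase.2 ⟨hne.symm, h2⟩))
      (fun h => c7 (h ▸ Q.E_sub h2))
      (by rw [c3]; exact mem_singleton_self _)
      (by rw [c4 e2 (Q.E_sub h2)]; exact wr)
      (fun j hj => hadj (j + 1) (by omega))
      (fun i j hij hj => hfar (i + 1) (j + 1) (by omega) (by omega))
      (by
        intro j hj
        obtain ⟨b1, b2⟩ := hav (j + 1) (by omega)
        obtain ⟨g1, g2, g3, g4⟩ := hfar 0 (j + 1) (by omega) (by omega)
        refine ⟨b1, fun v hv => ?_⟩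
        obtain ⟨s, hs, rfl⟩ := mem_image.1 hv
        rw [c1] at hs
        simp only [mem_insert] at hs
        rcases hs with h | h | h
        · rw [h]; exact ⟨g3, g4⟩
        · rw [h]; exact ⟨g1, g2⟩
        · exact b2 _ (mem_image_of_mem _ h))
    refine ⟨R', d0, hsub.trans d1, ?_, ?_, fun s hs => by rw [d4 s (hsub hs), c4 s hs]⟩
    · rw [c1] at d2
      have := card_insert_le (F.mu (w 0)) (insert (w 0) Q.Cs)
      have := card_insert_le (w 0) Q.Cs
      omega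
    · rw [d3, c2, erase_insert (fun h => c7 (Q.E_sub (mem_of_mem_erase h)))]

/-- a balanced non-empty set of ends holds two mirror ends -/
lemma rz_pair {α : Type} [DecidableEq α] (E : Finset α) (lab : α → Node) (sm : Bool)
    (hne : E.Nonempty) (hev : Even E.card) (hb : Balanced sm (∑ e ∈ E, cls (lab e)))
    (hsm : sm = true → ∀ e ∈ E, lab e ≠ .Xb) :
    ∃ e1 ∈ E, ∃ e2 ∈ E, e1 ≠ e2 ∧ lab e2 = mir sm (lab e1) ∧
      Balanced sm (∑ e ∈ (E.erase e1).erase e2, cls (lab e)) := by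
  have two : ∀ K, 1 < (E.filter (fun e => lab e = K)).card →
      ∃ e1 ∈ E, ∃ e2 ∈ E, e1 ≠ e2 ∧ lab e1 = K ∧ lab e2 = K := by
    intro K h
    obtain ⟨a, ha, b, hb', hab⟩ := one_lt_card.1 h
    exact ⟨a, (mem_filter.1 ha).1, b, (mem_filter.1 hb').1, hab, (mem_filter.1 ha).2,
      (mem_filter.1 hb').2⟩
  have one : ∀ K, 0 < (E.filter (fun e => lab e = K)).card → ∃ e ∈ E, lab e = K := by
    intro K h
    obtain ⟨a, ha⟩ := card_pos.1 h
    exact ⟨a, (mem_filter.1 ha).1, (mem_filter.1 ha).2⟩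
  have s1 : (∑ e ∈ E, cls (lab e)).2.1 = ((E.filter (fun e => lab e = .Z1)).card : ZMod 2) := by
    rw [Prod.snd_sum, Prod.fst_sum, card_filter]
    push_cast
    refine sum_congr rfl (fun e _ => ?_)
    cases lab e <;> simp [cls]
  have s2 : (∑ e ∈ E, cls (lab e)).2.2 = ((E.filter (fun e => lab e = .Z2)).card : ZMod 2) := by
    rw [Prod.snd_sum, Prod.snd_sum, card_filter]
    push_cast
    refine sum_congr rfl (fun e _ => ?_)
    cases lab e <;> simp [cls]
  have s3 : (∑ e ∈ E, cls (lab e)).1 = ((E.filter (fun e => lab e = .X)).card : ℤ) -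
      ((E.filter (fun e => lab e = .Xb)).card : ℤ) := by
    rw [Prod.fst_sum, card_filter, card_filter]
    push_cast
    rw [← sum_sub_distrib]
    refine sum_congr rfl (fun e _ => ?_)
    cases lab e <;> simp [cls]
  have s4 : E.card = (E.filter (fun e => lab e = .X)).card +
      (E.filter (fun e => lab e = .Xb)).card + (E.filter (fun e => lab e = .Z1)).card +
      (E.filter (fun e => lab e = .Z2)).card := by
    rw [card_filter, card_filter, card_filter, card_filter, ← sum_add_distrib, ← sum_add_distrib,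
      ← sum_add_distrib, card_eq_sum_ones]
    refine sum_congr rfl (fun e _ => ?_)
    cases lab e <;> simp
  have z1 : Even (E.filter (fun e => lab e = .Z1)).card := by
    rw [← ZMod.natCast_eq_zero_iff_even, ← s1, hb.1]; rfl
  have z2 : Even (E.filter (fun e => lab e = .Z2)).card := by
    rw [← ZMod.natCast_eq_zero_iff_even, ← s2, hb.1]; rfl
  have hpos : 0 < E.card := card_pos.2 hne
  have rest : ∀ e1 ∈ E, ∀ e2 ∈ E, e1 ≠ e2 → Balanced sm (cls (lab e1) + cls (lab e2)) →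
      Balanced sm (∑ e ∈ (E.erase e1).erase e2, cls (lab e)) := by
    intro e1 h1 e2 h2 h12 hb'
    have q1 := add_sum_erase E (fun e => cls (lab e)) h1
    have q2 := add_sum_erase (E.erase e1) (fun e => cls (lab e)) (mem_erase.2 ⟨h12.symm, h2⟩)
    have q : ∑ e ∈ (E.erase e1).erase e2, cls (lab e) =
        ∑ e ∈ E, cls (lab e) - (cls (lab e1) + cls (lab e2)) := by
      rw [← q1, ← q2]; abel
    rw [q]
    refine ⟨by rw [Prod.snd_sub, hb.1, hb'.1, sub_zero], ?_⟩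
    rcases hb.2 with h | h
    · exact Or.inl h
    rcases hb'.2 with h' | h'
    · exact Or.inl h'
    · right; rw [Prod.fst_sub, h, h', sub_zero]
  obtain ⟨a1, ha1⟩ := z1
  obtain ⟨a2, ha2⟩ := z2
  obtain ⟨a0, ha0⟩ := hev
  by_cases c1 : 0 < a1
  · obtain ⟨e1, h1, e2, h2, h12, k1, k2⟩ := two .Z1 (by omega)
    refine ⟨e1, h1, e2, h2, h12, by rw [k1, k2]; rfl, rest e1 h1 e2 h2 h12 ?_⟩
    rw [k1, k2]
    exact ⟨by decide, Or.inr rfl⟩
  by_cases c2 : 0 < a2
  · obtain ⟨e1, h1, e2, h2, h12, k1, k2⟩ := two .Z2 (by omega)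
    refine ⟨e1, h1, e2, h2, h12, by rw [k1, k2]; rfl, rest e1 h1 e2 h2 h12 ?_⟩
    rw [k1, k2]
    exact ⟨by decide, Or.inr rfl⟩
  cases sm with
  | true =>
    have z : (E.filter (fun e => lab e = .Xb)).card = 0 := by
      rw [card_eq_zero, filter_eq_empty_iff]
      exact fun e he => hsm rfl e he
    obtain ⟨e1, h1, e2, h2, h12, k1, k2⟩ := two .X (by omega)
    refine ⟨e1, h1, e2, h2, h12, by rw [k1, k2]; rfl, rest e1 h1 e2 h2 h12 ?_⟩
    rw [k1, k2]
    exact ⟨by decide, Or.inl rfl⟩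
  | false =>
    have z : (∑ e ∈ E, cls (lab e)).1 = 0 := by
      rcases hb.2 with h | h
      · exact absurd h (by simp)
      · exact h
    rw [s3] at z
    obtain ⟨e1, h1, k1⟩ := one .X (by omega)
    obtain ⟨e2, h2, k2⟩ := one .Xb (by omega)
    have h12 : e1 ≠ e2 := by
      intro h; rw [h, k2] at k1; exact absurd k1 (by decide)
    refine ⟨e1, h1, e2, h2, h12, by rw [k1, k2]; rfl, rest e1 h1 e2 h2 h12 ?_⟩
    rw [k1, k2]
    exact ⟨by decide, Or.inr rfl⟩

lemma rz_all (lab : Stub V → Node) (sm : Bool) (L k β : ℕ) (hτ : 0 < τ)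
    (hsm : sm = true → ∀ s, l s ≠ .Xb) (hW : F.Walks l sm τ L k β) (hper : F.Per L) (n : ℕ) :
    ∀ Q : Plan F, Q.E.card ≤ n → RzInv L Q →
      (∀ e ∈ Q.E, τ ≤ (Q.T e).card ∧ ∀ t ∈ Q.T e, l t = lab e) →
      Balanced sm (∑ e ∈ Q.E, cls (lab e)) → Q.Cs.card + Q.E.card * k ≤ β →
      ∃ R : Plan F, RzInv L R ∧ R.E = ∅ ∧ Q.Cs ⊆ R.Cs := by
  induction n with
  | zero =>
    intro Q hn hI _ _ _
    exact ⟨Q, hI, card_eq_zero.1 (by omega), subset_rfl⟩
  | succ n ih =>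
    intro Q hn hI hlab hb hβ
    rcases Q.E.eq_empty_or_nonempty with h0 | h0
    · exact ⟨Q, hI, h0, subset_rfl⟩
    obtain ⟨e1, h1, e2, h2, h12, hm, hb'⟩ := rz_pair Q.E lab sm h0 Q.even_E hb (by
      intro h e he
      obtain ⟨t, ht⟩ := card_pos.1 (lt_of_lt_of_le hτ (hlab e he).1)
      rw [← (hlab e he).2 t ht]
      exact hsm h t)
    obtain ⟨r, w, hr, w0, wr, hadj, hfar, hav⟩ := hW (lab e1) (Q.T e1) (Q.T e2) (hlab e1 h1).2
      (fun t ht => ((hlab e2 h2).2 t ht).trans hm) (hlab e1 h1).1 (hlab e2 h2).1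
      (Q.Cs.image Prod.fst) (card_image_le.trans (by omega))
    obtain ⟨R, d0, d1, d2, d3, d4⟩ := rz_walk hper r Q e1 e2 w hI h1 h2 h12 w0 wr hadj hfar hav
    have hsub : R.E ⊆ Q.E := by
      rw [d3]; exact (erase_subset _ _).trans (erase_subset _ _)
    have hc : R.E.card + 2 = Q.E.card := by
      have q1 := card_erase_add_one h1
      have q2 := card_erase_add_one (mem_erase.2 ⟨h12.symm, h2⟩ : e2 ∈ Q.E.erase e1)
      rw [d3]; omega
    obtain ⟨R', g0, g1, g2⟩ := ih R (by omega) d0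
      (fun e he => by rw [d4 e (Q.E_sub (hsub he))]; exact hlab e (hsub he))
      (by rw [d3]; exact hb')
      (by
        rw [← hc, add_mul] at hβ
        omega)
    exact ⟨R', g0, g1, d1.trans g2⟩

theorem realize (P : LPlan F l τ) (sm : Bool) (L k β : ℕ) (hτ : 0 < τ)
    (hbal : Balanced sm P.cl) (hsm : sm = true → ∀ s, l s ≠ .Xb)
    (hW : F.Walks l sm τ L k β) (hβ : P.Cs.card + P.E.card * k ≤ β) (hper : F.Per L) :
    ∃ F' : PF G, F.Improves F' ∧ (∀ s ∈ P.Cs, F'.real s) ∧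
      ∀ v, L < (F'.comp v).card ∨ F'.comp v = F.comp v := by
  have hI : RzInv L P.toPlan := by
    intro s hs
    by_cases h0 : s ∈ P.E
    · exact Or.inl (Or.inl h0)
    rcases P.anchor s hs with h | h | h
    · exact absurd h h0
    · exact Or.inr (Or.inl (Or.inl h))
    · exact Or.inr (Or.inr ⟨h0, Or.inl h⟩)
  obtain ⟨R, r0, r1, r2⟩ := rz_all P.lab sm L k β hτ hsm hW hper _ P.toPlan le_rfl hI P.lab_ok
    hbal hβ
  obtain ⟨F', f1, f2⟩ := R.exists_apply r1
  have hanch : ∀ v t, F'.Conn v t.1 → RzAnch F L R.Cs t → L < (F'.comp v).card := by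
    intro v t hv ⟨_, t2, t3⟩
    have hc : ∀ j, j ≤ L → F'.Conn v ((F.sig ^ j) (nu t)).1 := by
      intro j
      induction j with
      | zero => intro _; simpa using hv
      | succ j ih =>
        intro hj
        refine F'.conn_trans (ih (by omega)) ?_
        have := F'.conn_mu ((F.sig ^ j) (nu t))
        rw [(f2 _ (t3 j (by omega))).1] at this
        rw [pow_succ', Equiv.Perm.mul_apply, PF.sig_apply, nu_fst]
        exact this
    have := card_le_card_of_injOn (s := range (L + 1)) (t := F'.comp v)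
      (fun j => ((F.sig ^ j) (nu t)).1)
      (fun j hj => by
        have := mem_range.1 (mem_coe.1 hj)
        exact mem_coe.2 (F'.mem_comp.2 (hc j (by omega))))
      (fun i hi j hj e => by
        have h1 := mem_range.1 (mem_coe.1 hi)
        have h2 := mem_range.1 (mem_coe.1 hj)
        exact F.ray_inj (L := L) (hper (nu t) t2) (by omega) (by omega) e)
    rw [card_range] at this
    omega
  have hrho : ∀ v s, s ∈ R.Cs → F'.Conn v s.1 → F'.Conn v (R.rho s).1 := by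
    intro v s hs hv
    have := F'.conn_mu s
    rw [(f1 s hs).1] at this
    exact F'.conn_trans hv this
  have hgood : ∀ v x, F'.Conn v x.1 → RzGood L R x → L < (F'.comp v).card := by
    intro v x hv hx
    rcases hx with h | h | ⟨h, _, h'⟩
    · rw [r1] at h; simp at h
    · exact hanch v x hv h
    · exact hanch v _ (hrho v x h hv) h'
  refine ⟨F', ⟨?_, ?_⟩, fun s hs => (f1 s (r2 hs)).2, fun v => ?_⟩
  · intro s hs
    by_cases h : s ∈ R.Cs
    · exact (f1 s h).2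
    · exact (f2 s h).2.2 hs
  · intro s hs
    by_cases h : s ∈ R.Cs
    · exact absurd (f1 s h).2 hs
    · exact (f2 s h).1
  by_cases hc : ∃ s ∈ R.Cs, F'.Conn v s.1
  · left
    obtain ⟨s, hs, hv⟩ := hc
    rcases r0 s hs with h | h | ⟨_, h⟩
    · exact hgood v s hv h
    · exact hgood v (nu s) hv h
    · exact hgood v (nu (R.rho s)) (hrho v s hs hv) h
  · right
    have hm : ∀ s : Stub V, s.1 ∈ F'.comp v → F'.mu s = F.mu s :=
      fun s hs => (f2 s (fun h => hc ⟨s, h, F'.mem_comp.1 hs⟩)).1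
    have h1 : F.comp v ⊆ F'.comp v := by
      intro w hw
      refine F.conn_closed (W := F'.comp v) (fun s hs => ?_) (F'.mem_comp.2 (F'.conn_refl v))
        (F.mem_comp.1 hw)
      rw [← hm s hs]
      exact F'.comp_closed v s hs
    refine Subset.antisymm (fun w hw => ?_) h1
    refine F'.conn_closed (W := F.comp v) (fun s hs => ?_) (F.mem_comp.2 (F.conn_refl v))
      (F'.mem_comp.1 hw)
    rw [hm s (h1 hs)]
    exact F.comp_closed v s hs

end Pool.Agent.BE
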