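import Pool.Agent.Lib.MP_dd4ef3_lc.BE.Bc
import Pool.Agent.Lib.MP_dd4ef3_lc.BE.Gap
import Pool.Agent.Lib.MP_dd4ef3_lc.BE.Reach
import Pool.Agent.Lib.MP_dd4ef3_lc.BE.Realize

set_option autoImplicit false

open Finset Classical Filter

noncomputable section

namespace Pool.Agent.BE

variable {I : ℕ → Inst}

lemma nsfin_mono {V C : Type} [Fintype V] [DecidableEq V] {G : Ctx V C} {F : PF G}
    {l : Stub V → Node} {K K' : Node} {θ ζ ζ' : ℕ} (h : ζ' ≤ ζ) (hN : F.NSfin l K K' θ ζ) :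
    F.NSfin l K K' θ ζ' := fun A hA => hN A (hA.trans h)

/-- uniform non-splitting for all four nodes -/
lemma ns_unif_all (hI : Grow I) {l : Lab I} {sm : Bool} (h : ∀ K, NSlim I l K (mir sm K)) (k : ℕ)
    (hk : 0 < k) : ∃ k' : ℕ, 0 < k' ∧ ∀ᶠ i in UF, ∀ K,
      (I i).F.NSfin (l i) K (mir sm K) ((I i).n / k) ((I i).n ^ 2 / k') := by
  choose f hf1 hf2 using fun K => ns_unif hI (h K) k hk
  refine ⟨∏ K, f K, prod_pos (fun K _ => hf1 K), ?_⟩
  rw [eventually_all]
  intro K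
  filter_upwards [hf2 K] with i hi
  refine nsfin_mono (Nat.div_le_div_left ?_ (hf1 K)) hi
  exact Nat.le_of_dvd (prod_pos (fun K _ => hf1 K)) (dvd_prod_of_mem f (mem_univ K))

lemma arith_leak (n k' : ℕ) (hk : 0 < k') :
    2 * n * (n / (4 * k') + n / (4 * k')) ≤ n ^ 2 / k' := by
  rw [Nat.le_div_iff_mul_le hk]
  have := Nat.div_mul_le_self n (4 * k')
  nlinarith

lemma arith_layers (n k' : ℕ) (hk : 0 < k') : 2 * n < (8 * k' + 1) * (n / (4 * k') + 1) := by
  have := Nat.lt_div_mul_add (a := n) (b := 4 * k') (by omega)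
  nlinarith

lemma lt_div_of_null (hI : Grow I) {f : ℕ → ℕ} (hf : Null I f) (k : ℕ) (hk : 0 < k) :
    ∀ᶠ i in UF, f i < (I i).n / k := by
  filter_upwards [(null_iff hI).1 (hf.add (null_const hI 1)) k] with i hi
  have : f i + 1 ≤ (I i).n / k := by
    rw [Nat.le_div_iff_mul_le hk]; simpa [mul_comm] using hi
  omega

theorem insertion : ∃ k : ℕ, 0 < k ∧ ∀ (J : Inst) (L : ℕ), k ≤ J.n → k * J.F.loops.card ≤ J.n →
    k * L ≤ J.n → J.F.Per L → (∃ s, ¬ J.F.real s) →
    ∃ F' : PF J.G, J.F.Improves F' ∧ (∃ s, ¬ J.F.real s ∧ F'.real s) ∧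
      ∀ v, L < (F'.comp v).card ∨ F'.comp v = J.F.comp v := by
  by_contra hc
  have hc' : ∀ i : ℕ, ∃ (J : Inst) (L : ℕ), i + 1 ≤ J.n ∧ (i + 1) * J.F.loops.card ≤ J.n ∧
      (i + 1) * L ≤ J.n ∧ J.F.Per L ∧ (∃ s, ¬ J.F.real s) ∧
      ¬ ∃ F' : PF J.G, J.F.Improves F' ∧ (∃ s, ¬ J.F.real s ∧ F'.real s) ∧
        ∀ v, L < (F'.comp v).card ∨ F'.comp v = J.F.comp v := by
    intro i
    by_contra h
    apply hc
    refine ⟨i + 1, by omega, fun J L h1 h2 h3 h4 h5 => ?_⟩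
    by_contra h6
    exact h ⟨J, L, h1, h2, h3, h4, h5, h6⟩
  choose I L h1 h2 h3 h4 h5 h6 using hc'
  have hI : Grow I := fun i => by have := h1 i; omega
  have hev : ∀ k : ℕ, ∀ᶠ i in UF, k ≤ i + 1 := fun k =>
    (Filter.eventually_ge_atTop k).filter_mono
      (le_trans Filter.hyperfilter_le_cofinite Nat.cofinite_eq_atTop.le) |>.mono
      (fun i hi => by omega)
  have hl : Null I (fun i => (I i).F.loops.card) := (null_iff hI).2 (fun k => by
    filter_upwards [hev k] with i hi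
    exact (Nat.mul_le_mul_right _ hi).trans (h2 i))
  have hL : Null I L := (null_iff hI).2 (fun k => by
    filter_upwards [hev k] with i hi
    exact (Nat.mul_le_mul_right _ hi).trans (h3 i))
  obtain ⟨sm, l, k0, hS⟩ := structure_thm hI hl
  obtain ⟨Kc, hKc, hplan⟩ := exists_balanced_plan
  have hk0 := hS.pos
  set kt := 18 * Kc * k0 with hkt
  have hkt0 : 0 < kt := by positivity
  obtain ⟨k', hk', hns⟩ := ns_unif_all hI hS.ns (2 * kt) (by omega)
  set kw := 8 * k' + 1 with hkw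
  set β := Kc + Kc * (kw + 1) with hβ
  have hsmall : Null I (fun i => 8 * (β + 2 * (kw + 1)) * (L i + 2) + 2 * (I i).F.loops.card) :=
    ((hL.add (null_const hI 2)).const_mul _).add (hl.const_mul 2)
  have hbigτ : ∀ (n m : ℕ), n ≤ k0 * m → Kc * (n / kt) ≤ m := by
    intro n m h
    have h1 := Nat.div_mul_le_self n kt
    have h2 : k0 * (Kc * (n / kt)) ≤ k0 * m := by
      rw [hkt] at h1 ⊢; nlinarith
    exact Nat.le_of_mul_le_mul_left h2 hk0
  have hmix : ∀ᶠ i in UF, ∀ b, (PF.labSet (l i) (Zof b)).card < (I i).n / kt ∨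
      Kc * ((I i).n / kt) ≤ ((I i).F.TT (l i) sm ((I i).n / k0) b).card := by
    rw [eventually_all]
    intro b
    rcases hS.mix b with h | h
    · exact (lt_div_of_null hI h kt hkt0).mono (fun i hi => Or.inl hi)
    · exact h.mono (fun i hi => Or.inr (hbigτ _ _ hi))
  have htwo : ∀ᶠ i in UF, (PF.labSet (l i) .Z1).card < (I i).n / kt ∨
      (PF.labSet (l i) .Z2).card < (I i).n / kt ∨
      Kc * ((I i).n / kt) ≤ ((I i).F.TZ (l i) sm ((I i).n / k0)).card ∨
      11 * (I i).n ≤ 20 * (((I i).F.TT (l i) sm ((I i).n / k0) false).card +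
        ((I i).F.TT (l i) sm ((I i).n / k0) true).card) := by
    rcases hS.two with h | h | h | h
    · exact (lt_div_of_null hI h kt hkt0).mono (fun i hi => Or.inl hi)
    · exact (lt_div_of_null hI h kt hkt0).mono (fun i hi => Or.inr (Or.inl hi))
    · exact h.mono (fun i hi => Or.inr (Or.inr (Or.inl (hbigτ _ _ hi))))
    · exact h.mono (fun i hi => Or.inr (Or.inr (Or.inr hi)))
  obtain ⟨i, hi1, hi2, hi3, hi4, hi5, hi6, hi7⟩ := (hns.and (hmix.and (htwo.and
    ((lt_div_of_null hI hS.atyp kt hkt0).and ((lt_div_of_null hI hsmall (2 * kt) (by omega)).and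
      ((lt_div_of_null hI hsmall (4 * k') (by omega)).and (ev_ge hI kt))))))).exists
  have hcard : Fintype.card (Fin (I i).n) = (I i).n := Fintype.card_fin _
  have hτ : 0 < (I i).n / kt := Nat.div_pos hi7 hkt0
  obtain ⟨e, he⟩ := h5 i
  obtain ⟨P, hP1, hP2, hP3⟩ := hplan _ _ (I i).G (I i).F (l i) sm ((I i).n / kt) ((I i).n / k0) hτ
    (by rw [hcard]; exact hbigτ _ _ (Nat.le_mul_of_pos_left _ hk0))
    (by
      rw [Nat.le_div_iff_mul_le hk0]
      have h1 := Nat.div_mul_le_self (I i).n kt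
      have h2 : 18 * ((I i).n / kt) * k0 ≤ (I i).n / kt * kt := by
        rw [hkt]; nlinarith [Nat.zero_le ((I i).n / (18 * Kc * k0) * k0)]
      omega)
    hi4.le hi2 (by rw [hcard]; exact hi3) e
  have hW := walks_of_NS (F := (I i).F) (l := l i) sm ((I i).n / kt) ((I i).n / (2 * kt))
    ((I i).n ^ 2 / k') ((I i).n / (4 * k')) ((I i).n / (4 * k')) kw (L i) β hi1
    (by rw [hcard]; exact arith_leak _ _ hk') (by rw [hcard]; exact arith_layers _ _ hk')
    (by
      rw [mul_comm 2 kt, ← Nat.div_div_eq_div_mul]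
      exact Nat.mul_div_le _ 2)
    (lt_min hi5 hi6)
  obtain ⟨F', hF1, hF2, hF3⟩ := realize P sm (L i) (kw + 1) β hτ hP2 (fun h => hS.noXb h i) hW
    (by
      have := card_le_card P.E_sub
      have h2 : P.E.card * (kw + 1) ≤ Kc * (kw + 1) := Nat.mul_le_mul_right _ (by omega)
      omega)
    (h4 i)
  exact h6 i ⟨F', hF1, ⟨e, he, hF2 e hP1⟩, hF3⟩

end Pool.Agent.BE
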