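import Pool.Agent.Lib.MP_dd4ef3_lc.BE.Orbit
import Pool.Agent.Lib.MP_dd4ef3_lc.BE.PlanOps

set_option autoImplicit false

open Finset Classical

noncomputable section

namespace Pool.Agent.BE

variable {V C : Type} [Fintype V] [DecidableEq V] {G : Ctx V C}

/-- re-pair a set of singly cut stubs along adjacent pairs -/
private def swap_mk (F : PF G) (Cs : Stub V → Prop) (m : Stub V → Stub V)
    (hm : ∀ s, m (m s) = s) (hout : ∀ s, ¬ Cs s → m s = F.mu s)
    (hin : ∀ s, Cs s → Cs (m s) ∧ F.adj s (m s)) (hs : ∀ s, Cs s → ¬ Cs (nu s)) : PF G where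
  mu := m
  real s := F.real s ∨ Cs s
  mu_mu := hm
  mu_ne s := by
    by_cases h : Cs s
    · intro e
      exact (hin s h).2.1 (by rw [e])
    · rw [hout s h]; exact F.mu_ne s
  real_mu s hr := by
    by_cases h : Cs s
    · exact Or.inr (hin s h).1
    · rw [hout s h]; exact Or.inl (F.real_mu s (hr.resolve_right h))
  real_ne s hr := by
    by_cases h : Cs s
    · exact (hin s h).2.1.symm
    · rw [hout s h]; exact F.real_ne s (hr.resolve_right h)
  pc s h1 h2 := by
    by_cases h : Cs s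
    · have h' := hs s h
      have hr := h2.resolve_right h'
      have := (hin s h).2.2.1
      rw [hout _ h']
      intro e
      apply this
      unfold PF.kept
      rw [if_pos hr, e]
    · by_cases h' : Cs (nu s)
      · have hr := h1.resolve_right h
        have := (hin _ h').2.2.1
        rw [hout _ h]
        intro e
        apply this
        unfold PF.kept
        simp only [nu_nu, nu_fst]
        rw [if_pos hr, e]
      · rw [hout _ h, hout _ h']
        exact F.pc s (h1.resolve_right h) (h2.resolve_right h')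

/-- a segment of an orbit that is left unchanged stays connected -/
private lemma swap_seg (F F' : PF G) (s : Stub V) (k : ℕ)
    (h : ∀ i, 1 ≤ i → i ≤ k → F'.mu ((F.sig ^ i) s) = F.mu ((F.sig ^ i) s)) :
    F'.Conn (F.mu s).1 ((F.sig ^ (k + 1)) s).1 := by
  induction k with
  | zero =>
    simp only [zero_add, pow_one, PF.sig_apply, nu_fst]
    exact F'.conn_refl _
  | succ k ih =>
    have h1 := ih (fun i h1 h2 => h i h1 (by omega))
    refine F'.conn_trans h1 ?_
    have h2 := F'.conn_mu ((F.sig ^ (k + 1)) s)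
    rw [h (k + 1) (by omega) le_rfl] at h2
    rw [pow_succ' F.sig (k + 1), Equiv.Perm.mul_apply, PF.sig_apply, nu_fst]
    exact h2

/-- removing one pair does not disconnect its component -/
private lemma swap_cycle (F F' : PF G) (s : Stub V)
    (h : ∀ u, F.Conn s.1 u.1 → u ≠ s → u ≠ F.mu s → F'.mu u = F.mu u) :
    F'.Conn (F.mu s).1 s.1 := by
  have hex : ∃ k : ℕ, (F.sig ^ (k + 1)) s = s := by
    have hpos : 0 < orderOf F.sig := orderOf_pos _
    refine ⟨orderOf F.sig - 1, ?_⟩
    have : orderOf F.sig - 1 + 1 = orderOf F.sig := by omega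
    rw [this, pow_orderOf_eq_one]; rfl
  have h1 := swap_seg F F' s (Nat.find hex) (fun i hi1 hi2 => by
    apply h _ (F.conn_sig_pow s i) _ (F.sig_pow_ne_mu i s)
    have := Nat.find_min hex (m := i - 1) (by omega)
    have e : i - 1 + 1 = i := by omega
    rwa [e] at this)
  rwa [Nat.find_spec hex] at h1

/-- exchanging two pairs in different components merges the components -/
private lemma swap_lt (F F' : PF G) (s t : Stub V) (hst : ¬ F.Conn s.1 t.1)
    (h1 : F'.mu s = F.mu t) (h2 : F'.mu t = F.mu s)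
    (h : ∀ u, u ≠ s → u ≠ t → u ≠ F.mu s → u ≠ F.mu t → F'.mu u = F.mu u) :
    F'.ncomp < F.ncomp := by
  have hs : F'.Conn (F.mu s).1 s.1 := by
    refine swap_cycle F F' s (fun u hu h3 h4 => h u h3 ?_ h4 ?_)
    · rintro rfl; exact hst hu
    · rintro rfl; exact hst (F.conn_trans hu (F.conn_symm (F.conn_mu t)))
  have ht : F'.Conn (F.mu t).1 t.1 := by
    refine swap_cycle F F' t (fun u hu h3 h4 => h u ?_ h3 ?_ h4)
    · rintro rfl; exact hst (F.conn_symm hu)
    · rintro rfl; exact hst (F.conn_trans (F.conn_mu s) (F.conn_symm hu))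
  refine F.ncomp_lt F' (fun u w huw => ?_) (u := s.1) (w := t.1) ?_ hst
  · refine F.conn_induction (R := F'.Conn)
      ⟨F'.conn_refl, F'.conn_symm, F'.conn_trans⟩ (fun u => ?_) huw
    by_cases e1 : u = s
    · rw [e1]; exact F'.conn_symm hs
    by_cases e2 : u = t
    · rw [e2]; exact F'.conn_symm ht
    by_cases e3 : u = F.mu s
    · rw [e3, F.mu_mu]; exact hs
    by_cases e4 : u = F.mu t
    · rw [e4, F.mu_mu]; exact ht
    rw [← h u e1 e2 e3 e4]; exact F'.conn_mu u
  · have h3 := F'.conn_mu s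
    rw [h1] at h3
    exact F'.conn_trans h3 ht

/-- hypotheses of the merging step, with an abstract set of layers -/
private structure swap_H {I : Type} (F : PF G) (L : ℕ) (ρ : Equiv.Perm I)
    (b : I → Bool → Stub V) : Prop where
  arc : ∀ i p q, F.adj (b i p) (F.mu (b (ρ i) q))
  tw : ∀ i, F.Tw L (b i false) (b i true)
  far : ∀ i j, i ≠ j → ∀ p q, F.FarPair L (b i p) (b j q)

/-- cut stubs -/
private def swap_Cs {I : Type} (F : PF G) (b : I → Bool → Stub V) (s : Stub V) : Prop :=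
  ∃ i p, s = b i p ∨ s = F.mu (b i p)

/-- admissible re-pairings -/
private def swap_Good {I : Type} (F : PF G) (ρ : Equiv.Perm I) (b : I → Bool → Stub V)
    (F' : PF G) : Prop :=
  (∀ s, ¬ swap_Cs F b s → F'.mu s = F.mu s) ∧ (∀ s, F'.real s ↔ F.real s ∨ swap_Cs F b s) ∧
    ∀ i p, ∃ q, F'.mu (b i p) = F.mu (b (ρ i) q)

section
variable {I : Type} {F : PF G} {L : ℕ} {ρ : Equiv.Perm I} {b : I → Bool → Stub V}

private lemma swap_nl (H : swap_H F L ρ b) (i : I) (p : Bool) : ¬ F.loop (b i p).1 := by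
  cases p
  · exact (H.tw i).1
  · exact (H.tw i).2.1

private lemma swap_tt (H : swap_H F L ρ b) {i j : I} {p q : Bool}
    (e : (b i p).1 = (b j q).1) : i = j ∧ p = q := by
  by_cases hij : i = j
  · subst hij
    refine ⟨rfl, ?_⟩
    have := (H.tw i).2.2.1
    cases p <;> cases q
    · rfl
    · exact absurd e this
    · exact absurd e.symm this
    · rfl
  · exact absurd (e ▸ F.near_refl L _) (H.far i j hij p q).1

private lemma swap_th (H : swap_H F L ρ b) (i j : I) (p q : Bool) :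
    (b i p).1 ≠ (F.mu (b j q)).1 := by
  intro e
  by_cases hij : i = j
  · subst hij
    cases p <;> cases q
    · exact F.ne_of_not_loop (swap_nl H i false) e.symm
    · exact (H.tw i).2.2.2.1 e
    · exact (H.tw i).2.2.2.2.1 e.symm
    · exact F.ne_of_not_loop (swap_nl H i true) e.symm
  · exact absurd (e ▸ F.near_refl L _) (H.far i j hij p q).2.1

private lemma swap_hh (H : swap_H F L ρ b) {i j : I} {p q : Bool}
    (e : (F.mu (b i p)).1 = (F.mu (b j q)).1) : i = j ∧ p = q := by
  by_cases hij : i = j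
  · subst hij
    refine ⟨rfl, ?_⟩
    have := (H.tw i).2.2.2.2.2.1
    cases p <;> cases q
    · rfl
    · exact absurd e this
    · exact absurd e.symm this
    · rfl
  · exact absurd (e ▸ F.near_refl L _) (H.far i j hij p q).2.2.2

private lemma swap_Cs_mu {s : Stub V} (h : swap_Cs F b (F.mu s)) : swap_Cs F b s := by
  obtain ⟨i, p, e | e⟩ := h
  · exact ⟨i, p, Or.inr (by rw [← e, F.mu_mu])⟩
  · exact ⟨i, p, Or.inl (F.mu_inj e)⟩

private lemma swap_single (H : swap_H F L ρ b) (s : Stub V) (h : swap_Cs F b s) :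
    ¬ swap_Cs F b (nu s) := by
  rintro ⟨j, q, h'⟩
  obtain ⟨i, p, h⟩ := h
  have hv : (nu s).1 = s.1 := rfl
  rcases h with h | h <;> rcases h' with h' | h'
  · obtain ⟨rfl, rfl⟩ := swap_tt H (i := j) (j := i) (p := q) (q := p) (by rw [← h', hv, h])
    exact nu_ne s (h'.trans h.symm)
  · exact swap_th H i j p q (by rw [← h', hv, h])
  · exact swap_th H j i q p (by rw [← h', hv, h])
  · obtain ⟨rfl, rfl⟩ := swap_hh H (i := j) (j := i) (p := q) (q := p) (by rw [← h', hv, h])
    exact nu_ne s (h'.trans h.symm)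

/-- every head is hit -/
private lemma swap_head (H : swap_H F L ρ b) {m : Stub V → Stub V} (hm : ∀ s, m (m s) = s)
    (hl : ∀ i p, ∃ q, m (b i p) = F.mu (b (ρ i) q)) (i : I) (q : Bool) :
    ∃ p, m (b i p) = F.mu (b (ρ i) q) := by
  obtain ⟨q0, h0⟩ := hl i false
  obtain ⟨q1, h1⟩ := hl i true
  by_cases e0 : q0 = q
  · exact ⟨false, e0 ▸ h0⟩
  by_cases e1 : q1 = q
  · exact ⟨true, e1 ▸ h1⟩
  have e : q0 = q1 := by cases q0 <;> cases q1 <;> cases q <;> simp_all
  have e2 : b i false = b i true := by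
    rw [← hm (b i false), h0, e, ← h1, hm]
  exact absurd (swap_tt H (congrArg Prod.fst e2)).2 (by simp)

private lemma swap_mk_good (H : swap_H F L ρ b) (m : Stub V → Stub V) (hm : ∀ s, m (m s) = s)
    (hout : ∀ s, ¬ swap_Cs F b s → m s = F.mu s)
    (hl : ∀ i p, ∃ q, m (b i p) = F.mu (b (ρ i) q)) :
    ∃ F' : PF G, F'.mu = m ∧ swap_Good F ρ b F' := by
  refine ⟨swap_mk F (swap_Cs F b) m hm hout ?_ (swap_single H), rfl, hout,
    fun s => Iff.rfl, hl⟩
  rintro s ⟨i, p, rfl | rfl⟩
  · obtain ⟨q, hq⟩ := hl i p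
    rw [hq]
    exact ⟨⟨ρ i, q, Or.inr rfl⟩, H.arc i p q⟩
  · obtain ⟨q, hq⟩ := swap_head H hm hl (ρ.symm i) p
    rw [Equiv.apply_symm_apply] at hq
    have e : m (F.mu (b i p)) = b (ρ.symm i) q := by rw [← hq, hm]
    rw [e]
    refine ⟨⟨ρ.symm i, q, Or.inl rfl⟩, F.adj_symm ?_⟩
    have := H.arc (ρ.symm i) q p
    rwa [Equiv.apply_symm_apply] at this

private lemma swap_exists (H : swap_H F L ρ b) : ∃ F' : PF G, swap_Good F ρ b F' := by
  let ι : I × Bool ↪ Stub V := ⟨fun x => b x.1 x.2, fun x y e =>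
    Prod.ext (swap_tt H (congrArg Prod.fst e)).1 (swap_tt H (congrArg Prod.fst e)).2⟩
  let κ : Equiv.Perm (Stub V) := Equiv.Perm.viaEmbedding (Equiv.prodCongr ρ (Equiv.refl Bool)) ι
  have h1 : ∀ i p, κ (b i p) = b (ρ i) p := fun i p =>
    Equiv.Perm.viaEmbedding_apply (Equiv.prodCongr ρ (Equiv.refl Bool)) ι (i, p)
  have h2 : ∀ s, (∀ i p, s ≠ b i p) → κ s = s := fun s hs =>
    Equiv.Perm.viaEmbedding_apply_of_notMem _ ι s (fun ⟨x, hx⟩ => hs x.1 x.2 hx.symm)
  have h3 : ∀ s, (∀ i p, s ≠ b i p) → κ.symm s = s := fun s hs => by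
    rw [Equiv.symm_apply_eq, h2 s hs]
  obtain ⟨F', -, hF'⟩ := swap_mk_good H (fun s => κ.symm (F.mu (κ s))) (fun s => by simp)
    (fun s hs => by
      rw [h2 s (fun i p e => hs ⟨i, p, Or.inl e⟩)]
      exact h3 _ (fun i p e => hs (swap_Cs_mu ⟨i, p, Or.inl e⟩)))
    (fun i p => ⟨p, by
      rw [h1]
      exact h3 _ (fun j q e => swap_th H j (ρ i) q p (by rw [e]))⟩)
  exact ⟨F', hF'⟩

/-- exchange the two new pairs of a layer -/
private lemma swap_step (H : swap_H F L ρ b) {F' : PF G} (hF' : swap_Good F ρ b F') (i : I)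
    (hc : ¬ F'.Conn (b i false).1 (b i true).1) :
    ∃ F'' : PF G, swap_Good F ρ b F'' ∧ F''.ncomp < F'.ncomp := by
  obtain ⟨hout, -, hl⟩ := hF'
  set s := b i false with hs
  set t := b i true with ht
  have hne : ∀ j p, F'.mu (b j p) ≠ s ∧ F'.mu (b j p) ≠ t := by
    intro j p
    obtain ⟨q, hq⟩ := hl j p
    rw [hq]
    exact ⟨fun e => swap_th H i (ρ j) false q (by rw [e]),
      fun e => swap_th H i (ρ j) true q (by rw [e])⟩
  have hfix : ∀ j p, Equiv.swap s t (F'.mu (b j p)) = F'.mu (b j p) := fun j p =>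
    Equiv.swap_apply_of_ne_of_ne (hne j p).1 (hne j p).2
  have e1 : Equiv.swap s t (F'.mu (Equiv.swap s t s)) = F'.mu t := by
    rw [Equiv.swap_apply_left]; exact hfix i true
  have e2 : Equiv.swap s t (F'.mu (Equiv.swap s t t)) = F'.mu s := by
    rw [Equiv.swap_apply_right]; exact hfix i false
  have e3 : ∀ u, u ≠ s → u ≠ t → u ≠ F'.mu s → u ≠ F'.mu t →
      Equiv.swap s t (F'.mu (Equiv.swap s t u)) = F'.mu u := by
    intro u h1 h2 h3 h4
    rw [Equiv.swap_apply_of_ne_of_ne h1 h2]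
    refine Equiv.swap_apply_of_ne_of_ne (fun e => h3 ?_) (fun e => h4 ?_)
    · rw [← e, F'.mu_mu]
    · rw [← e, F'.mu_mu]
  obtain ⟨F'', hmu, hF''⟩ := swap_mk_good H
    (fun u => Equiv.swap s t (F'.mu (Equiv.swap s t u))) (fun u => by simp)
    (fun u hu => by
      rw [← hout u hu]
      refine e3 u (fun e => hu ⟨i, false, Or.inl e⟩) (fun e => hu ⟨i, true, Or.inl e⟩)
        (fun e => ?_) (fun e => ?_)
      · obtain ⟨q, hq⟩ := hl i false
        exact hu ⟨ρ i, q, Or.inr (e.trans hq)⟩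
      · obtain ⟨q, hq⟩ := hl i true
        exact hu ⟨ρ i, q, Or.inr (e.trans hq)⟩)
    (fun j p => by
      by_cases c1 : b j p = s
      · obtain ⟨rfl, -⟩ := swap_tt H (congrArg Prod.fst c1)
        obtain ⟨q, hq⟩ := hl j true
        exact ⟨q, by simp only [c1]; exact e1.trans hq⟩
      by_cases c2 : b j p = t
      · obtain ⟨rfl, -⟩ := swap_tt H (congrArg Prod.fst c2)
        obtain ⟨q, hq⟩ := hl j false
        exact ⟨q, by simp only [c2]; exact e2.trans hq⟩
      obtain ⟨q, hq⟩ := hl j p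
      exact ⟨q, by
        simp only [Equiv.swap_apply_of_ne_of_ne c1 c2]
        exact (hfix j p).trans hq⟩)
  refine ⟨F'', hF'', swap_lt F' F'' s t hc ?_ ?_ ?_⟩
  · rw [hmu]; exact e1
  · rw [hmu]; exact e2
  · intro u h1 h2 h3 h4
    rw [hmu]; exact e3 u h1 h2 h3 h4

/-- the twin segment joins a head of a layer to a tail of the same layer -/
private lemma swap_twin (H : swap_H F L ρ b) {F' : PF G} (hF' : swap_Good F ρ b F') (i : I) :
    ∃ p, F'.Conn (F.mu (b i false)).1 (b i p).1 := by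
  obtain ⟨-, -, -, -, -, -, ⟨j, hj1, hj2, hj⟩, hmu⟩ := H.tw i
  have hex : ∃ k : ℕ, (F.sig ^ (k + 1)) (b i false) = b i false ∨
      (F.sig ^ (k + 1)) (b i false) = b i true := by
    refine ⟨j - 1, ?_⟩
    have e : j - 1 + 1 = j := by omega
    rwa [e]
  have hle : Nat.find hex ≤ j - 1 := Nat.find_min' hex (by
    have e : j - 1 + 1 = j := by omega
    rwa [e])
  have h1 := swap_seg F F' (b i false) (Nat.find hex) (fun k hk1 hk2 => by
    apply hF'.1
    have hmin := Nat.find_min hex (m := k - 1) (by omega)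
    have e : k - 1 + 1 = k := by omega
    rw [e] at hmin
    have hnear : F.Near L (b i false).1 ((F.sig ^ k) (b i false)).1 :=
      ⟨(b i false).2, k, by omega, rfl⟩
    rintro ⟨i', p, h | h⟩
    · by_cases hi : i = i'
      · subst hi
        cases p
        · exact hmin (Or.inl h)
        · exact hmin (Or.inr h)
      · exact (H.far i i' hi false p).1 (h ▸ hnear)
    · by_cases hi : i = i'
      · subst hi
        cases p
        · exact F.sig_pow_ne_mu k _ h
        · exact hmu k h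
      · exact (H.far i i' hi false p).2.1 (h ▸ hnear))
  rcases Nat.find_spec hex with h | h
  · exact ⟨false, by rwa [h] at h1⟩
  · exact ⟨true, by rwa [h] at h1⟩

private lemma swap_main (H : swap_H F L ρ b) :
    ∃ F' : PF G, F.Improves F' ∧ (∀ v, F'.loop v ↔ F.loop v) ∧
      (∀ u w, F.Conn u w → F'.Conn u w) ∧ ∀ i, F'.Conn (b i false).1 (b (ρ i) false).1 := by
  have hex : ∃ k : ℕ, ∃ F' : PF G, swap_Good F ρ b F' ∧ F'.ncomp = k := by
    obtain ⟨F', hF'⟩ := swap_exists H
    exact ⟨_, F', hF', rfl⟩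
  obtain ⟨F', hF', hk⟩ := Nat.find_spec hex
  have htt : ∀ i p, F'.Conn (b i false).1 (b i p).1 := by
    intro i p
    cases p
    · exact F'.conn_refl _
    · by_contra hc
      obtain ⟨F'', hF'', hlt⟩ := swap_step H hF' i hc
      exact Nat.find_min hex (hk ▸ hlt) ⟨F'', hF'', rfl⟩
  have hth : ∀ i q, F'.Conn (b i false).1 (F.mu (b (ρ i) q)).1 := by
    intro i q
    obtain ⟨p, hp⟩ := swap_head H F'.mu_mu hF'.2.2 i q
    rw [← hp]
    exact F'.conn_trans (htt i p) (F'.conn_mu _)
  have hht : ∀ i, F'.Conn (F.mu (b i false)).1 (b i false).1 := by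
    intro i
    obtain ⟨p, hp⟩ := swap_twin H hF' i
    exact F'.conn_trans hp (F'.conn_symm (htt i p))
  have hstep : ∀ i, F'.Conn (b i false).1 (b (ρ i) false).1 := fun i =>
    F'.conn_trans (hth i false) (hht _)
  have hpair : ∀ i p, F'.Conn (b i p).1 (F.mu (b i p)).1 := by
    intro i p
    have h1 := hth (ρ.symm i) p
    have h2 := hstep (ρ.symm i)
    rw [Equiv.apply_symm_apply] at h1 h2
    exact F'.conn_trans (F'.conn_symm (htt i p)) (F'.conn_trans (F'.conn_symm h2) h1)
  refine ⟨F', ⟨fun s hs => (hF'.2.1 s).2 (Or.inl hs),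
    fun s hs => hF'.1 s (fun h => hs ((hF'.2.1 s).2 (Or.inr h)))⟩, fun v => ?_,
    fun u w huw => ?_, hstep⟩
  · by_cases hc : swap_Cs F b (v, false)
    · have h1 : ¬ F'.loop v := fun h =>
        F'.not_real_of_loop (s := (v, false)) h ((hF'.2.1 _).2 (Or.inr hc))
      have h2 : ¬ F.loop v := by
        obtain ⟨i, p, e | e⟩ := hc
        · have := swap_nl H i p
          rwa [← e] at this
        · have := fun h => swap_nl H i p ((F.loop_mu_iff _).1 h)
          rwa [← e] at this
      exact iff_of_false h1 h2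
    · unfold PF.loop
      rw [hF'.1 _ hc]
  · refine F.conn_induction (R := F'.Conn)
      ⟨F'.conn_refl, F'.conn_symm, F'.conn_trans⟩ (fun s => ?_) huw
    by_cases hc : swap_Cs F b s
    · obtain ⟨i, p, rfl | rfl⟩ := hc
      · exact hpair i p
      · rw [F.mu_mu]; exact F'.conn_symm (hpair i p)
    · rw [← hF'.1 s hc]; exact F'.conn_mu s

end

theorem merge_of_twins (F : PF G) (L r : ℕ) (hr : 0 < r) (a a' : ℕ → Stub V)
    (harc : ∀ j, j < r → ∀ x y, (x = a j ∨ x = a' j) →
      (y = a ((j + 1) % r) ∨ y = a' ((j + 1) % r)) → F.adj x (F.mu y))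
    (htw : ∀ j, j < r → F.Tw L (a j) (a' j))
    (hfar : ∀ i j, i < j → j < r → ∀ x y, (x = a i ∨ x = a' i) → (y = a j ∨ y = a' j) →
      F.FarPair L x y) :
    ∃ F' : PF G, F.Improves F' ∧ (∀ v, F'.loop v ↔ F.loop v) ∧
      (∀ u w, F.Conn u w → F'.Conn u w) ∧ ∀ i j, i < r → j < r → F'.Conn (a i).1 (a j).1 := by
  obtain ⟨n, rfl⟩ : ∃ n, r = n + 1 := ⟨r - 1, by omega⟩
  let b : Fin (n + 1) → Bool → Stub V := fun i p => if p then a' i else a i
  have hb : ∀ i p, b i p = a i ∨ b i p = a' i := by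
    intro i p; cases p
    · exact Or.inl rfl
    · exact Or.inr rfl
  have hρ : ∀ i : Fin (n + 1), ((finRotate (n + 1) i : Fin (n + 1)) : ℕ) = (i + 1) % (n + 1) := by
    intro i
    rw [finRotate_apply, Fin.val_add, Fin.val_one', Nat.add_mod_mod]
  have H : swap_H F L (finRotate (n + 1)) b := by
    refine ⟨fun i p q => harc i i.2 _ _ (hb i p) ?_, fun i => htw i i.2, fun i j hij p q => ?_⟩
    · rw [← hρ]; exact hb _ q
    · rcases lt_or_gt_of_ne hij with h | h
      · exact hfar i j h j.2 _ _ (hb i p) (hb j q)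
      · exact F.farPair_symm (hfar j i h i.2 _ _ (hb j q) (hb i p))
  obtain ⟨F', h1, h2, h3, h4⟩ := swap_main H
  refine ⟨F', h1, h2, h3, ?_⟩
  have h0 : ∀ i, i < n + 1 → F'.Conn (a 0).1 (a i).1 := by
    intro i
    induction i with
    | zero => exact fun _ => F'.conn_refl _
    | succ i ih =>
      intro hi
      refine F'.conn_trans (ih (by omega)) ?_
      have h5 := h4 ⟨i, by omega⟩
      have e : ((finRotate (n + 1) ⟨i, by omega⟩ : Fin (n + 1)) : ℕ) = i + 1 := by
        rw [hρ]; exact Nat.mod_eq_of_lt hi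
      simp only [b, e] at h5
      simpa using h5
  exact fun i j hi hj => F'.conn_trans (F'.conn_symm (h0 i hi)) (h0 j hj)

end Pool.Agent.BE
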