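import Pool.Agent.Lib.MP_dd4ef3_lc.BE.Chain
import Pool.Agent.Lib.MP_dd4ef3_lc.BE.Swap

set_option autoImplicit false

open Finset Classical

noncomputable section

namespace Pool.Agent.BE

variable {V C : Type} [Fintype V] [DecidableEq V] {G : Ctx V C}

/-- `x` lies in one of the first `r` layers -/
def mfIn (r : ℕ) (a a' : ℕ → Stub V) (x : Stub V) : Prop := ∃ i, i < r ∧ (x = a i ∨ x = a' i)

/-- a path of twin layers -/
structure MfSeg (F : PF G) (L r : ℕ) (a a' : ℕ → Stub V) : Prop where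
  arc : ∀ i, i + 1 < r → ∀ x y, (x = a i ∨ x = a' i) → (y = a (i + 1) ∨ y = a' (i + 1)) →
    F.adj x (F.mu y)
  tw : ∀ i, i < r → F.Tw L (a i) (a' i)
  far : ∀ i j, i < j → j < r → ∀ x y, (x = a i ∨ x = a' i) → (y = a j ∨ y = a' j) →
    F.FarPair L x y

def mfApp (r : ℕ) (a b : ℕ → Stub V) (i : ℕ) : Stub V := if i < r then a i else b (i - r)

omit [Fintype V] [DecidableEq V] in
lemma mfApp_lt {r i : ℕ} (a b : ℕ → Stub V) (h : i < r) : mfApp r a b i = a i := if_pos h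

omit [Fintype V] [DecidableEq V] in
lemma mfApp_ge {r i : ℕ} (a b : ℕ → Stub V) (h : r ≤ i) : mfApp r a b i = b (i - r) :=
  if_neg (not_lt.2 h)

omit [Fintype V] [DecidableEq V] in
lemma mfIn_app {r1 r2 : ℕ} {a a' b b' : ℕ → Stub V} {x : Stub V}
    (h : mfIn (r1 + r2) (mfApp r1 a b) (mfApp r1 a' b') x) : mfIn r1 a a' x ∨ mfIn r2 b b' x := by
  obtain ⟨i, hi, hx⟩ := h
  by_cases h1 : i < r1
  · rw [mfApp_lt _ _ h1, mfApp_lt _ _ h1] at hx
    exact Or.inl ⟨i, h1, hx⟩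
  · rw [mfApp_ge _ _ (not_lt.1 h1), mfApp_ge _ _ (not_lt.1 h1)] at hx
    exact Or.inr ⟨i - r1, by omega, hx⟩

lemma mf_app {F : PF G} {L r1 r2 : ℕ} {a a' b b' : ℕ → Stub V} (ha : MfSeg F L (r1 + 1) a a')
    (hb : MfSeg F L r2 b b')
    (hab : ∀ x y, (x = a r1 ∨ x = a' r1) → (y = b 0 ∨ y = b' 0) → F.adj x (F.mu y))
    (hfar : ∀ x y, mfIn (r1 + 1) a a' x → mfIn r2 b b' y → F.FarPair L x y) :
    MfSeg F L (r1 + 1 + r2) (mfApp (r1 + 1) a b) (mfApp (r1 + 1) a' b') := by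
  refine ⟨fun i hi x y hx hy => ?_, fun i hi => ?_, fun i j hij hj x y hx hy => ?_⟩
  · rcases lt_trichotomy i r1 with h | h | h
    · rw [mfApp_lt _ _ (by omega), mfApp_lt _ _ (by omega)] at hx hy
      exact ha.arc i (by omega) x y hx hy
    · subst h
      rw [mfApp_lt _ _ (by omega), mfApp_lt _ _ (by omega)] at hx
      rw [mfApp_ge _ _ le_rfl, mfApp_ge _ _ le_rfl, Nat.sub_self] at hy
      exact hab x y hx hy
    · rw [mfApp_ge _ _ (by omega), mfApp_ge _ _ (by omega)] at hx hy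
      have e : i + 1 - (r1 + 1) = i - (r1 + 1) + 1 := by omega
      rw [e] at hy
      exact hb.arc _ (by omega) x y hx hy
  · by_cases h : i < r1 + 1
    · rw [mfApp_lt _ _ h, mfApp_lt _ _ h]; exact ha.tw i h
    · rw [mfApp_ge _ _ (not_lt.1 h), mfApp_ge _ _ (not_lt.1 h)]; exact hb.tw _ (by omega)
  · by_cases h1 : j < r1 + 1
    · rw [mfApp_lt _ _ (by omega), mfApp_lt _ _ (by omega)] at hx hy
      exact ha.far i j hij h1 x y hx hy
    · rw [mfApp_ge _ _ (not_lt.1 h1), mfApp_ge _ _ (not_lt.1 h1)] at hy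
      by_cases h2 : i < r1 + 1
      · rw [mfApp_lt _ _ h2, mfApp_lt _ _ h2] at hx
        exact hfar x y ⟨i, h2, hx⟩ ⟨_, by omega, hy⟩
      · rw [mfApp_ge _ _ (not_lt.1 h2), mfApp_ge _ _ (not_lt.1 h2)] at hx
        exact hb.far _ _ (by omega) (by omega) x y hx hy

lemma mf_single {F : PF G} {L : ℕ} {u u' : Stub V} (h : F.Tw L u u') :
    MfSeg F L (0 + 1) (fun _ => u) (fun _ => u') :=
  ⟨fun i hi => by omega, fun _ _ => h, fun i j hij hj => by omega⟩

/-- the vertices of the pairs in the first `r` layers -/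
def mfVs (F : PF G) (r : ℕ) (a a' : ℕ → Stub V) : Finset V :=
  (range r).biUnion fun i => {(a i).1, (F.mu (a i)).1, (a' i).1, (F.mu (a' i)).1}

lemma mfVs_card (F : PF G) (r : ℕ) (a a' : ℕ → Stub V) : (mfVs F r a a').card ≤ 4 * r := by
  have h := card_biUnion_le_card_mul (range r)
    (fun i => ({(a i).1, (F.mu (a i)).1, (a' i).1, (F.mu (a' i)).1} : Finset V)) 4
    (fun i _ => card_le_four)
  rw [card_range, mul_comm] at h
  exact h

lemma mfVs_far {F : PF G} {L r : ℕ} {a a' : ℕ → Stub V} {W : Finset V} {x y : Stub V}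
    (hW : mfVs F r a a' ⊆ W) (hx : mfIn r a a' x) (hy : F.Avoid L W y) : F.FarPair L x y := by
  obtain ⟨i, hi, hx⟩ := hx
  refine F.farPair_of_avoid hy (hW ?_) (hW ?_) <;>
    refine mem_biUnion.2 ⟨i, mem_range.2 hi, ?_⟩ <;> rcases hx with rfl | rfl <;> simp

lemma mf_twin (F : PF G) (l : Stub V → Node) (K K' : Node) (D M2 κ L m : ℕ)
    (C0 : Finset (Stub V)) (W : Finset V)
    (hC : ∀ s ∈ C0, D ≤ (F.NS l s.1 (F.kept s) K').card ∧
      D ≤ (F.NS l (F.mu s).1 (F.kept (F.mu s)) K).card)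
    (hκ : κ ≤ C0.card) (hL : 2 ≤ L) (hM2 : 2 ≤ M2)
    (h4 : 8 * Fintype.card V ^ 2 ≤ M2 * D ^ 2) (h5 : m * M2 ^ 2 ≤ 2 * Fintype.card V)
    (h1 : 64 * (W.card + 2 * M2) * (L + 2) + 8 * F.loops.card ≤ κ)
    (h2 : 32 * Fintype.card V * M2 ≤ L * κ) :
    ∃ u ∈ C0, ∃ u' ∈ C0, F.Tw L u u' ∧ F.Avoid L W u ∧ F.Avoid L W u' ∧
      m ≤ (F.NS l u.1 (F.kept u) K' ∩ F.NS l u'.1 (F.kept u') K').card ∧
      m ≤ (F.NS l (F.mu u).1 (F.kept (F.mu u)) K ∩
        F.NS l (F.mu u').1 (F.kept (F.mu u')) K).card := by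
  obtain ⟨S, hS, hSc, hav, htw⟩ := twin_family F C0 W M2 κ L hκ hL h1 h2
  have hU : (univ : Finset (Stub V × Stub V)).card = 4 * Fintype.card V ^ 2 := by
    rw [card_univ, Fintype.card_prod, card_stub]; ring
  obtain ⟨u, hu, u', hu', hne, hc⟩ := bonferroni (univ : Finset (Stub V × Stub V)) S
    (fun s => F.NS l s.1 (F.kept s) K' ×ˢ F.NS l (F.mu s).1 (F.kept (F.mu s)) K) (D ^ 2) M2
    (fun s hs => ⟨subset_univ _, by
      rw [card_product, sq]
      exact Nat.mul_le_mul (hC s (hS hs)).1 (hC s (hS hs)).2⟩) hSc hM2 (by rw [hU]; omega)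
  rw [hU, product_inter_product, card_product] at hc
  have hn : 0 < Fintype.card V := Fintype.card_pos_iff.2 ⟨u.1⟩
  have hle : ∀ A : Finset (Stub V), A.card ≤ 2 * Fintype.card V := fun A => by
    rw [← card_stub]; exact card_le_univ A
  have key : ∀ p q : ℕ, q ≤ 2 * Fintype.card V → 4 * Fintype.card V ^ 2 ≤ M2 ^ 2 * (p * q) →
      m ≤ p := by
    intro p q hq h
    have e1 : 2 * Fintype.card V * (2 * Fintype.card V) ≤ M2 ^ 2 * p * (2 * Fintype.card V) := by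
      calc 2 * Fintype.card V * (2 * Fintype.card V) = 4 * Fintype.card V ^ 2 := by ring
        _ ≤ M2 ^ 2 * (p * q) := h
        _ ≤ M2 ^ 2 * (p * (2 * Fintype.card V)) := by gcongr
        _ = _ := by ring
    have e2 : 2 * Fintype.card V ≤ M2 ^ 2 * p := Nat.le_of_mul_le_mul_right e1 (by omega)
    have e3 : m * M2 ^ 2 ≤ p * M2 ^ 2 := by rw [mul_comm p]; exact h5.trans e2
    exact Nat.le_of_mul_le_mul_right e3 (by positivity)
  have k1 := key _ _ (hle _) hc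
  have k2 := key _ _ (hle _) (hc.trans_eq (congrArg _ (mul_comm _ _)))
  rcases htw u hu u' hu' hne with h | h
  · exact ⟨u, hS hu, u', hS hu', h, hav u hu, hav u' hu', k1, k2⟩
  · exact ⟨u', hS hu', u, hS hu, h, hav u' hu', hav u hu, by rwa [inter_comm],
      by rwa [inter_comm]⟩

lemma mf_chain (F : PF G) (l : Stub V → Node) (K K' : Node) (θ ζ h g k M κ L β : ℕ)
    (hNS : F.NSfin l K' K θ ζ)
    (h1 : 2 * Fintype.card V * (h + g) ≤ ζ) (h2 : 2 * Fintype.card V < k * (g + 1))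
    (hL : 2 ≤ L) (hM : 2 ≤ M) (hh : 4 * Fintype.card V ≤ M * h)
    (h3 : (k + 1) * κ * M ^ 2 ≤ 2 * Fintype.card V)
    (h6 : 64 * (β + 2 * M) * (L + 2) + 8 * F.loops.card ≤ κ)
    (h7 : 32 * Fintype.card V * M ≤ L * κ) (u u' v v' : Stub V)
    (hu : (k + 1) * κ + θ ≤ (F.NS l u.1 (F.kept u) K' ∩ F.NS l u'.1 (F.kept u') K').card)
    (hv : (k + 1) * κ + θ ≤ (F.NS l (F.mu v).1 (F.kept (F.mu v)) K ∩
        F.NS l (F.mu v').1 (F.kept (F.mu v')) K).card)
    (W : Finset V) (hW : W.card + 4 * (k + 1) ≤ β) :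
    ∃ (r : ℕ) (a a' : ℕ → Stub V), r ≤ k ∧ MfSeg F L (r + 1) a a' ∧
      (∀ x y, (x = u ∨ x = u') → (y = a 0 ∨ y = a' 0) → F.adj x (F.mu y)) ∧
      (∀ x y, (x = a r ∨ x = a' r) → (y = v ∨ y = v') → F.adj x (F.mu y)) ∧
      ∀ x, mfIn (r + 1) a a' x → F.Avoid L W x := by
  set O := F.NS l u.1 (F.kept u) K' ∩ F.NS l u'.1 (F.kept u') K' with hO
  set I := F.NS l (F.mu v).1 (F.kept (F.mu v)) K ∩ F.NS l (F.mu v').1 (F.kept (F.mu v')) K with hI
  have hY : ∀ y ∈ O.image F.mu, l (F.mu y) = K' ∧ F.adj u (F.mu y) ∧ F.adj u' (F.mu y) := by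
    intro y hy
    obtain ⟨t, ht, rfl⟩ := mem_image.1 hy
    rw [hO, mem_inter, F.mem_NS_kept, F.mem_NS_kept] at ht
    rw [F.mu_mu]
    exact ⟨ht.1.1, ht.1.2, ht.2.2⟩
  have hI' : ∀ x ∈ I, l x = K ∧ F.adj x (F.mu v) ∧ F.adj x (F.mu v') := by
    intro x hx
    rw [hI, mem_inter, F.mem_NS_kept, F.mem_NS_kept] at hx
    exact ⟨hx.1.1, F.adj_symm hx.1.2, F.adj_symm hx.2.2⟩
  have hYc : θ ≤ ((O.image F.mu).filter (fun s => l (F.mu s) = K')).card := by
    rw [filter_true_of_mem (fun y hy => (hY y hy).1),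
      card_image_of_injective _ (fun s t e => F.mu_inj e)]
    omega
  have hbig := reach_big hNS h g k h1 h2 (O.image F.mu) hYc
  have hsub : I ⊆ (I ∩ F.reach h (O.image F.mu) k) ∪
      univ.filter (fun s => l s = K ∧ s ∉ F.reach h (O.image F.mu) k) := by
    intro x hx
    by_cases hr : x ∈ F.reach h (O.image F.mu) k
    · exact mem_union_left _ (mem_inter.2 ⟨hx, hr⟩)
    · exact mem_union_right _ (mem_filter.2 ⟨mem_univ _, (hI' x hx).1, hr⟩)
  have hc := (card_le_card hsub).trans (card_union_le _ _)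
  obtain ⟨r, a, a', hr, ha0, ha0', har, har', harc, htw, hfar⟩ :=
    twin_chain F h M κ L β (O.image F.mu) hL hM hh h6 h7 k h3
      (I ∩ F.reach h (O.image F.mu) k) inter_subset_right (by omega) W hW
  refine ⟨r, a, a', hr, ⟨fun i hi => harc i (by omega), fun i hi => (htw i (by omega)).1,
    fun i j hij hj => hfar i j hij (by omega)⟩, fun x y hx hy => ?_, fun x y hx hy => ?_,
    fun x hx => ?_⟩
  · have hy' : y ∈ O.image F.mu := by rcases hy with rfl | rfl <;> assumption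
    rcases hx with rfl | rfl
    · exact (hY y hy').2.1
    · exact (hY y hy').2.2
  · have hx' : x ∈ I := by
      rcases hx with rfl | rfl
      · exact (mem_inter.1 har).1
      · exact (mem_inter.1 har').1
    rcases hy with rfl | rfl
    · exact (hI' x hx').2.1
    · exact (hI' x hx').2.2
  · obtain ⟨i, hi, rfl | rfl⟩ := hx
    · exact (htw i (by omega)).2.1
    · exact (htw i (by omega)).2.2

theorem merge_fin (F : PF G) (l : Stub V → Node) (K K' : Node) (D θ ζ h g k M M2 κ L : ℕ)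
    (C1 C2 : Finset (Stub V))
    (hC : ∀ s, s ∈ C1 ∨ s ∈ C2 → D ≤ (F.NS l s.1 (F.kept s) K').card ∧
      D ≤ (F.NS l (F.mu s).1 (F.kept (F.mu s)) K).card)
    (hC1 : κ ≤ C1.card) (hC2 : κ ≤ C2.card) (hNS : F.NSfin l K' K θ ζ)
    (h1 : 2 * Fintype.card V * (h + g) ≤ ζ) (h2 : 2 * Fintype.card V < k * (g + 1))
    (hL : 2 ≤ L) (hM : 2 ≤ M) (hM2 : 2 ≤ M2) (hh : 4 * Fintype.card V ≤ M * h)
    (h3 : (k + 1) * κ * M ^ 2 ≤ 2 * Fintype.card V)
    (h4 : 8 * Fintype.card V ^ 2 ≤ M2 * D ^ 2)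
    (h5 : ((k + 1) * κ + θ) * M2 ^ 2 ≤ 2 * Fintype.card V)
    (h6 : 64 * (8 * (k + 2) + 2 * (M + M2)) * (L + 2) + 8 * F.loops.card ≤ κ)
    (h7 : 32 * Fintype.card V * (M + M2) ≤ L * κ) :
    ∃ F' : PF G, F.Improves F' ∧ (∀ v, F'.loop v ↔ F.loop v) ∧
      (∀ u w, F.Conn u w → F'.Conn u w) ∧ ∃ a ∈ C1, ∃ b ∈ C2, F'.Conn a.1 b.1 := by
  have hmono : ∀ p q : ℕ, p + 2 * q ≤ 8 * (k + 2) + 2 * (M + M2) →
      64 * (p + 2 * q) * (L + 2) + 8 * F.loops.card ≤ κ := fun p q hp =>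
    le_trans (by gcongr) h6
  have h7a : 32 * Fintype.card V * M ≤ L * κ := le_trans (by gcongr; omega) h7
  have h7b : 32 * Fintype.card V * M2 ≤ L * κ := le_trans (by gcongr; omega) h7
  obtain ⟨u, hu, u', hu', tw1, -, -, o1, i1⟩ := mf_twin F l K K' D M2 κ L ((k + 1) * κ + θ) C1 ∅
    (fun s hs => hC s (Or.inl hs)) hC1 hL hM2 h4 h5 (hmono _ _ (by rw [card_empty]; omega)) h7b
  have c1 := mfVs_card F (0 + 1) (fun _ => u) (fun _ => u')
  obtain ⟨v, hv, v', hv', tw2, av, av', o2, i2⟩ := mf_twin F l K K' D M2 κ L ((k + 1) * κ + θ) C2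
    (mfVs F (0 + 1) (fun _ => u) (fun _ => u'))
    (fun s hs => hC s (Or.inr hs)) hC2 hL hM2 h4 h5 (hmono _ _ (by omega)) h7b
  have c2 := mfVs_card F (0 + 1) (fun _ => v) (fun _ => v')
  set W1 := mfVs F (0 + 1) (fun _ => u) (fun _ => u') ∪ mfVs F (0 + 1) (fun _ => v) (fun _ => v')
    with hW1
  have c3 : W1.card ≤ 8 := (card_union_le _ _).trans (by omega)
  obtain ⟨r1, a, a', hr1, s1, in1, out1, av1⟩ := mf_chain F l K K' θ ζ h g k M κ L (8 * (k + 2))
    hNS h1 h2 hL hM hh h3 (hmono _ _ (by omega)) h7a u u' v v' o1 i2 W1 (by omega)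
  have c4 := mfVs_card F (r1 + 1) a a'
  have c5 : (W1 ∪ mfVs F (r1 + 1) a a').card ≤ 8 + 4 * (k + 1) :=
    (card_union_le _ _).trans (by omega)
  obtain ⟨r2, b, b', hr2, s2, in2, out2, av2⟩ := mf_chain F l K K' θ ζ h g k M κ L (8 * (k + 2))
    hNS h1 h2 hL hM hh h3 (hmono _ _ (by omega)) h7a v v' u u' o2 i1
    (W1 ∪ mfVs F (r1 + 1) a a') (by omega)
  have t1 := mf_app (mf_single tw1) s1 in1
    (fun x y hx hy => mfVs_far subset_union_left hx (av1 y hy))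
  have t2 := mf_app (mf_single tw2) s2 in2
    (fun x y hx hy => mfVs_far (subset_union_right.trans subset_union_left) hx (av2 y hy))
  have t3 := mf_app (r1 := 0 + 1 + r1) t1 t2
    (fun x y hx hy => by
      rw [mfApp_ge _ _ (by omega), mfApp_ge _ _ (by omega), Nat.add_sub_cancel_left] at hx
      rw [mfApp_lt _ _ (by omega), mfApp_lt _ _ (by omega)] at hy
      exact out1 x y hx hy)
    (fun x y hx hy => by
      rcases mfIn_app (r1 := 0 + 1) (r2 := r1 + 1) hx with hx | hx <;>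
        rcases mfIn_app hy with hy | hy
      · refine mfVs_far (subset_refl _) hx ?_
        obtain ⟨i, -, rfl | rfl⟩ := hy
        · exact av
        · exact av'
      · exact mfVs_far (subset_union_left.trans subset_union_left) hx (av2 y hy)
      · exact F.farPair_symm (mfVs_far subset_union_right hy (av1 x hx))
      · exact mfVs_far subset_union_right hx (av2 y hy))
  obtain ⟨F', f1, f2, f3, f4⟩ := merge_of_twins F L (0 + 1 + r1 + 1 + (0 + 1 + (r2 + 1)))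
    (by omega) _ _ (fun j hj x y hx hy => by
      by_cases hj' : j + 1 < 0 + 1 + r1 + 1 + (0 + 1 + (r2 + 1))
      · rw [Nat.mod_eq_of_lt hj'] at hy
        exact t3.arc j hj' x y hx hy
      · have e : j + 1 = 0 + 1 + r1 + 1 + (0 + 1 + (r2 + 1)) := by omega
        have e2 : j - (0 + 1 + r1 + 1) - (0 + 1) = r2 := by omega
        rw [e, Nat.mod_self, mfApp_lt _ _ (by omega), mfApp_lt _ _ (by omega),
          mfApp_lt _ _ (by omega), mfApp_lt _ _ (by omega)] at hy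
        rw [mfApp_ge _ _ (by omega), mfApp_ge _ _ (by omega), mfApp_ge _ _ (by omega),
          mfApp_ge _ _ (by omega), e2] at hx
        exact out2 x y hx hy) t3.tw t3.far
  refine ⟨F', f1, f2, f3, u, hu, v, hv, ?_⟩
  have f5 := f4 0 (0 + 1 + r1 + 1) (by omega) (by omega)
  rw [mfApp_lt _ _ (by omega), mfApp_lt _ _ (by omega), mfApp_ge _ _ le_rfl,
    mfApp_lt _ _ (by omega)] at f5
  exact f5

end Pool.Agent.BE
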