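import Pool.Agent.Lib.MP_dd4ef3_lc.BE.Bc
import Pool.Agent.Lib.MP_dd4ef3_lc.BE.MergeFin
import Pool.Agent.Lib.MP_dd4ef3_lc.BE.Insert

set_option autoImplicit false

open Finset Classical Filter

noncomputable section

namespace Pool.Agent.BE

variable {I : ℕ → Inst}

lemma half_le_div (n k : ℕ) (hk : 0 < k) (h : k ≤ n) : n ≤ 2 * k * (n / k) := by
  have h1 := Nat.lt_div_mul_add (a := n) (b := k) hk
  have h2 : 1 ≤ n / k := Nat.div_pos h hk
  nlinarith

theorem merging (γ : ℕ) (hγ : 0 < γ) : ∃ k : ℕ, 0 < k ∧ ∀ (J : Inst) (W : Finset (Fin J.n)),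
    k ≤ J.n → k * J.F.loops.card ≤ J.n → (∀ s, s.1 ∈ W → (J.F.mu s).1 ∈ W) →
    J.n ≤ γ * W.card → J.n ≤ γ * Wᶜ.card →
    ∃ F' : PF J.G, J.F.Improves F' ∧ (∀ v, F'.loop v ↔ J.F.loop v) ∧
      (∀ u w, J.F.Conn u w → F'.Conn u w) ∧ ∃ u ∈ W, ∃ w, w ∉ W ∧ F'.Conn u w := by
  by_contra hc
  have hc' : ∀ i : ℕ, ∃ (J : Inst) (W : Finset (Fin J.n)), i + 1 ≤ J.n ∧
      (i + 1) * J.F.loops.card ≤ J.n ∧ (∀ s, s.1 ∈ W → (J.F.mu s).1 ∈ W) ∧
      J.n ≤ γ * W.card ∧ J.n ≤ γ * Wᶜ.card ∧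
      ¬ ∃ F' : PF J.G, J.F.Improves F' ∧ (∀ v, F'.loop v ↔ J.F.loop v) ∧
        (∀ u w, J.F.Conn u w → F'.Conn u w) ∧ ∃ u ∈ W, ∃ w, w ∉ W ∧ F'.Conn u w := by
    intro i
    by_contra h
    apply hc
    refine ⟨i + 1, by omega, fun J W h1 h2 h3 h4 h5 => ?_⟩
    by_contra h6
    exact h ⟨J, W, h1, h2, h3, h4, h5, h6⟩
  choose I W h1 h2 h3 h4 h5 h6 using hc'
  have hI : Grow I := fun i => by have := h1 i; omega
  have hev : ∀ k : ℕ, ∀ᶠ i in UF, k ≤ i + 1 := fun k =>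
    (Filter.eventually_ge_atTop k).filter_mono
      (le_trans Filter.hyperfilter_le_cofinite Nat.cofinite_eq_atTop.le) |>.mono
      (fun i hi => by omega)
  have hl : Null I (fun i => (I i).F.loops.card) := (null_iff hI).2 (fun k => by
    filter_upwards [hev k] with i hi
    exact (Nat.mul_le_mul_right _ hi).trans (h2 i))
  obtain ⟨sm, l, k0, hS⟩ := structure_thm hI hl
  have hk0 := hS.pos
  obtain ⟨K, hK, hC1, hC2⟩ := hS.hub W h3
    ((not_null_iff hI).2 ⟨γ, hγ, Eventually.of_forall h4⟩)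
    ((not_null_iff hI).2 ⟨γ, hγ, Eventually.of_forall h5⟩)
  have hgood : ∀ p : VSet I,
      ¬ Null I (fun i => (univ.filter (fun s => s.1 ∈ p i ∧ l i s = K ∧
        l i ((I i).F.mu s) = mir sm K)).card) →
      ∃ kc : ℕ, 0 < kc ∧ ∀ᶠ i in UF, (I i).n ≤ kc * (univ.filter (fun s => s.1 ∈ p i ∧ l i s = K ∧
        l i ((I i).F.mu s) = mir sm K ∧ (I i).F.TypV (l i) sm ((I i).n / k0) s.1)).card := by
    intro p hp
    rw [← not_null_iff hI]
    intro hn
    apply hp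
    refine (hn.add (hS.atyp.const_mul 2)).mono (Eventually.of_forall (fun i => ?_))
    have hsub : univ.filter (fun s => s.1 ∈ p i ∧ l i s = K ∧ l i ((I i).F.mu s) = mir sm K) ⊆
        univ.filter (fun s => s.1 ∈ p i ∧ l i s = K ∧ l i ((I i).F.mu s) = mir sm K ∧
          (I i).F.TypV (l i) sm ((I i).n / k0) s.1) ∪
        ((I i).F.atyp (l i) sm ((I i).n / k0) ×ˢ (univ : Finset Bool)) := by
      intro s hs
      have hs' := (mem_filter.1 hs).2
      by_cases ht : (I i).F.TypV (l i) sm ((I i).n / k0) s.1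
      · exact mem_union_left _ (mem_filter.2 ⟨mem_univ _, hs'.1, hs'.2.1, hs'.2.2, ht⟩)
      · exact mem_union_right _ (by simpa [PF.atyp] using ht)
    have := (card_le_card hsub).trans (card_union_le _ _)
    simpa [mul_comm] using this
  obtain ⟨kc1, hkc1, hc1⟩ := hgood W hC1
  obtain ⟨kc2, hkc2, hc2⟩ := hgood (fun i => (W i)ᶜ) (by simpa only [mem_compl] using hC2)
  set M2 := 32 * k0 ^ 2 with hM2
  have hM2p : 2 ≤ M2 := by have : 0 < k0 ^ 2 := by positivity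
                           omega
  have hns0 := hS.ns (mir sm K)
  rw [hK] at hns0
  obtain ⟨k', hk', hns⟩ := ns_unif hI hns0 (M2 ^ 2) (by positivity)
  set k := 8 * k' + 1 with hk
  set M := 32 * k' with hM
  set kκ := (k + 1) * (M ^ 2 + M2 ^ 2) + (kc1 + kc2) with hkκ
  have hkκ0 : 0 < kκ := by omega
  set L := 64 * (M + M2) * kκ with hL
  have hsmall : Null I (fun i => 64 * (8 * (k + 2) + 2 * (M + M2)) * (L + 2) +
      8 * (I i).F.loops.card) := (null_const hI _).add (hl.const_mul 8)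
  obtain ⟨i, hi1, hi2, hi3, hi4, hi5, hi6, hi7⟩ := (hns.and (hc1.and (hc2.and
    ((lt_div_of_null hI hsmall kκ hkκ0).and ((ev_ge hI k0).and
      ((ev_ge hI (4 * k')).and (ev_ge hI kκ))))))).exists
  have hcard : Fintype.card (Fin (I i).n) = (I i).n := Fintype.card_fin _
  set n := (I i).n with hn
  have hκ : n / kκ * kκ ≤ n := Nat.div_mul_le_self _ _
  have hκC : ∀ kc m : ℕ, 0 < kc → kc ≤ kκ → n ≤ kc * m → n / kκ ≤ m := by
    intro kc m h0 h1 h2
    have : kc * (n / kκ) ≤ kc * m := by nlinarith [Nat.zero_le (n / kκ)]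
    exact Nat.le_of_mul_le_mul_left this h0
  have hκ1 : (k + 1) * (n / kκ) * M ^ 2 + (k + 1) * (n / kκ) * M2 ^ 2 ≤ n := by
    have : (k + 1) * (n / kκ) * M ^ 2 + (k + 1) * (n / kκ) * M2 ^ 2 =
        n / kκ * ((k + 1) * (M ^ 2 + M2 ^ 2)) := by ring
    rw [this]
    exact le_trans (Nat.mul_le_mul_left _ (Nat.le_add_right _ _)) hκ
  obtain ⟨F', hF1, hF2, hF3, a, ha, b, hb, hab⟩ := merge_fin (I i).F (l i) K (mir sm K) (n / k0)
    (n / M2 ^ 2) (n ^ 2 / k') (n / (4 * k')) (n / (4 * k')) k M M2 (n / kκ) L _ _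
    (by
      intro s hs
      have : l i s = K ∧ l i ((I i).F.mu s) = mir sm K ∧ (I i).F.TypV (l i) sm (n / k0) s.1 := by
        rcases hs with hs | hs
        · exact (mem_filter.1 hs).2.2
        · exact (mem_filter.1 hs).2.2
      obtain ⟨e1, e2, ht⟩ := this
      have h1 := (ht.2.1 s.2).1.1
      have h2 := (ht.2.1 s.2).2.1
      simp only [Prod.mk.eta] at h1 h2
      rw [e1] at h1
      rw [e2, hK] at h2
      exact ⟨h1, h2⟩)
    (hκC kc1 _ hkc1 (by omega) hi2) (hκC kc2 _ hkc2 (by omega) hi3) hi1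
    (by rw [hcard]; exact arith_leak _ _ hk') (by rw [hcard]; exact arith_layers _ _ hk')
    (by have : 1 ≤ (M + M2) * kκ := Nat.mul_pos (by omega) hkκ0
        rw [hL, mul_assoc]; omega)
    (by omega) hM2p
    (by rw [hcard]
        have := half_le_div n (4 * k') (by omega) hi6
        rw [hM]; nlinarith)
    (by rw [hcard]; omega)
    (by rw [hcard]
        have h1 := half_le_div n k0 hk0 hi5
        have h2 : n ^ 2 ≤ (2 * k0 * (n / k0)) ^ 2 := Nat.pow_le_pow_left h1 2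
        rw [hM2]; nlinarith)
    (by rw [hcard]
        have := Nat.div_mul_le_self n (M2 ^ 2)
        rw [add_mul]; omega)
    hi4.le
    (by rw [hcard]
        have := half_le_div n kκ hkκ0 hi7
        have h2 : L * (n / kκ) = 32 * (2 * kκ * (n / kκ)) * (M + M2) := by rw [hL]; ring
        rw [h2]
        exact Nat.mul_le_mul_right _ (Nat.mul_le_mul_left _ this))
  exact h6 i ⟨F', hF1, hF2, hF3, a.1, (mem_filter.1 ha).2.1, b.1, mem_compl.1 (mem_filter.1 hb).2.1, hab⟩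

end Pool.Agent.BE
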