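import Pool.Agent.Lib.MP_dd4ef3_lc.BE.Insert
import Pool.Agent.Lib.MP_dd4ef3_lc.BE.Merge
import Pool.Agent.Lib.MP_dd4ef3_lc.BE.Ham

set_option autoImplicit false

open Finset Classical Filter

noncomputable section

namespace Pool.Agent.BE

variable {I : ℕ → Inst}

section
variable {V C : Type} [Fintype V] [DecidableEq V] {G : Ctx V C}

lemma improves_trans {F F' F'' : PF G} (h : F.Improves F') (h' : F'.Improves F'') :
    F.Improves F'' :=
  ⟨fun s hs => h'.1 s (h.1 s hs), fun s hs => by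
    rw [h'.2 s hs, h.2 s (fun e => hs (h'.1 s e))]⟩

lemma loop_of_improves {F F' : PF G} (h : F.Improves F') {v : V} (hv : F'.loop v) : F.loop v := by
  have h1 := h.2 (v, false) (F'.not_real_of_loop (s := (v, false)) hv)
  unfold PF.loop at hv ⊢
  rw [← h1, hv]

lemma allReal_of_improves {F F' : PF G} (h : F.Improves F') (hF : F.AllReal) : F'.AllReal := by
  intro s hs
  by_contra hr
  have h1 := h.2 s hr
  by_cases hl : F.loop s.1
  · exact hs ((F'.loop_iff s).2 (h1.trans ((F.loop_iff s).1 hl)))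
  · exact hr (h.1 s (hF s hl))

/-- repeated merging -/
lemma merge_all (γ : ℕ) (F : PF G) (m : ℕ) (hm : F.loops.card ≤ m)
    (hM : ∀ (F : PF G) (W : Finset V), F.loops.card ≤ m → (∀ s : Stub V, s.1 ∈ W → (F.mu s).1 ∈ W) →
      Fintype.card V ≤ γ * W.card → Fintype.card V ≤ γ * Wᶜ.card →
      ∃ F' : PF G, F.Improves F' ∧ (∀ v, F'.loop v ↔ F.loop v) ∧
        (∀ u w, F.Conn u w → F'.Conn u w) ∧ ∃ u ∈ W, ∃ w, w ∉ W ∧ F'.Conn u w) :
    ∃ F' : PF G, F.Improves F' ∧ (∀ v, F'.loop v ↔ F.loop v) ∧ (∀ u w, F.Conn u w → F'.Conn u w) ∧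
      ∀ W : Finset V, (∀ s : Stub V, s.1 ∈ W → (F'.mu s).1 ∈ W) →
        Fintype.card V ≤ γ * W.card → ¬ Fintype.card V ≤ γ * Wᶜ.card := by
  induction hN : F.ncomp using Nat.strong_induction_on generalizing F with
  | _ N ih =>
    by_cases h : ∀ W : Finset V, (∀ s : Stub V, s.1 ∈ W → (F.mu s).1 ∈ W) →
        Fintype.card V ≤ γ * W.card → ¬ Fintype.card V ≤ γ * Wᶜ.card
    · exact ⟨F, ⟨fun _ h => h, fun _ _ => rfl⟩, fun _ => Iff.rfl, fun _ _ h => h, h⟩
    · push Not at h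
      obtain ⟨W, h1, h2, h3⟩ := h
      obtain ⟨F1, a1, a2, a3, u, hu, w, hw, huw⟩ := hM F W hm h1 h2 h3
      have hl : F1.loops = F.loops := by ext v; simp [PF.loops, a2]
      obtain ⟨F2, b1, b2, b3, b4⟩ := ih F1.ncomp
        (hN ▸ F.ncomp_lt F1 a3 huw (fun e => hw (F.conn_closed h1 hu e))) F1 (hl ▸ hm) rfl
      exact ⟨F2, improves_trans a1 b1, fun v => (b2 v).trans (a2 v),
        fun u w h => b3 _ _ (a3 _ _ h), b4⟩

/-- stage A -/
lemma stage_A (F : PF G) (hF : ∀ v, ¬ F.loop v)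
    (hI : ∀ F : PF G, (∀ v, ¬ F.loop v) → (∃ s, ¬ F.real s) →
      ∃ F' : PF G, F.Improves F' ∧ ∃ s, ¬ F.real s ∧ F'.real s) :
    ∃ F' : PF G, ∀ s, F'.real s := by
  induction hN : (univ.filter (fun s => ¬ F.real s)).card using Nat.strong_induction_on
    generalizing F with
  | _ N ih =>
    by_cases h : ∀ s, F.real s
    · exact ⟨F, h⟩
    · push Not at h
      obtain ⟨F1, a1, s, hs, hs'⟩ := hI F hF h
      refine ih _ (hN ▸ card_lt_card ⟨?_, ?_⟩) F1 (fun v hv => hF v (loop_of_improves a1 hv)) rfl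
      · intro t ht
        simp only [mem_filter, mem_univ, true_and] at ht ⊢
        exact fun e => ht (a1.1 t e)
      · intro hsub
        have := hsub (mem_filter.2 ⟨mem_univ s, hs⟩)
        exact (mem_filter.1 this).2 hs'

/-- stage C -/
lemma stage_C (γ L m : ℕ) (hL : Fintype.card V ≤ γ * (L + 1)) (hm : m + L < Fintype.card V)
    (hI : ∀ F : PF G, F.loops.card ≤ m → F.Per L → (∃ s, ¬ F.real s) →
      ∃ F' : PF G, F.Improves F' ∧ (∃ s, ¬ F.real s ∧ F'.real s) ∧
        ∀ v, L < (F'.comp v).card ∨ F'.comp v = F.comp v)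
    (hM : ∀ (F : PF G) (W : Finset V), F.loops.card ≤ m → (∀ s : Stub V, s.1 ∈ W → (F.mu s).1 ∈ W) →
      Fintype.card V ≤ γ * W.card → Fintype.card V ≤ γ * Wᶜ.card →
      ∃ F' : PF G, F.Improves F' ∧ (∀ v, F'.loop v ↔ F.loop v) ∧
        (∀ u w, F.Conn u w → F'.Conn u w) ∧ ∃ u ∈ W, ∃ w, w ∉ W ∧ F'.Conn u w)
    (F : PF G) (h1 : F.AllReal) (h2 : F.loops.card ≤ m)
    (h3 : ∀ u w, ¬ F.loop u → ¬ F.loop w → F.Conn u w) :
    ∃ F' : PF G, (∀ s, F'.real s) ∧ ∀ u w, F'.Conn u w := by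
  induction hN : F.loops.card using Nat.strong_induction_on generalizing F with
  | _ N ih =>
    by_cases h : ∀ v, ¬ F.loop v
    · exact ⟨F, fun s => h1 s (h _), fun u w => h3 u w (h u) (h w)⟩
    push Not at h
    obtain ⟨v0, hv0⟩ := h
    have hbig : ∀ v, ¬ F.loop v → L < (F.comp v).card := by
      intro v hv
      have hsub : F.loopsᶜ ⊆ F.comp v := by
        intro w hw
        exact F.mem_comp.2 (h3 v w hv (by simpa [PF.loops] using hw))
      have := card_le_card hsub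
      rw [card_compl] at this
      omega
    obtain ⟨F1, a1, ⟨s, hs, hs'⟩, a3⟩ := hI F h2
      (fun s hs j => F.per_of_comp (hbig _ hs) j) ⟨(v0, false), F.not_real_of_loop hv0⟩
    have hlt : F1.loops.card < F.loops.card := by
      refine card_lt_card ⟨?_, ?_⟩
      · intro v hv
        simp only [PF.loops, mem_filter, mem_univ, true_and] at hv ⊢
        exact loop_of_improves a1 hv
      · intro hsub
        have h4 : F.loop s.1 := by
          by_contra h5; exact hs (h1 s h5)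
        have := hsub (show s.1 ∈ F.loops by simpa [PF.loops] using h4)
        exact F1.not_real_of_loop (by simpa [PF.loops] using this) hs'
    have hbig1 : ∀ v, ¬ F1.loop v → L < (F1.comp v).card := by
      intro v hv
      rcases a3 v with h | h
      · exact h
      · rw [h]
        apply hbig
        intro hl
        exact hv ((F1.loop_iff_comp v).2 (h.trans ((F.loop_iff_comp v).1 hl)))
    obtain ⟨F2, b1, b2, b3, b4⟩ := merge_all γ F1 m (by omega) hM
    have hl2 : F2.loops = F1.loops := by ext v; simp [PF.loops, b2]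
    have hbig2 : ∀ v, ¬ F2.loop v → L + 1 ≤ (F2.comp v).card := by
      intro v hv
      refine le_trans (hbig1 v (fun e => hv ((b2 v).2 e))) (card_le_card (fun w hw => ?_))
      exact F2.mem_comp.2 (b3 _ _ (F1.mem_comp.1 hw))
    refine ih F2.loops.card (by rw [hl2]; omega) F2
      (allReal_of_improves b1 (allReal_of_improves a1 h1)) (by rw [hl2]; omega) ?_ rfl
    intro u w hu hw
    by_contra hc
    refine b4 (F2.comp u) (F2.comp_closed u) (hL.trans (Nat.mul_le_mul_left _ (hbig2 u hu)))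
      (hL.trans (Nat.mul_le_mul_left _ ((hbig2 w hw).trans (card_le_card (fun x hx => ?_)))))
    rw [mem_compl, PF.mem_comp]
    exact fun e => hc (F2.conn_trans e (F2.conn_symm (F2.mem_comp.1 hx)))

end

theorem be_main : ∃ n0 : ℕ, ∀ n, n0 ≤ n → ∀ (C : Type) (G : Ctx (Fin n) C),
    ∃ F : PF G, (∀ s, F.real s) ∧ ∀ u w, F.Conn u w := by
  obtain ⟨k1, hk1, hins⟩ := insertion
  obtain ⟨k2, hk2, hmer⟩ := merging (4 * k1) (by omega)
  obtain ⟨k3, hk3, hmer'⟩ := merging (4 * k1 + k2) (by omega)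
  refine ⟨4 * k1 + k2 + k3, fun n hn C G => ?_⟩
  have hcard : Fintype.card (Fin n) = n := Fintype.card_fin _
  set γ := 4 * k1 + k2 with hγ
  set m := n / γ with hm
  have hm1 : m * γ ≤ n := Nat.div_mul_le_self _ _
  have hL1 : n / (4 * k1) * (4 * k1) ≤ n := Nat.div_mul_le_self _ _
  have hL2 : n < n / (4 * k1) * (4 * k1) + 4 * k1 := Nat.lt_div_mul_add (by omega)
  obtain ⟨F0, hF0⟩ := exists_start G (by rw [hcard]; omega)
  obtain ⟨F1, hF1⟩ := stage_A F0 hF0 (fun F hF hs => by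
    have hl : F.loops = ∅ := by ext v; simp [PF.loops, hF]
    obtain ⟨F', a1, a2, _⟩ := hins ⟨n, C, G, F⟩ 0 (by simp only; omega) (by simp [hl]) (by simp)
      (fun s _ j h1 h2 => by omega) hs
    exact ⟨F', a1, a2⟩)
  have hl1 : F1.loops = ∅ := by
    ext v
    simp only [PF.loops, mem_filter, mem_univ, true_and, notMem_empty, iff_false]
    exact fun h => F1.not_real_of_loop (s := (v, false)) h (hF1 _)
  obtain ⟨F2, b1, b2, b3, b4⟩ := merge_all γ F1 0 (by simp [hl1]) (fun F W h0 h1 h2 h3 => by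
    rw [hcard] at h2 h3
    exact hmer' ⟨n, C, G, F⟩ W (by simp only; omega)
      (by simp only; rw [Nat.le_zero.1 h0]; simp) h1 h2 h3)
  obtain ⟨v0, hv0⟩ := exists_giant F2 γ (by omega) (by rw [hcard]; omega) b4
  obtain ⟨F3, c1, c2, c3⟩ := exists_restrict F2 (fun s _ => b1.1 s (hF1 s)) v0
  rw [hcard] at hv0
  have hcm : (F2.comp v0)ᶜ.card ≤ m := by
    rw [hm, Nat.le_div_iff_mul_le (by omega), mul_comm]; omega
  have hcc : (F2.comp v0)ᶜ.card = n - (F2.comp v0).card := by rw [card_compl, hcard]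
  have hmn : 4 * m ≤ n := by nlinarith
  refine stage_C (4 * k1) (n / (4 * k1)) m (by rw [hcard]; nlinarith) (by rw [hcard]; nlinarith)
    (fun F h0 h1 h2 => hins ⟨n, C, G, F⟩ _ (by simp only; omega) (by simp only; nlinarith)
      (by simp only; nlinarith) h1 h2)
    (fun F W h0 h1 h2 h3 => by
      rw [hcard] at h2 h3
      exact hmer ⟨n, C, G, F⟩ W (by simp only; omega) (by simp only; nlinarith) h1 h2 h3)
    F3 c1 ?_ ?_
  · refine le_trans (card_le_card (fun v hv => ?_)) hcm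
    rw [mem_compl, PF.mem_comp]
    intro hc
    have h1 : F3.loop v := by simpa [PF.loops] using hv
    have h2 := (F3.loop_iff_comp v).1 h1
    rw [c3 v hc] at h2
    rw [h2, card_singleton] at hcc
    rw [h2] at hcm
    omega
  · intro u w hu hw
    rw [← PF.mem_comp, c3 u (c2 u hu), PF.mem_comp]
    exact c2 w hw

theorem local_bollobas_erdos : ∃ n0 : ℕ, ∀ n, n0 ≤ n → ∀ (C : Type) (c : Fin n → Fin n → C),
    (∀ (v : Fin n) (a : C), Set.ncard {w : Fin n | w ≠ v ∧ c v w = a} < n / 2) →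
      ∃ σ : Equiv.Perm (Fin n), (∀ v, σ v ≠ v ∧ σ (σ v) ≠ v ∧ c (σ v) v ≠ c (σ v) (σ (σ v))) ∧
        ∀ u v, σ.SameCycle u v := by
  obtain ⟨n0, h⟩ := be_main
  refine ⟨n0, fun n hn C c hdeg => ?_⟩
  let G : Ctx (Fin n) C :=
    { c := c
      deg := fun v a => by
        have h1 := hdeg v a
        have h2 : Set.ncard {w : Fin n | w ≠ v ∧ c v w = a} =
            (univ.filter (fun w => w ≠ v ∧ c v w = a)).card := by
          rw [← Set.ncard_coe_finset]; congr 1; ext w; simp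
        rw [Fintype.card_fin]
        omega }
  obtain ⟨F, h1, h2⟩ := h n hn C G
  exact ham_of_conn F h1 h2

theorem bollobas_erdos : ∃ n0 : ℕ, ∀ n, n0 ≤ n → ∀ (C : Type) (col : Sym2 (Fin n) → C),
    (∀ (v : Fin n) (a : C), Set.ncard {w : Fin n | w ≠ v ∧ col s(v, w) = a} < n / 2) →
      PCHam.HasPCHamiltonCycle col := by
  obtain ⟨n0, h⟩ := local_bollobas_erdos
  refine ⟨n0, fun n hn C col hdeg => ?_⟩
  obtain ⟨σ, h1, h2⟩ := h n hn C (fun u w => col s(u, w)) hdeg
  exact ⟨σ, fun v => ⟨(h1 v).1, (h1 v).2.1, by rw [Sym2.eq_swap]; exact (h1 v).2.2⟩, h2⟩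

end Pool.Agent.BE
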