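import Pool.Agent.Lib.MP_dd4ef3_lc.BE.Basic

set_option autoImplicit false

open Finset Classical Filter

noncomputable section

namespace Pool.Agent.BE

variable {I : ℕ → Inst}

/-- negligible against a sequence of natural numbers -/
def limNl (N f : ℕ → ℕ) : Prop := Tendsto (fun i => (f i : ℝ) / (N i : ℝ)) UF (nhds 0)

lemma lim_atTop (k : ℕ) : ∀ᶠ i in UF, k ≤ i :=
  Nat.hyperfilter_le_atTop (eventually_ge_atTop k)

lemma lim_iff {N f : ℕ → ℕ} (hN : ∀ᶠ i in UF, 0 < N i) :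
    limNl N f ↔ ∀ k : ℕ, ∀ᶠ i in UF, k * f i ≤ N i := by
  constructor
  · intro h k
    have h1 := h.eventually (gt_mem_nhds (show (0 : ℝ) < 1 / ((k : ℝ) + 1) by positivity))
    filter_upwards [h1, hN] with i hi h0
    have h0' : (0 : ℝ) < N i := by exact_mod_cast h0
    rw [div_lt_div_iff₀ h0' (by positivity)] at hi
    have : ((k * f i : ℕ) : ℝ) ≤ N i := by
      push_cast
      nlinarith [Nat.cast_nonneg (α := ℝ) (f i)]
    exact_mod_cast this
  · intro h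
    refine tendsto_order.2 ⟨fun a ha => Eventually.of_forall fun i => ha.trans_le (by positivity),
      fun a ha => ?_⟩
    obtain ⟨k, hk⟩ := exists_nat_one_div_lt ha
    filter_upwards [h (k + 1), hN] with i hi h0
    have h0' : (0 : ℝ) < N i := by exact_mod_cast h0
    have hi' : (((k + 1) * f i : ℕ) : ℝ) ≤ N i := by exact_mod_cast hi
    push_cast at hi'
    refine lt_of_le_of_lt ?_ hk
    rw [div_le_div_iff₀ h0' (by positivity)]
    linarith

lemma lim_not_iff {N f : ℕ → ℕ} (hN : ∀ᶠ i in UF, 0 < N i) :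
    ¬ limNl N f ↔ ∃ k : ℕ, 0 < k ∧ ∀ᶠ i in UF, N i ≤ k * f i := by
  rw [lim_iff hN]
  constructor
  · intro h
    obtain ⟨k, hk⟩ := not_forall.1 h
    refine ⟨k + 1, Nat.succ_pos k, ?_⟩
    filter_upwards [Ultrafilter.eventually_not.2 hk] with i hi
    rw [Nat.succ_mul]
    omega
  · rintro ⟨k, -, hk⟩ h
    obtain ⟨i, h1, h2, h3⟩ := (hk.and ((h (2 * k)).and hN)).exists
    rw [mul_assoc] at h2
    omega

lemma lim_mono {N f g : ℕ → ℕ} (h : limNl N g) (hfg : ∀ᶠ i in UF, f i ≤ g i) : limNl N f := by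
  refine squeeze_zero' (Eventually.of_forall fun i => by positivity) ?_ h
  filter_upwards [hfg] with i hi
  exact div_le_div_of_nonneg_right (by exact_mod_cast hi) (by positivity)

lemma lim_add {N f g : ℕ → ℕ} (hf : limNl N f) (hg : limNl N g) :
    limNl N (fun i => f i + g i) := by
  have := Tendsto.add hf hg
  rw [add_zero] at this
  exact this.congr fun i => by push_cast; ring

lemma lim_mul {N f : ℕ → ℕ} (hf : limNl N f) (c : ℕ) : limNl N (fun i => c * f i) := by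
  have := Tendsto.const_mul (c : ℝ) hf
  rw [mul_zero] at this
  exact this.congr fun i => by push_cast; ring

lemma lim_sum {N : ℕ → ℕ} {ι : Type} (S : Finset ι) (f : ι → ℕ → ℕ) (h : ∀ j ∈ S, limNl N (f j)) :
    limNl N (fun i => ∑ j ∈ S, f j i) := by
  have := tendsto_finsetSum S h
  rw [sum_const_zero] at this
  exact this.congr fun i => by push_cast; rw [sum_div]

lemma lim_two {f : ℕ → ℕ} : Null2 I f ↔ limNl (fun i => (I i).n ^ 2) f := by
  unfold Null2 limNl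
  simp only [Nat.cast_pow]

lemma ev_ge (hI : Grow I) (k : ℕ) : ∀ᶠ i in UF, k ≤ (I i).n :=
  (lim_atTop k).mono fun i hi => hi.trans (hI i)

lemma lim_pos2 (hI : Grow I) : ∀ᶠ i in UF, 0 < (I i).n ^ 2 :=
  (ev_ge hI 1).mono fun _ hi => pow_pos hi 2

lemma null_iff (hI : Grow I) {f : ℕ → ℕ} : Null I f ↔ ∀ k : ℕ, ∀ᶠ i in UF, k * f i ≤ (I i).n :=
  lim_iff (N := fun i => (I i).n) (ev_ge hI 1)
lemma null2_iff (hI : Grow I) {f : ℕ → ℕ} :
    Null2 I f ↔ ∀ k : ℕ, ∀ᶠ i in UF, k * f i ≤ (I i).n ^ 2 :=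
  lim_two.trans (lim_iff (lim_pos2 hI))
lemma not_null_iff (hI : Grow I) {f : ℕ → ℕ} :
    ¬ Null I f ↔ ∃ k : ℕ, 0 < k ∧ ∀ᶠ i in UF, (I i).n ≤ k * f i :=
  lim_not_iff (N := fun i => (I i).n) (ev_ge hI 1)
lemma not_null2_iff (hI : Grow I) {f : ℕ → ℕ} :
    ¬ Null2 I f ↔ ∃ k : ℕ, 0 < k ∧ ∀ᶠ i in UF, (I i).n ^ 2 ≤ k * f i :=
  (not_congr lim_two).trans (lim_not_iff (lim_pos2 hI))
lemma Null.mono {f g : ℕ → ℕ} (h : Null I g) (hfg : ∀ᶠ i in UF, f i ≤ g i) : Null I f :=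
  lim_mono (N := fun i => (I i).n) h hfg
lemma Null.add {f g : ℕ → ℕ} (hf : Null I f) (hg : Null I g) : Null I (fun i => f i + g i) :=
  lim_add (N := fun i => (I i).n) hf hg
lemma Null.const_mul {f : ℕ → ℕ} (hf : Null I f) (c : ℕ) : Null I (fun i => c * f i) :=
  lim_mul (N := fun i => (I i).n) hf c
lemma null_const (hI : Grow I) (c : ℕ) : Null I (fun _ => c) :=
  (null_iff hI).2 fun k => ev_ge hI (k * c)
lemma null_sum {ι : Type} (S : Finset ι) (f : ι → ℕ → ℕ) (h : ∀ j ∈ S, Null I (f j)) :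
    Null I (fun i => ∑ j ∈ S, f j i) := lim_sum (N := fun i => (I i).n) S f h
lemma not_null_n (hI : Grow I) : ¬ Null I (fun i => (I i).n) :=
  (not_null_iff hI).2 ⟨1, one_pos, Eventually.of_forall fun _ => (one_mul _).ge⟩
lemma Null2.mono {f g : ℕ → ℕ} (h : Null2 I g) (hfg : ∀ᶠ i in UF, f i ≤ g i) : Null2 I f :=
  lim_two.2 (lim_mono (lim_two.1 h) hfg)
lemma Null2.add {f g : ℕ → ℕ} (hf : Null2 I f) (hg : Null2 I g) :
    Null2 I (fun i => f i + g i) := lim_two.2 (lim_add (lim_two.1 hf) (lim_two.1 hg))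
lemma Null2.const_mul {f : ℕ → ℕ} (hf : Null2 I f) (c : ℕ) : Null2 I (fun i => c * f i) :=
  lim_two.2 (lim_mul (lim_two.1 hf) c)
lemma null2_sum {ι : Type} (S : Finset ι) (f : ι → ℕ → ℕ) (h : ∀ j ∈ S, Null2 I (f j)) :
    Null2 I (fun i => ∑ j ∈ S, f j i) := lim_two.2 (lim_sum S f fun j hj => lim_two.1 (h j hj))
lemma Null.mul_n {f : ℕ → ℕ} (hf : Null I f) : Null2 I (fun i => f i * (I i).n) := by
  refine Tendsto.congr (fun i => ?_) hf
  by_cases h : ((I i).n : ℝ) = 0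
  · simp [h]
  · push_cast
    field_simp
lemma not_null2_mul (hI : Grow I) {f g : ℕ → ℕ} (hf : ¬ Null I f) (hg : ¬ Null I g) :
    ¬ Null2 I (fun i => f i * g i) := by
  obtain ⟨k, k0, hk⟩ := (not_null_iff hI).1 hf
  obtain ⟨l, l0, hl⟩ := (not_null_iff hI).1 hg
  refine (not_null2_iff hI).2 ⟨k * l, Nat.mul_pos k0 l0, ?_⟩
  filter_upwards [hk, hl] with i h1 h2
  calc (I i).n ^ 2 = (I i).n * (I i).n := sq _
    _ ≤ (k * f i) * (l * g i) := Nat.mul_le_mul h1 h2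
    _ = _ := by ring
lemma markov (hI : Grow I) {α : ℕ → Type} [∀ i, Fintype (α i)] (d : ∀ i, α i → ℕ)
    (h : Null2 I (fun i => ∑ a, d i a)) :
    ∃ g : ℕ → ℕ, Null I g ∧ Null I (fun i => (univ.filter (fun a => g i < d i a)).card) := by
  have hg : Null I (fun i => Nat.sqrt (∑ a, d i a) + 1) := by
    refine (null_iff hI).2 fun k => ?_
    filter_upwards [(null2_iff hI).1 h ((2 * k) ^ 2), ev_ge hI (2 * k)] with i h1 h2
    have h3 : (2 * k * Nat.sqrt (∑ a, d i a)) ^ 2 ≤ (I i).n ^ 2 := by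
      rw [mul_pow]
      exact (Nat.mul_le_mul_left _ (Nat.sqrt_le' _)).trans h1
    have h4 := (Nat.pow_le_pow_iff_left two_ne_zero).1 h3
    rw [mul_assoc] at h4
    rw [mul_add]
    omega
  refine ⟨_, hg, hg.mono (Eventually.of_forall fun i => ?_)⟩
  have h1 : (univ.filter (fun a => Nat.sqrt (∑ a, d i a) + 1 < d i a)).card *
      (Nat.sqrt (∑ a, d i a) + 1) ≤ ∑ a, d i a := by
    rw [← smul_eq_mul]
    exact (card_nsmul_le_sum _ _ _ fun a ha => (mem_filter.1 ha).2.le).trans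
      (sum_le_sum_of_subset (filter_subset _ _))
  exact (Nat.lt_of_mul_lt_mul_right (h1.trans_lt (Nat.lt_succ_sqrt _))).le
lemma diag {β : ℕ → Type} [∀ i, Nonempty (β i)] (P : ℕ → ∀ i, β i → Prop)
    (hm : ∀ j i y, P (j + 1) i y → P j i y) (h : ∀ j, ∀ᶠ i in UF, ∃ y, P j i y) :
    ∃ y : ∀ i, β i, ∀ j, ∀ᶠ i in UF, P j i (y i) := by
  have down : ∀ i y j d, P (j + d) i y → P j i y := by
    intro i y j d
    induction d with
    | zero => exact id
    | succ d ih => exact fun hd => ih (hm _ _ _ hd)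
  have ex : ∀ i, ∃ y : β i, (∃ z, P (Nat.findGreatest (fun j => ∃ z, P j i z) i) i z) →
      P (Nat.findGreatest (fun j => ∃ z, P j i z) i) i y := by
    intro i
    by_cases hz : ∃ z, P (Nat.findGreatest (fun j => ∃ z, P j i z) i) i z
    · obtain ⟨z, hz⟩ := hz
      exact ⟨z, fun _ => hz⟩
    · exact ⟨Classical.arbitrary _, fun h' => absurd h' hz⟩
  choose y hy using ex
  refine ⟨y, fun j => ?_⟩
  filter_upwards [h j, lim_atTop j] with i h1 h2
  have h3 := Nat.le_findGreatest (P := fun j => ∃ z, P j i z) h2 h1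
  have h4 := hy i (Nat.findGreatest_spec (P := fun j => ∃ z, P j i z) h2 h1)
  obtain ⟨d, hd⟩ := Nat.exists_eq_add_of_le h3
  rw [hd] at h4
  exact down _ _ _ _ h4
lemma has_lim (f : ℕ → ℕ) (c : ℕ) (hf : ∀ i, f i ≤ c * (I i).n) :
    ∃ a : ℝ, Tendsto (fun i => (f i : ℝ) / ((I i).n : ℝ)) UF (nhds a) := by
  obtain ⟨a, -, ha⟩ := (isCompact_Icc (a := (0 : ℝ)) (b := c)).ultrafilter_le_nhds
    (Ultrafilter.map (fun i => (f i : ℝ) / ((I i).n : ℝ)) (hyperfilter ℕ)) (by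
      rw [Ultrafilter.coe_map, le_principal_iff, Filter.mem_map]
      refine Eventually.of_forall fun i => ⟨by positivity, ?_⟩
      exact div_le_of_le_mul₀ (by positivity) (by positivity) (by exact_mod_cast hf i))
  exact ⟨a, ha⟩

end Pool.Agent.BE
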