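import Pool.Agent.Lib.MP_dd4ef3_lc.BE.Lim

set_option autoImplicit false

open Finset Classical Filter

noncomputable section

namespace Pool.Agent.BE

section fin

variable {V C : Type} [Fintype V] [DecidableEq V] {G : Ctx V C} (F : PF G)

lemma limCl_inter (A B : Finset (Stub V)) : F.leak (A ∩ B) ≤ F.leak A + F.leak B := by
  unfold PF.leak
  refine le_trans (card_le_card fun p hp => ?_) (card_union_le _ _)
  simp only [mem_filter, mem_univ, true_and, mem_inter, mem_union] at hp ⊢
  tauto

lemma limCl_union (A B : Finset (Stub V)) : F.leak (A ∪ B) ≤ F.leak A + F.leak B := by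
  unfold PF.leak
  refine le_trans (card_le_card fun p hp => ?_) (card_union_le _ _)
  simp only [mem_filter, mem_univ, true_and, mem_union] at hp ⊢
  tauto

lemma limCl_compl (A : Finset (Stub V)) :
    F.leak (univ.filter (fun s => F.mu s ∉ A)) ≤ F.leak A := by
  unfold PF.leak
  refine card_le_card_of_injOn Prod.swap (fun p hp => ?_) Prod.swap_injective.injOn
  simp only [coe_filter, mem_filter, mem_univ, true_and, Set.mem_ofPred_eq, PF.mu_mu, not_not,
    Prod.fst_swap, Prod.snd_swap] at hp ⊢
  exact ⟨hp.2.2, F.adj_symm hp.2.1, hp.1⟩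

lemma limCl_congr (A B : Finset (Stub V)) : F.leak B ≤ F.leak A +
    (2 * ((B \ A).card * Fintype.card V) + 2 * ((A \ B).card * Fintype.card V)) := by
  have h1 : ((B \ A) ×ˢ (univ : Finset (Stub V))).card = 2 * ((B \ A).card * Fintype.card V) := by
    rw [card_product, card_univ, card_stub]; ring
  have h2 : ((univ : Finset (Stub V)) ×ˢ (A \ B).image F.mu).card ≤
      2 * ((A \ B).card * Fintype.card V) := by
    rw [card_product, card_univ, card_stub, mul_assoc, mul_comm (Fintype.card V)]
    exact Nat.mul_le_mul_left _ (Nat.mul_le_mul_right _ card_image_le)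
  unfold PF.leak
  refine le_trans (card_le_card fun p hp => ?_) ((card_union_le _ _).trans
    (Nat.add_le_add_left ((card_union_le _ _).trans (Nat.add_le_add h1.le h2)) _))
  simp only [mem_filter, mem_univ, true_and, mem_union, mem_product, and_true,
    Finset.mem_sdiff, mem_image] at hp ⊢
  by_cases a1 : p.1 ∈ A
  · by_cases a2 : F.mu p.2 ∈ A
    · exact Or.inr (Or.inr ⟨F.mu p.2, ⟨a2, hp.2.2⟩, F.mu_mu _⟩)
    · exact Or.inl ⟨a1, hp.2.1, a2⟩
  · exact Or.inr (Or.inl ⟨hp.1, a1⟩)

lemma limCl_dense {A X Y : Finset (Stub V)} (hX : X ⊆ A) (hY : ∀ t ∈ Y, F.mu t ∉ A) :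
    X.card * Y.card ≤ F.leak A + ((X ×ˢ Y).filter (fun p => ¬ F.adj p.1 p.2)).card := by
  unfold PF.leak
  rw [← card_product]
  refine le_trans (card_le_card fun p hp => ?_) (card_union_le _ _)
  simp only [mem_filter, mem_univ, true_and, mem_union]
  by_cases a : F.adj p.1 p.2
  · exact Or.inl ⟨hX (mem_product.1 hp).1, a, hY _ (mem_product.1 hp).2⟩
  · exact Or.inr ⟨hp, a⟩

lemma limCl_pair {U W : Finset V} {E : Finset (V × V)}
    (h : ¬ ∃ u ∈ U, ∃ w ∈ W, u ≠ w ∧ (u, w) ∉ E) :
    U.card * W.card ≤ E.card + 1 * Fintype.card V := by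
  rw [← card_product, one_mul, ← card_univ]
  refine le_trans (card_le_card fun p hp => ?_) ((card_union_le E (univ.image fun v => (v, v))).trans
    (Nat.add_le_add_left card_image_le _))
  by_cases a : p ∈ E
  · exact mem_union_left _ a
  · refine mem_union_right _ (mem_image.2 ⟨p.1, mem_univ _, Prod.ext rfl ?_⟩)
    by_contra b
    exact h ⟨p.1, (mem_product.1 hp).1, p.2, (mem_product.1 hp).2, b, a⟩

lemma limCl_atyp (l : Stub V → Node) (sm : Bool) (D : ℕ) (S : Finset V)
    (hS : ∀ v, sm = false → lv true (l (v, false)) = lv true (l (v, true)) → v ∈ S) :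
    (F.atyp l sm D).card ≤ F.loops.card +
      (2 * (univ.filter (fun s => ¬ F.Typ l sm D s)).card + S.card) := by
  set B := univ.filter (fun s => ¬ F.Typ l sm D s) with hB
  have h1 : F.atyp l sm D ⊆
      F.loops ∪ ((B.image Prod.fst ∪ B.image (fun s => (F.mu s).1)) ∪ S) := by
    intro v hv
    have hv' : ¬ F.TypV l sm D v := (mem_filter.1 hv).2
    by_contra a
    simp only [mem_union, not_or] at a
    refine hv' ⟨fun b => a.1 (mem_filter.2 ⟨mem_univ _, b⟩), fun b => ⟨?_, ?_⟩,
      fun b c => a.2.2 (hS v b c)⟩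
    · by_contra c
      exact a.2.1.1 (mem_image.2 ⟨(v, b), mem_filter.2 ⟨mem_univ _, c⟩, rfl⟩)
    · by_contra c
      exact a.2.1.2 (mem_image.2 ⟨F.mu (v, b), mem_filter.2 ⟨mem_univ _, c⟩, by rw [F.mu_mu]⟩)
  have h2 := card_le_card h1
  have h3 := card_union_le F.loops ((B.image Prod.fst ∪ B.image (fun s => (F.mu s).1)) ∪ S)
  have h4 := card_union_le (B.image Prod.fst ∪ B.image (fun s => (F.mu s).1)) S
  have h5 := card_union_le (B.image Prod.fst) (B.image (fun s => (F.mu s).1))
  have h6 : (B.image Prod.fst).card ≤ B.card := card_image_le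
  have h7 : (B.image (fun s => (F.mu s).1)).card ≤ B.card := card_image_le
  omega

end fin

variable {I : ℕ → Inst}

lemma limCl_not_null (hI : Grow I) {k : ℕ} (hk : 0 < k) {f : ℕ → ℕ}
    (h : ∀ᶠ i in UF, (I i).n / k ≤ f i) : ¬ Null I f := by
  refine (not_null_iff hI).2 ⟨2 * k, by omega, ?_⟩
  filter_upwards [h, ev_ge hI k] with i h1 h2
  have h3 : 1 ≤ (I i).n / k := (Nat.le_div_iff_mul_le hk).2 (by omega)
  have h4 := Nat.lt_mul_div_succ (I i).n hk
  have h5 : k * ((I i).n / k + 1) ≤ k * (2 * f i) := Nat.mul_le_mul_left _ (by omega)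
  calc (I i).n ≤ k * (2 * f i) := h4.le.trans h5
    _ = 2 * k * f i := by ring

lemma ns_unif (hI : Grow I) {l : Lab I} {K K' : Node} (h : NSlim I l K K') (k : ℕ) (hk : 0 < k) :
    ∃ k' : ℕ, 0 < k' ∧ ∀ᶠ i in UF, (I i).F.NSfin (l i) K K' ((I i).n / k) ((I i).n ^ 2 / k') := by
  by_contra hc
  obtain ⟨A, hA⟩ := diag (β := fun i => Finset (Stub (Fin (I i).n)))
    (fun j i A => (I i).F.leak A ≤ (I i).n ^ 2 / (j + 1) ∧
      (I i).n / k ≤ (A.filter (fun s => l i ((I i).F.mu s) = K)).card ∧
      (I i).n / k ≤ (univ.filter (fun s => l i s = K' ∧ s ∉ A)).card)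
    (fun j i A a => ⟨a.1.trans (Nat.div_le_div_left (Nat.le_succ _) (Nat.succ_pos _)), a.2⟩)
    fun j => by
      have := Ultrafilter.eventually_not.2 fun a => hc ⟨j + 1, Nat.succ_pos _, a⟩
      filter_upwards [this] with i hi
      by_contra b
      exact hi fun A a1 a2 => not_le.1 fun a3 => b ⟨A, a1, a2, a3⟩
  refine limCl_not_null hI hk ((hA 0).mono fun i a => a.2.2)
    (h A ((null2_iff hI).2 fun j => (hA j).mono fun i a => ?_)
      (limCl_not_null hI hk ((hA 0).mono fun i a => a.2.1)))
  have := (Nat.le_div_iff_mul_le (Nat.succ_pos j)).1 a.1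
  calc j * (I i).F.leak (A i) ≤ (j + 1) * (I i).F.leak (A i) :=
        Nat.mul_le_mul_right _ (Nat.le_succ _)
    _ ≤ (I i).n ^ 2 := by rwa [mul_comm]
lemma Closed.inter {A B : SSet I} (hA : Closed I A) (hB : Closed I B) :
    Closed I (fun i => A i ∩ B i) :=
  (Null2.add hA hB).mono (Eventually.of_forall fun i => limCl_inter (I i).F (A i) (B i))
lemma Closed.union {A B : SSet I} (hA : Closed I A) (hB : Closed I B) :
    Closed I (fun i => A i ∪ B i) :=
  (Null2.add hA hB).mono (Eventually.of_forall fun i => limCl_union (I i).F (A i) (B i))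
lemma Closed.compl_mu {A : SSet I} (hA : Closed I A) :
    Closed I (fun i => univ.filter (fun s => (I i).F.mu s ∉ A i)) :=
  Null2.mono hA (Eventually.of_forall fun i => limCl_compl (I i).F (A i))
lemma Closed.congr {A B : SSet I} (hA : Closed I A) (h1 : Null I (fun i => (A i \ B i).card))
    (h2 : Null I (fun i => (B i \ A i).card)) : Closed I B :=
  (Null2.add hA ((h2.mul_n.const_mul 2).add (h1.mul_n.const_mul 2))).mono
    (Eventually.of_forall fun i => by
      simpa only [Fintype.card_fin] using limCl_congr (I i).F (A i) (B i))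
lemma closed_univ : Closed I (fun _ => univ) := by
  simp [Closed, Null2, PF.leak]
/-- two almost completely joined sets, one in `A`, the other with partners outside `A` -/
lemma dense_leak (hI : Grow I) {A X Y : SSet I} (hA : Closed I A) (hX : ∀ i, X i ⊆ A i)
    (hY : ∀ i, ∀ t ∈ Y i, (I i).F.mu t ∉ A i)
    (h : Null2 I (fun i => ((X i ×ˢ Y i).filter (fun p => ¬ (I i).F.adj p.1 p.2)).card))
    (hn : ¬ Null I (fun i => (X i).card)) : Null I (fun i => (Y i).card) := by
  by_contra hc
  exact not_null2_mul hI hn hc ((Null2.add hA h).mono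
    (Eventually.of_forall fun i => limCl_dense (I i).F (hX i) (hY i)))
/-- two non-null vertex sets contain a pair of distinct vertices outside a `Null2` set of pairs -/
lemma exists_pair (hI : Grow I) {U W : VSet I} (hU : ¬ Null I (fun i => (U i).card))
    (hW : ¬ Null I (fun i => (W i).card)) (E : ∀ i, Finset (Fin (I i).n × Fin (I i).n))
    (hE : Null2 I (fun i => (E i).card)) :
    ∀ᶠ i in UF, ∃ u ∈ U i, ∃ w ∈ W i, u ≠ w ∧ (u, w) ∉ E i := by
  by_contra hc
  refine not_null2_mul hI hU hW ((hE.add (null_const hI 1).mul_n).mono ?_)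
  filter_upwards [Ultrafilter.eventually_not.2 hc] with i hi
  simpa only [Fintype.card_fin] using limCl_pair hi
/-- atypical vertices are null as soon as atypical stubs are -/
lemma atyp_null (l : Lab I) (sm : Bool) (D : ℕ → ℕ)
    (hl : Null I (fun i => (I i).F.loops.card))
    (h1 : Null I (fun i => (univ.filter (fun s => ¬ (I i).F.Typ (l i) sm (D i) s)).card))
    (h2 : sm = false → Null I (fun i => (univ.filter
      (fun v => lv true (l i (v, false)) = lv true (l i (v, true)))).card)) :
    Null I (fun i => ((I i).F.atyp (l i) sm (D i)).card) := by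
  cases sm with
  | false =>
    exact (hl.add ((h1.const_mul 2).add (h2 rfl))).mono (Eventually.of_forall fun i =>
      limCl_atyp (I i).F (l i) false (D i) _ fun v _ a => mem_filter.2 ⟨mem_univ _, a⟩)
  | true =>
    exact (hl.add (h1.const_mul 2)).mono (Eventually.of_forall fun i =>
      limCl_atyp (I i).F (l i) true (D i) ∅ fun v a => absurd a (by decide))

end Pool.Agent.BE
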