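import Pool.Agent.Lib.MP_dd4ef3_lc.BE.Basic

set_option autoImplicit false

open Finset Classical

noncomputable section

namespace Pool.Agent.BE

variable {V C : Type} [Fintype V] [DecidableEq V] {G : Ctx V C}

private theorem loc_jf {σ C : Type} [DecidableEq C] (col : σ → C) (A B : Finset σ) (θ : ℕ)
    (hA : 3 * θ ≤ A.card) (hB : 3 * θ ≤ B.card) :
    (∃ Γ : Finset C, θ ≤ (A.filter (fun s => col s ∈ Γ)).card ∧
        θ ≤ (B.filter (fun s => col s ∉ Γ)).card) ∨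
    ∃ c : C, (A.filter (fun s => col s ≠ c)).card < θ ∧ (B.filter (fun s => col s ≠ c)).card < θ := by
  by_contra hcon
  rw [not_or] at hcon
  obtain ⟨h1, h2⟩ := hcon
  push Not at h1 h2
  set U : Finset C := A.image col ∪ B.image col with hU
  have hAU : ∀ s ∈ A, col s ∈ U := fun s hs => mem_union_left _ (mem_image_of_mem _ hs)
  have hBU : ∀ s ∈ B, col s ∈ U := fun s hs => mem_union_right _ (mem_image_of_mem _ hs)
  have split : ∀ (D : Finset σ) (Γ : Finset C),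
      (D.filter (fun s => col s ∈ Γ)).card + (D.filter (fun s => col s ∉ Γ)).card = D.card :=
    fun D Γ => card_filter_add_card_filter_not _
  have cA : ∀ Γ : Finset C, A.filter (fun s => col s ∈ U \ Γ) = A.filter (fun s => col s ∉ Γ) := by
    intro Γ
    apply filter_congr
    intro s hs
    simp [mem_sdiff, hAU s hs]
  have cB : ∀ Γ : Finset C, B.filter (fun s => col s ∉ U \ Γ) = B.filter (fun s => col s ∈ Γ) := by
    intro Γ
    apply filter_congr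
    intro s hs
    simp [mem_sdiff, hBU s hs]
  have h1' : ∀ Γ : Finset C, θ ≤ (A.filter (fun s => col s ∉ Γ)).card →
      (B.filter (fun s => col s ∈ Γ)).card < θ := by
    intro Γ h
    have := h1 (U \ Γ) (by rw [cA]; exact h)
    rwa [cB] at this
  rcases Nat.eq_zero_or_pos θ with h0 | hpos
  · have := h1 ∅ (by omega)
    omega
  have hex : ∃ k, ∃ Γ : Finset C, Γ.card = k ∧ θ ≤ (A.filter (fun s => col s ∈ Γ)).card := by
    refine ⟨_, U, rfl, ?_⟩
    rw [filter_true_of_mem hAU]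
    omega
  obtain ⟨Γ, hk, hΓ⟩ := Nat.find_spec hex
  have hne : Γ.Nonempty := by
    rcases Γ.eq_empty_or_nonempty with h | h
    · subst h
      simp at hΓ
      omega
    · exact h
  obtain ⟨c, hc⟩ := hne
  have hlt : (A.filter (fun s => col s ∈ Γ.erase c)).card < θ := by
    by_contra h
    have := Nat.find_min' hex ⟨Γ.erase c, rfl, not_lt.mp h⟩
    rw [card_erase_of_mem hc, ← hk] at this
    have := card_pos.mpr ⟨c, hc⟩
    omega
  have b1 := h1 Γ hΓ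
  have b2 := h1' (Γ.erase c) (by have := split A (Γ.erase c); omega)
  have b3 : (B.filter (fun s => col s ∉ ({c} : Finset C))).card ≤
      (B.filter (fun s => col s ∉ Γ)).card + (B.filter (fun s => col s ∈ Γ.erase c)).card := by
    refine le_trans (card_le_card ?_) (card_union_le _ _)
    intro s hs
    simp only [mem_filter, mem_union, mem_singleton, mem_erase] at hs ⊢
    by_cases h : col s ∈ Γ
    · exact Or.inr ⟨hs.1, hs.2, h⟩
    · exact Or.inl ⟨hs.1, h⟩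
  have b4 := split B {c}
  have a1 : (A.filter (fun s => col s ∉ ({c} : Finset C))).card < θ := by
    by_contra h
    have := h1' {c} (not_lt.mp h)
    omega
  have a2 := split A {c}
  have b5 := h1 {c} (by omega)
  have e : ∀ D : Finset σ, D.filter (fun s => col s ≠ c) =
      D.filter (fun s => col s ∉ ({c} : Finset C)) := by
    intro D
    apply filter_congr
    intro s _
    simp
  have := h2 c (by rw [e]; exact a1)
  rw [e] at this
  omega

theorem JF {α : Type} (κ : α → C) (A B : Finset α) (θ : ℕ) (hA : 3 * θ ≤ A.card)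
    (hB : 3 * θ ≤ B.card) :
    (∃ Γ : Set C, θ ≤ (A.filter (fun t => κ t ∈ Γ)).card ∧ θ ≤ (B.filter (fun t => κ t ∉ Γ)).card) ∨
      ∃ γ : C, (A.filter (fun t => κ t ≠ γ)).card < θ ∧ (B.filter (fun t => κ t ≠ γ)).card < θ := by
  rcases loc_jf κ A B θ hA hB with ⟨Γ, h1, h2⟩ | ⟨γ, h1, h2⟩
  · obtain ⟨Δ, hΔ⟩ : ∃ Δ : Set C, ∀ c, c ∈ Δ ↔ c ∈ Γ := ⟨(Γ : Set C), fun _ => mem_coe⟩
    refine Or.inl ⟨Δ, h1.trans (card_le_card ?_), h2.trans (card_le_card ?_)⟩
    · intro t ht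
      rw [mem_filter] at ht ⊢
      exact ⟨ht.1, (hΔ _).2 ht.2⟩
    · intro t ht
      rw [mem_filter] at ht ⊢
      exact ⟨ht.1, fun h => ht.2 ((hΔ _).1 h)⟩
  · exact Or.inr ⟨γ, h1, h2⟩

private lemma loc_split {α : Type} (A : Finset α) (P : α → Prop) [DecidablePred P]
    [DecidablePred (fun x => ¬ P x)] :
    (A.filter P).card + (A.filter (fun x => ¬ P x)).card = A.card := by
  convert card_filter_add_card_filter_not (s := A) P

namespace PF
variable (F : PF G) (l : Stub V → Node)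

lemma NS_ex (z : V) (a : Option C) (θ : ℕ) (h : 8 * θ ≤ Fintype.card V) :
    ∃ K, θ ≤ (F.NS l z a K).card := by
  by_contra hcon
  push Not at hcon
  choose bb hb using fun w => F.exists_avail w (G.c w z)
  have h1 : (univ.filter (fun w => w ≠ z ∧ some (G.c z w) ≠ a)).card ≤
      (F.NS l z a .X ∪ F.NS l z a .Xb ∪ F.NS l z a .Z1 ∪ F.NS l z a .Z2).card := by
    apply card_le_card_of_injOn (fun w => ((w, bb w) : Stub V))
    · intro w hw
      have hw' := (mem_filter.1 (mem_coe.1 hw)).2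
      have hm : (w, bb w) ∈ F.NS l z a (l (w, bb w)) := F.mem_NS.2 ⟨rfl, hw'.1, hb w, hw'.2⟩
      rw [mem_coe]
      simp only [mem_union]
      cases hK : l (w, bb w) <;> rw [hK] at hm <;> simp [hm]
    · intro u _ w _ h
      exact congrArg Prod.fst h
  have h2 := card_union_le (F.NS l z a .X ∪ F.NS l z a .Xb ∪ F.NS l z a .Z1) (F.NS l z a .Z2)
  have h3 := card_union_le (F.NS l z a .X ∪ F.NS l z a .Xb) (F.NS l z a .Z1)
  have h4 := card_union_le (F.NS l z a .X) (F.NS l z a .Xb)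
  have h5 := deg_opt G z a
  have h6 : (univ : Finset V) ⊆ insert z ((univ.filter (fun w => w ≠ z ∧ some (G.c z w) = a)) ∪
      (univ.filter (fun w => w ≠ z ∧ some (G.c z w) ≠ a))) := by
    intro w _
    by_cases hw : w = z
    · simp [hw]
    · by_cases hc : some (G.c z w) = a <;> simp [hw, hc]
  have h7 := (card_le_card h6).trans (card_insert_le _ _)
  have h8 := card_union_le (univ.filter (fun w => w ≠ z ∧ some (G.c z w) = a))
    (univ.filter (fun w => w ≠ z ∧ some (G.c z w) ≠ a))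
  rw [card_univ] at h7
  have := hcon .X
  have := hcon .Xb
  have := hcon .Z1
  have := hcon .Z2
  omega
lemma NS_sub (z : V) (a : Option C) (K : Node) : F.NS l z a K ⊆ F.NS l z none K := by
  intro t ht
  rw [mem_NS] at ht ⊢
  exact ⟨ht.1, ht.2.1, ht.2.2.1, by simp⟩
lemma NS_split (s : Stub V) (K : Node) : (F.NS l s.1 none K).card ≤
    (F.NS l s.1 (F.kept s) K).card + (F.NS l s.1 (F.kept (nu s)) K).card := by
  refine le_trans (card_le_card ?_) (card_union_le _ _)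
  intro t ht
  rw [mem_NS] at ht
  rw [mem_union, mem_NS, mem_NS]
  by_cases h : F.kept s = some (G.c s.1 t.1)
  · exact Or.inr ⟨ht.1, ht.2.1, ht.2.2.1, fun e => F.kept_ne h e.symm⟩
  · exact Or.inl ⟨ht.1, ht.2.1, ht.2.2.1, fun e => h e.symm⟩
lemma NS_card_le (z : V) (a : Option C) (K : Node) :
    (F.NS l z a K).card ≤ (PF.labSet l K).card := by
  apply card_le_card
  intro t ht
  rw [mem_NS] at ht
  exact mem_filter.2 ⟨mem_univ _, ht.1⟩
lemma feas_symm {z : V} {τ : ℕ} {K1 K2 : Node} (h : F.Feas l z τ K1 K2) : F.Feas l z τ K2 K1 := by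
  obtain ⟨Γ, h1, h2⟩ := h
  obtain ⟨Δ, hΔ⟩ : ∃ Δ : Set C, ∀ c, c ∈ Δ ↔ c ∉ Γ := ⟨Γᶜ, fun _ => Iff.rfl⟩
  refine ⟨Δ, h2.trans (card_le_card ?_), h1.trans (card_le_card ?_)⟩
  · intro t ht
    rw [mem_filter] at ht ⊢
    exact ⟨ht.1, (hΔ _).2 ht.2⟩
  · intro t ht
    rw [mem_filter] at ht ⊢
    exact ⟨ht.1, fun h => (hΔ _).1 h ht.2⟩
lemma feas_mono {z : V} {τ τ' : ℕ} {K1 K2 : Node} (hτ : τ ≤ τ') (h : F.Feas l z τ' K1 K2) :
    F.Feas l z τ K1 K2 := by
  obtain ⟨Γ, h1, h2⟩ := h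
  exact ⟨Γ, hτ.trans h1, hτ.trans h2⟩
/-- subsets with separated colours -/
lemma feas_of_sub {z : V} {τ : ℕ} {K1 K2 : Node} (T1 T2 : Finset (Stub V))
    (h1 : T1 ⊆ F.NS l z none K1) (h2 : T2 ⊆ F.NS l z none K2) (Γ : Set C)
    (c1 : τ ≤ (T1.filter (fun t => G.c z t.1 ∈ Γ)).card)
    (c2 : τ ≤ (T2.filter (fun t => G.c z t.1 ∉ Γ)).card) : F.Feas l z τ K1 K2 :=
  ⟨Γ, c1.trans (card_le_card (filter_subset_filter _ h1)),
    c2.trans (card_le_card (filter_subset_filter _ h2))⟩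
lemma feas_some {z : V} {θ : ℕ} {K1 : Node} (hn : 24 * θ ≤ Fintype.card V)
    (h : 3 * θ ≤ (F.NS l z none K1).card) : ∃ K2, F.Feas l z θ K1 K2 := by
  rcases JF (fun t : Stub V => G.c z t.1) _ _ θ h h with ⟨Γ, h1, h2⟩ | ⟨γ, h1, _⟩
  · exact ⟨K1, Γ, h1, h2⟩
  · obtain ⟨K2, hK⟩ := F.NS_ex l z (some γ) θ (by omega)
    obtain ⟨Δ, hΔ⟩ : ∃ Δ : Set C, ∀ c, c ∈ Δ ↔ c = γ := ⟨{γ}, fun _ => Iff.rfl⟩
    refine ⟨K2, Δ, ?_, hK.trans (card_le_card ?_)⟩
    · have h3 : F.NS l z none K1 ⊆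
          (F.NS l z none K1).filter (fun t => G.c z t.1 ∈ Δ) ∪
          (F.NS l z none K1).filter (fun t => G.c z t.1 ≠ γ) := by
        intro t ht
        rw [mem_union, mem_filter, mem_filter]
        by_cases e : G.c z t.1 = γ
        · exact Or.inl ⟨ht, (hΔ _).2 e⟩
        · exact Or.inr ⟨ht, e⟩
      have h4 := (card_le_card h3).trans (card_union_le _ _)
      omega
    · intro t ht
      rw [mem_filter]
      refine ⟨F.NS_sub l z _ _ ht, fun e => ?_⟩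
      exact (F.mem_NS.1 ht).2.2.2 (congrArg some ((hΔ _).1 e))
private lemma loc_offer {z : V} (A : Node) (U : Finset V) (Γ : Set C)
    (hA : ∀ u ∈ U, ∃ b, (u, b) ∈ F.NS l z none A) :
    (U.filter (fun u => G.c z u ∈ Γ)).card ≤
      ((F.NS l z none A).filter (fun t => G.c z t.1 ∈ Γ)).card := by
  refine le_trans (card_le_card ?_) (card_image_le (f := Prod.fst))
  intro u hu
  rw [mem_filter] at hu
  obtain ⟨b, hb⟩ := hA u hu.1
  exact mem_image.2 ⟨(u, b), mem_filter.2 ⟨hb, hu.2⟩, rfl⟩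
/-- FM: a set `U` of vertices offering both the label `A` and the label `B` -/
lemma feas_FM {z : V} {τ : ℕ} {K1 K2 : Node} (h : F.Feas l z (2 * τ) K1 K2) (A B : Node)
    (U : Finset V) (hU : 2 * τ ≤ U.card)
    (hA : ∀ u ∈ U, ∃ b, (u, b) ∈ F.NS l z none A) (hB : ∀ u ∈ U, ∃ b, (u, b) ∈ F.NS l z none B) :
    (F.Feas l z τ A K1 ∧ F.Feas l z τ B K1) ∨ (F.Feas l z τ A K2 ∧ F.Feas l z τ B K2) := by
  obtain ⟨Γ, h1, h2⟩ := h
  obtain ⟨Δ, hΔ⟩ : ∃ Δ : Set C, ∀ c, c ∈ Δ ↔ c ∉ Γ := ⟨Γᶜ, fun _ => Iff.rfl⟩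
  have hs : U ⊆ U.filter (fun u => G.c z u ∈ Γ) ∪ U.filter (fun u => G.c z u ∈ Δ) := by
    intro u hu
    rw [mem_union, mem_filter, mem_filter]
    by_cases e : G.c z u ∈ Γ
    · exact Or.inl ⟨hu, e⟩
    · exact Or.inr ⟨hu, (hΔ _).2 e⟩
  have hs' := (card_le_card hs).trans (card_union_le _ _)
  by_cases hc : τ ≤ (U.filter (fun u => G.c z u ∈ Γ)).card
  · exact Or.inr ⟨⟨Γ, hc.trans (F.loc_offer l A U Γ hA), by omega⟩,
      ⟨Γ, hc.trans (F.loc_offer l B U Γ hB), by omega⟩⟩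
  · have hc' : τ ≤ (U.filter (fun u => G.c z u ∈ Δ)).card := by omega
    have h3 : τ ≤ ((F.NS l z none K1).filter (fun t => G.c z t.1 ∉ Δ)).card := by
      refine le_trans (le_trans (by omega) h1) (card_le_card ?_)
      intro t ht
      rw [mem_filter] at ht ⊢
      exact ⟨ht.1, fun h => (hΔ _).1 h ht.2⟩
    exact Or.inl ⟨⟨Δ, hc'.trans (F.loc_offer l A U Δ hA), h3⟩,
      ⟨Δ, hc'.trans (F.loc_offer l B U Δ hB), h3⟩⟩
lemma feas_chain {z : V} {τ : ℕ} {K1 K2 K1' K2' : Node} (h : F.Feas l z (2 * τ) K1 K2)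
    (h' : F.Feas l z (2 * τ) K1' K2') : F.Feas l z τ K1' K1 ∨ F.Feas l z τ K1' K2 := by
  obtain ⟨Γ, h1, h2⟩ := h
  obtain ⟨Γ', h3, _⟩ := h'
  have h4 := h3.trans (card_filter_le _ _)
  have h5 := loc_split (F.NS l z none K1') (fun t => G.c z t.1 ∈ Γ)
  by_cases hc : τ ≤ ((F.NS l z none K1').filter (fun t => G.c z t.1 ∈ Γ)).card
  · exact Or.inr ⟨Γ, hc, by omega⟩
  · exact Or.inl (F.feas_symm l ⟨Γ, by omega, by omega⟩)
lemma opt_mono {Cs : Finset (Stub V)} {τ τ' : ℕ} {z : V} {g : Gp} (hτ : τ ≤ τ')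
    (h : F.Opt l Cs τ' z g) : F.Opt l Cs τ z g := by
  rcases h with ⟨h1, h2, K1, K2, h3, h4⟩ | ⟨b, K, h1, h2, h3, h4⟩
  · exact Or.inl ⟨h1, h2, K1, K2, F.feas_mono l hτ h3, h4⟩
  · exact Or.inr ⟨b, K, h1, h2, hτ.trans h3, h4⟩
lemma opt_ex {Cs : Finset (Stub V)} {θ : ℕ} {z : V} (hn : 24 * θ ≤ Fintype.card V)
    (hz : z ∈ Cs.image Prod.fst) : ∃ g, F.Opt l Cs θ z g := by
  obtain ⟨⟨u, b⟩, hs, rfl⟩ := mem_image.1 hz
  by_cases h2 : (u, !b) ∈ Cs
  · obtain ⟨K1, h3⟩ := F.NS_ex l u none (3 * θ) (by omega)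
    obtain ⟨K2, h4⟩ := F.feas_some l hn h3
    refine ⟨_, Or.inl ⟨?_, ?_, K1, K2, h4, rfl⟩⟩
    · cases b
      · exact hs
      · exact h2
    · cases b
      · exact h2
      · exact hs
  · obtain ⟨K, h3⟩ := F.NS_ex l u (F.kept (u, b)) θ (by omega)
    exact ⟨_, Or.inr ⟨b, K, hs, h2, h3, rfl⟩⟩
lemma opt_chain {Cs : Finset (Stub V)} {τ : ℕ} {z : V} {g g' : Gp} (h : F.Opt l Cs (2 * τ) z g)
    (h' : F.Opt l Cs (2 * τ) z g') : ∃ g0, F.Opt l Cs τ z g0 ∧ Step g g0 ∧ Step g0 g' := by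
  rcases h with ⟨h1, h2, K1, K2, h3, rfl⟩ | ⟨b, K, h1, h2, h3, rfl⟩
  · rcases h' with ⟨_, _, K1', K2', h3', rfl⟩ | ⟨b', K', _, h2', _, _⟩
    · rcases F.feas_chain l h3 h3' with h4 | h4
      · exact ⟨_, Or.inl ⟨h1, h2, K1', K1, h4, rfl⟩, ⟨K2, K1', by abel⟩, ⟨K1, K2', by abel⟩⟩
      · exact ⟨_, Or.inl ⟨h1, h2, K1', K2, h4, rfl⟩, ⟨K1, K1', by abel⟩, ⟨K2, K2', by abel⟩⟩
    · cases b'
      · exact absurd h2 h2'
      · exact absurd h1 h2'
  · rcases h' with ⟨h1', h2', _⟩ | ⟨b', K', _, _, _, rfl⟩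
    · cases b
      · exact absurd h2' h2
      · exact absurd h1' h2
    · exact ⟨_, Or.inr ⟨b, K, h1, h2, le_trans (by omega) h3, rfl⟩, ⟨K, K, rfl⟩,
        ⟨K, K', by abel⟩⟩
lemma opt_bound {Cs : Finset (Stub V)} {τ : ℕ} {z : V} {g : Gp} (h : F.Opt l Cs τ z g) :
    -2 ≤ g.1 ∧ g.1 ≤ 2 := by
  rcases h with ⟨_, _, K1, K2, _, rfl⟩ | ⟨b, K, _, _, _, rfl⟩
  · cases K1 <;> cases K2 <;> simp [cls]
  · cases K <;> simp [cls]
lemma opt_null {Cs : Finset (Stub V)} {τ : ℕ} {z : V} {g : Gp} (i : Bool)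
    (hi : (PF.labSet l (Zof i)).card < τ) (h : F.Opt l Cs τ z g) : piOf i g = 0 := by
  have key : ∀ K : Node, K ≠ Zof i → piOf i (cls K) = 0 := by
    intro K hK
    cases i <;> cases K <;> simp [piOf, cls, Zof] at hK ⊢
  rcases h with ⟨_, _, K1, K2, ⟨Γ, h1, h2⟩, rfl⟩ | ⟨b, K, _, _, h3, rfl⟩
  · have a1 := (h1.trans (card_filter_le _ _)).trans (F.NS_card_le l z none K1)
    have a2 := (h2.trans (card_filter_le _ _)).trans (F.NS_card_le l z none K2)
    have b1 := key K1 (by rintro rfl; omega)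
    have b2 := key K2 (by rintro rfl; omega)
    have : piOf i (cls K1 + cls K2) = piOf i (cls K1) + piOf i (cls K2) := by
      cases i <;> simp [piOf]
    rw [this, b1, b2, add_zero]
  · have a1 := h3.trans (F.NS_card_le l z _ K)
    exact key K (by rintro rfl; omega)
end PF

end Pool.Agent.BE
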