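import Pool.Agent.Lib.MP_dd4ef3_lc.BE.Basic

set_option autoImplicit false

open Finset Classical

noncomputable section

namespace Pool.Agent.BE

variable {V C : Type} [Fintype V] [DecidableEq V] {G : Ctx V C}

namespace PF
variable (F : PF G)

lemma sig_nu_sig (s : Stub V) : F.sig (nu (F.sig s)) = nu s := by simp [sig_apply]

lemma sig_pow_nu {j : ℕ} {s r : Stub V} (h : (F.sig ^ j) s = r) : (F.sig ^ j) (nu r) = nu s := by
  induction j generalizing r with
  | zero => simp at h ⊢; rw [h]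
  | succ j ih =>
    rw [pow_succ', Equiv.Perm.mul_apply] at h
    rw [pow_succ, Equiv.Perm.mul_apply, ← h, sig_nu_sig]
    exact ih rfl

lemma sig_pow_ne_nu (j : ℕ) (s : Stub V) : (F.sig ^ j) s ≠ nu s := by
  induction j using Nat.strong_induction_on generalizing s with
  | _ j ih =>
    match j with
    | 0 => simpa using (nu_ne s).symm
    | 1 =>
      intro h
      rw [pow_one, sig_apply] at h
      have := congrArg nu h
      simp only [nu_nu] at this
      exact F.mu_ne s this
    | j + 2 =>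
      intro h
      apply ih j (by omega) (F.sig s)
      have h1 : F.sig ((F.sig ^ j) (F.sig s)) = nu s := by
        rw [← h, pow_succ, pow_succ', Equiv.Perm.mul_apply, Equiv.Perm.mul_apply]
      apply F.sig.injective
      rw [h1, sig_nu_sig]

lemma sig_pow_ne_mu (j : ℕ) (s : Stub V) : (F.sig ^ j) s ≠ F.mu s := by
  intro h
  match j with
  | 0 => exact F.mu_ne s (by simpa using h.symm)
  | j + 1 =>
    apply F.sig_pow_ne_nu j (F.sig s)
    rw [← Equiv.Perm.mul_apply, ← pow_succ, h, sig_apply, nu_nu]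

lemma near_refl (L : ℕ) (u : V) : F.Near L u u := ⟨false, 0, by omega, by simp⟩
lemma near_symm {L : ℕ} {u v : V} (h : F.Near L u v) : F.Near L v u := by
  obtain ⟨b, j, hj, e⟩ := h
  refine ⟨!((F.sig ^ j) (u, b)).2, j, hj, ?_⟩
  have h1 : ((v, !((F.sig ^ j) (u, b)).2) : Stub V) = nu ((F.sig ^ j) (u, b)) := by
    rw [← e]; rfl
  rw [h1, F.sig_pow_nu rfl]; rfl
lemma near_mu (L : ℕ) (s : Stub V) : F.Near L s.1 (F.mu s).1 :=
  ⟨s.2, 1, by omega, by simp [sig_apply]⟩
lemma near_card (L : ℕ) (u : V) : (univ.filter (F.Near L u)).card ≤ 2 * (L + 2) := by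
  have h : univ.filter (F.Near L u) ⊆
      ((univ : Finset Bool) ×ˢ range (L + 2)).image (fun p => ((F.sig ^ p.2) (u, p.1)).1) := by
    intro v hv
    obtain ⟨b, j, hj, e⟩ := (mem_filter.1 hv).2
    exact mem_image.2 ⟨(b, j), by simp; omega, e⟩
  have h2 := (card_le_card h).trans card_image_le
  simpa using h2
lemma farPair_symm {L : ℕ} {s t : Stub V} (h : F.FarPair L s t) : F.FarPair L t s := by
  obtain ⟨h1, h2, h3, h4⟩ := h
  exact ⟨fun e => h1 (F.near_symm e), fun e => h3 (F.near_symm e), fun e => h2 (F.near_symm e),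
    fun e => h4 (F.near_symm e)⟩
lemma avoid_mono {L : ℕ} {W W' : Finset V} {s : Stub V} (h : W ⊆ W') (hs : F.Avoid L W' s) :
    F.Avoid L W s := ⟨hs.1, fun w hw => hs.2 w (h hw)⟩
lemma farPair_of_avoid {L : ℕ} {W : Finset V} {s t : Stub V} (hs : F.Avoid L W s)
    (h1 : t.1 ∈ W) (h2 : (F.mu t).1 ∈ W) : F.FarPair L t s :=
  ⟨(hs.2 _ h1).1, (hs.2 _ h1).2, (hs.2 _ h2).1, (hs.2 _ h2).2⟩
lemma avoid_card (L : ℕ) (W : Finset V) :
    (univ.filter (fun s => ¬ F.Avoid L W s)).card ≤ 8 * W.card * (L + 2) + 2 * F.loops.card := by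
  set N : Finset V := W.biUnion (fun w => univ.filter (F.Near L w)) with hN
  have hNc : N.card ≤ W.card * (2 * (L + 2)) :=
    card_biUnion_le_card_mul _ _ _ (fun w _ => F.near_card L w)
  have h : univ.filter (fun s => ¬ F.Avoid L W s) ⊆
      F.zone N ∪ (F.loops ×ˢ (univ : Finset Bool)) := by
    intro s hs
    have hs' := (mem_filter.1 hs).2
    by_cases hl : F.loop s.1
    · exact mem_union_right _ (by simpa [loops] using hl)
    · apply mem_union_left
      rw [mem_zone]
      unfold Avoid at hs'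
      push Not at hs'
      obtain ⟨w, hw, h⟩ := hs' hl
      by_cases h1 : F.Near L w s.1
      · exact Or.inl (mem_biUnion.2 ⟨w, hw, by simpa using h1⟩)
      · exact Or.inr (mem_biUnion.2 ⟨w, hw, by simpa using h h1⟩)
  have h2 := (card_le_card h).trans (card_union_le _ _)
  have h3 := F.card_zone N
  have h4 : (F.loops ×ˢ (univ : Finset Bool)).card = 2 * F.loops.card := by simp [mul_comm]
  have h5 : 4 * (W.card * (2 * (L + 2))) = 8 * W.card * (L + 2) := by ring
  omega
lemma conn_refl (u : V) : F.Conn u u := Relation.EqvGen.refl u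
lemma conn_symm {u w : V} (h : F.Conn u w) : F.Conn w u := Relation.EqvGen.symm _ _ h
lemma conn_trans {u v w : V} (h : F.Conn u v) (h' : F.Conn v w) : F.Conn u w :=
  Relation.EqvGen.trans _ _ _ h h'
lemma conn_mu (s : Stub V) : F.Conn s.1 (F.mu s).1 := Relation.EqvGen.rel _ _ ⟨s, rfl, rfl⟩
lemma conn_sig_pow (s : Stub V) (j : ℕ) : F.Conn s.1 ((F.sig ^ j) s).1 := by
  induction j with
  | zero => exact F.conn_refl _
  | succ j ih =>
    rw [pow_succ', Equiv.Perm.mul_apply, sig_apply, nu_fst]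
    exact F.conn_trans ih (F.conn_mu _)
lemma conn_induction {R : V → V → Prop} (hR : Equivalence R)
    (h : ∀ s : Stub V, R s.1 (F.mu s).1) {u w : V} (huw : F.Conn u w) : R u w := by
  induction huw with
  | rel x y hxy => obtain ⟨s, rfl, rfl⟩ := hxy; exact h s
  | refl x => exact hR.refl x
  | symm x y _ ih => exact hR.symm ih
  | trans x y z _ _ ih1 ih2 => exact hR.trans ih1 ih2
lemma conn_closed {W : Finset V} (hW : ∀ s : Stub V, s.1 ∈ W → (F.mu s).1 ∈ W) {u w : V}
    (hu : u ∈ W) (huw : F.Conn u w) : w ∈ W := by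
  have := F.conn_induction (R := fun x y => (x ∈ W ↔ y ∈ W))
    ⟨fun _ => Iff.rfl, Iff.symm, Iff.trans⟩
    (fun s => ⟨hW s, fun h => by simpa using hW (F.mu s) h⟩) huw
  exact this.1 hu
lemma conn_iff (s : Stub V) (w : V) : F.Conn s.1 w ↔ ∃ j : ℕ, ((F.sig ^ j) s).1 = w := by
  constructor
  · intro h
    have key := F.conn_closed (W := univ.filter (fun w => ∃ j : ℕ, ((F.sig ^ j) s).1 = w))
      (u := s.1) (w := w) ?_ (by simp only [mem_filter, mem_univ, true_and]; exact ⟨0, rfl⟩) h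
    · exact (mem_filter.1 key).2
    · intro t ht
      obtain ⟨j, hj⟩ := (mem_filter.1 ht).2
      simp only [mem_filter, mem_univ, true_and]
      rcases eq_or_eq_nu hj.symm with e | e
      · exact ⟨j + 1, by rw [pow_succ', Equiv.Perm.mul_apply, ← e, sig_apply, nu_fst]⟩
      · have hpos : 0 < orderOf F.sig := orderOf_pos _
        refine ⟨orderOf F.sig - 1 + j, ?_⟩
        have h1 : F.sig ((F.sig ^ (orderOf F.sig - 1 + j)) s) = (F.sig ^ j) s := by
          rw [← Equiv.Perm.mul_apply, ← pow_succ']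
          have : orderOf F.sig - 1 + j + 1 = orderOf F.sig + j := by omega
          rw [this, pow_add, pow_orderOf_eq_one, one_mul]
        have h2 : F.sig (F.mu t) = (F.sig ^ j) s := by
          rw [sig_apply, F.mu_mu, e, nu_nu]
        rw [F.sig.injective (h1.trans h2.symm)]
  · rintro ⟨j, rfl⟩; exact F.conn_sig_pow s j
lemma mem_comp {v w : V} : w ∈ F.comp v ↔ F.Conn v w := by simp [comp]
lemma comp_closed (v : V) (s : Stub V) (h : s.1 ∈ F.comp v) : (F.mu s).1 ∈ F.comp v :=
  F.mem_comp.2 (F.conn_trans (F.mem_comp.1 h) (F.conn_mu s))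
lemma loop_conn {v w : V} (h : F.loop v) (hw : F.Conn v w) : w = v := by
  have := F.conn_closed (W := {v}) (u := v) (w := w) ?_ (by simp) hw
  · simpa using this
  · intro s hs
    have e : s.1 = v := by simpa using hs
    rw [(F.loop_iff s).1 (by rw [e]; exact h)]
    simpa using e
lemma loop_iff_comp (v : V) : F.loop v ↔ F.comp v = {v} := by
  constructor
  · intro h
    ext w
    rw [mem_comp, mem_singleton]
    exact ⟨F.loop_conn h, fun e => e ▸ F.conn_refl _⟩
  · intro h
    by_contra hl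
    have h1 : (F.mu (v, false)).1 ∈ F.comp v := F.mem_comp.2 (F.conn_mu (v, false))
    rw [h, mem_singleton] at h1
    exact F.ne_of_not_loop (s := (v, false)) hl h1
lemma ray_inj {L : ℕ} {s : Stub V} (h : ∀ j, 1 ≤ j → j ≤ L → (F.sig ^ j) s ≠ s) {i j : ℕ}
    (hi : i ≤ L) (hj : j ≤ L) (e : ((F.sig ^ i) s).1 = ((F.sig ^ j) s).1) : i = j := by
  have key : ∀ i j : ℕ, i < j → j ≤ L → ((F.sig ^ i) s).1 ≠ ((F.sig ^ j) s).1 := by
    intro i j hij hj e
    obtain ⟨d, rfl⟩ := Nat.exists_eq_add_of_lt hij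
    have h1 : (F.sig ^ (i + d + 1)) s = (F.sig ^ (d + 1)) ((F.sig ^ i) s) := by
      rw [← Equiv.Perm.mul_apply, ← pow_add]; congr 2; omega
    rcases eq_or_eq_nu e.symm with e1 | e1
    · apply h (d + 1) (by omega) (by omega)
      apply (F.sig ^ i).injective
      rw [← Equiv.Perm.mul_apply, ← pow_add, ← add_assoc, e1]
    · rw [h1] at e1; exact F.sig_pow_ne_nu _ _ e1
  rcases lt_trichotomy i j with h1 | h1 | h1
  · exact absurd e (key i j h1 hj)
  · exact h1
  · exact absurd e.symm (key j i h1 hi)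
lemma sig_pow_mod {s : Stub V} {j : ℕ} (h : (F.sig ^ j) s = s) (i : ℕ) :
    (F.sig ^ i) s = (F.sig ^ (i % j)) s := by
  have h1 : ∀ q : ℕ, (F.sig ^ (j * q)) s = s := by
    intro q
    induction q with
    | zero => simp
    | succ q ih => rw [mul_add, mul_one, pow_add, Equiv.Perm.mul_apply, h, ih]
  conv_lhs => rw [← Nat.mod_add_div i j, pow_add, Equiv.Perm.mul_apply, h1]
lemma per_of_comp {L : ℕ} {s : Stub V} (h : L < (F.comp s.1).card) (j : ℕ) (h1 : 1 ≤ j)
    (h2 : j ≤ L) : (F.sig ^ j) s ≠ s := by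
  intro e
  have hsub : F.comp s.1 ⊆ (range j).image (fun i => ((F.sig ^ i) s).1) := by
    intro w hw
    obtain ⟨i, hi⟩ := (F.conn_iff s w).1 (F.mem_comp.1 hw)
    exact mem_image.2 ⟨i % j, mem_range.2 (Nat.mod_lt _ h1), by rw [← F.sig_pow_mod e, hi]⟩
  have := (card_le_card hsub).trans card_image_le
  rw [card_range] at this
  omega
lemma comp_eq_of_conn {u w : V} (h : F.Conn u w) : F.comp u = F.comp w := by
  ext x
  rw [mem_comp, mem_comp]
  exact ⟨F.conn_trans (F.conn_symm h), F.conn_trans h⟩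
lemma ncomp_lt (F' : PF G) (h : ∀ u w, F.Conn u w → F'.Conn u w) {u w : V} (h1 : F'.Conn u w)
    (h2 : ¬ F.Conn u w) : F'.ncomp < F.ncomp := by
  unfold ncomp
  set φ : Finset V → Finset V := fun S => S.biUnion F'.comp with hφ
  have hφc : ∀ v, φ (F.comp v) = F'.comp v := by
    intro v
    ext x
    simp only [hφ, mem_biUnion, mem_comp]
    exact ⟨fun ⟨y, hy, hx⟩ => F'.conn_trans (h _ _ hy) hx, fun hx => ⟨v, F.conn_refl v, hx⟩⟩
  have him : univ.image F'.comp = (univ.image F.comp).image φ := by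
    rw [image_image]; congr 1; funext v; simp [hφc]
  rw [him]
  refine lt_of_le_of_ne card_image_le (fun e => ?_)
  have hinj := card_image_iff.1 e
  have := hinj (x₁ := F.comp u) (by simp) (x₂ := F.comp w) (by simp)
    (by rw [hφc, hφc, F'.comp_eq_of_conn h1])
  apply h2
  rw [← mem_comp, this, mem_comp]
  exact F.conn_refl w
end PF

end Pool.Agent.BE
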