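import Pool.Agent.Lib.MP_dd4ef3_lc.BE.Val
import Pool.Agent.Lib.MP_dd4ef3_lc.BE.PlanMk

set_option autoImplicit false

open Finset Classical

noncomputable section

namespace Pool.Agent.BE

variable {V C : Type} [Fintype V] [DecidableEq V] {G : Ctx V C}

variable {F : PF G} {l : Stub V → Node} {τ : ℕ} {A0 : Set Gp} {B0 : Finset V}

/-- classes modulo `tcls` (when it is available) -/
def rareH (A0 : Set Gp) : Gp →+ Gp :=
  if tcls ∈ A0 then (AddMonoidHom.inl ℤ (ZMod 2 × ZMod 2)).comp (AddMonoidHom.fst ℤ _)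
  else AddMonoidHom.id Gp

lemma rareH_fst (g : Gp) : (rareH A0 g).1 = g.1 := by
  unfold rareH; split_ifs <;> simp

lemma rareH_of_not (h : tcls ∉ A0) (g : Gp) : rareH A0 g = g := by
  unfold rareH; rw [if_neg h]; rfl

lemma rareH_of_mem (h : tcls ∈ A0) (g : Gp) (h0 : g.1 = 0) : rareH A0 g = 0 := by
  unfold rareH; rw [if_pos h]; simp [h0]

lemma rare_bsg_add (sg : Bool) (K K' : Node) :
    bsg sg (cls K + cls K') = lv sg K + lv sg K' := by
  cases sg <;> simp [bsg, lv]
  ring

lemma rare_top (sg : Bool) (K K' : Node) (h : 1 ≤ lv sg K + lv sg K') :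
    lv sg K + lv sg K' = 1 ∨ (lv sg K + lv sg K' = 2 ∧ (cls K + cls K').2 = 0) := by
  revert h
  cases sg <;> cases K <;> cases K' <;> decide

lemma rare_zero (sg : Bool) (K K' : Node) (h : lv sg K + lv sg K' = 0) :
    cls K + cls K' = 0 ∨ cls K + cls K' = tcls := by
  revert h
  cases sg <;> cases K <;> cases K' <;> decide

lemma rare_UU (sg : Bool) {g : Gp} (hg : g ∈ A0) (K K' : Node)
    (e : rareH A0 g = rareH A0 (cls K + cls K')) (h : 1 ≤ lv sg K + lv sg K') : UU sg A0 := by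
  have e1 : g.1 = (cls K + cls K').1 := by
    rw [← rareH_fst (A0 := A0) g, e, rareH_fst]
  have e2 : bsg sg g = lv sg K + lv sg K' := by
    rw [← rare_bsg_add]; unfold bsg; rw [e1]
  refine ⟨g, hg, ?_⟩
  rcases rare_top sg K K' h with h1 | ⟨h1, h2⟩
  · exact Or.inl (e2.trans h1)
  · refine Or.inr ⟨e2.trans h1, ?_⟩
    by_cases ht : tcls ∈ A0
    · exact Or.inr ht
    · rw [rareH_of_not ht, rareH_of_not ht] at e
      exact Or.inl (by rw [e]; exact h2)

lemma rare_two_le (sg : Bool) (hU : ¬ UU sg A0) (K K' : Node) (h : cls K + cls K' ∈ A0) :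
    lv sg K + lv sg K' ≤ 0 := by
  by_contra hc
  exact hU (rare_UU sg h K K' rfl (by omega))

lemma rare_two_eq (sg : Bool) (K K' : Node) (h : cls K + cls K' ∈ A0)
    (e : lv sg K + lv sg K' = 0) : rareH A0 (cls K) + rareH A0 (cls K') = 0 := by
  rw [← map_add]
  rcases rare_zero sg K K' e with h1 | h1
  · rw [h1, map_zero]
  · rw [h1] at h ⊢
    exact rareH_of_mem h _ rfl

theorem pair_nonneg (hS : Small F l τ A0 B0) (sg : Bool) (hU : ¬ UU sg A0)
    (hn : 48 * τ ≤ Fintype.card V) (s : Stub V) (hl : ¬ F.loop s.1) (h1 : s.1 ∉ B0)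
    (h2 : (F.mu s).1 ∉ B0) : 0 ≤ F.psi l sg (2 * τ) s + F.psi l sg (2 * τ) (F.mu s) := by
  obtain ⟨K, hK, eK⟩ := F.lam_ex l sg (θ := 3 * (2 * τ)) s.1 (F.kept s) (by omega)
  obtain ⟨K', hK', eK'⟩ :=
    F.lam_ex l sg (θ := 3 * (2 * τ)) (F.mu s).1 (F.kept (F.mu s)) (by omega)
  have h := rare_two_le sg hU K K' (small_pair hS s hl h1 h2 K K' (by omega) (by omega))
  unfold PF.psi
  omega

theorem loop_nonneg (hS : Small F l τ A0 B0) (sg : Bool) (hU : ¬ UU sg A0)
    (hn : 48 * τ ≤ Fintype.card V) (u : V) (hl : F.loop u) (h1 : u ∉ B0) :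
    0 ≤ F.pv l sg (2 * τ) u + F.qv l sg (2 * τ) u := by
  obtain ⟨K, K', hK, e⟩ := F.feas_val l sg (θ := 2 * τ) u (by omega)
  have h := rare_two_le sg hU K K'
    (small_loop hS u hl h1 K K' (F.feas_mono l (by omega) hK))
  omega

/-- a neutral pair avoiding `B0` -/
def RareRigid (F : PF G) (l : Stub V → Node) (sg : Bool) (τ : ℕ) (B0 : Finset V) (s : Stub V) :
    Prop :=
  ¬ F.loop s.1 ∧ s.1 ∉ B0 ∧ (F.mu s).1 ∉ B0 ∧
    F.psi l sg (2 * τ) s + F.psi l sg (2 * τ) (F.mu s) = 0

lemma rareRigid_mu {sg : Bool} {s : Stub V} (h : RareRigid F l sg τ B0 s) :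
    RareRigid F l sg τ B0 (F.mu s) := by
  obtain ⟨h1, h2, h3, h4⟩ := h
  refine ⟨fun e => h1 ((F.loop_mu_iff s).1 e), h3, by simpa using h2, ?_⟩
  rw [F.mu_mu]; omega

/-- `att` attaches every stub at a top node of its kept colour -/
def RareAtt (F : PF G) (l : Stub V → Node) (sg : Bool) (τ : ℕ) (att : Stub V → Node) : Prop :=
  ∀ s, 6 * τ ≤ (F.NS l s.1 (F.kept s) (att s)).card ∧ lv sg (att s) = - F.psi l sg (2 * τ) s

lemma rare_exists_att (sg : Bool) (hn : 48 * τ ≤ Fintype.card V) :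
    ∃ att, RareAtt F l sg τ att := by
  have h : ∀ s : Stub V, ∃ K, 6 * τ ≤ (F.NS l s.1 (F.kept s) K).card ∧
      lv sg K = - F.psi l sg (2 * τ) s := by
    intro s
    obtain ⟨K, hK, eK⟩ := F.lam_ex l sg (θ := 3 * (2 * τ)) s.1 (F.kept s) (by omega)
    refine ⟨K, by omega, ?_⟩
    unfold PF.psi
    omega
  choose att hatt using h
  exact ⟨att, hatt⟩

section main

variable (hS : Small F l τ A0 B0) {sg : Bool} (hU : ¬ UU sg A0) {att : Stub V → Node}
  (ha : RareAtt F l sg τ att)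
include hS hU ha

lemma rare_rigid_le {s : Stub V} (hs : RareRigid F l sg τ B0 s) {K : Node}
    (hK : τ ≤ (F.NS l s.1 (F.kept s) K).card) : lv sg K ≤ - F.psi l sg (2 * τ) s := by
  obtain ⟨h1, h2, h3, h4⟩ := hs
  obtain ⟨a1, a2⟩ := ha (F.mu s)
  have h := rare_two_le sg hU K _ (small_pair hS s h1 h2 h3 K (att (F.mu s)) hK (by omega))
  omega

omit hU in
lemma rare_rigid_neg {s : Stub V} (hs : RareRigid F l sg τ B0 s) {K : Node}
    (hK : τ ≤ (F.NS l s.1 (F.kept s) K).card) (e : lv sg K = - F.psi l sg (2 * τ) s) :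
    rareH A0 (cls K) + rareH A0 (cls (att (F.mu s))) = 0 := by
  obtain ⟨h1, h2, h3, h4⟩ := hs
  obtain ⟨a1, a2⟩ := ha (F.mu s)
  exact rare_two_eq sg K _ (small_pair hS s h1 h2 h3 K (att (F.mu s)) hK (by omega)) (by omega)

omit hU in
lemma rare_att_neg {s : Stub V} (hs : RareRigid F l sg τ B0 s) :
    rareH A0 (cls (att s)) + rareH A0 (cls (att (F.mu s))) = 0 :=
  rare_rigid_neg hS ha hs (by have := (ha s).1; omega) (ha s).2

omit hU in
lemma rare_rigid_eq {s : Stub V} (hs : RareRigid F l sg τ B0 s) {K : Node}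
    (hK : τ ≤ (F.NS l s.1 (F.kept s) K).card) (e : lv sg K = - F.psi l sg (2 * τ) s) :
    rareH A0 (cls K) = rareH A0 (cls (att s)) :=
  add_right_cancel ((rare_rigid_neg hS ha hs hK e).trans (rare_att_neg hS ha hs).symm)

/-- the top node of a colour at a non-skewed vertex with two rigid stubs -/
lemma rare_own (hn : 48 * τ ≤ Fintype.card V) {z : V}
    (hr : ∀ b, RareRigid F l sg τ B0 (z, b))
    (hsk : F.psi l sg (2 * τ) (z, false) + F.psi l sg (2 * τ) (z, true) =
      F.pv l sg (2 * τ) z + F.qv l sg (2 * τ) z) (c : C) :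
    ∃ K b, 6 * τ ≤ (F.NS l z (some c) K).card ∧
      F.psi l sg (2 * τ) (z, b) = F.xv l sg (2 * τ) z c ∧
      rareH A0 (cls K) = rareH A0 (cls (att (z, !b))) := by
  obtain ⟨K, hK, eK⟩ := F.lam_ex l sg (θ := 3 * (2 * τ)) z (some c) (by omega)
  have hy := F.lam_y l sg (2 * τ) z c
  obtain ⟨b, hb, ex, ey⟩ := F.nonskew_select l sg hsk c
  have hK6 : 6 * τ ≤ (F.NS l z (some c) K).card := by omega
  by_cases hk : F.kept (z, !b) = some c
  · have hK' : τ ≤ (F.NS l z (F.kept (z, !b)) K).card := by rw [hk]; omega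
    have h1 := rare_rigid_le hS hU ha (hr (!b)) hK'
    exact ⟨K, b, hK6, ex, rare_rigid_eq hS ha (hr (!b)) hK' (by omega)⟩
  · have hyx : F.yv l sg (2 * τ) z c ≤ F.xv l sg (2 * τ) z c := by
      have hv := F.val_bounds l sg (2 * τ) z
      have hp := (F.psi_le l sg (2 * τ) (z, !b)).2
      by_cases hc : c = F.fv l sg (2 * τ) z
      · have h2 := hp (by rw [← hc]; exact hk)
        rw [ey] at h2
        unfold PF.xv
        rw [if_pos hc]
        exact h2
      · unfold PF.xv PF.yv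
        rw [if_neg hc, if_neg hc]
        exact hv.2.1
    have hsub := card_le_card (F.NS_sub l z (some c) K)
    have hsp := F.NS_split l (z, b) K
    simp only [nu_mk] at hsp
    by_cases h1 : τ ≤ (F.NS l z (F.kept (z, !b)) K).card
    · have h2 := rare_rigid_le hS hU ha (hr (!b)) h1
      exact ⟨K, b, hK6, ex, rare_rigid_eq hS ha (hr (!b)) h1 (by omega)⟩
    · have h1' : τ ≤ (F.NS l z (F.kept (z, b)) K).card := by omega
      have h2 := rare_rigid_le hS hU ha (hr b) h1'
      refine ⟨K, !b, hK6, by omega, ?_⟩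
      rw [Bool.not_not]
      exact rare_rigid_eq hS ha (hr b) h1' (by omega)

/-- a doubly cut vertex can be attached as its two stubs prescribe -/
lemma rare_double (hn : 48 * τ ≤ Fintype.card V) {z : V}
    (hr : ∀ b, RareRigid F l sg τ B0 (z, b))
    (hsk : F.psi l sg (2 * τ) (z, false) + F.psi l sg (2 * τ) (z, true) =
      F.pv l sg (2 * τ) z + F.qv l sg (2 * τ) z) :
    ∃ K1 K2, F.Feas l z τ K1 K2 ∧ rareH A0 (cls K1 + cls K2) =
      rareH A0 (cls (att (z, false))) + rareH A0 (cls (att (z, true))) := by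
  have a0 : 6 * τ ≤ (F.NS l z (F.kept (z, false)) (att (z, false))).card := (ha (z, false)).1
  have a1 : 6 * τ ≤ (F.NS l z (F.kept (z, true)) (att (z, true))).card := (ha (z, true)).1
  rcases JF (fun t : Stub V => G.c z t.1) (F.NS l z (F.kept (z, false)) (att (z, false)))
    (F.NS l z (F.kept (z, true)) (att (z, true))) (2 * τ) (by omega) (by omega) with
    ⟨Γ, h1, h2⟩ | ⟨γ, h1, h2⟩
  · refine ⟨att (z, false), att (z, true), ?_, map_add _ _ _⟩
    exact F.feas_of_sub l _ _ (F.NS_sub l z _ _) (F.NS_sub l z _ _) Γ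
      (le_trans (by omega) h1) (le_trans (by omega) h2)
  · obtain ⟨K, b, hK, -, e⟩ := rare_own hS hU ha hn hr hsk γ
    have hb : ((F.NS l z (F.kept (z, b)) (att (z, b))).filter
        (fun t => G.c z t.1 ≠ γ)).card < 2 * τ := by
      cases b
      · exact h1
      · exact h2
    refine ⟨K, att (z, b), ?_, ?_⟩
    · refine F.feas_of_sub l (F.NS l z (some γ) K) (F.NS l z (F.kept (z, b)) (att (z, b)))
        (F.NS_sub l z _ _) (F.NS_sub l z _ _) {a | a ≠ γ} ?_ ?_
      · refine le_trans (by omega : τ ≤ (F.NS l z (some γ) K).card) (card_le_card ?_)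
        intro t ht
        simp only [mem_filter, Set.mem_ofPred_eq]
        exact ⟨ht, fun e => (F.mem_NS.1 ht).2.2.2 (congrArg some e)⟩
      · have h3 := card_filter_add_card_filter_not
          (s := F.NS l z (F.kept (z, b)) (att (z, b))) (fun t => G.c z t.1 ≠ γ)
        have h4 := (ha (z, b)).1
        have h5 : τ ≤ ((F.NS l z (F.kept (z, b)) (att (z, b))).filter
            (fun t => ¬ G.c z t.1 ≠ γ)).card := by
          simp only at h4
          omega
        convert h5 using 2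
        ext t
        simp
    · rw [map_add, e]
      cases b
      · exact add_comm _ _
      · rfl

omit hS hU ha in
lemma rare_clean_rigid {u : V} (hu : F.Clean l sg (2 * τ) B0 u) (hl : ¬ F.loop u) (b : Bool) :
    RareRigid F l sg τ B0 (u, b) := by
  obtain ⟨h1, -, h3⟩ := hu
  refine ⟨hl, ?_, ?_, (h3 hl).1 b⟩
  · exact disjoint_left.1 h1 (F.subset_nb _ (mem_singleton_self u))
  · exact disjoint_left.1 h1 (F.mem_nb.2 (Or.inr ⟨(u, b), mem_singleton_self u, rfl⟩))

/-- the second slot of a clean vertex -/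
lemma rare_slot (hn : 48 * τ ≤ Fintype.card V) {u : V} (hu : F.Clean l sg (2 * τ) B0 u) (c : C) :
    ∃ K K', τ ≤ (F.NS l u (some c) K).card ∧ F.xv l sg (2 * τ) u c ≤ lv sg K' ∧
      rareH A0 (cls K) = (if F.loop u then 0 else
        rareH A0 (cls (att (u, false))) + rareH A0 (cls (att (u, true)))) + rareH A0 (cls K') := by
  by_cases hl : F.loop u
  · obtain ⟨K, hK, eK⟩ := F.lam_ex l sg (θ := 3 * (2 * τ)) u (some c) (by omega)
    have hy := F.lam_y l sg (2 * τ) u c
    have hxy := F.xv_add_yv l sg (2 * τ) u c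
    have h0 := hu.2.1 hl
    exact ⟨K, K, by omega, by omega, by rw [if_pos hl, zero_add]⟩
  · have hr := rare_clean_rigid hu hl
    obtain ⟨K, b, hK, ex, e⟩ := rare_own hS hU ha hn hr
      ((hu.2.2 hl).2 u (F.subset_nb _ (mem_singleton_self u))) c
    have h1 := (ha (F.mu (u, b))).2
    have h2 := (hr b).2.2.2
    have h3 := rare_att_neg hS ha (hr b)
    refine ⟨K, att (F.mu (u, b)), by omega, by omega, ?_⟩
    rw [if_neg hl, e]
    cases b
    · rw [add_right_comm, h3, zero_add]; rfl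
    · rw [add_assoc, h3, add_zero]; rfl

end main

omit [DecidableEq V] in
lemma rare_sum_fiber (Cs : Finset (Stub V)) [DecidableEq V] (a : Stub V → Gp) :
    ∑ r ∈ Cs, a r = ∑ z ∈ Cs.image Prod.fst,
      ((if (z, false) ∈ Cs then a (z, false) else 0) +
        (if (z, true) ∈ Cs then a (z, true) else 0)) := by
  have h1 : ∑ r ∈ Cs, a r = ∑ r : V × Bool, if r ∈ Cs then a r else 0 := by
    rw [← sum_filter]
    congr 1
    ext r
    simp
  rw [h1, Fintype.sum_prod_type]
  simp only [Fintype.sum_bool]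
  symm
  refine (sum_subset (subset_univ _) ?_).trans (sum_congr rfl (fun z _ => add_comm _ _))
  intro z _ hz
  have h0 : (z, false) ∉ Cs := fun h => hz (mem_image.2 ⟨_, h, rfl⟩)
  have h1 : (z, true) ∉ Cs := fun h => hz (mem_image.2 ⟨_, h, rfl⟩)
  rw [if_neg h0, if_neg h1, add_zero]

/-- Lemma R -/
theorem rare_nonpos (hS : Small F l τ A0 B0) (sg : Bool) (hU : ¬ UU sg A0) (hτ : 0 < τ)
    (hn : 48 * τ ≤ Fintype.card V) (u w : V) (huw : u ≠ w)
    (hu : F.Clean l sg (2 * τ) B0 u) (hw : F.Clean l sg (2 * τ) B0 w) :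
    F.xv l sg (2 * τ) u (G.c u w) + F.xv l sg (2 * τ) w (G.c w u) ≤ 0 := by
  by_contra hc
  obtain ⟨att, ha⟩ := rare_exists_att (F := F) (l := l) sg hn
  set Cs : Finset (Stub V) := F.zone {u, w} with hCs
  have hcl : ∀ v ∈ ({u, w} : Finset V), F.Clean l sg (2 * τ) B0 v := by
    intro v hv
    rcases mem_insert.1 hv with rfl | hv
    · exact hu
    · rw [mem_singleton.1 hv]; exact hw
  have hrig : ∀ r ∈ Cs, ¬ F.loop r.1 → RareRigid F l sg τ B0 r := by
    intro r hr hl
    rcases F.mem_zone.1 hr with h | h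
    · exact rare_clean_rigid (hcl _ h) hl r.2
    · have h1 := rareRigid_mu (rare_clean_rigid (hcl _ h)
        (fun e => hl ((F.loop_mu_iff r).1 e)) (F.mu r).2)
      simpa using h1
  set a : Stub V → Gp := fun r => if F.loop r.1 then 0 else rareH A0 (cls (att r)) with hadef
  have hsum : ∑ r ∈ Cs, a r = 0 := by
    refine sum_involution (fun r _ => F.mu r) ?_ (fun r _ _ => F.mu_ne r)
      (fun r hr => F.zone_mu hr) (fun r _ => F.mu_mu r)
    intro r hr
    by_cases hl : F.loop r.1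
    · simp only [hadef, if_pos hl, if_pos ((F.loop_mu_iff r).2 hl), add_zero]
    · simp only [hadef, if_neg hl, if_neg (fun e => hl ((F.loop_mu_iff r).1 e))]
      exact rare_att_neg hS ha (hrig r hr hl)
  set A : V → Gp := fun z => (if (z, false) ∈ Cs then a (z, false) else 0) +
    (if (z, true) ∈ Cs then a (z, true) else 0) with hA
  have hsumA : ∑ z ∈ Cs.image Prod.fst, A z = 0 := by
    rw [← hsum, rare_sum_fiber Cs a]
  have hown : ∀ v ∈ ({u, w} : Finset V), ∀ b, (v, b) ∈ Cs := fun v hv b =>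
    F.mem_zone.2 (Or.inl hv)
  have hAown : ∀ v ∈ ({u, w} : Finset V), A v = if F.loop v then 0 else
      rareH A0 (cls (att (v, false))) + rareH A0 (cls (att (v, true))) := by
    intro v hv
    simp only [hA, if_pos (hown v hv false), if_pos (hown v hv true), hadef]
    split_ifs
    · exact add_zero _
    · rfl
  have hopt : ∀ z, ∃ g : Gp, z ∈ Cs.image Prod.fst → z ≠ u → z ≠ w →
      F.Opt l Cs τ z g ∧ rareH A0 g = A z := by
    intro z
    by_cases hz : z ∈ Cs.image Prod.fst ∧ z ≠ u ∧ z ≠ w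
    swap
    · exact ⟨0, fun h1 h2 h3 => absurd ⟨h1, h2, h3⟩ hz⟩
    obtain ⟨hz, hzu, hzw⟩ := hz
    obtain ⟨⟨z', b⟩, hb, rfl⟩ := mem_image.1 hz
    simp only at hzu hzw ⊢
    have hm : (F.mu (z', b)).1 ∈ ({u, w} : Finset V) := by
      rcases F.mem_zone.1 hb with h | h
      · rcases mem_insert.1 h with h | h
        · exact absurd h hzu
        · exact absurd (mem_singleton.1 h) hzw
      · exact h
    have hl : ¬ F.loop z' := by
      intro hl
      rw [(F.loop_iff (z', b)).1 hl] at hm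
      rcases mem_insert.1 hm with h | h
      · exact hzu h
      · exact hzw (mem_singleton.1 h)
    by_cases hb' : (z', !b) ∈ Cs
    · have hall : ∀ b', (z', b') ∈ Cs := by
        intro b'
        cases b <;> cases b' <;> first | exact hb | exact hb'
      have hsk := ((hcl _ hm).2.2 (fun e => hl ((F.loop_mu_iff (z', b)).1 e))).2 z'
        (F.mem_nb'.2 (Or.inr ⟨b, mem_singleton_self _⟩))
      obtain ⟨K1, K2, hf, e⟩ := rare_double hS hU ha hn (fun b' => hrig _ (hall b') hl) hsk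
      refine ⟨cls K1 + cls K2, fun _ _ _ =>
        ⟨Or.inl ⟨hall false, hall true, K1, K2, hf, rfl⟩, ?_⟩⟩
      rw [e]
      simp only [hA, if_pos (hall false), if_pos (hall true), hadef, if_neg hl]
    · refine ⟨cls (att (z', b)), fun _ _ _ => ⟨Or.inr ⟨b, att (z', b), hb, hb', ?_, rfl⟩, ?_⟩⟩
      · have := (ha (z', b)).1
        simp only at this
        omega
      · cases b
        · have hb2 : (z', true) ∉ Cs := hb'
          simp only [hA, if_pos hb, if_neg hb2, hadef, if_neg hl, add_zero]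
        · have hb2 : (z', false) ∉ Cs := hb'
          simp only [hA, if_pos hb, if_neg hb2, hadef, if_neg hl, zero_add]
  choose g hg using hopt
  have hu' : u ∈ ({u, w} : Finset V) := mem_insert_self _ _
  have hw' : w ∈ ({u, w} : Finset V) := mem_insert_of_mem (mem_singleton_self _)
  obtain ⟨Ku, Ku', hKu, xu, eu⟩ := rare_slot hS hU ha hn hu (G.c u w)
  obtain ⟨Kw, Kw', hKw, xw, ew⟩ := rare_slot hS hU ha hn hw (G.c w u)
  rw [← hAown u hu'] at eu
  rw [← hAown w hw'] at ew
  obtain ⟨P, hP, hPc⟩ := plan_of_edge (F := F) (l := l) (τ := τ) Cs (fun s hs => F.zone_mu hs)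
    (u, false) (w, false) (hown u hu' false) (hown w hw' false) huw (hown u hu' true) g
    (fun z h1 h2 h3 => (hg z h1 h2 h3).1) Ku hKu (cls Kw)
    (Or.inl ⟨hown w hw' true, Kw, hKw, rfl⟩)
  have hsupp : P.supp = F.nb {u, w} := by
    unfold LPlan.supp
    rw [hP, hCs, F.zone_image]
  have hmem : P.cl ∈ A0 := by
    apply hS P
    · rw [hsupp]
      have h1 := F.card_nb {u, w}
      have h2 : ({u, w} : Finset V).card ≤ 2 := card_le_two
      omega
    · rw [hsupp, disjoint_left]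
      intro v hv
      rcases F.mem_nb'.1 hv with h | ⟨b, h⟩
      · exact disjoint_left.1 (hcl v h).1 (F.subset_nb _ (mem_singleton_self v))
      · exact disjoint_left.1 (hcl _ h).1 (F.mem_nb'.2 (Or.inr ⟨b, mem_singleton_self _⟩))
  refine hU (rare_UU sg hmem Ku' Kw' ?_ (by omega))
  have huI : u ∈ Cs.image Prod.fst := mem_image.2 ⟨(u, false), hown u hu' false, rfl⟩
  have hwI : w ∈ (Cs.image Prod.fst).erase u :=
    mem_erase.2 ⟨huw.symm, mem_image.2 ⟨(w, false), hown w hw' false, rfl⟩⟩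
  rw [← add_sum_erase _ _ huI, ← add_sum_erase _ _ hwI] at hsumA
  have hrest : rareH A0 (∑ z ∈ ((Cs.image Prod.fst).erase u).erase w, g z) =
      ∑ z ∈ ((Cs.image Prod.fst).erase u).erase w, A z := by
    rw [map_sum]
    refine sum_congr rfl (fun z hz => ?_)
    have h1 := mem_erase.1 hz
    have h2 := mem_erase.1 h1.2
    exact (hg z h2.2 h2.1 h1.1).2
  rw [hPc, map_add, map_add, map_add, eu, ew]
  simp only
  rw [hrest]
  have e : ∑ z ∈ ((Cs.image Prod.fst).erase u).erase w, A z + (A u + rareH A0 (cls Ku')) +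
      (A w + rareH A0 (cls Kw')) =
      (A u + (A w + ∑ z ∈ ((Cs.image Prod.fst).erase u).erase w, A z)) +
        (rareH A0 (cls Ku') + rareH A0 (cls Kw')) := by abel
  rw [e, hsumA, zero_add]

end Pool.Agent.BE
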