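import Pool.Agent.Lib.MP_dd4ef3_lc.BE.LimCl
import Pool.Agent.Lib.MP_dd4ef3_lc.BE.LPI

set_option autoImplicit false

open Finset Classical Filter

noncomputable section

namespace Pool.Agent.BE

variable {I : ℕ → Inst}

/-- the set `X` of the closed set `A` is not null -/
def BigX (I : ℕ → Inst) (A : SSet I) : Prop :=
  ¬ Null I (fun i => (univ.filter (fun s => (I i).F.phi (A i) s = 1)).card)

/-- the labelling of the case `S1` -/
def labS (I : ℕ → Inst) (A : SSet I) : Lab I := fun i => (I i).F.labA (A i)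

section fin

variable {V C : Type} [Fintype V] [DecidableEq V] {G : Ctx V C}

/-- the chosen stub is the high or the low stub -/
lemma S1a_ch_cases (F : PF G) (A : Finset (Stub V)) (u : V) (a : C) :
    F.ch A u a = F.hi A u ∨ F.ch A u a = F.lo A u := by
  unfold PF.ch
  split_ifs
  · exact Or.inr rfl
  · exact Or.inl rfl

lemma S1a_phi_ch (F : PF G) (A : Finset (Stub V)) {p q : ℤ} {u : V} (hu : u ∈ F.ty A p q)
    (a : C) : F.phi A (F.ch A u a) = p ∨ F.phi A (F.ch A u a) = q := by
  obtain ⟨h1, h2⟩ := (F.mem_ty A).1 hu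
  rcases S1a_ch_cases F A u a with h | h
  · rw [h]; exact Or.inl h1
  · rw [h]; exact Or.inr h2

lemma S1a_mA_zero (F : PF G) (A : Finset (Stub V)) {u w : V} (huw : u ≠ w)
    (h : (u, w) ∉ F.badPairs A) : F.mA A u w = 0 := by
  by_contra hc
  apply h
  unfold PF.badPairs
  exact mem_filter.2 ⟨mem_univ _, huw, hc⟩

/-- rows of a set of pairs add up to its size -/
lemma S1a_sum_rows (E : Finset (V × V)) :
    ∑ u, (univ.filter (fun w => (u, w) ∈ E)).card = E.card := by
  rw [card_eq_sum_card_fiberwise (f := Prod.fst) (s := E) (t := univ)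
    (fun _ _ => by simp)]
  refine sum_congr rfl (fun u _ => ?_)
  refine card_bij (fun w _ => (u, w)) ?_ ?_ ?_
  · intro w hw
    exact mem_filter.2 ⟨(mem_filter.1 hw).2, rfl⟩
  · intro w _ w' _ h
    exact (Prod.ext_iff.1 h).2
  · rintro ⟨a, b⟩ hp
    obtain ⟨h1, h2⟩ := mem_filter.1 hp
    simp only at h2
    subst h2
    exact ⟨b, mem_filter.2 ⟨mem_univ _, h1⟩, rfl⟩

/-- a vertex of type `(1,0)` with few bad pairs forces the type `(0,0)` to be small -/
lemma S1a_ty00_le (F : PF G) (A : Finset (Stub V)) {u : V} (hu : u ∈ F.ty A 1 0) (g : ℕ)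
    (hg : (univ.filter (fun w => (u, w) ∈ F.badPairs A)).card ≤ g) :
    (F.ty A 0 0).card ≤ (F.ty A 1 (-1)).card + 2 * g + (F.ty A 1 1).card := by
  obtain ⟨hu1, -⟩ := (F.mem_ty A).1 hu
  have hdeg := deg_opt G u (F.kept (F.hi A u))
  have hsub : (univ : Finset V) ⊆ {u} ∪
      (univ.filter (fun w => w ≠ u ∧ some (G.c u w) = F.kept (F.hi A u)) ∪
        (univ.filter (fun w => (u, w) ∈ F.badPairs A) ∪
          (F.ty A 0 (-1) ∪ (F.ty A 1 (-1) ∪ F.ty A (-1) (-1))))) := by
    intro w _
    by_cases h1 : w = u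
    · exact mem_union_left _ (mem_singleton.2 h1)
    refine mem_union_right _ ?_
    by_cases h2 : some (G.c u w) = F.kept (F.hi A u)
    · exact mem_union_left _ (mem_filter.2 ⟨mem_univ _, h1, h2⟩)
    refine mem_union_right _ ?_
    by_cases h3 : (u, w) ∈ F.badPairs A
    · exact mem_union_left _ (mem_filter.2 ⟨mem_univ _, h3⟩)
    refine mem_union_right _ ?_
    have hm := S1a_mA_zero F A (Ne.symm h1) h3
    unfold PF.mA at hm
    have e1 : F.ch A u (G.c u w) = F.hi A u := by
      unfold PF.ch; rw [if_neg h2]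
    rw [e1, hu1] at hm
    have hle := F.lo_le_hi A w
    have hlo : F.phi A (F.lo A w) = -1 := by
      rcases S1a_ch_cases F A w (G.c w u) with h | h
      · rw [h] at hm
        rcases F.phi_cases A (F.lo A w) with h' | h' | h' <;> omega
      · rw [h] at hm; omega
    rcases F.phi_cases A (F.hi A w) with h' | h' | h'
    · exact mem_union_right _ (mem_union_left _ ((F.mem_ty A).2 ⟨h', hlo⟩))
    · exact mem_union_left _ ((F.mem_ty A).2 ⟨h', hlo⟩)
    · exact mem_union_right _ (mem_union_right _ ((F.mem_ty A).2 ⟨h', hlo⟩))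
  have h0 := card_le_card hsub
  have h1 := card_union_le ({u} : Finset V)
      (univ.filter (fun w => w ≠ u ∧ some (G.c u w) = F.kept (F.hi A u)) ∪
        (univ.filter (fun w => (u, w) ∈ F.badPairs A) ∪
          (F.ty A 0 (-1) ∪ (F.ty A 1 (-1) ∪ F.ty A (-1) (-1)))))
  have h2 := card_union_le (univ.filter (fun w => w ≠ u ∧ some (G.c u w) = F.kept (F.hi A u)))
        (univ.filter (fun w => (u, w) ∈ F.badPairs A) ∪
          (F.ty A 0 (-1) ∪ (F.ty A 1 (-1) ∪ F.ty A (-1) (-1))))
  have h3 := card_union_le (univ.filter (fun w => (u, w) ∈ F.badPairs A))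
          (F.ty A 0 (-1) ∪ (F.ty A 1 (-1) ∪ F.ty A (-1) (-1)))
  have h4 := card_union_le (F.ty A 0 (-1)) (F.ty A 1 (-1) ∪ F.ty A (-1) (-1))
  have h5 := card_union_le (F.ty A 1 (-1)) (F.ty A (-1) (-1))
  have hb := F.ty_balance A
  have ht := F.ty_total A
  rw [card_univ] at h0
  rw [card_singleton] at h1
  omega

end fin

/-- a non-null vertex set is eventually not contained in a null one -/
lemma S1a_exists_not_mem {U W : VSet I} (hU : ¬ Null I (fun i => (U i).card))
    (hW : Null I (fun i => (W i).card)) : ∀ᶠ i in UF, ∃ u ∈ U i, u ∉ W i := by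
  by_contra hc
  apply hU
  have h := (Ultrafilter.eventually_not (f := Filter.hyperfilter ℕ)).2 hc
  refine hW.mono (h.mono (fun i hi => card_le_card (fun u hu => ?_)))
  by_contra hu'
  exact hi ⟨u, hu, hu'⟩

variable {A : SSet I}

theorem tight_pairs (hA : Closed I A) : Null2 I (fun i => ((I i).F.badPairs (A i)).card) :=
  Null2.mono (Null2.const_mul hA 6)
    (Eventually.of_forall (fun i => (I i).F.tight_pairs_fin (A i)))

theorem tight_row (hI : Grow I) (hA : Closed I A) : ∃ g : ℕ → ℕ, Null I g ∧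
    Null I (fun i => (univ.filter (fun u => g i <
      (univ.filter (fun w => (u, w) ∈ (I i).F.badPairs (A i))).card)).card) := by
  have h := markov hI (α := fun i => Fin (I i).n)
    (fun i u => (univ.filter (fun w => (u, w) ∈ (I i).F.badPairs (A i))).card)
    ((tight_pairs hA).mono (Eventually.of_forall (fun i => (S1a_sum_rows _).le)))
  obtain ⟨g, h1, h2⟩ := h
  exact ⟨g, h1, h2.mono (Eventually.of_forall (fun i => le_of_eq (by congr)))⟩

theorem tight_deg (hI : Grow I) (hA : Closed I A) : ∃ g : ℕ → ℕ, Null I g ∧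
    Null I (fun i => (univ.filter (fun u =>
      (I i).F.phi (A i) ((I i).F.lo (A i) u) < (I i).F.phi (A i) ((I i).F.hi (A i) u) ∧
        2 * (I i).F.fdeg (A i) u + g i < (I i).n)).card) := by
  have h := markov hI (α := fun i => Fin (I i).n)
    (fun i u => if (I i).F.phi (A i) ((I i).F.lo (A i) u) < (I i).F.phi (A i) ((I i).F.hi (A i) u)
      then (I i).n - 2 * (I i).F.fdeg (A i) u else 0)
    (Null2.mono (Null2.const_mul hA 8) (Eventually.of_forall (fun i => by
      have h := (I i).F.tight_deg_fin (A i)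
      rw [sum_filter, Fintype.card_fin] at h
      exact h)))
  obtain ⟨g, h1, h2⟩ := h
  refine ⟨g, h1, h2.mono (Eventually.of_forall (fun i => card_le_card (fun u hu => ?_)))⟩
  obtain ⟨-, h3, h4⟩ := mem_filter.1 hu
  refine mem_filter.2 ⟨mem_univ _, ?_⟩
  rw [if_pos h3]
  omega

/-- two non-null types contain a tight pair -/
lemma S1a_tight_pair (hI : Grow I) (hA : Closed I A) {p q p' q' : ℤ}
    (h1 : ¬ Null I (fun i => ((I i).F.ty (A i) p q).card))
    (h2 : ¬ Null I (fun i => ((I i).F.ty (A i) p' q').card)) :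
    p + p' = 0 ∨ p + q' = 0 ∨ q + p' = 0 ∨ q + q' = 0 := by
  obtain ⟨i, u, hu, w, hw, huw, hE⟩ := (exists_pair hI (U := fun i => (I i).F.ty (A i) p q)
    (W := fun i => (I i).F.ty (A i) p' q') h1 h2 (fun i => (I i).F.badPairs (A i))
    (tight_pairs hA)).exists
  have hm := S1a_mA_zero _ _ huw hE
  unfold PF.mA at hm
  rcases S1a_phi_ch _ _ hu ((I i).G.c u w) with a | a <;>
    rcases S1a_phi_ch _ _ hw ((I i).G.c w u) with b | b <;> omega

theorem ty11_null (hI : Grow I) (hA : Closed I A) :
    Null I (fun i => ((I i).F.ty (A i) 1 1).card) := by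
  by_contra hc
  have := S1a_tight_pair hI hA hc hc
  omega

theorem tymm_null (hI : Grow I) (hA : Closed I A) :
    Null I (fun i => ((I i).F.ty (A i) (-1) (-1)).card) := by
  by_contra hc
  have := S1a_tight_pair hI hA hc hc
  omega

theorem ty00_null (hI : Grow I) (hA : Closed I A) (hX : BigX I A) :
    Null I (fun i => ((I i).F.ty (A i) 0 0).card) := by
  by_cases hT : Null I (fun i => ((I i).F.ty (A i) 1 (-1)).card)
  · have h11 := ty11_null hI hA
    have hP : ¬ Null I (fun i => ((I i).F.ty (A i) 1 0).card) := by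
      intro hP
      apply hX
      refine (((h11.const_mul 2).add hP).add hT).mono (Eventually.of_forall (fun i => ?_))
      exact ((I i).F.phi_one_card (A i)).le
    obtain ⟨g, hg, hrow⟩ := tight_row hI hA
    have hex := S1a_exists_not_mem (U := fun i => (I i).F.ty (A i) 1 0) hP hrow
    refine ((hT.add (hg.const_mul 2)).add h11).mono (hex.mono (fun i hi => ?_))
    obtain ⟨u, hu, hu'⟩ := hi
    refine S1a_ty00_le _ _ hu (g i) ?_
    by_contra hlt
    exact hu' (mem_filter.2 ⟨mem_univ _, not_le.1 hlt⟩)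
  · by_contra hc
    have := S1a_tight_pair hI hA hT hc
    omega

end Pool.Agent.BE
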