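import Pool.Agent.Lib.MP_dd4ef3_lc.BE.S1a

set_option autoImplicit false

open Finset Classical Filter

noncomputable section

namespace Pool.Agent.BE

section fin

variable {V C : Type} [Fintype V] [DecidableEq V] {G : Ctx V C} (F : PF G)
  (A B : Finset (Stub V))

lemma S1b_lab_X (s : Stub V) : F.labA A s = .X ↔ F.phi A s = 1 := by
  unfold PF.labA; split_ifs <;> simp_all

lemma S1b_lab_Xb (s : Stub V) : F.labA A s = .Xb ↔ F.phi A s = -1 := by
  unfold PF.labA; split_ifs <;> simp_all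

lemma S1b_lab_mu (s : Stub V) : F.labA A (F.mu s) = .Xb ↔ F.labA A s = .X := by
  rw [S1b_lab_Xb, S1b_lab_X, F.phi_mu, neg_inj]

lemma S1b_mem_ty {s : Stub V} {p : ℤ} (h1 : F.phi A s = p) (h2 : F.phi A (nu s) = p) :
    s.1 ∈ F.ty A p p := by
  obtain ⟨v, b⟩ := s
  rw [F.mem_ty, PF.lo, PF.hi]
  cases b <;> split_ifs <;> simp_all

/-- vertices of type `(1,-1)` for `A` and `(0,-1)` for `B` with the same low stub -/
def S1b_W : Finset V := univ.filter fun u => ∃ b, F.phi A (u, b) = 1 ∧ F.phi A (nu (u, b)) = -1 ∧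
  F.phi B (u, b) = 0 ∧ F.phi B (nu (u, b)) = -1

lemma S1b_ch {u : V} (h : u ∈ S1b_W F A B) (a : C) :
    (F.phi A (F.ch A u a) = 1 ∧ F.phi B (F.ch B u a) = 0) ∨
      (F.phi A (F.ch A u a) = -1 ∧ F.phi B (F.ch B u a) = -1) := by
  obtain ⟨b, h1, h2, h3, h4⟩ := (mem_filter.1 h).2
  have e1 : F.hi A u = (u, b) := F.eq_hi_of_lt A (s := (u, b)) (by omega)
  have e2 : F.hi B u = (u, b) := F.eq_hi_of_lt B (s := (u, b)) (by omega)
  unfold PF.ch PF.lo
  rw [e1, e2]
  split_ifs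
  · exact Or.inr ⟨h2, h4⟩
  · exact Or.inl ⟨h1, h3⟩

lemma S1b_bad {u w : V} (hu : u ∈ S1b_W F A B) (hw : w ∈ S1b_W F A B) (h : u ≠ w) :
    (u, w) ∈ F.badPairs A ∪ F.badPairs B := by
  have h1 := S1b_ch F A B hu (G.c u w)
  have h2 := S1b_ch F A B hw (G.c w u)
  simp only [PF.badPairs, PF.mA, mem_union, mem_filter, mem_univ, true_and, ne_eq, h,
    not_false_eq_true]
  omega

lemma S1b_card (hB : ∀ s ∈ B, F.phi A s = 1) :
    (univ.filter (fun s => F.phi A s = 1 ∧ s ∉ B)).card ≤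
      2 * ((F.ty B 0 0).card + (F.ty A 1 1).card + (S1b_W F A B).card) := by
  have h1 : univ.filter (fun s => F.phi A s = 1 ∧ s ∉ B) ⊆
      (F.ty B 0 0 ∪ F.ty A 1 1 ∪ S1b_W F A B) ×ˢ (univ : Finset Bool) := by
    intro s hs
    obtain ⟨s1, s2⟩ := (mem_filter.1 hs).2
    have s3 : F.mu s ∉ B := fun h => by
      have := hB _ h
      rw [F.phi_mu] at this
      omega
    have s4 : F.phi B s = 0 := by simp [PF.phi, s2, s3]
    rw [mem_product, mem_union, mem_union]
    refine ⟨?_, mem_univ _⟩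
    rcases F.phi_cases B (nu s) with h | h | h
    · exact Or.inl (Or.inr (S1b_mem_ty F A s1 (hB _ ((F.phi_eq_one B _).1 h).1)))
    · exact Or.inl (Or.inl (S1b_mem_ty F B s4 h))
    · have h2 := hB _ ((F.phi_eq_one B (F.mu (nu s))).1 (by rw [F.phi_mu, h, neg_neg])).1
      rw [F.phi_mu] at h2
      exact Or.inr (mem_filter.2 ⟨mem_univ _, s.2, s1, neg_eq_iff_eq_neg.1 h2, s4, h⟩)
  have h2 := card_le_card h1
  have h3 := card_union_le (F.ty B 0 0 ∪ F.ty A 1 1) (S1b_W F A B)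
  have h4 := card_union_le (F.ty B 0 0) (F.ty A 1 1)
  rw [card_product, card_univ, Fintype.card_bool] at h2
  omega

end fin

variable {I : ℕ → Inst}

variable {A : SSet I}

theorem ns_Xb (hI : Grow I) (hA : Closed I A) (hX : BigX I A) : NSlim I (labS I A) .Xb .X := by
  intro A' hA' hn
  have hB := hA'.inter (hA.inter hA.compl_mu)
  obtain ⟨B, e⟩ : ∃ B : SSet I, B = fun i => A' i ∩ (A i ∩
    univ.filter (fun s => (I i).F.mu s ∉ A i)) := ⟨_, rfl⟩
  rw [← e] at hB
  have mem : ∀ i s, s ∈ B i ↔ s ∈ A' i ∧ (I i).F.phi (A i) s = 1 := fun i s => by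
    simp [e, PF.phi_eq_one]
  have hXB : BigX I B := fun h => hn (h.mono (.of_forall fun i => card_le_card fun s hs => by
    obtain ⟨s1, s2⟩ := mem_filter.1 hs
    rw [labS, S1b_lab_mu, S1b_lab_X] at s2
    refine mem_filter.2 ⟨mem_univ _, (PF.phi_eq_one _ _ _).2 ⟨(mem i s).2 ⟨s1, s2⟩, fun k => ?_⟩⟩
    have := ((mem i _).1 k).2
    rw [PF.phi_mu] at this
    omega))
  have hW : Null I (fun i => (S1b_W (I i).F (A i) (B i)).card) := by
    by_contra h
    obtain ⟨i, u, hu, w, hw, h1, h2⟩ := (exists_pair hI h h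
      (fun i => (I i).F.badPairs (A i) ∪ (I i).F.badPairs (B i))
      (((tight_pairs hA).add (tight_pairs hB)).mono
        (.of_forall fun i => card_union_le _ _))).exists
    exact h2 (S1b_bad _ _ _ hu hw h1)
  refine ((((ty00_null hI hB hXB).add (ty11_null hI hA)).add hW).const_mul 2).mono
    (.of_forall fun i => le_trans (card_le_card fun s hs => ?_)
      (S1b_card _ _ _ fun s hs => ((mem i s).1 hs).2))
  obtain ⟨s1, s2⟩ := (mem_filter.1 hs).2
  rw [labS, S1b_lab_X] at s1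
  exact mem_filter.2 ⟨mem_univ _, s1, fun k => s2 ((mem i s).1 k).1⟩

theorem ns_X (hI : Grow I) (hA : Closed I A) (hX : BigX I A) : NSlim I (labS I A) .X .Xb := by
  intro A' hA' hn
  by_contra h
  refine hn ((ns_Xb hI hA hX _ hA'.compl_mu fun k => h (k.mono (.of_forall fun i => ?_))).mono
    (.of_forall fun i => ?_))
  · refine card_le_card_of_injOn (I i).F.mu (fun s hs => ?_) fun _ _ _ _ e => (I i).F.mu_inj e
    simp only [coe_filter, mem_filter, mem_univ, true_and, Set.mem_ofPred_eq, PF.mu_mu] at hs ⊢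
    exact ⟨hs.2, hs.1⟩
  · refine card_le_card_of_injOn (I i).F.mu (fun s hs => ?_) fun _ _ _ _ e => (I i).F.mu_inj e
    simp only [coe_filter, mem_filter, mem_univ, true_and, Set.mem_ofPred_eq, PF.mu_mu,
      not_not] at hs ⊢
    exact ⟨hs.2, hs.1⟩

end Pool.Agent.BE
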