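import Pool.Agent.Lib.MP_dd4ef3_lc.BE.Loc

set_option autoImplicit false

open Finset Classical

noncomputable section

namespace Pool.Agent.BE

variable {V C : Type} [Fintype V] [DecidableEq V] {G : Ctx V C}

lemma val_lv_cases (sg : Bool) (K : Node) : lv sg K = 1 ∨ lv sg K = 0 ∨ lv sg K = -1 := by
  cases sg <;> cases K <;> simp [lv, bsg, cls]

namespace PF
variable (F : PF G) (l : Stub V → Node) (sg : Bool)

lemma lam_bounds (θ : ℕ) (z : V) (a : Option C) :
    -1 ≤ F.lam l sg θ z a ∧ F.lam l sg θ z a ≤ 1 := by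
  unfold lam; split_ifs <;> constructor <;> omega
lemma le_lam {θ : ℕ} {z : V} {a : Option C} {K : Node} (h : θ ≤ (F.NS l z a K).card) :
    lv sg K ≤ F.lam l sg θ z a := by
  unfold lam
  split_ifs with h1 h0
  · rcases val_lv_cases sg K with e | e | e <;> omega
  · rcases val_lv_cases sg K with e | e | e
    · exact absurd ⟨K, h, e⟩ h1
    · omega
    · omega
  · rcases val_lv_cases sg K with e | e | e
    · exact absurd ⟨K, h, e⟩ h1
    · exact absurd ⟨K, h, e⟩ h0
    · omega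
lemma val_lam_ex' {θ : ℕ} {z : V} {a : Option C} (h : -1 < F.lam l sg θ z a) :
    ∃ K, θ ≤ (F.NS l z a K).card ∧ lv sg K = F.lam l sg θ z a := by
  unfold lam at h ⊢
  split_ifs at h ⊢ with h1 h0
  · exact h1
  · exact h0
  · omega
lemma lam_ex {θ : ℕ} (z : V) (a : Option C) (hn : 8 * θ ≤ Fintype.card V) :
    ∃ K, θ ≤ (F.NS l z a K).card ∧ lv sg K = F.lam l sg θ z a := by
  by_cases h : -1 < F.lam l sg θ z a
  · exact F.val_lam_ex' l sg h
  · obtain ⟨K, hK⟩ := F.NS_ex l z a θ hn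
    refine ⟨K, hK, ?_⟩
    have h1 := F.le_lam l sg hK
    have h2 := F.lam_bounds l sg θ z a
    rcases val_lv_cases sg K with e | e | e <;> omega
lemma val_lam_mono {θ θ' : ℕ} {z : V} {a a' : Option C}
    (h : ∀ K, θ ≤ (F.NS l z a K).card → θ' ≤ (F.NS l z a' K).card) :
    F.lam l sg θ z a ≤ F.lam l sg θ' z a' := by
  by_cases h1 : -1 < F.lam l sg θ z a
  · obtain ⟨K, hK, e⟩ := F.val_lam_ex' l sg h1
    rw [← e]; exact F.le_lam l sg (h K hK)
  · have := F.lam_bounds l sg θ' z a'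
    omega
lemma fv_min (θ : ℕ) (z : V) (a : C) :
    F.lam l sg (3 * θ) z (some (F.fv l sg θ z)) ≤ F.lam l sg (3 * θ) z (some a) :=
  (F.exists_fv l sg (3 * θ) z).choose_spec a
lemma val_bounds (θ : ℕ) (z : V) :
    -1 ≤ F.qv l sg θ z ∧ F.qv l sg θ z ≤ F.pv l sg θ z ∧ F.pv l sg θ z ≤ 1 := by
  have h1 := F.lam_bounds l sg (3 * θ) z (some (F.fv l sg θ z))
  have h2 := F.lam_bounds l sg (6 * θ) z none
  unfold qv pv
  omega
lemma xv_add_yv (θ : ℕ) (z : V) (a : C) :
    F.xv l sg θ z a + F.yv l sg θ z a = F.pv l sg θ z + F.qv l sg θ z := by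
  unfold xv yv; split_ifs <;> omega
/-- stubs of `N(z,none,K)` have the colour `a` or lie in `N(z,a,K)` -/
lemma val_split (z : V) (a : C) (K : Node) : (F.NS l z none K).card ≤
    ((F.NS l z none K).filter (fun t => G.c z t.1 = a)).card + (F.NS l z (some a) K).card := by
  refine le_trans (card_le_card ?_) (card_union_le _ _)
  intro t ht
  by_cases e : G.c z t.1 = a
  · exact mem_union_left _ (mem_filter.2 ⟨ht, e⟩)
  · refine mem_union_right _ ?_
    rw [mem_NS] at ht ⊢
    exact ⟨ht.1, ht.2.1, ht.2.2.1, fun h => e (Option.some.inj h)⟩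
lemma val_col_sub {z : V} {a a' : C} (h : a ≠ a') (K : Node) :
    (F.NS l z none K).filter (fun t => G.c z t.1 = a) ⊆ F.NS l z (some a') K := by
  intro t ht
  obtain ⟨ht, e⟩ := mem_filter.1 ht
  rw [mem_NS] at ht ⊢
  exact ⟨ht.1, ht.2.1, ht.2.2.1, fun h' => h (e.symm.trans (Option.some.inj h'))⟩
/-- if `q < p`, the level `-q` is reached through the colour `f` -/
lemma top_ex {θ : ℕ} {z : V} (h : F.qv l sg θ z < F.pv l sg θ z) :
    ∃ K, lv sg K = - F.qv l sg θ z ∧
      3 * θ ≤ ((F.NS l z none K).filter (fun t => G.c z t.1 = F.fv l sg θ z)).card := by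
  have h1 := F.lam_bounds l sg (3 * θ) z (some (F.fv l sg θ z))
  unfold qv pv at h
  have h2 : -1 < F.lam l sg (6 * θ) z none := by omega
  obtain ⟨K, hK, e⟩ := F.val_lam_ex' l sg h2
  refine ⟨K, by unfold qv; omega, ?_⟩
  have h3 : ¬ 3 * θ ≤ (F.NS l z (some (F.fv l sg θ z)) K).card := by
    intro h4
    have := F.le_lam l sg h4
    omega
  have h4 := F.val_split l z (F.fv l sg θ z) K
  omega
lemma lam_y (θ : ℕ) (z : V) (a : C) : - F.yv l sg θ z a ≤ F.lam l sg (3 * θ) z (some a) := by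
  unfold yv
  split_ifs with h
  · rw [h]; unfold pv; omega
  · have h1 := F.fv_min l sg θ z a
    by_cases h2 : F.qv l sg θ z < F.pv l sg θ z
    · obtain ⟨K, e, hK⟩ := F.top_ex l sg h2
      have h3 := card_le_card (F.val_col_sub l (z := z) (Ne.symm h) K)
      have h4 := F.le_lam l sg (le_trans hK h3)
      omega
    · have h3 := F.val_bounds l sg θ z
      have h4 : F.pv l sg θ z = - F.lam l sg (3 * θ) z (some (F.fv l sg θ z)) := rfl
      omega
lemma psi_le (θ : ℕ) (s : Stub V) :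
    F.psi l sg θ s ≤ F.pv l sg θ s.1 ∧
      (F.kept s ≠ some (F.fv l sg θ s.1) → F.psi l sg θ s ≤ F.qv l sg θ s.1) := by
  have hp : F.pv l sg θ s.1 = - F.lam l sg (3 * θ) s.1 (some (F.fv l sg θ s.1)) := rfl
  unfold psi
  cases hk : F.kept s with
  | none =>
    have h1 : F.lam l sg (3 * θ) s.1 (some (F.fv l sg θ s.1)) ≤ F.lam l sg (3 * θ) s.1 none :=
      F.val_lam_mono l sg (fun K hK => le_trans hK (card_le_card (F.NS_sub l _ _ K)))
    have h2 : F.lam l sg (6 * θ) s.1 none ≤ F.lam l sg (3 * θ) s.1 none :=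
      F.val_lam_mono l sg (fun K hK => by omega)
    refine ⟨by omega, fun _ => ?_⟩
    unfold qv
    omega
  | some a =>
    have h1 := F.fv_min l sg θ s.1 a
    refine ⟨by omega, fun h => ?_⟩
    have h2 := F.lam_y l sg θ s.1 a
    have h3 : a ≠ F.fv l sg θ s.1 := fun e => h (by rw [e])
    unfold yv at h2
    rw [if_neg h3] at h2
    omega
lemma skew_nonneg (θ : ℕ) (z : V) :
    F.psi l sg θ (z, false) + F.psi l sg θ (z, true) ≤ F.pv l sg θ z + F.qv l sg θ z := by
  obtain ⟨b, hb⟩ := F.exists_avail z (F.fv l sg θ z)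
  have h0 := F.psi_le l sg θ (z, false)
  have h1 := F.psi_le l sg θ (z, true)
  simp only at h0 h1
  cases b
  · have := h0.2 (Ne.symm hb); omega
  · have := h1.2 (Ne.symm hb); omega
lemma val_feas_col {z : V} {θ : ℕ} {K1 K2 : Node} (a : C)
    (h1 : θ ≤ ((F.NS l z none K1).filter (fun t => G.c z t.1 = a)).card)
    (h2 : θ ≤ (F.NS l z (some a) K2).card) : F.Feas l z θ K1 K2 := by
  refine ⟨{a}, le_trans h1 (card_le_card ?_), le_trans h2 (card_le_card ?_)⟩
  · intro t ht
    obtain ⟨ht, e⟩ := mem_filter.1 ht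
    exact mem_filter.2 ⟨ht, e⟩
  · intro t ht
    refine mem_filter.2 ⟨F.NS_sub l _ _ _ ht, fun e => ?_⟩
    rw [mem_NS] at ht
    exact ht.2.2.2 (congrArg some e)
lemma feas_val {θ : ℕ} (z : V) (hn : 24 * θ ≤ Fintype.card V) :
    ∃ K1 K2, F.Feas l z θ K1 K2 ∧ -(F.pv l sg θ z + F.qv l sg θ z) ≤ lv sg K1 + lv sg K2 := by
  have hp : F.pv l sg θ z = - F.lam l sg (3 * θ) z (some (F.fv l sg θ z)) := rfl
  have hn' : 8 * (3 * θ) ≤ Fintype.card V := by omega
  obtain ⟨K', hK', e'⟩ := F.lam_ex l sg z (some (F.fv l sg θ z)) hn'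
  by_cases h2 : F.qv l sg θ z < F.pv l sg θ z
  · obtain ⟨K, e, hK⟩ := F.top_ex l sg h2
    exact ⟨K, K', F.val_feas_col l (F.fv l sg θ z) (by omega) (by omega), by omega⟩
  · have h3 := F.val_bounds l sg θ z
    have hA : 3 * θ ≤ (F.NS l z none K').card := le_trans hK' (card_le_card (F.NS_sub l _ _ _))
    rcases JF (fun t : Stub V => G.c z t.1) _ _ θ hA hA with ⟨Γ, c1, c2⟩ | ⟨γ, c1, -⟩
    · refine ⟨K', K', ⟨Γ, ?_, ?_⟩, by omega⟩
      · convert c1
      · convert c2
    · obtain ⟨K2, hK2, e2⟩ := F.lam_ex l sg z (some γ) hn'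
      have h4 := F.fv_min l sg θ z γ
      have h5 := F.val_split l z γ K'
      have h6 : (F.NS l z (some γ) K').card < θ := by
        refine lt_of_le_of_lt (card_le_card ?_) c1
        intro t ht
        refine mem_filter.2 ⟨F.NS_sub l _ _ _ ht, fun e => ?_⟩
        rw [mem_NS] at ht
        exact ht.2.2.2 (congrArg some e)
      exact ⟨K', K2, F.val_feas_col l γ (by omega) (by omega), by omega⟩
lemma val_rare_node (θ : ℕ) (u : V) (K : Node) :
    (univ.filter (fun t : Stub V => (t.1 ≠ u ∧ some (G.c t.1 u) ≠ F.kept t ∧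
      - F.xv l sg θ u (G.c u t.1) < lv sg (l t)) ∧ l t = K)).card ≤ 9 * θ := by
  have hp : F.pv l sg θ u = - F.lam l sg (3 * θ) u (some (F.fv l sg θ u)) := rfl
  have hq : F.lam l sg (6 * θ) u none ≤ - F.qv l sg θ u := by unfold qv; omega
  have hA : ∃ A : Finset (Stub V), A.card ≤ 6 * θ ∧
      (- F.qv l sg θ u < lv sg K → F.NS l u none K ⊆ A) := by
    by_cases h : - F.qv l sg θ u < lv sg K
    · refine ⟨F.NS l u none K, ?_, fun _ => Subset.refl _⟩
      by_contra h1
      have := F.le_lam l sg (θ := 6 * θ) (z := u) (a := none) (K := K) (by omega)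
      omega
    · exact ⟨∅, by simp, fun h' => absurd h' h⟩
  have hB : ∃ B : Finset (Stub V), B.card ≤ 3 * θ ∧
      (- F.pv l sg θ u < lv sg K → F.NS l u (some (F.fv l sg θ u)) K ⊆ B) := by
    by_cases h : - F.pv l sg θ u < lv sg K
    · refine ⟨F.NS l u (some (F.fv l sg θ u)) K, ?_, fun _ => Subset.refl _⟩
      by_contra h1
      have := F.le_lam l sg (θ := 3 * θ) (z := u) (a := some (F.fv l sg θ u)) (K := K) (by omega)
      omega
    · exact ⟨∅, by simp, fun h' => absurd h' h⟩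
  obtain ⟨A, hA1, hA2⟩ := hA
  obtain ⟨B, hB1, hB2⟩ := hB
  have hsub : (univ.filter (fun t : Stub V => (t.1 ≠ u ∧ some (G.c t.1 u) ≠ F.kept t ∧
      - F.xv l sg θ u (G.c u t.1) < lv sg (l t)) ∧ l t = K)) ⊆ A ∪ B := by
    intro t ht
    obtain ⟨-, ⟨h1, h2, h3⟩, h4⟩ := mem_filter.1 ht
    rw [h4] at h3
    unfold xv at h3
    split_ifs at h3 with e
    · exact mem_union_left _ (hA2 h3 (F.mem_NS.2 ⟨h4, h1, h2, by simp⟩))
    · exact mem_union_right _ (hB2 h3 (F.mem_NS.2 ⟨h4, h1, h2, fun h => e (Option.some.inj h)⟩))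
  have h1 := card_le_card hsub
  have h2 := card_union_le A B
  omega
lemma rare_count (θ : ℕ) (u : V) :
    (univ.filter (fun t : Stub V => t.1 ≠ u ∧ some (G.c t.1 u) ≠ F.kept t ∧
      - F.xv l sg θ u (G.c u t.1) < lv sg (l t))).card ≤ 36 * θ := by
  have h := card_le_mul_card_image_of_maps_to (f := l)
    (s := univ.filter (fun t : Stub V => t.1 ≠ u ∧ some (G.c t.1 u) ≠ F.kept t ∧
      - F.xv l sg θ u (G.c u t.1) < lv sg (l t))) (t := (univ : Finset Node))
    (fun _ _ => mem_univ _) (9 * θ) (fun K _ => by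
      rw [filter_filter]
      convert F.val_rare_node l sg θ u K)
  have h4 : (univ : Finset Node).card = 4 := by decide
  rw [h4] at h
  omega
lemma nonskew_select {θ : ℕ} {z : V}
    (h : F.psi l sg θ (z, false) + F.psi l sg θ (z, true) = F.pv l sg θ z + F.qv l sg θ z) (a : C) :
    ∃ b, some a ≠ F.kept (z, b) ∧ F.psi l sg θ (z, b) = F.xv l sg θ z a ∧
      F.psi l sg θ (z, !b) = F.yv l sg θ z a := by
  obtain ⟨b, hb⟩ := F.exists_avail z (F.fv l sg θ z)
  have h0 := F.psi_le l sg θ (z, b)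
  have h1 := F.psi_le l sg θ (z, !b)
  simp only at h0 h1
  have hs : F.psi l sg θ (z, b) + F.psi l sg θ (z, !b) = F.pv l sg θ z + F.qv l sg θ z := by
    cases b
    · simpa using h
    · simp only [Bool.not_true]; omega
  have h2 := h0.2 (Ne.symm hb)
  have h3 := F.val_bounds l sg θ z
  unfold xv yv
  split_ifs with e
  · exact ⟨b, by rw [e]; exact hb, by omega, by omega⟩
  · by_cases h4 : F.kept (z, !b) = some a
    · have h5 := h1.2 (by rw [h4]; exact fun h => e (Option.some.inj h))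
      have h6 := F.kept_ne h4
      simp only [nu_mk, Bool.not_not] at h6
      exact ⟨b, Ne.symm h6, by omega, by omega⟩
    · exact ⟨!b, Ne.symm h4, by omega, by simp only [Bool.not_not]; omega⟩
/-- values of a typical vertex: `s` is its high stub, at level `l1`, the other one is at `l2` -/
lemma typ_val {θ : ℕ} (hθ : 0 < θ) (hn : 24 * θ ≤ Fintype.card V) (s : Stub V) (l1 l2 : ℤ)
    (h12 : l2 < l1) (K1 K2 : Node) (e1 : lv sg K1 = -l1) (e2 : lv sg K2 = -l2)
    (c1 : 9 * θ ≤ (F.NS l s.1 (F.kept s) K1).card)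
    (c2 : 9 * θ ≤ (F.NS l s.1 (F.kept (nu s)) K2).card)
    (hmono : ∀ K, θ ≤ (F.NS l s.1 (F.kept s) K).card → lv sg K ≤ -l1) :
    F.kept s = some (F.fv l sg θ s.1) ∧ F.pv l sg θ s.1 = l1 ∧ F.qv l sg θ s.1 ≤ l2 := by
  have hp : F.pv l sg θ s.1 = - F.lam l sg (3 * θ) s.1 (some (F.fv l sg θ s.1)) := rfl
  have hn' : 8 * (3 * θ) ≤ Fintype.card V := by omega
  have hA : 9 * θ ≤ (F.NS l s.1 none K2).card := le_trans c2 (card_le_card (F.NS_sub l _ _ _))
  have hB : (F.NS l s.1 (F.kept s) K2).card < θ := by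
    by_contra h
    have := hmono K2 (by omega)
    omega
  have hq : F.qv l sg θ s.1 ≤ l2 := by
    have := F.le_lam l sg (θ := 6 * θ) (z := s.1) (a := none) (K := K2) (by omega)
    unfold qv
    omega
  obtain ⟨K, hK, e⟩ := F.lam_ex l sg s.1 (F.kept s) hn'
  have h1 := hmono K (by omega)
  have h2 := F.le_lam l sg (θ := 3 * θ) (z := s.1) (a := F.kept s) (K := K1) (by omega)
  cases hk : F.kept s with
  | none =>
    rw [hk] at hB
    omega
  | some a =>
    rw [hk] at hB e h2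
    by_cases ha : a = F.fv l sg θ s.1
    · rw [ha] at e h2
      exact ⟨by rw [ha], by omega, hq⟩
    · exfalso
      have h3 := F.val_split l s.1 a K2
      have h4 := card_le_card (F.val_col_sub l (z := s.1) ha K2)
      have h5 := F.le_lam l sg (θ := 3 * θ) (z := s.1) (a := some (F.fv l sg θ s.1)) (K := K2)
        (by omega)
      have h6 := F.fv_min l sg θ s.1 a
      omega
end PF

end Pool.Agent.BE
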